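import Pool.Agent.KAsym.Symbol

/-! KA14: the generating function away from the singularity. -/

set_option autoImplicit false

open Complex MeasureTheory Set

namespace Pool.Agent.KAsym

open Pool.Agent.KLog (nrm nsq rt)

variable {R J H : Type} {κ : Mdl R J H} {s : ℂ} {m : ℂ → ℤ × ℤ → ℂ}

theorem isOpen_far : IsOpen κ.Far := by
  have h1 : Continuous fun s : ℂ => ‖exp (-s)‖ := by fun_prop
  have h2 : Continuous fun s : ℂ => ‖1 - κ.q * exp (-2 * s)‖ := by fun_prop
  exact (isOpen_lt h1 continuous_const).inter (isOpen_lt continuous_const h2)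

/-! ### Two exchanges of sums -/

private lemma graph_tsum {ι : Type} (t : ι → ℤ × ℤ) (w : ι → ℂ) (hw : Summable fun i => ‖w i‖)
    (f : ℤ × ℤ → ℂ) {C : ℝ} (hf : ∀ x, ‖f x‖ ≤ C) :
    Summable (fun x => f x * ∑' i, if t i = x then w i else 0) ∧
    ∑' x, f x * (∑' i, if t i = x then w i else 0) = ∑' i, w i * f (t i) := by
  classical
  set F : (ℤ × ℤ) × ι → ℂ := fun p => f p.1 * if t p.2 = p.1 then w p.2 else 0 with hF
  set γ : ι → (ℤ × ℤ) × ι := fun i => (t i, i) with hγ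
  have hinj : Function.Injective γ := fun a b h => (Prod.ext_iff.1 h).2
  have hz : ∀ p ∉ Set.range γ, F p = 0 := by
    rintro ⟨x, i⟩ hp
    have : t i ≠ x := fun h => hp ⟨i, by simp [hγ, h]⟩
    simp [hF, this]
  have hS0 : Summable (F ∘ γ) := by
    refine Summable.of_norm_bounded (hw.mul_left C) fun i => ?_
    simp only [hF, hγ, Function.comp, if_true, norm_mul]
    exact mul_le_mul_of_nonneg_right (hf _) (norm_nonneg _)
  have hS : Summable F := (hinj.summable_iff hz).1 hS0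
  have e1 : ∀ x, (∑' i, F (x, i)) = f x * ∑' i, if t i = x then w i else 0 := fun x => by
    simp only [hF]; rw [tsum_mul_left]
  have hsum : Summable fun x => ∑' i, F (x, i) := hS.prod
  refine ⟨by simpa only [e1] using hsum, ?_⟩
  have e2 : ∑' p, F p = ∑' x, ∑' i, F (x, i) := hS.tsum_prod
  have e3 : ∑' i, F (γ i) = ∑' p, F p := by
    refine hinj.tsum_eq fun p hp => ?_
    by_contra hc
    exact hp (hz p hc)
  simp only [e1] at e2
  rw [← e2, ← e3]
  refine tsum_congr fun i => ?_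
  simp only [hF, hγ, if_true]
  ring

private lemma shift_tsum {ι : Type} (u : ι → ℤ × ℤ) (w : ι → ℂ) (hw : Summable fun i => ‖w i‖)
    (m g : ℤ × ℤ → ℂ) (hm : Summable fun x => ‖m x‖) {C : ℝ} (hg : ∀ x, ‖g x‖ ≤ C) :
    Summable (fun y => m y * ∑' i, w i * g (y + u i)) ∧
    Summable (fun x => g x * ∑' i, w i * m (x - u i)) ∧
    ∑' y, m y * (∑' i, w i * g (y + u i)) = ∑' x, g x * ∑' i, w i * m (x - u i) := by
  set G : (ℤ × ℤ) × ι → ℂ := fun p => m p.1 * (w p.2 * g (p.1 + u p.2)) with hG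
  have hprod : Summable fun p : (ℤ × ℤ) × ι => ‖m p.1‖ * ‖w p.2‖ :=
    hm.mul_of_nonneg hw (fun _ => norm_nonneg _) (fun _ => norm_nonneg _)
  have hS : Summable G := by
    refine Summable.of_norm_bounded (hprod.mul_left C) fun p => ?_
    simp only [hG, norm_mul]
    calc ‖m p.1‖ * (‖w p.2‖ * ‖g (p.1 + u p.2)‖) = ‖m p.1‖ * ‖w p.2‖ * ‖g (p.1 + u p.2)‖ := by ring
      _ ≤ ‖m p.1‖ * ‖w p.2‖ * C := mul_le_mul_of_nonneg_left (hg _) (by positivity)
      _ = C * (‖m p.1‖ * ‖w p.2‖) := by ring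
  let Φ : (ℤ × ℤ) × ι ≃ (ℤ × ℤ) × ι :=
    { toFun := fun p => (p.1 - u p.2, p.2)
      invFun := fun p => (p.1 + u p.2, p.2)
      left_inv := fun p => by simp
      right_inv := fun p => by simp }
  have hS' : Summable (G ∘ Φ) := (Equiv.summable_iff Φ).2 hS
  have e0 : ∀ x i, (G ∘ Φ) (x, i) = g x * (w i * m (x - u i)) := fun x i => by
    simp only [hG, Φ, Function.comp, Equiv.coe_fn_mk, sub_add_cancel]
    ring
  have e1 : ∀ y, (∑' i, G (y, i)) = m y * ∑' i, w i * g (y + u i) := fun y => by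
    simp only [hG]; rw [tsum_mul_left]
  have e2 : ∀ x, (∑' i, (G ∘ Φ) (x, i)) = g x * ∑' i, w i * m (x - u i) := fun x => by
    simp only [e0]; rw [tsum_mul_left]
  have s1 : Summable fun y => ∑' i, G (y, i) := hS.prod
  have s2 : Summable fun y => ∑' i, (G ∘ Φ) (y, i) := hS'.prod
  refine ⟨by simpa only [e1] using s1, by simpa only [e2] using s2, ?_⟩
  have t1 : ∑' p, G p = ∑' y, ∑' i, G (y, i) := hS.tsum_prod
  have t2 : ∑' p, (G ∘ Φ) p = ∑' y, ∑' i, (G ∘ Φ) (y, i) := hS'.tsum_prod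
  simp only [e1] at t1
  simp only [e2] at t2
  rw [← t1, ← t2]
  exact (Equiv.tsum_eq Φ G).symm

/-! ### Bounds for the weights -/

private lemma exp_far (hs : s ∈ κ.Far) (n : ℕ) : ‖exp (-n * s)‖ ≤ (11 / 10) ^ n := by
  have : exp (-n * s) = exp (-s) ^ n := by
    rw [← Complex.exp_nat_mul]; congr 1; ring
  rw [this, norm_pow]
  exact pow_le_pow_left₀ (norm_nonneg _) hs.1.le n

private lemma exp_far' (hs : s ∈ κ.Far) (n : ℕ) : ‖exp (-n * s)‖ ≤ 2 ^ n :=
  (exp_far hs n).trans (pow_le_pow_left₀ (by norm_num) (by norm_num) n)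

private lemma er_far (hκ : κ.Ok) (hs : s ∈ κ.Far) (r : R) :
    ‖κ.er s r‖ ≤ κ.rc r * 2 ^ κ.rn r * om (κ.ru r) := by
  unfold Mdl.er
  rw [norm_mul, Complex.norm_real, Real.norm_of_nonneg (hκ.rc_nn r)]
  have h0 := hκ.rc_nn r
  calc κ.rc r * ‖exp (-κ.rn r * s)‖ ≤ κ.rc r * 2 ^ κ.rn r :=
        mul_le_mul_of_nonneg_left (exp_far' hs _) h0
    _ ≤ κ.rc r * 2 ^ κ.rn r * om (κ.ru r) := le_mul_of_one_le_right (by positivity) (one_le_om _)

private lemma ej_far (hs : s ∈ κ.Far) (j : J) :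
    ‖κ.ej s j‖ ≤ |κ.jc j| * 2 ^ κ.jn j * om (κ.js j) * om (κ.jt j) := by
  unfold Mdl.ej
  rw [norm_mul, Complex.norm_real, Real.norm_eq_abs]
  calc |κ.jc j| * ‖exp (-κ.jn j * s)‖ ≤ |κ.jc j| * 2 ^ κ.jn j :=
        mul_le_mul_of_nonneg_left (exp_far' hs _) (abs_nonneg _)
    _ ≤ |κ.jc j| * 2 ^ κ.jn j * om (κ.js j) := le_mul_of_one_le_right (by positivity) (one_le_om _)
    _ ≤ _ := le_mul_of_one_le_right
        (mul_nonneg (by positivity) (zero_le_one.trans (one_le_om _))) (one_le_om _)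

private lemma eh_far (hs : s ∈ κ.Far) (h : H) :
    ‖κ.eh s h‖ ≤ |κ.hc h| * 2 ^ κ.hn h * om (κ.ht h) := by
  unfold Mdl.eh
  rw [norm_mul, Complex.norm_real, Real.norm_eq_abs]
  calc |κ.hc h| * ‖exp (-κ.hn h * s)‖ ≤ |κ.hc h| * 2 ^ κ.hn h :=
        mul_le_mul_of_nonneg_left (exp_far' hs _) (abs_nonneg _)
    _ ≤ _ := le_mul_of_one_le_right (by positivity) (one_le_om _)

private lemma er_norm_summable (hκ : κ.Ok) (hs : s ∈ κ.Far) : Summable fun r => ‖κ.er s r‖ :=
  hκ.r_summable.of_nonneg_of_le (fun _ => norm_nonneg _) (er_far hκ hs)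

private lemma ej_norm_summable (hκ : κ.Ok) (hs : s ∈ κ.Far) : Summable fun j => ‖κ.ej s j‖ :=
  hκ.j_summable.of_nonneg_of_le (fun _ => norm_nonneg _) (ej_far hs)

private lemma eh_norm_summable (hκ : κ.Ok) (hs : s ∈ κ.Far) : Summable fun h => ‖κ.eh s h‖ :=
  hκ.h_summable.of_nonneg_of_le (fun _ => norm_nonneg _) (eh_far hs)

private lemma q_le (hκ : κ.Ok) : κ.q ≤ 1 := by
  have h1 := hκ.crit
  have h2 : 0 ≤ ∑' r, κ.rc r := tsum_nonneg hκ.rc_nn
  have h3 : 0 < κ.q * (8 * κ.z) := mul_pos hκ.q_pos (mul_pos (by norm_num) hκ.z_pos)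
  nlinarith

/-! ### The transposed kernel -/

private noncomputable def cc (κ : Mdl R J H) (s : ℂ) : ℂ := (1 - κ.q * exp (-2 * s))⁻¹

private noncomputable def cut (f : ℤ × ℤ → ℂ) (x : ℤ × ℤ) : ℂ := if x = 0 then 0 else f x

private def uv : Fin 4 → ℤ × ℤ := ![(1, 0), (-1, 0), (0, 1), (0, -1)]

private noncomputable def TT (κ : Mdl R J H) (s : ℂ) (f : ℤ × ℤ → ℂ) (y : ℤ × ℤ) : ℂ :=
  cc κ s * ((∑' i : Fin 4, 2 * κ.q * κ.z * exp (-3 * s) * cut f (y + uv i)) +
    (∑' r, κ.er s r * cut f (y + κ.ru r)) -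
    ∑' j, if κ.js j = y then κ.ej s j * f (κ.jt j) else 0)

private lemma cut_le {f : ℤ × ℤ → ℂ} {C : ℝ} (hf : ∀ x, ‖f x‖ ≤ C) (x : ℤ × ℤ) :
    ‖cut f x‖ ≤ C := by
  unfold cut
  split_ifs with h
  · rw [norm_zero]; exact (norm_nonneg _).trans (hf x)
  · exact hf x

private lemma one_sub_ne (hκ : κ.Ok) (hs : s ∈ κ.Far) : 1 - κ.q * exp (-2 * s) ≠ 0 := by
  intro h
  have := hs.2
  rw [h, norm_zero] at this
  linarith [hκ.z_pos]

private lemma cc_le (hκ : κ.Ok) (hs : s ∈ κ.Far) : ‖cc κ s‖ ≤ 1 / (20 * κ.z) := by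
  unfold cc
  rw [norm_inv, ← one_div]
  exact one_div_le_one_div_of_le (by linarith [hκ.z_pos]) hs.2.le

private lemma TT_le (hκ : κ.Ok) (hs : s ∈ κ.Far) {f : ℤ × ℤ → ℂ} {C : ℝ}
    (hf : ∀ x, ‖f x‖ ≤ C) (y : ℤ × ℤ) : ‖TT κ s f y‖ ≤ 6 / 10 * C := by
  have hz := hκ.z_pos
  have hC : 0 ≤ C := (norm_nonneg _).trans (hf 0)
  have h1 : ‖∑' i : Fin 4, 2 * κ.q * κ.z * exp (-3 * s) * cut f (y + uv i)‖ ≤ 11 * κ.z * C := by
    rw [tsum_fintype]
    have hi : ∀ i : Fin 4, ‖2 * κ.q * κ.z * exp (-3 * s) * cut f (y + uv i)‖ ≤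
        2 * κ.z * (1331 / 1000) * C := by
      intro i
      have e3 : ‖exp (-3 * s)‖ ≤ 1331 / 1000 := by
        have := exp_far (κ := κ) hs 3
        norm_num at this ⊢
        exact this
      have e4 : ‖(2 * κ.q * κ.z : ℂ)‖ ≤ 2 * κ.z := by
        rw [norm_mul, norm_mul, Complex.norm_real, Complex.norm_real,
          Real.norm_of_nonneg hκ.q_pos.le, Real.norm_of_nonneg hz.le]
        have := q_le hκ
        have h2 : ‖(2 : ℂ)‖ = 2 := by norm_num
        rw [h2]
        nlinarith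
      rw [norm_mul, norm_mul]
      exact mul_le_mul (mul_le_mul e4 e3 (norm_nonneg _) (by positivity)) (cut_le hf _)
        (norm_nonneg _) (by positivity)
    calc ‖∑ i : Fin 4, 2 * κ.q * κ.z * exp (-3 * s) * cut f (y + uv i)‖
        ≤ ∑ i : Fin 4, 2 * κ.z * (1331 / 1000) * C := norm_sum_le_of_le _ fun i _ => hi i
      _ ≤ 11 * κ.z * C := by
        simp only [Finset.sum_const, Finset.card_univ, Fintype.card_fin, nsmul_eq_mul]
        have := mul_nonneg hz.le hC
        push_cast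
        nlinarith
  have h2 : ‖∑' r, κ.er s r * cut f (y + κ.ru r)‖ ≤ κ.z / 1000 * C := by
    have hb : ∀ r, ‖κ.er s r * cut f (y + κ.ru r)‖ ≤ κ.rc r * 2 ^ κ.rn r * om (κ.ru r) * C := by
      intro r
      rw [norm_mul]
      exact mul_le_mul (er_far hκ hs r) (cut_le hf _) (norm_nonneg _)
        ((norm_nonneg _).trans (er_far hκ hs r))
    calc ‖∑' r, κ.er s r * cut f (y + κ.ru r)‖ ≤ ∑' r, κ.rc r * 2 ^ κ.rn r * om (κ.ru r) * C :=
          tsum_of_norm_bounded (hκ.r_summable.mul_right C).hasSum hb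
      _ = (∑' r, κ.rc r * 2 ^ κ.rn r * om (κ.ru r)) * C := tsum_mul_right
      _ ≤ κ.z / 1000 * C := mul_le_mul_of_nonneg_right hκ.r_le hC
  have h3 : ‖∑' j, if κ.js j = y then κ.ej s j * f (κ.jt j) else 0‖ ≤ κ.z / 1000 * C := by
    have hb : ∀ j, ‖if κ.js j = y then κ.ej s j * f (κ.jt j) else 0‖ ≤
        |κ.jc j| * 2 ^ κ.jn j * om (κ.js j) * om (κ.jt j) * C := by
      intro j
      have h0 : 0 ≤ |κ.jc j| * 2 ^ κ.jn j * om (κ.js j) * om (κ.jt j) :=
        (norm_nonneg _).trans (ej_far hs j)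
      split_ifs
      · rw [norm_mul]
        exact mul_le_mul (ej_far hs j) (hf _) (norm_nonneg _) h0
      · rw [norm_zero]; exact mul_nonneg h0 hC
    calc ‖∑' j, if κ.js j = y then κ.ej s j * f (κ.jt j) else 0‖
        ≤ ∑' j, |κ.jc j| * 2 ^ κ.jn j * om (κ.js j) * om (κ.jt j) * C :=
          tsum_of_norm_bounded (hκ.j_summable.mul_right C).hasSum hb
      _ = (∑' j, |κ.jc j| * 2 ^ κ.jn j * om (κ.js j) * om (κ.jt j)) * C := tsum_mul_right
      _ ≤ κ.z / 1000 * C := mul_le_mul_of_nonneg_right hκ.j_le hC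
  unfold TT
  rw [norm_mul]
  have h4 : ‖(∑' i : Fin 4, 2 * κ.q * κ.z * exp (-3 * s) * cut f (y + uv i)) +
      (∑' r, κ.er s r * cut f (y + κ.ru r)) -
      ∑' j, if κ.js j = y then κ.ej s j * f (κ.jt j) else 0‖ ≤ 12 * κ.z * C := by
    refine (norm_sub_le _ _).trans ?_
    have := norm_add_le (∑' i : Fin 4, 2 * κ.q * κ.z * exp (-3 * s) * cut f (y + uv i))
      (∑' r, κ.er s r * cut f (y + κ.ru r))
    have h0 := mul_nonneg hz.le hC
    nlinarith
  calc ‖cc κ s‖ * _ ≤ 1 / (20 * κ.z) * (12 * κ.z * C) :=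
        mul_le_mul (cc_le hκ hs) h4 (norm_nonneg _) (by positivity)
    _ = 6 / 10 * C := by field_simp; ring

private lemma pairing (hκ : κ.Ok) (hm : κ.Sol m) (h0 : 0 < s.re) (hs : s ∈ κ.Far)
    {f : ℤ × ℤ → ℂ} {C : ℝ} (hf : ∀ x, ‖f x‖ ≤ C) :
    (1 - κ.q * exp (-2 * s)) * ∑' y, m s y * TT κ s f y =
      (1 - κ.q * exp (-2 * s)) * (∑' y, m s y * f y) - κ.srcs s f := by
  have hD := one_sub_ne hκ hs
  have hms := hm.summable s h0
  obtain ⟨K, hK⟩ := hm.growth
  -- a uniform bound for the measure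
  have hmb : ∀ x, ‖m s x‖ ≤ ∑' v, ‖m s v‖ := fun x => hms.le_tsum x fun _ _ => norm_nonneg _
  have hcut := cut_le hf
  obtain ⟨a1, a2, a3⟩ := shift_tsum uv (fun _ => 2 * κ.q * κ.z * exp (-3 * s))
    (Summable.of_finite) (m s) (cut f) hms hcut
  obtain ⟨b1, b2, b3⟩ := shift_tsum κ.ru (κ.er s) (er_norm_summable hκ hs) (m s) (cut f) hms hcut
  have hj1 : Summable fun j => ‖κ.ej s j * f (κ.jt j)‖ := by
    refine ((ej_norm_summable hκ hs).mul_right C).of_nonneg_of_le (fun _ => norm_nonneg _)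
      fun j => ?_
    rw [norm_mul]
    exact mul_le_mul_of_nonneg_left (hf _) (norm_nonneg _)
  have hj2 : Summable fun j => ‖κ.ej s j * m s (κ.js j)‖ := by
    refine ((ej_norm_summable hκ hs).mul_right (∑' v, ‖m s v‖)).of_nonneg_of_le
      (fun _ => norm_nonneg _) fun j => ?_
    rw [norm_mul]
    exact mul_le_mul_of_nonneg_left (hmb _) (norm_nonneg _)
  obtain ⟨c1, c2⟩ := graph_tsum κ.js (fun j => κ.ej s j * f (κ.jt j)) hj1 (m s) hmb
  obtain ⟨d1, d2⟩ := graph_tsum κ.jt (fun j => κ.ej s j * m s (κ.js j)) hj2 (cut f) hcut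
  obtain ⟨e1, e2⟩ := graph_tsum κ.ht (κ.eh s) (eh_norm_summable hκ hs) (cut f) hcut
  have lhs : (1 - κ.q * exp (-2 * s)) * ∑' y, m s y * TT κ s f y =
      (∑' y, m s y * ∑' i, 2 * κ.q * κ.z * exp (-3 * s) * cut f (y + uv i)) +
      (∑' y, m s y * ∑' r, κ.er s r * cut f (y + κ.ru r)) -
      ∑' y, m s y * ∑' j, if κ.js j = y then κ.ej s j * f (κ.jt j) else 0 := by
    rw [← a1.tsum_add b1, ← (a1.add b1).tsum_sub c1, ← tsum_mul_left]
    refine tsum_congr fun y => ?_
    have hD1 := mul_inv_cancel₀ hD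
    unfold TT cc
    linear_combination (m s y * ((∑' i : Fin 4, 2 * κ.q * κ.z * exp (-3 * s) * cut f (y + uv i)) +
      (∑' r, κ.er s r * cut f (y + κ.ru r)) -
      ∑' j, if κ.js j = y then κ.ej s j * f (κ.jt j) else 0)) * hD1
  have key : ∀ x, cut f x * ((1 - κ.q * exp (-2 * s)) * m s x) =
      cut f x * (∑' i, 2 * κ.q * κ.z * exp (-3 * s) * m s (x - uv i)) +
      cut f x * (∑' r, κ.er s r * m s (x - κ.ru r)) +
      cut f x * (∑' h, if κ.ht h = x then κ.eh s h else 0) -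
      cut f x * ∑' j, if κ.jt j = x then κ.ej s j * m s (κ.js j) else 0 := by
    intro x
    by_cases hx : x = 0
    · simp [cut, hx]
    · have h1 := hm.eqn s h0 x hx
      have h2 : (∑' i, 2 * κ.q * κ.z * exp (-3 * s) * m s (x - uv i)) =
          2 * κ.q * κ.z * exp (-3 * s) *
          (m s (x + (1, 0)) + m s (x + (-1, 0)) + m s (x + (0, 1)) + m s (x + (0, -1))) := by
        rw [tsum_fintype, ← Finset.mul_sum]
        congr 1
        have k0 : x - uv 0 = x + (-1, 0) := by ext <;> simp [uv] ; ring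
        have k1 : x - uv 1 = x + (1, 0) := by ext <;> simp [uv]
        have k2 : x - uv 2 = x + (0, -1) := by ext <;> simp [uv] ; ring
        have k3 : x - uv 3 = x + (0, 1) := by ext <;> simp [uv]
        rw [Fin.sum_univ_four, k0, k1, k2, k3]
        ring
      rw [h2, ← mul_add, ← mul_add, ← mul_sub]
      congr 1
      linear_combination h1
  have rhs : (1 - κ.q * exp (-2 * s)) * ∑' y, m s y * f y =
      (∑' x, cut f x * ∑' i, 2 * κ.q * κ.z * exp (-3 * s) * m s (x - uv i)) +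
      (∑' x, cut f x * ∑' r, κ.er s r * m s (x - κ.ru r)) +
      (∑' x, cut f x * ∑' h, if κ.ht h = x then κ.eh s h else 0) -
      ∑' x, cut f x * ∑' j, if κ.jt j = x then κ.ej s j * m s (κ.js j) else 0 := by
    rw [← a2.tsum_add b2, ← (a2.add b2).tsum_add e1, ← ((a2.add b2).add e1).tsum_sub d1,
      ← tsum_mul_left]
    refine tsum_congr fun x => ?_
    rw [← key x]
    by_cases hx : x = 0
    · simp [cut, hx, hm.zero]
    · simp only [cut, hx, if_false]; ring
  have hsrc : κ.srcs s f = ∑' h, κ.eh s h * cut f (κ.ht h) := by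
    unfold Mdl.srcs
    refine tsum_congr fun h => ?_
    simp only [cut, hκ.ht_ne h, if_false]
  have hdf : (∑' j, κ.ej s j * f (κ.jt j) * m s (κ.js j)) =
      ∑' j, κ.ej s j * m s (κ.js j) * cut f (κ.jt j) := by
    refine tsum_congr fun j => ?_
    simp only [cut, hκ.jt_ne j, if_false]
    ring
  rw [lhs, rhs, hsrc, a3, b3, c2, d2, e2, hdf]
  ring

/-! ### The iteration -/

private noncomputable def UU (κ : Mdl R J H) : ℕ → ℂ → ℤ × ℤ → ℂ
  | 0, s => fun y => cc κ s * ∑' h, if κ.ht h = y then κ.eh s h else 0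
  | k + 1, s => TT κ s (UU κ k s)

private noncomputable def CH (κ : Mdl R J H) : ℝ := ∑' h, |κ.hc h| * 2 ^ κ.hn h * om (κ.ht h)

private lemma UU_le (hκ : κ.Ok) (hs : s ∈ κ.Far) (k : ℕ) :
    ∀ y, ‖UU κ k s y‖ ≤ (6 / 10) ^ k * (1 / (20 * κ.z) * CH κ) := by
  induction k with
  | zero =>
    intro y
    simp only [UU, pow_zero, one_mul]
    rw [norm_mul]
    refine mul_le_mul (cc_le hκ hs) ?_ (norm_nonneg _) (by have := hκ.z_pos; positivity)
    refine tsum_of_norm_bounded hκ.h_summable.hasSum fun h => ?_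
    have h0 := eh_far hs h
    split_ifs
    · exact h0
    · rw [norm_zero]; exact (norm_nonneg _).trans h0
  | succ k ih =>
    intro y
    have := TT_le hκ hs ih y
    simp only [UU]
    rw [pow_succ]
    linarith

private lemma cc_diff (hκ : κ.Ok) : DifferentiableOn ℂ (cc κ) κ.Far := by
  intro s hs
  have h1 : DifferentiableAt ℂ (fun s : ℂ => 1 - κ.q * exp (-2 * s)) s := by fun_prop
  exact (h1.inv (one_sub_ne hκ hs)).differentiableWithinAt

private lemma UU_diff (hκ : κ.Ok) (k : ℕ) :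
    ∀ y, DifferentiableOn ℂ (fun s => UU κ k s y) κ.Far := by
  induction k with
  | zero =>
    intro y
    simp only [UU]
    refine (cc_diff hκ).mul ?_
    refine differentiableOn_tsum_of_summable_norm hκ.h_summable (fun h => ?_) isOpen_far
      fun h s hs => ?_
    · split_ifs
      · unfold Mdl.eh; fun_prop
      · exact differentiableOn_const _
    · have h0 := eh_far hs h
      split_ifs
      · exact h0
      · rw [norm_zero]; exact (norm_nonneg _).trans h0
  | succ k ih =>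
    intro y
    simp only [UU]
    unfold TT
    have hcut : ∀ x, DifferentiableOn ℂ (fun s => cut (UU κ k s) x) κ.Far := by
      intro x
      unfold cut
      split_ifs
      · exact differentiableOn_const _
      · exact ih x
    refine (cc_diff hκ).mul (((?_ : DifferentiableOn ℂ _ _).add ?_).sub ?_)
    · simp only [tsum_fintype]
      refine DifferentiableOn.fun_sum fun i _ => ?_
      refine DifferentiableOn.mul ?_ (hcut _)
      fun_prop
    · set C := (6 / 10 : ℝ) ^ k * (1 / (20 * κ.z) * CH κ) with hC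
      refine differentiableOn_tsum_of_summable_norm (hκ.r_summable.mul_right C) (fun r => ?_)
        isOpen_far fun r s hs => ?_
      · refine DifferentiableOn.mul ?_ (hcut _)
        unfold Mdl.er; fun_prop
      · rw [norm_mul]
        exact mul_le_mul (er_far hκ hs r) (cut_le (UU_le hκ hs k) _) (norm_nonneg _)
          ((norm_nonneg _).trans (er_far hκ hs r))
    · set C := (6 / 10 : ℝ) ^ k * (1 / (20 * κ.z) * CH κ) with hC
      refine differentiableOn_tsum_of_summable_norm (hκ.j_summable.mul_right C) (fun j => ?_)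
        isOpen_far fun j s hs => ?_
      · split_ifs
        · refine DifferentiableOn.mul ?_ (ih _)
          unfold Mdl.ej; fun_prop
        · exact differentiableOn_const _
      · have h0 := ej_far hs j
        have hC0 : 0 ≤ C := (norm_nonneg _).trans (UU_le hκ hs k 0)
        split_ifs
        · rw [norm_mul]
          exact mul_le_mul h0 (UU_le hκ hs k _) (norm_nonneg _) ((norm_nonneg _).trans h0)
        · rw [norm_zero]; exact mul_nonneg ((norm_nonneg _).trans h0) hC0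

/-- **Away from the singularity.** -/
theorem far (hκ : κ.Ok) (hm : κ.Sol m) : ∃ g : ℂ → ℂ, DifferentiableOn ℂ g κ.Far ∧
    ∀ s ∈ κ.Far, 0 < s.re → g s = κ.srcs s (m s) := by
  have hz := hκ.z_pos
  set B : ℝ := 1 / (20 * κ.z) * CH κ with hB
  have hgeo : Summable fun k : ℕ => (6 / 10 : ℝ) ^ k :=
    summable_geometric_of_lt_one (by norm_num) (by norm_num)
  have hsb : ∀ k : ℕ, ∀ s ∈ κ.Far, ‖κ.srcs s (UU κ k s)‖ ≤ (6 / 10 : ℝ) ^ k * B * CH κ := by
    intro k s hs
    unfold Mdl.srcs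
    have hb : ∀ h, ‖κ.eh s h * UU κ k s (κ.ht h)‖ ≤
        |κ.hc h| * 2 ^ κ.hn h * om (κ.ht h) * ((6 / 10 : ℝ) ^ k * B) := by
      intro h
      rw [norm_mul]
      exact mul_le_mul (eh_far hs h) (UU_le hκ hs k _) (norm_nonneg _)
        ((norm_nonneg _).trans (eh_far hs h))
    have := tsum_of_norm_bounded (hκ.h_summable.mul_right ((6 / 10 : ℝ) ^ k * B)).hasSum hb
    rw [tsum_mul_right] at this
    refine this.trans (le_of_eq ?_)
    unfold CH
    ring
  refine ⟨fun s => ∑' k, κ.srcs s (UU κ k s), ?_, ?_⟩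
  · refine differentiableOn_tsum_of_summable_norm ((hgeo.mul_right B).mul_right (CH κ))
      (fun k => ?_) isOpen_far hsb
    unfold Mdl.srcs
    refine differentiableOn_tsum_of_summable_norm
      (hκ.h_summable.mul_right ((6 / 10 : ℝ) ^ k * B)) (fun h => ?_) isOpen_far fun h s hs => ?_
    · refine DifferentiableOn.mul ?_ (UU_diff hκ k _)
      unfold Mdl.eh; fun_prop
    · rw [norm_mul]
      exact mul_le_mul (eh_far hs h) (UU_le hκ hs k _) (norm_nonneg _)
        ((norm_nonneg _).trans (eh_far hs h))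
  · intro s hs h0
    have hD := one_sub_ne hκ hs
    have hms := hm.summable s h0
    have hmb : ∀ x, ‖m s x‖ ≤ ∑' v, ‖m s v‖ := fun x => hms.le_tsum x fun _ _ => norm_nonneg _
    obtain ⟨e1, e2⟩ := graph_tsum κ.ht (κ.eh s) (eh_norm_summable hκ hs) (m s) hmb
    have hsrc : κ.srcs s (m s) = ∑' h, κ.eh s h * m s (κ.ht h) := rfl
    have base : (1 - κ.q * exp (-2 * s)) * ∑' y, m s y * UU κ 0 s y = κ.srcs s (m s) := by
      rw [hsrc, ← e2, ← tsum_mul_left]
      refine tsum_congr fun y => ?_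
      simp only [UU, cc]
      have hD1 := mul_inv_cancel₀ hD
      linear_combination (m s y * ∑' h, if κ.ht h = y then κ.eh s h else 0) * hD1
    have tele : ∀ n : ℕ, ∑ k ∈ Finset.range n, κ.srcs s (UU κ k s) =
        κ.srcs s (m s) - (1 - κ.q * exp (-2 * s)) * ∑' y, m s y * UU κ n s y := by
      intro n
      induction n with
      | zero => rw [Finset.sum_range_zero, base, sub_self]
      | succ n ih =>
        have hp := pairing hκ hm h0 hs (UU_le hκ hs n)
        rw [Finset.sum_range_succ, ih]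
        simp only [UU]
        rw [hp]
        ring
    have hPn : ∀ n : ℕ, ‖(1 - κ.q * exp (-2 * s)) * ∑' y, m s y * UU κ n s y‖ ≤
        (6 / 10 : ℝ) ^ n * (‖1 - κ.q * exp (-2 * s)‖ * ((∑' v, ‖m s v‖) * B)) := by
      intro n
      rw [norm_mul]
      have hb : ∀ y, ‖m s y * UU κ n s y‖ ≤ ‖m s y‖ * ((6 / 10 : ℝ) ^ n * B) := by
        intro y
        rw [norm_mul]
        exact mul_le_mul_of_nonneg_left (UU_le hκ hs n y) (norm_nonneg _)
      have := tsum_of_norm_bounded (hms.mul_right ((6 / 10 : ℝ) ^ n * B)).hasSum hb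
      rw [tsum_mul_right] at this
      calc _ ≤ ‖1 - κ.q * exp (-2 * s)‖ * ((∑' v, ‖m s v‖) * ((6 / 10 : ℝ) ^ n * B)) :=
            mul_le_mul_of_nonneg_left this (norm_nonneg _)
        _ = _ := by ring
    have hlim : Filter.Tendsto (fun n : ℕ => (1 - κ.q * exp (-2 * s)) * ∑' y, m s y * UU κ n s y)
        Filter.atTop (nhds 0) := by
      refine squeeze_zero_norm hPn ?_
      have := (tendsto_pow_atTop_nhds_zero_of_lt_one (r := (6 / 10 : ℝ)) (by norm_num)
        (by norm_num)).mul_const (‖1 - κ.q * exp (-2 * s)‖ * ((∑' v, ‖m s v‖) * B))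
      simpa using this
    have l1 : Filter.Tendsto (fun n : ℕ => ∑ k ∈ Finset.range n, κ.srcs s (UU κ k s))
        Filter.atTop (nhds (∑' k, κ.srcs s (UU κ k s))) := by
      have : Summable fun k => κ.srcs s (UU κ k s) :=
        Summable.of_norm_bounded ((hgeo.mul_right B).mul_right (CH κ)) fun k => hsb k s hs
      exact this.hasSum.tendsto_sum_nat
    have l2 : Filter.Tendsto (fun n : ℕ => ∑ k ∈ Finset.range n, κ.srcs s (UU κ k s))
        Filter.atTop (nhds (κ.srcs s (m s))) := by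
      simp only [tele]
      have := (tendsto_const_nhds (x := κ.srcs s (m s))).sub hlim
      simpa using this
    exact tendsto_nhds_unique l1 l2

end Pool.Agent.KAsym
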