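import Pool.Agent.KAsym.Defs

/-! KA6: an integral over a disc. -/

set_option autoImplicit false

open Complex MeasureTheory Set

namespace Pool.Agent.KAsym

/-- The disc of radius `π`. -/
def disc : Set (ℝ × ℝ) := {θ | θ.1 ^ 2 + θ.2 ^ 2 ≤ Real.pi ^ 2}

theorem disc_sub_box : disc ⊆ box := by
  rintro ⟨x, y⟩ h
  have h' : x ^ 2 + y ^ 2 ≤ Real.pi ^ 2 := h
  have hx : |x| ≤ Real.pi := abs_le_of_sq_le_sq (by nlinarith [sq_nonneg y]) Real.pi_pos.le
  have hy : |y| ≤ Real.pi := abs_le_of_sq_le_sq (by nlinarith [sq_nonneg x]) Real.pi_pos.le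
  exact ⟨abs_le.1 hx, abs_le.1 hy⟩

private lemma disc_measurable (c : ℝ) : MeasurableSet {θ : ℝ × ℝ | θ.1 ^ 2 + θ.2 ^ 2 ≤ c} :=
  measurableSet_le (by fun_prop) measurable_const

private lemma disc_polar (p : ℝ × ℝ) :
    (polarCoord.symm p).1 ^ 2 + (polarCoord.symm p).2 ^ 2 = p.1 ^ 2 := by
  rw [polarCoord_symm_apply]
  show (p.1 * Real.cos p.2) ^ 2 + (p.1 * Real.sin p.2) ^ 2 = p.1 ^ 2
  have := Real.sin_sq_add_cos_sq p.2
  linear_combination p.1 ^ 2 * this

private lemma disc_slit {a b : ℝ} (ha : 0 < a) (hb : 0 < b) {s : ℂ} (hs : s ≠ 0)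
    (h : -‖s‖ / 2 < s.re) (r : ℝ) : (a : ℂ) * s + b * ((r ^ 2 : ℝ) : ℂ) ∈ slitPlane := by
  rw [mem_slitPlane_iff]
  have him : ((a : ℂ) * s + b * ((r ^ 2 : ℝ) : ℂ)).im = a * s.im := by
    rw [add_im, ← ofReal_mul, ofReal_im, add_zero, im_ofReal_mul]
  have hre : ((a : ℂ) * s + b * ((r ^ 2 : ℝ) : ℂ)).re = a * s.re + b * r ^ 2 := by
    rw [add_re, ← ofReal_mul, ofReal_re, re_ofReal_mul]
  rw [him, hre]
  by_cases h0 : s.im = 0
  · left
    have hsr : s = (s.re : ℂ) := by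
      apply Complex.ext
      · simp
      · simpa using h0
    have hn : ‖s‖ = |s.re| := by
      conv_lhs => rw [hsr]
      rw [Complex.norm_real, Real.norm_eq_abs]
    rw [hn] at h
    have hpos : 0 < s.re := by
      by_contra hneg
      push Not at hneg
      rw [abs_of_nonpos hneg] at h
      rcases eq_or_lt_of_le hneg with e | e
      · apply hs
        rw [hsr, e]
        simp
      · linarith
    positivity
  · right
    exact mul_ne_zero ha.ne' h0

theorem disc_int {a b : ℝ} (ha : 0 < a) (hb : 0 < b) {s : ℂ} (hs : s ≠ 0)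
    (h : -‖s‖ / 2 < s.re) :
    ∫ θ in disc, 1 / ((a : ℂ) * s + b * ((θ.1 ^ 2 + θ.2 ^ 2 : ℝ) : ℂ)) =
      (Real.pi / b : ℝ) * (log (a * s + b * Real.pi ^ 2) - log (a * s)) := by
  have hsl := disc_slit ha hb hs h
  let g : ℝ → ℂ := fun r => (r : ℂ) / ((a : ℂ) * s + b * ((r ^ 2 : ℝ) : ℂ))
  let T : Set (ℝ × ℝ) := Ioc 0 Real.pi ×ˢ Ioo (-Real.pi) Real.pi
  have hT : MeasurableSet T := measurableSet_Ioc.prod measurableSet_Ioo
  have h1 : ∫ θ in disc, 1 / ((a : ℂ) * s + b * ((θ.1 ^ 2 + θ.2 ^ 2 : ℝ) : ℂ)) =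
      ∫ p in T, g p.1 * 1 := by
    rw [← integral_indicator (show MeasurableSet disc from disc_measurable _),
      ← integral_comp_polarCoord_symm]
    have h2 : T = polarCoord.target ∩ T := by
      rw [inter_eq_right.2]
      rintro ⟨r, t⟩ ⟨hr, ht⟩
      rw [polarCoord_target]
      exact ⟨hr.1, ht⟩
    conv_rhs => rw [h2]
    rw [← setIntegral_indicator hT]
    refine setIntegral_congr_fun (polarCoord.open_target.measurableSet) ?_
    rintro ⟨r, t⟩ hrt
    rw [polarCoord_target] at hrt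
    have hr : 0 < r := hrt.1
    have ht : t ∈ Ioo (-Real.pi) Real.pi := hrt.2
    have e := disc_polar (r, t)
    show r • disc.indicator _ (polarCoord.symm (r, t)) = T.indicator _ (r, t)
    by_cases hle : r ≤ Real.pi
    · have hd : polarCoord.symm (r, t) ∈ disc := by
        show (polarCoord.symm (r, t)).1 ^ 2 + (polarCoord.symm (r, t)).2 ^ 2 ≤ Real.pi ^ 2
        rw [e]
        exact pow_le_pow_left₀ hr.le hle 2
      rw [indicator_of_mem hd, indicator_of_mem (show (r, t) ∈ T from ⟨⟨hr, hle⟩, ht⟩), e]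
      show r • (1 / ((a : ℂ) * s + b * ((r ^ 2 : ℝ) : ℂ))) = g r * 1
      rw [mul_one, Complex.real_smul, mul_one_div]
    · have hd : polarCoord.symm (r, t) ∉ disc := by
        intro hd
        have hd' : (polarCoord.symm (r, t)).1 ^ 2 + (polarCoord.symm (r, t)).2 ^ 2 ≤
          Real.pi ^ 2 := hd
        rw [e] at hd'
        exact hle (abs_le_of_sq_le_sq' hd' Real.pi_pos.le).2
      rw [indicator_of_notMem hd, indicator_of_notMem (fun h' => hle h'.1.2), smul_zero]
  have h3 : ∫ p in T, g p.1 * 1 = (∫ r in Ioc 0 Real.pi, g r) *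
      ∫ _ in Ioo (-Real.pi) Real.pi, (1 : ℂ) := by
    rw [← setIntegral_prod_mul g (fun _ => (1 : ℂ)) (Ioc 0 Real.pi) (Ioo (-Real.pi) Real.pi),
      Measure.volume_eq_prod]
  have h4 : ∫ _ in Ioo (-Real.pi) Real.pi, (1 : ℂ) = 2 * Real.pi := by
    rw [integral_const, measureReal_restrict_apply_univ, Real.volume_real_Ioo_of_le
      (by linarith [Real.pi_pos]), Complex.real_smul]
    push_cast
    ring
  have hb' : (b : ℂ) ≠ 0 := by exact_mod_cast hb.ne'
  have hd : ∀ r : ℝ, HasDerivAt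
      (fun r : ℝ => log ((a : ℂ) * s + b * ((r ^ 2 : ℝ) : ℂ)) / (2 * b)) (g r) r := by
    intro r
    have h5 : HasDerivAt (fun r : ℝ => (a : ℂ) * s + b * ((r ^ 2 : ℝ) : ℂ))
        (b * ((2 * r : ℝ) : ℂ)) r := by
      have h6 : HasDerivAt (fun r : ℝ => ((r ^ 2 : ℝ) : ℂ)) ((2 * r : ℝ) : ℂ) r := by
        have h7 := (hasDerivAt_pow 2 r).ofReal_comp
        simpa using h7
      exact (h6.const_mul (b : ℂ)).const_add _
    have h8 := (h5.clog_real (hsl r)).div_const (2 * (b : ℂ))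
    refine h8.congr_deriv ?_
    have h9 : (a : ℂ) * s + b * ((r ^ 2 : ℝ) : ℂ) ≠ 0 := slitPlane_ne_zero (hsl r)
    change _ = (r : ℂ) / ((a : ℂ) * s + b * ((r ^ 2 : ℝ) : ℂ))
    symm
    rw [div_div, div_eq_div_iff h9 (mul_ne_zero h9 (mul_ne_zero two_ne_zero hb'))]
    push_cast
    ring
  have hc : Continuous g := by
    refine Continuous.div (by fun_prop) (by fun_prop) fun r => slitPlane_ne_zero (hsl r)
  have h5 : ∫ r in Ioc 0 Real.pi, g r = log ((a : ℂ) * s + b * ((Real.pi ^ 2 : ℝ) : ℂ)) / (2 * b) -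
      log ((a : ℂ) * s + b * (((0 : ℝ) ^ 2 : ℝ) : ℂ)) / (2 * b) := by
    rw [← intervalIntegral.integral_of_le Real.pi_pos.le]
    exact intervalIntegral.integral_eq_sub_of_hasDerivAt (fun r _ => hd r)
      (hc.intervalIntegrable _ _)
  rw [h1, h3, h4, h5]
  push_cast
  rw [zero_pow two_ne_zero, mul_zero, add_zero]
  field_simp

/-- The function `(θ₁² + θ₂²)⁻¹ᐟ²` is integrable on the torus. -/
theorem integrable_rnorm :
    IntegrableOn (fun θ : ℝ × ℝ => (Real.sqrt (θ.1 ^ 2 + θ.2 ^ 2))⁻¹) box := by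
  have hm : Measurable (fun θ : ℝ × ℝ => (Real.sqrt (θ.1 ^ 2 + θ.2 ^ 2))⁻¹) := by fun_prop
  let D : Set (ℝ × ℝ) := {θ | θ.1 ^ 2 + θ.2 ^ 2 ≤ 25}
  have hD : MeasurableSet D := disc_measurable _
  have hsub : box ⊆ D := by
    rintro ⟨x, y⟩ ⟨hx, hy⟩
    have hp : Real.pi < 3.15 := Real.pi_lt_d2
    have hx' : |x| ≤ 3.15 := (abs_le.2 hx).trans hp.le
    have hy' : |y| ≤ 3.15 := (abs_le.2 hy).trans hp.le
    have e1 : x ^ 2 ≤ 3.15 ^ 2 := sq_le_sq' (by linarith [(abs_le.1 hx').1]) (abs_le.1 hx').2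
    have e2 : y ^ 2 ≤ 3.15 ^ 2 := sq_le_sq' (by linarith [(abs_le.1 hy').1]) (abs_le.1 hy').2
    show x ^ 2 + y ^ 2 ≤ 25
    norm_num at e1 e2
    linarith
  refine IntegrableOn.mono_set ?_ hsub
  refine ⟨hm.aestronglyMeasurable, ?_⟩
  rw [hasFiniteIntegral_iff_ofReal (ae_of_all _ fun θ => inv_nonneg.2 (Real.sqrt_nonneg _)),
    ← lintegral_indicator hD, ← lintegral_comp_polarCoord_symm]
  let T : Set (ℝ × ℝ) := Ioc 0 5 ×ˢ Ioo (-Real.pi) Real.pi
  have hT : MeasurableSet T := measurableSet_Ioc.prod measurableSet_Ioo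
  calc _ ≤ ∫⁻ p in polarCoord.target, T.indicator (fun _ => (1 : ENNReal)) p := by
        refine setLIntegral_mono' polarCoord.open_target.measurableSet ?_
        rintro ⟨r, t⟩ hrt
        rw [polarCoord_target] at hrt
        have hr : 0 < r := hrt.1
        have ht : t ∈ Ioo (-Real.pi) Real.pi := hrt.2
        have e := disc_polar (r, t)
        show ENNReal.ofReal r • D.indicator _ (polarCoord.symm (r, t)) ≤ T.indicator _ (r, t)
        by_cases hle : r ≤ 5
        · have hd : polarCoord.symm (r, t) ∈ D := by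
            show (polarCoord.symm (r, t)).1 ^ 2 + (polarCoord.symm (r, t)).2 ^ 2 ≤ 25
            rw [e]
            show r ^ 2 ≤ 25
            nlinarith
          rw [indicator_of_mem hd, indicator_of_mem (show (r, t) ∈ T from ⟨⟨hr, hle⟩, ht⟩), e]
          show ENNReal.ofReal r • ENNReal.ofReal (Real.sqrt (r ^ 2))⁻¹ ≤ 1
          rw [Real.sqrt_sq hr.le, smul_eq_mul, ← ENNReal.ofReal_mul hr.le,
            mul_inv_cancel₀ hr.ne', ENNReal.ofReal_one]
        · have hd : polarCoord.symm (r, t) ∉ D := by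
            intro hd
            have hd' : (polarCoord.symm (r, t)).1 ^ 2 + (polarCoord.symm (r, t)).2 ^ 2 ≤
              25 := hd
            rw [e] at hd'
            have hd'' : r ^ 2 ≤ 25 := hd'
            push Not at hle
            nlinarith
          rw [indicator_of_notMem hd, smul_zero]
          exact bot_le
    _ ≤ ∫⁻ p, T.indicator (fun _ => (1 : ENNReal)) p := setLIntegral_le_lintegral _ _
    _ = volume T := by
        rw [lintegral_indicator hT, setLIntegral_const, one_mul]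
    _ < ⊤ := by
        show volume (Ioc (0 : ℝ) 5 ×ˢ Ioo (-Real.pi) Real.pi) < ⊤
        rw [Measure.volume_eq_prod, Measure.prod_prod, Real.volume_Ioc, Real.volume_Ioo]
        exact ENNReal.mul_lt_top ENNReal.ofReal_lt_top ENNReal.ofReal_lt_top

end Pool.Agent.KAsym
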