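import Pool.Agent.KAsym.Symbol

/-! KA7: the expansion of the symbol at the singularity. -/

set_option autoImplicit false

open Complex MeasureTheory Set

namespace Pool.Agent.KAsym

open Pool.Agent.KLog (nrm nsq rt)

variable {R J H : Type} {κ : Mdl R J H} {s : ℂ}

/-- The mean size. -/
noncomputable def Mdl.alp (κ : Mdl R J H) : ℝ :=
  2 * κ.q + 24 * κ.q * κ.z + ∑' r, κ.rc r * κ.rn r

/-- The variance. -/
noncomputable def Mdl.kap (κ : Mdl R J H) : ℝ :=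
  2 * κ.q * κ.z + (∑' r, κ.rc r * nsq (κ.ru r)) / 4

private theorem expand_nsq_nonneg (u : ℤ × ℤ) : (0 : ℝ) ≤ nsq u := by
  have h : (0 : ℤ) ≤ nsq u := by
    unfold nsq
    positivity
  exact_mod_cast h

theorem alp_pos (hκ : κ.Ok) : 0 < κ.alp := by
  have h1 : 0 ≤ ∑' r, κ.rc r * κ.rn r :=
    tsum_nonneg fun r => mul_nonneg (hκ.rc_nn r) (Nat.cast_nonneg _)
  have h2 := hκ.q_pos
  have h3 := hκ.z_pos
  unfold Mdl.alp
  positivity

theorem kap_pos (hκ : κ.Ok) : 0 < κ.kap := by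
  have h1 : 0 ≤ ∑' r, κ.rc r * nsq (κ.ru r) :=
    tsum_nonneg fun r => mul_nonneg (hκ.rc_nn r) (expand_nsq_nonneg _)
  have h2 := hκ.q_pos
  have h3 := hκ.z_pos
  unfold Mdl.kap
  positivity

private theorem expand_om_pos (x : ℤ × ℤ) : 0 < om x := lt_of_lt_of_le one_pos (one_le_om x)

private theorem expand_nat_le (n : ℕ) : (n : ℝ) ≤ 2 ^ n := by
  exact_mod_cast (Nat.lt_two_pow_self (n := n)).le

/-- the majorant is summable -/
private theorem expand_summable (hκ : κ.Ok) {f : R → ℂ} {C : ℝ}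
    (h : ∀ r, ‖f r‖ ≤ C * (κ.rc r * 2 ^ κ.rn r * om (κ.ru r))) : Summable f :=
  Summable.of_norm_bounded (hκ.r_summable.mul_left C) h

private theorem expand_summable' (hκ : κ.Ok) {f : R → ℝ} {C : ℝ}
    (h : ∀ r, ‖f r‖ ≤ C * (κ.rc r * 2 ^ κ.rn r * om (κ.ru r))) : Summable f :=
  Summable.of_norm_bounded (hκ.r_summable.mul_left C) h

private theorem expand_le (hκ : κ.Ok) (r : R) {a : ℝ} (ha : a ≤ 2 ^ κ.rn r * om (κ.ru r)) :
    κ.rc r * a ≤ κ.rc r * 2 ^ κ.rn r * om (κ.ru r) := by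
  rw [mul_assoc]
  exact mul_le_mul_of_nonneg_left ha (hκ.rc_nn r)

private theorem expand_two_le (r : R) : (2 : ℝ) ^ κ.rn r ≤ 2 ^ κ.rn r * om (κ.ru r) :=
  le_mul_of_one_le_right (by positivity) (one_le_om _)

private theorem expand_om_le (r : R) : om (κ.ru r) ≤ 2 ^ κ.rn r * om (κ.ru r) :=
  le_mul_of_one_le_left (expand_om_pos _).le (one_le_pow₀ one_le_two)

/-- The dependence on `s`. -/
theorem sym_quad (hκ : κ.Ok) : ∃ C : ℝ, ∀ s ∈ κ.Sec0, ∀ θ : ℝ × ℝ,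
    ‖1 - κ.F s θ - (κ.alp * s + (1 - κ.F 0 θ))‖ ≤ C * ‖s‖ * (‖s‖ + 2 * κ.z * NN θ) := by
  refine ⟨17, fun s hs θ => ?_⟩
  have hs1 : ‖s‖ ≤ 1 / 100 := (sec0_small hκ hs).trans (by norm_num)
  have hN := NN_nonneg θ
  have hq := hκ.q_pos
  have hq1 := (q_bd hκ).2
  have hz := hκ.z_pos
  have hz1 := hκ.z_le
  have hsn := norm_nonneg s
  set a : R → ℂ := fun r => κ.rc r * exp (-κ.rn r * s) * (Real.cos (dot θ (κ.ru r)) : ℂ) with ha
  set b : R → ℂ := fun r => κ.rc r * exp (-κ.rn r * 0) * (Real.cos (dot θ (κ.ru r)) : ℂ) with hb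
  set d : R → ℂ := fun r => ((κ.rc r * κ.rn r : ℝ) : ℂ) with hd
  have hcos : ∀ r, ‖(Real.cos (dot θ (κ.ru r)) : ℂ)‖ ≤ 1 := by
    intro r
    rw [Complex.norm_real, Real.norm_eq_abs]
    exact Real.abs_cos_le_one _
  have hrc : ∀ r, ‖(κ.rc r : ℂ)‖ = κ.rc r := by
    intro r
    rw [Complex.norm_real, Real.norm_eq_abs, abs_of_nonneg (hκ.rc_nn r)]
  have hasum : Summable a := by
    refine expand_summable hκ (C := 1) fun r => ?_
    rw [ha]
    simp only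
    rw [norm_mul, norm_mul, hrc, one_mul, mul_assoc]
    refine expand_le hκ r ?_
    calc ‖exp (-κ.rn r * s)‖ * ‖(Real.cos (dot θ (κ.ru r)) : ℂ)‖
        ≤ 2 ^ κ.rn r * 1 := mul_le_mul (exp_bd hs1) (hcos r) (norm_nonneg _) (by positivity)
      _ = 2 ^ κ.rn r := mul_one _
      _ ≤ _ := expand_two_le r
  have hbsum : Summable b := by
    refine expand_summable hκ (C := 1) fun r => ?_
    rw [hb]
    simp only
    rw [norm_mul, norm_mul, hrc, one_mul, mul_assoc]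
    refine expand_le hκ r ?_
    rw [mul_zero, Complex.exp_zero, norm_one, one_mul]
    exact (hcos r).trans ((one_le_pow₀ one_le_two).trans (expand_two_le r))
  have hdsum : Summable d := by
    refine expand_summable hκ (C := 1) fun r => ?_
    rw [hd]
    simp only
    rw [Complex.norm_real, Real.norm_eq_abs, abs_of_nonneg
      (mul_nonneg (hκ.rc_nn r) (Nat.cast_nonneg _)), one_mul]
    exact expand_le hκ r ((expand_nat_le _).trans (expand_two_le r))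
  have hdt : (((∑' r, κ.rc r * κ.rn r : ℝ)) : ℂ) = ∑' r, d r := Complex.ofReal_tsum _
  have hNN : ((Real.cos θ.1 + Real.cos θ.2 : ℝ) : ℂ) = 2 - (NN θ : ℂ) := by
    unfold NN
    push_cast
    ring
  -- the sum
  have hT : ‖∑' r, (b r - a r - d r * s)‖ ≤
      (‖s‖ ^ 2 + 2 * (‖s‖ * NN θ)) * ∑' r, κ.rc r * 2 ^ κ.rn r * om (κ.ru r) := by
    rw [← tsum_mul_left]
    refine tsum_of_norm_bounded (hκ.r_summable.mul_left _).hasSum fun r => ?_
    have h1 : b r - a r - d r * s = (κ.rc r : ℂ) * (-(exp (-κ.rn r * s) - 1 + κ.rn r * s) *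
        (Real.cos (dot θ (κ.ru r)) : ℂ) -
        κ.rn r * s * ((1 - Real.cos (dot θ (κ.ru r)) : ℝ) : ℂ)) := by
      rw [ha, hb, hd]
      simp only
      rw [mul_zero, Complex.exp_zero]
      push_cast
      ring
    rw [h1, norm_mul, hrc]
    have h2 : ‖-(exp (-κ.rn r * s) - 1 + κ.rn r * s) * (Real.cos (dot θ (κ.ru r)) : ℂ)‖ ≤
        2 ^ κ.rn r * ‖s‖ ^ 2 := by
      rw [norm_mul, norm_neg]
      calc ‖exp (-κ.rn r * s) - 1 + κ.rn r * s‖ * ‖(Real.cos (dot θ (κ.ru r)) : ℂ)‖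
          ≤ 2 ^ κ.rn r * ‖s‖ ^ 2 * 1 := mul_le_mul (exp_quad hs1) (hcos r) (norm_nonneg _)
            (by positivity)
        _ = _ := mul_one _
    have h3 : ‖κ.rn r * s * ((1 - Real.cos (dot θ (κ.ru r)) : ℝ) : ℂ)‖ ≤
        κ.rn r * ‖s‖ * (2 * (nrm (κ.ru r) : ℝ) ^ 2 * NN θ) := by
      rw [norm_mul, norm_mul, Complex.norm_natCast, Complex.norm_real, Real.norm_eq_abs,
        abs_of_nonneg (sub_nonneg.2 (Real.cos_le_one _))]
      exact mul_le_mul_of_nonneg_left (one_sub_cos_dot_le θ _) (by positivity)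
    have h4 : κ.rn r * ‖s‖ * (2 * (nrm (κ.ru r) : ℝ) ^ 2 * NN θ) ≤
        2 * (‖s‖ * NN θ) * (2 ^ κ.rn r * om (κ.ru r)) := by
      have h5 : (κ.rn r : ℝ) * (nrm (κ.ru r) : ℝ) ^ 2 ≤ 2 ^ κ.rn r * om (κ.ru r) :=
        mul_le_mul (expand_nat_le _) (nrm_sq_le_om _) (by positivity) (by positivity)
      calc κ.rn r * ‖s‖ * (2 * (nrm (κ.ru r) : ℝ) ^ 2 * NN θ) =
          2 * (‖s‖ * NN θ) * ((κ.rn r : ℝ) * (nrm (κ.ru r) : ℝ) ^ 2) := by ring
        _ ≤ _ := mul_le_mul_of_nonneg_left h5 (by positivity)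
    have h6 : 2 ^ κ.rn r * ‖s‖ ^ 2 ≤ ‖s‖ ^ 2 * (2 ^ κ.rn r * om (κ.ru r)) := by
      rw [mul_comm]
      exact mul_le_mul_of_nonneg_left (expand_two_le r) (by positivity)
    calc κ.rc r * _ ≤ κ.rc r * (‖s‖ ^ 2 * (2 ^ κ.rn r * om (κ.ru r)) +
          2 * (‖s‖ * NN θ) * (2 ^ κ.rn r * om (κ.ru r))) := by
          refine mul_le_mul_of_nonneg_left ?_ (hκ.rc_nn r)
          refine (norm_sub_le _ _).trans (add_le_add (h2.trans h6) (h3.trans h4))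
      _ = _ := by ring
  have hTz : ‖∑' r, (b r - a r - d r * s)‖ ≤ (‖s‖ ^ 2 + 2 * (‖s‖ * NN θ)) * (κ.z / 1000) :=
    hT.trans (mul_le_mul_of_nonneg_left hκ.r_le (by positivity))
  have hsplit : ∑' r, (b r - a r - d r * s) = ∑' r, b r - ∑' r, a r - (∑' r, d r) * s := by
    rw [(hbsum.sub hasum).tsum_sub (hdsum.mul_right s), hbsum.tsum_sub hasum, tsum_mul_right]
  have e2 : ‖exp (-2 * s) - 1 + 2 * s‖ ≤ 4 * ‖s‖ ^ 2 := by
    have h := exp_quad (n := 2) hs1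
    norm_num at h
    rw [neg_mul]
    exact h
  have e3 : ‖exp (-3 * s) - 1 + 3 * s‖ ≤ 8 * ‖s‖ ^ 2 := by
    have h := exp_quad (n := 3) hs1
    norm_num at h
    rw [neg_mul]
    exact h
  have e4 : ‖exp (-3 * s) - 1‖ ≤ 8 * ‖s‖ := by
    have h := exp_lip (n := 3) hs1
    norm_num at h
    rw [neg_mul]
    exact h
  have e5 : exp (-2 * s) * exp (-s) = exp (-3 * s) := by
    rw [← Complex.exp_add]
    congr 1
    ring
  have halp : (κ.alp : ℂ) = 2 * κ.q + 24 * κ.q * κ.z + ∑' r, d r := by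
    rw [Mdl.alp, Complex.ofReal_add, hdt]
    push_cast
    ring
  have hFs : κ.F s θ = κ.q * exp (-2 * s) * (1 + 4 * κ.z * exp (-s) * (2 - (NN θ : ℂ))) +
      ∑' r, a r := by
    unfold Mdl.F
    rw [hNN]
  have hF0 : κ.F 0 θ = κ.q * (1 + 4 * κ.z * (2 - (NN θ : ℂ))) + ∑' r, b r := by
    unfold Mdl.F
    rw [hNN, mul_zero, neg_zero, Complex.exp_zero]
    simp only [mul_one]
    rfl
  have key : 1 - κ.F s θ - (κ.alp * s + (1 - κ.F 0 θ)) =
      -(κ.q : ℂ) * (exp (-2 * s) - 1 + 2 * s) - 8 * κ.q * κ.z * (exp (-3 * s) - 1 + 3 * s) +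
        4 * κ.q * κ.z * NN θ * (exp (-3 * s) - 1) + ∑' r, (b r - a r - d r * s) := by
    rw [hsplit, hFs, hF0, halp, ← e5]
    ring
  rw [key]
  have t1 : ‖-(κ.q : ℂ) * (exp (-2 * s) - 1 + 2 * s)‖ ≤ 4 * ‖s‖ ^ 2 := by
    rw [norm_mul, norm_neg, Complex.norm_real, Real.norm_eq_abs, abs_of_pos hq]
    calc κ.q * ‖exp (-2 * s) - 1 + 2 * s‖ ≤ 1 * (4 * ‖s‖ ^ 2) :=
          mul_le_mul hq1 e2 (norm_nonneg _) zero_le_one
      _ = _ := one_mul _
  have hqz : κ.q * κ.z ≤ κ.z := mul_le_of_le_one_left hz.le hq1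
  have t2 : ‖8 * κ.q * κ.z * (exp (-3 * s) - 1 + 3 * s)‖ ≤ 64 * κ.z * ‖s‖ ^ 2 := by
    have h1 : ‖(8 * κ.q * κ.z : ℂ)‖ = 8 * (κ.q * κ.z) := by
      rw [norm_mul, norm_mul, Complex.norm_real, Complex.norm_real, Real.norm_eq_abs,
        Real.norm_eq_abs, abs_of_pos hq, abs_of_pos hz, Complex.norm_ofNat]
      ring
    rw [norm_mul, h1]
    calc 8 * (κ.q * κ.z) * ‖exp (-3 * s) - 1 + 3 * s‖ ≤ 8 * κ.z * (8 * ‖s‖ ^ 2) :=
          mul_le_mul (by linarith) e3 (norm_nonneg _) (by positivity)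
      _ = _ := by ring
  have t3 : ‖4 * κ.q * κ.z * NN θ * (exp (-3 * s) - 1)‖ ≤ 32 * κ.z * (‖s‖ * NN θ) := by
    have h1 : ‖(4 * κ.q * κ.z * NN θ : ℂ)‖ = 4 * (κ.q * κ.z) * NN θ := by
      rw [norm_mul, norm_mul, norm_mul, Complex.norm_real, Complex.norm_real, Complex.norm_real,
        Real.norm_eq_abs, Real.norm_eq_abs, Real.norm_eq_abs, abs_of_pos hq, abs_of_pos hz,
        abs_of_nonneg hN, Complex.norm_ofNat]
      ring
    rw [norm_mul, h1]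
    calc 4 * (κ.q * κ.z) * NN θ * ‖exp (-3 * s) - 1‖ ≤ 4 * κ.z * NN θ * (8 * ‖s‖) :=
          mul_le_mul (mul_le_mul_of_nonneg_right (by linarith) hN) e4 (norm_nonneg _)
            (by positivity)
      _ = _ := by ring
  calc ‖-(κ.q : ℂ) * (exp (-2 * s) - 1 + 2 * s) - 8 * κ.q * κ.z * (exp (-3 * s) - 1 + 3 * s) +
        4 * κ.q * κ.z * NN θ * (exp (-3 * s) - 1) + ∑' r, (b r - a r - d r * s)‖
      ≤ ‖-(κ.q : ℂ) * (exp (-2 * s) - 1 + 2 * s)‖ +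
          ‖8 * κ.q * κ.z * (exp (-3 * s) - 1 + 3 * s)‖ +
          ‖4 * κ.q * κ.z * NN θ * (exp (-3 * s) - 1)‖ +
          ‖∑' r, (b r - a r - d r * s)‖ :=
        (norm_add_le _ _).trans (add_le_add ((norm_add_le _ _).trans (add_le_add
          (norm_sub_le _ _) le_rfl)) le_rfl)
    _ ≤ 4 * ‖s‖ ^ 2 + 64 * κ.z * ‖s‖ ^ 2 + 32 * κ.z * (‖s‖ * NN θ) +
          (‖s‖ ^ 2 + 2 * (‖s‖ * NN θ)) * (κ.z / 1000) :=
        add_le_add (add_le_add (add_le_add t1 t2) t3) hTz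
    _ ≤ 17 * ‖s‖ * (‖s‖ + 2 * κ.z * NN θ) := by
        have hz2 : κ.z * ‖s‖ ^ 2 ≤ ‖s‖ ^ 2 / 100 := by
          have : κ.z ≤ 1 / 100 := hz1.trans (by norm_num)
          nlinarith [sq_nonneg ‖s‖]
        have hp : 0 ≤ κ.z * (‖s‖ * NN θ) := by positivity
        nlinarith [sq_nonneg ‖s‖]

/-- `|1 - cos t - t² / 2| ≤ t⁴ / 2` -/
private theorem expand_cos (t : ℝ) : |1 - Real.cos t - t ^ 2 / 2| ≤ t ^ 4 / 2 := by
  have h1 := Real.one_sub_sq_div_two_le_cos (x := t)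
  have h2 := Real.cos_le_one t
  rcases le_or_gt |t| 1 with h | h
  · have h3 := Real.cos_bound h
    rw [abs_le] at h3 ⊢
    have h4 : |t| ^ 4 = t ^ 4 := by
      rw [show (4 : ℕ) = 2 * 2 from rfl, pow_mul, pow_mul, sq_abs]
    rw [h4] at h3
    have h5 : 0 ≤ t ^ 4 := by positivity
    constructor <;> linarith [h3.1, h3.2]
  · have h3 : 1 ≤ t ^ 2 := by
      rw [← sq_abs]
      nlinarith [abs_nonneg t]
    have h4 : t ^ 2 ≤ t ^ 4 := by nlinarith [sq_nonneg t]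
    rw [abs_le]
    constructor <;> linarith

/-- The dependence on `θ`. -/
theorem sym_iso (hκ : κ.Ok) : ∃ C : ℝ, ∀ θ : ℝ × ℝ,
    ‖1 - κ.F 0 θ - κ.kap * ((θ.1 ^ 2 + θ.2 ^ 2 : ℝ) : ℂ)‖ ≤ C * (θ.1 ^ 2 + θ.2 ^ 2) ^ 2 := by
  refine ⟨2 * (κ.q * κ.z) + 8 * ∑' r, κ.rc r * 2 ^ κ.rn r * om (κ.ru r), fun θ => ?_⟩
  have hq := hκ.q_pos
  have hz := hκ.z_pos
  obtain ⟨σ, hσ⟩ := hκ.rot
  set N : ℝ := θ.1 ^ 2 + θ.2 ^ 2 with hNdef
  have hN0 : 0 ≤ N := by positivity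
  have hdot : ∀ u, dot θ u ^ 2 ≤ N * om u := fun u =>
    (dot_sq_le θ u).trans (mul_le_mul_of_nonneg_left (nrm_sq_le_om u) hN0)
  have hdot4 : ∀ u, dot θ u ^ 4 ≤ 16 * N ^ 2 * om u := by
    intro u
    have h1 := dot_sq_le θ u
    have h2 : dot θ u ^ 4 = (dot θ u ^ 2) ^ 2 := by ring
    rw [h2]
    calc (dot θ u ^ 2) ^ 2 ≤ (N * (nrm u : ℝ) ^ 2) ^ 2 :=
          pow_le_pow_left₀ (sq_nonneg _) h1 2
      _ = N ^ 2 * (nrm u : ℝ) ^ 4 := by ring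
      _ ≤ N ^ 2 * (16 * om u) := mul_le_mul_of_nonneg_left (nrm_four_le_om u) (by positivity)
      _ = _ := by ring
  have hrot : ∀ u : ℤ × ℤ, dot θ u ^ 2 + dot θ (rt u) ^ 2 = N * nsq u := by
    intro u
    unfold dot rt nsq
    push_cast
    ring
  have hnsq : ∀ u : ℤ × ℤ, (nsq u : ℝ) ≤ om u := by
    intro u
    refine le_trans ?_ (nrm_sq_le_om u)
    have h1 : (nrm u : ℝ) = |(u.1 : ℝ)| + |(u.2 : ℝ)| := by
      unfold nrm
      push_cast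
      rw [Nat.cast_natAbs, Nat.cast_natAbs]
      push_cast
      rfl
    unfold nsq
    rw [h1]
    push_cast
    nlinarith [abs_nonneg (u.1 : ℝ), abs_nonneg (u.2 : ℝ), sq_abs (u.1 : ℝ), sq_abs (u.2 : ℝ),
      mul_nonneg (abs_nonneg (u.1 : ℝ)) (abs_nonneg (u.2 : ℝ))]
  -- summability
  have s1 : Summable κ.rc := rc_summable hκ
  have s2 : Summable fun r => κ.rc r * Real.cos (dot θ (κ.ru r)) := by
    refine expand_summable' hκ (C := 1) fun r => ?_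
    rw [one_mul, norm_mul, Real.norm_eq_abs, abs_of_nonneg (hκ.rc_nn r), Real.norm_eq_abs]
    refine expand_le hκ r ((Real.abs_cos_le_one _).trans
      ((one_le_pow₀ one_le_two).trans (expand_two_le r)))
  have s3 : Summable fun r => κ.rc r * dot θ (κ.ru r) ^ 2 := by
    refine expand_summable' hκ (C := N) fun r => ?_
    rw [norm_mul, Real.norm_eq_abs, abs_of_nonneg (hκ.rc_nn r), Real.norm_eq_abs,
      abs_of_nonneg (sq_nonneg _)]
    calc κ.rc r * dot θ (κ.ru r) ^ 2 ≤ κ.rc r * (N * (2 ^ κ.rn r * om (κ.ru r))) :=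
          mul_le_mul_of_nonneg_left ((hdot _).trans (mul_le_mul_of_nonneg_left
            (expand_om_le r) hN0)) (hκ.rc_nn r)
      _ = _ := by ring
  have s4 : Summable fun r => κ.rc r * dot θ (rt (κ.ru r)) ^ 2 := by
    have h1 : (fun r => κ.rc r * dot θ (rt (κ.ru r)) ^ 2) =
        (fun r => κ.rc r * dot θ (κ.ru r) ^ 2) ∘ σ := by
      funext r
      simp only [Function.comp_apply]
      rw [(hσ r).1, (hσ r).2.2]
    rw [h1]
    exact (Equiv.summable_iff σ).2 s3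
  have h34 : ∑' r, κ.rc r * dot θ (rt (κ.ru r)) ^ 2 = ∑' r, κ.rc r * dot θ (κ.ru r) ^ 2 := by
    rw [← Equiv.tsum_eq σ (fun r => κ.rc r * dot θ (κ.ru r) ^ 2)]
    refine tsum_congr fun r => ?_
    rw [(hσ r).1, (hσ r).2.2]
  have hvar : (∑' r, κ.rc r * dot θ (κ.ru r) ^ 2) / 2 = (∑' r, κ.rc r * nsq (κ.ru r)) / 4 * N := by
    have h1 : ∑' r, κ.rc r * dot θ (κ.ru r) ^ 2 + ∑' r, κ.rc r * dot θ (rt (κ.ru r)) ^ 2 =
        (∑' r, κ.rc r * nsq (κ.ru r)) * N := by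
      rw [← s3.tsum_add s4, ← tsum_mul_right]
      refine tsum_congr fun r => ?_
      rw [← mul_add, hrot]
      ring
    rw [h34] at h1
    linarith
  -- the real form
  have hF : κ.F 0 θ = ((κ.q * (1 + 4 * κ.z * (2 - NN θ)) +
      ∑' r, κ.rc r * Real.cos (dot θ (κ.ru r)) : ℝ) : ℂ) := by
    have hc : Real.cos θ.1 + Real.cos θ.2 = 2 - NN θ := by
      unfold NN
      ring
    have h1 : ((κ.q * (1 + 4 * κ.z * (2 - NN θ)) +
        ∑' r, κ.rc r * Real.cos (dot θ (κ.ru r)) : ℝ) : ℂ) =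
        ((κ.q * (1 + 4 * κ.z * (2 - NN θ)) : ℝ) : ℂ) +
          ∑' r, ((κ.rc r * Real.cos (dot θ (κ.ru r)) : ℝ) : ℂ) := by
      rw [Complex.ofReal_add, Complex.ofReal_tsum]
    rw [h1]
    unfold Mdl.F
    rw [hc]
    congr 1
    · rw [mul_zero, neg_zero, Complex.exp_zero]
      push_cast
      ring
    · refine tsum_congr fun r => ?_
      rw [mul_zero, Complex.exp_zero]
      push_cast
      ring
  have hre : 1 - κ.F 0 θ - κ.kap * (N : ℂ) = ((4 * (κ.q * κ.z) * (NN θ - N / 2) +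
      ∑' r, κ.rc r * (1 - Real.cos (dot θ (κ.ru r)) - dot θ (κ.ru r) ^ 2 / 2) : ℝ) : ℂ) := by
    rw [hF, Mdl.kap]
    have h1 : ∑' r, κ.rc r * (1 - Real.cos (dot θ (κ.ru r)) - dot θ (κ.ru r) ^ 2 / 2) =
        ∑' r, κ.rc r - ∑' r, κ.rc r * Real.cos (dot θ (κ.ru r)) -
          (∑' r, κ.rc r * dot θ (κ.ru r) ^ 2) / 2 := by
      rw [← tsum_div_const, ← s1.tsum_sub s2, ← (s1.sub s2).tsum_sub (s3.div_const 2)]
      refine tsum_congr fun r => ?_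
      ring
    rw [h1, hvar]
    have h2 := hκ.crit
    have h3 : (1 : ℂ) = ((κ.q * (1 + 8 * κ.z) + ∑' r, κ.rc r : ℝ) : ℂ) := by
      rw [h2, Complex.ofReal_one]
    rw [h3, ← Complex.ofReal_sub, ← Complex.ofReal_mul, ← Complex.ofReal_sub]
    congr 1
    ring
  rw [hre, Complex.norm_real, Real.norm_eq_abs]
  have b1 : |NN θ - N / 2| ≤ N ^ 2 / 2 := by
    have h1 := expand_cos θ.1
    have h2 := expand_cos θ.2
    have h3 : NN θ - N / 2 = (1 - Real.cos θ.1 - θ.1 ^ 2 / 2) +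
        (1 - Real.cos θ.2 - θ.2 ^ 2 / 2) := by
      rw [hNdef]
      unfold NN
      ring
    rw [h3]
    refine (abs_add_le _ _).trans ((add_le_add h1 h2).trans ?_)
    rw [hNdef]
    nlinarith [mul_nonneg (sq_nonneg θ.1) (sq_nonneg θ.2)]
  have b2 : |∑' r, κ.rc r * (1 - Real.cos (dot θ (κ.ru r)) - dot θ (κ.ru r) ^ 2 / 2)| ≤
      8 * N ^ 2 * ∑' r, κ.rc r * 2 ^ κ.rn r * om (κ.ru r) := by
    rw [← Real.norm_eq_abs, ← tsum_mul_left]
    refine tsum_of_norm_bounded (hκ.r_summable.mul_left _).hasSum fun r => ?_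
    rw [norm_mul, Real.norm_eq_abs, abs_of_nonneg (hκ.rc_nn r), Real.norm_eq_abs]
    calc κ.rc r * |1 - Real.cos (dot θ (κ.ru r)) - dot θ (κ.ru r) ^ 2 / 2|
        ≤ κ.rc r * (8 * N ^ 2 * (2 ^ κ.rn r * om (κ.ru r))) := by
          refine mul_le_mul_of_nonneg_left ?_ (hκ.rc_nn r)
          refine (expand_cos _).trans ?_
          have h1 := hdot4 (κ.ru r)
          have h2 : 8 * N ^ 2 * om (κ.ru r) ≤ 8 * N ^ 2 * (2 ^ κ.rn r * om (κ.ru r)) :=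
            mul_le_mul_of_nonneg_left (expand_om_le r) (by positivity)
          linarith
      _ = _ := by ring
  calc |4 * (κ.q * κ.z) * (NN θ - N / 2) +
        ∑' r, κ.rc r * (1 - Real.cos (dot θ (κ.ru r)) - dot θ (κ.ru r) ^ 2 / 2)|
      ≤ |4 * (κ.q * κ.z) * (NN θ - N / 2)| +
        |∑' r, κ.rc r * (1 - Real.cos (dot θ (κ.ru r)) - dot θ (κ.ru r) ^ 2 / 2)| :=
        abs_add_le _ _
    _ ≤ 4 * (κ.q * κ.z) * (N ^ 2 / 2) +
        8 * N ^ 2 * ∑' r, κ.rc r * 2 ^ κ.rn r * om (κ.ru r) := by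
        refine add_le_add ?_ b2
        rw [abs_mul, abs_of_pos (by positivity : 0 < 4 * (κ.q * κ.z))]
        exact mul_le_mul_of_nonneg_left b1 (by positivity)
    _ = _ := by ring

end Pool.Agent.KAsym
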