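import Pool.Agent.KAsym.Gam
import Pool.Agent.KAsym.Disc
import Pool.Agent.KAsym.Expand

/-! KA8: the singularity of the Green function at the origin. -/

set_option autoImplicit false

open Complex MeasureTheory Set

namespace Pool.Agent.KAsym

open Pool.Agent.KLog (nrm nsq rt)

variable {R J H : Type} {κ : Mdl R J H} {s : ℂ}

/-! ### Elementary estimates -/

private theorem quad_low {x : ℝ} {w : ℂ} (hx : 0 ≤ x) (hw : -‖w‖ / 2 ≤ w.re) :
    (‖w‖ + x) / 2 ≤ ‖w + x‖ := by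
  have h1 : ‖w + x‖ ^ 2 = ‖w‖ ^ 2 + 2 * x * w.re + x ^ 2 := by
    rw [← Complex.normSq_eq_norm_sq, ← Complex.normSq_eq_norm_sq, Complex.normSq_apply,
      Complex.normSq_apply]
    simp only [add_re, ofReal_re, add_im, ofReal_im, add_zero]
    ring
  have h2 : ((‖w‖ + x) / 2) ^ 2 ≤ ‖w + x‖ ^ 2 := by
    rw [h1]
    nlinarith [sq_nonneg (‖w‖ - x), mul_nonneg hx (show 0 ≤ w.re + ‖w‖ / 2 by linarith)]
  have h3 : 0 ≤ (‖w‖ + x) / 2 := by positivity
  exact (pow_le_pow_iff_left₀ h3 (norm_nonneg _) two_ne_zero).1 h2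

private theorem inv_sub_le {A B : ℂ} {u v d : ℝ} (hu : 0 < u) (hv : 0 < v) (hA : u ≤ ‖A‖)
    (hB : v ≤ ‖B‖) (hd : ‖B - A‖ ≤ d) : ‖1 / A - 1 / B‖ ≤ d / (u * v) := by
  have hA0 : A ≠ 0 := norm_pos_iff.1 (hu.trans_le hA)
  have hB0 : B ≠ 0 := norm_pos_iff.1 (hv.trans_le hB)
  rw [div_sub_div _ _ hA0 hB0, one_mul, mul_one, norm_div, norm_mul]
  exact div_le_div₀ ((norm_nonneg _).trans hd) hd (mul_pos hu hv)
    (mul_le_mul hA hB hv.le (norm_nonneg _))

/-- The four terms. -/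
private theorem four_le {a Q E : ℝ} {t : ℂ} {C₃ cE cP X : ℝ} (hX : 0 < X) (hcE : 0 < cE)
    (hcP : 0 < cP) (hQ : 0 < Q) (hE : 0 < E) (ht : ‖t‖ ≤ a) (hδ : |E - Q| ≤ C₃ * (Q * E))
    (hP : cP * X ≤ ‖t + Q‖) (hE1 : cE * X ≤ ‖t + E‖) (hE2 : E / 2 ≤ ‖t + E‖) :
    ‖(1 / (t + Q) - 1 / (Q : ℂ)) - (1 / (t + E) - 1 / (E : ℂ))‖ ≤
      a * C₃ * (1 / cE + 2 / cP) / X := by
  have hP0 : 0 < ‖t + Q‖ := lt_of_lt_of_le (mul_pos hcP hX) hP
  have hE0 : 0 < ‖t + E‖ := lt_of_lt_of_le (mul_pos hcE hX) hE1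
  have hP' : t + Q ≠ 0 := norm_pos_iff.1 hP0
  have hE' : t + E ≠ 0 := norm_pos_iff.1 hE0
  have hQ' : (Q : ℂ) ≠ 0 := by exact_mod_cast hQ.ne'
  have hE'' : (E : ℂ) ≠ 0 := by exact_mod_cast hE.ne'
  have hC₃ : 0 ≤ C₃ := by
    by_contra h
    push Not at h
    have h1 := mul_neg_of_neg_of_pos h (mul_pos hQ hE)
    have h2 := abs_nonneg (E - Q)
    linarith
  have ha : 0 ≤ a := (norm_nonneg _).trans ht
  have h1 : (1 / (t + Q) - 1 / (Q : ℂ)) - (1 / (t + E) - 1 / (E : ℂ)) =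
      -t * (((E - Q : ℝ) : ℂ) / ((Q * E : ℝ) : ℂ)) * (1 / (t + E) + E / ((t + Q) * (t + E))) := by
    push_cast
    field_simp
    ring
  rw [h1, norm_mul, norm_mul, norm_neg]
  have h2 : ‖((E - Q : ℝ) : ℂ) / ((Q * E : ℝ) : ℂ)‖ ≤ C₃ := by
    rw [norm_div, Complex.norm_real, Complex.norm_real, Real.norm_eq_abs, Real.norm_eq_abs,
      abs_of_pos (mul_pos hQ hE), div_le_iff₀ (mul_pos hQ hE)]
    exact hδ
  have h3 : ‖1 / (t + E) + E / ((t + Q) * (t + E))‖ ≤ (1 / cE + 2 / cP) / X := by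
    refine (norm_add_le _ _).trans ?_
    have h4 : ‖1 / (t + (E : ℂ))‖ ≤ 1 / cE / X := by
      rw [norm_div, norm_one, div_div]
      exact one_div_le_one_div_of_le (mul_pos hcE hX) hE1
    have h5 : ‖(E : ℂ) / ((t + Q) * (t + E))‖ ≤ 2 / cP / X := by
      rw [norm_div, norm_mul, Complex.norm_real, Real.norm_eq_abs, abs_of_pos hE, div_div]
      have h6 : E ≤ 2 * ‖t + E‖ := by linarith
      rw [div_le_div_iff₀ (mul_pos hP0 hE0) (mul_pos hcP hX)]
      calc E * (cP * X) ≤ (2 * ‖t + E‖) * ‖t + Q‖ :=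
            mul_le_mul h6 hP (mul_pos hcP hX).le (by positivity)
        _ = 2 * (‖t + Q‖ * ‖t + E‖) := by ring
    rw [add_div]
    exact add_le_add h4 h5
  have h6 : 0 ≤ (1 / cE + 2 / cP) / X := by positivity
  calc ‖t‖ * ‖((E - Q : ℝ) : ℂ) / ((Q * E : ℝ) : ℂ)‖ *
        ‖1 / (t + E) + E / ((t + Q) * (t + E))‖ ≤ a * C₃ * ((1 / cE + 2 / cP) / X) :=
      mul_le_mul (mul_le_mul ht h2 (norm_nonneg _) ha) h3 (norm_nonneg _) (mul_nonneg ha hC₃)
    _ = a * C₃ * (1 / cE + 2 / cP) / X := by ring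

/-- The symbol is real at `s = 0`. -/
private theorem exists_Q (hκ : κ.Ok) (θ : ℝ × ℝ) :
    ∃ Q : ℝ, 1 - κ.F 0 θ = Q ∧ 98 / 100 * (2 * κ.z * NN θ) ≤ Q := by
  have hs : Summable fun r => κ.rc r * Real.cos (dot θ (κ.ru r)) := by
    refine Summable.of_norm_bounded (rc_summable hκ) fun r => ?_
    rw [Real.norm_eq_abs, abs_mul, abs_of_nonneg (hκ.rc_nn r)]
    exact mul_le_of_le_one_right (hκ.rc_nn r) (Real.abs_cos_le_one _)
  have hF : κ.F 0 θ = ((κ.q * (1 + 4 * κ.z * (Real.cos θ.1 + Real.cos θ.2)) +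
      ∑' r, κ.rc r * Real.cos (dot θ (κ.ru r)) : ℝ) : ℂ) := by
    unfold Mdl.F
    simp only [mul_zero, Complex.exp_zero, mul_one, neg_zero]
    push_cast
    rfl
  have hle : κ.q * (1 + 4 * κ.z * (Real.cos θ.1 + Real.cos θ.2)) +
      ∑' r, κ.rc r * Real.cos (dot θ (κ.ru r)) ≤ 1 := by
    have h1 : ∑' r, κ.rc r * Real.cos (dot θ (κ.ru r)) ≤ ∑' r, κ.rc r :=
      hs.tsum_le_tsum (fun r => mul_le_of_le_one_right (hκ.rc_nn r) (Real.cos_le_one _))
        (rc_summable hκ)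
    have h2 := Real.cos_le_one θ.1
    have h3 := Real.cos_le_one θ.2
    have h4 : κ.q * (1 + 4 * κ.z * (Real.cos θ.1 + Real.cos θ.2)) ≤ κ.q * (1 + 8 * κ.z) := by
      apply mul_le_mul_of_nonneg_left _ hκ.q_pos.le
      nlinarith [hκ.z_pos]
    exact (add_le_add h4 h1).trans (le_of_eq hκ.crit)
  have h5 := sym_low hκ (zero_mem_sec0 hκ) θ
  rw [norm_zero, zero_add] at h5
  have hQ : 1 - κ.F 0 θ = ((1 - (κ.q * (1 + 4 * κ.z * (Real.cos θ.1 + Real.cos θ.2)) +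
      ∑' r, κ.rc r * Real.cos (dot θ (κ.ru r))) : ℝ) : ℂ) := by
    rw [hF]
    push_cast
    ring
  refine ⟨_, hQ, ?_⟩
  rw [hQ, Complex.norm_real, Real.norm_eq_abs, abs_of_nonneg (by linarith)] at h5
  exact h5

/-! ### The regular part -/

/-- The symbol minus the singular part. -/
private noncomputable def gg (κ : Mdl R J H) (s : ℂ) (θ : ℝ × ℝ) : ℂ :=
  1 / (1 - κ.F s θ) - disc.indicator (fun θ : ℝ × ℝ =>
    1 / ((κ.alp : ℂ) * s + κ.kap * ((θ.1 ^ 2 + θ.2 ^ 2 : ℝ) : ℂ))) θ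

private theorem gg_bd (hκ : κ.Ok) : ∃ K : ℝ, 0 ≤ K ∧ ∀ s ∈ κ.Sec, ∀ θ ∈ box,
    ‖gg κ s θ - gg κ 0 θ‖ ≤ K * (‖s‖ / (‖s‖ + 2 * κ.z * NN θ)) := by
  obtain ⟨C1, hC1⟩ := sym_quad hκ
  obtain ⟨C2, hC2⟩ := sym_iso hκ
  have hα := alp_pos hκ
  have hb := kap_pos hκ
  have hz := hκ.z_pos
  have hπ := Real.pi_pos
  set α := κ.alp with hαdef
  set b := κ.kap with hbdef
  set cP : ℝ := min α (98 / 100) / 2 with hcP
  set cE : ℝ := min α (b / κ.z) / 2 with hcE
  have hcP0 : 0 < cP := by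
    have : 0 < min α (98 / 100) := lt_min hα (by norm_num)
    positivity
  have hcE0 : 0 < cE := by
    have : 0 < min α (b / κ.z) := lt_min hα (by positivity)
    positivity
  set C₃ : ℝ := |C2| / (98 / 100 * (2 * κ.z * (2 / Real.pi ^ 2)) * b) with hC₃
  have hC₃0 : 0 ≤ C₃ := by positivity
  refine ⟨|C1| / (98 / 100 * cP) + α / (cP * (98 / 100 * (4 * κ.z))) +
    α * C₃ * (1 / cE + 2 / cP), by positivity, ?_⟩
  intro s hs θ hθ
  have hs0 : 0 < ‖s‖ := norm_pos_iff.2 hs.1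
  have hN := NN_nonneg θ
  set X : ℝ := ‖s‖ + 2 * κ.z * NN θ with hX
  have hX0 : 0 < X := by positivity
  obtain ⟨Q, hQ, hQl⟩ := exists_Q hκ θ
  have hQ0 : 0 ≤ Q := le_trans (by positivity) hQl
  have hts : ‖(α : ℂ) * s‖ = α * ‖s‖ := by
    rw [norm_mul, Complex.norm_real, Real.norm_eq_abs, abs_of_pos hα]
  have htre : -‖(α : ℂ) * s‖ / 2 ≤ ((α : ℂ) * s).re := by
    rw [hts, Complex.re_ofReal_mul]
    have := hs.2.2
    nlinarith
  -- the lower bounds
  have hA : 98 / 100 * X ≤ ‖1 - κ.F s θ‖ := sym_low hκ (sec_sub hs) θ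
  have hP : cP * X ≤ ‖(α : ℂ) * s + (Q : ℂ)‖ := by
    refine le_trans ?_ (quad_low hQ0 htre)
    rw [hts, hcP, hX]
    have h1 : min α (98 / 100) * ‖s‖ ≤ α * ‖s‖ :=
      mul_le_mul_of_nonneg_right (min_le_left _ _) hs0.le
    have h2 : min α (98 / 100) * (2 * κ.z * NN θ) ≤ 98 / 100 * (2 * κ.z * NN θ) :=
      mul_le_mul_of_nonneg_right (min_le_right _ _) (by positivity)
    have h3 : min α (98 / 100) / 2 * (‖s‖ + 2 * κ.z * NN θ) =
      (min α (98 / 100) * ‖s‖ + min α (98 / 100) * (2 * κ.z * NN θ)) / 2 := by ring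
    rw [h3]
    linarith
  -- the first term
  have h1 : ‖1 / (1 - κ.F s θ) - 1 / ((α : ℂ) * s + Q)‖ ≤
      |C1| / (98 / 100 * cP) * (‖s‖ / X) := by
    have hd : ‖((α : ℂ) * s + Q) - (1 - κ.F s θ)‖ ≤ |C1| * ‖s‖ * X := by
      rw [norm_sub_rev, ← hQ]
      refine (hC1 s (sec_sub hs) θ).trans ?_
      have := le_abs_self C1
      gcongr
    have h2 := inv_sub_le (mul_pos (by norm_num) hX0) (mul_pos hcP0 hX0) hA hP hd
    refine h2.trans (le_of_eq ?_)
    field_simp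
  have e0 : gg κ s θ - gg κ 0 θ = (1 / (1 - κ.F s θ) - 1 / ((α : ℂ) * s + Q)) +
      ((1 / ((α : ℂ) * s + Q) - 1 / (Q : ℂ)) - (disc.indicator (fun θ : ℝ × ℝ =>
        1 / ((α : ℂ) * s + b * ((θ.1 ^ 2 + θ.2 ^ 2 : ℝ) : ℂ))) θ - disc.indicator
        (fun θ : ℝ × ℝ => 1 / ((α : ℂ) * 0 + b * ((θ.1 ^ 2 + θ.2 ^ 2 : ℝ) : ℂ))) θ)) := by
    unfold gg
    rw [hQ]
    ring
  rw [e0]
  refine (norm_add_le _ _).trans ?_
  have hr : 0 ≤ ‖s‖ / X := by positivity
  have hK2 : 0 ≤ α / (cP * (98 / 100 * (4 * κ.z))) * (‖s‖ / X) := by positivity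
  have hK3 : 0 ≤ α * C₃ * (1 / cE + 2 / cP) * (‖s‖ / X) := by positivity
  rw [add_mul, add_mul, add_assoc]
  refine add_le_add h1 ?_
  by_cases hd : θ ∈ disc
  · rw [Set.indicator_of_mem hd, Set.indicator_of_mem hd]
    by_cases h0 : θ = 0
    · subst h0
      have hQ00 : Q = 0 := by
        have h2 := hQ
        rw [F_zero hκ, sub_self] at h2
        exact_mod_cast h2.symm
      rw [hQ00]
      simp only [Prod.fst_zero, Prod.snd_zero, ne_eq, OfNat.ofNat_ne_zero, not_false_eq_true,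
        zero_pow, add_zero, ofReal_zero, mul_zero, sub_self, norm_zero]
      linarith
    · have hr2 : 0 < θ.1 ^ 2 + θ.2 ^ 2 := by
        by_contra hcon
        apply h0
        have h2 : θ.1 ^ 2 = 0 := by nlinarith [sq_nonneg θ.1, sq_nonneg θ.2]
        have h3 : θ.2 ^ 2 = 0 := by nlinarith [sq_nonneg θ.1, sq_nonneg θ.2]
        exact Prod.ext (pow_eq_zero_iff two_ne_zero |>.1 h2) (pow_eq_zero_iff two_ne_zero |>.1 h3)
      set ρ := θ.1 ^ 2 + θ.2 ^ 2 with hρ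
      have hNg : 2 / Real.pi ^ 2 * ρ ≤ NN θ := NN_ge hθ
      have hNl : NN θ ≤ ρ / 2 := NN_le_sq θ
      have hQρ : 98 / 100 * (2 * κ.z * (2 / Real.pi ^ 2)) * ρ ≤ Q := by
        refine le_trans ?_ hQl
        have : 2 * κ.z * (2 / Real.pi ^ 2 * ρ) ≤ 2 * κ.z * NN θ :=
          mul_le_mul_of_nonneg_left hNg (by positivity)
        linarith
      have hQ1 : 0 < Q := lt_of_lt_of_le (by positivity) hQρ
      have hE : 0 < b * ρ := mul_pos hb hr2
      have hE2 := quad_low hE.le htre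
      have hE1 : cE * X ≤ ‖(α : ℂ) * s + ((b * ρ : ℝ) : ℂ)‖ := by
        refine le_trans ?_ hE2
        rw [hts, hcE, hX]
        have h2 : min α (b / κ.z) * ‖s‖ ≤ α * ‖s‖ :=
          mul_le_mul_of_nonneg_right (min_le_left _ _) hs0.le
        have h3 : min α (b / κ.z) * (2 * κ.z * NN θ) ≤ b / κ.z * (2 * κ.z * NN θ) :=
          mul_le_mul_of_nonneg_right (min_le_right _ _) (by positivity)
        have h4 : b / κ.z * (2 * κ.z * NN θ) = b * (2 * NN θ) := by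
          field_simp
        have h5 : b * (2 * NN θ) ≤ b * ρ := mul_le_mul_of_nonneg_left (by linarith) hb.le
        have h6 : min α (b / κ.z) / 2 * (‖s‖ + 2 * κ.z * NN θ) =
          (min α (b / κ.z) * ‖s‖ + min α (b / κ.z) * (2 * κ.z * NN θ)) / 2 := by ring
        rw [h6]
        linarith
      have hδ : |b * ρ - Q| ≤ C₃ * (Q * (b * ρ)) := by
        have h2 := hC2 θ
        rw [hQ, ← hρ] at h2
        have e1 : (Q : ℂ) - (b : ℂ) * (ρ : ℂ) = ((Q - b * ρ : ℝ) : ℂ) := by push_cast; ring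
        rw [e1, Complex.norm_real, Real.norm_eq_abs, abs_sub_comm] at h2
        refine h2.trans ?_
        have h3 : C2 * ρ ^ 2 ≤ |C2| * ρ ^ 2 :=
          mul_le_mul_of_nonneg_right (le_abs_self _) (by positivity)
        refine h3.trans ?_
        have h4 : |C2| = C₃ * (98 / 100 * (2 * κ.z * (2 / Real.pi ^ 2)) * b) := by
          rw [hC₃]
          field_simp
        rw [h4]
        have h5 : C₃ * (98 / 100 * (2 * κ.z * (2 / Real.pi ^ 2)) * b) * ρ ^ 2 =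
          C₃ * ((98 / 100 * (2 * κ.z * (2 / Real.pi ^ 2)) * ρ) * (b * ρ)) := by ring
        rw [h5]
        exact mul_le_mul_of_nonneg_left (mul_le_mul_of_nonneg_right hQρ hE.le) hC₃0
      have h2 := four_le (a := α * ‖s‖) (t := (α : ℂ) * s) hX0 hcE0 hcP0 hQ1 hE hts.le hδ hP hE1
        (le_trans (by linarith [norm_nonneg ((α : ℂ) * s)]) hE2)
      have e2 : (1 / ((α : ℂ) * s + Q) - 1 / (Q : ℂ)) - (1 / ((α : ℂ) * s + b * (ρ : ℂ)) -
          1 / ((α : ℂ) * 0 + b * (ρ : ℂ))) = (1 / ((α : ℂ) * s + Q) - 1 / (Q : ℂ)) -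
          (1 / ((α : ℂ) * s + ((b * ρ : ℝ) : ℂ)) - 1 / ((b * ρ : ℝ) : ℂ)) := by
        push_cast
        rw [mul_zero, zero_add]
      rw [e2]
      refine h2.trans ?_
      have e3 : α * ‖s‖ * C₃ * (1 / cE + 2 / cP) / X =
        α * C₃ * (1 / cE + 2 / cP) * (‖s‖ / X) := by ring
      rw [e3]
      linarith
  · rw [Set.indicator_of_notMem hd, Set.indicator_of_notMem hd, sub_zero, sub_zero]
    have h2 : Real.pi ^ 2 < θ.1 ^ 2 + θ.2 ^ 2 := not_le.1 hd
    have h3 : 2 ≤ NN θ := by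
      refine le_trans ?_ (NN_ge hθ)
      have h4 : (2 : ℝ) = 2 / Real.pi ^ 2 * Real.pi ^ 2 := by field_simp
      calc (2 : ℝ) = 2 / Real.pi ^ 2 * Real.pi ^ 2 := h4
        _ ≤ _ := mul_le_mul_of_nonneg_left h2.le (by positivity)
    have h4 : 98 / 100 * (4 * κ.z) ≤ ‖(Q : ℂ)‖ := by
      rw [Complex.norm_real, Real.norm_eq_abs, abs_of_nonneg hQ0]
      refine le_trans ?_ hQl
      nlinarith
    have h5 : ‖(Q : ℂ) - ((α : ℂ) * s + Q)‖ ≤ α * ‖s‖ := by
      rw [show (Q : ℂ) - ((α : ℂ) * s + Q) = -((α : ℂ) * s) by ring, norm_neg, hts]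
    have h6 := inv_sub_le (mul_pos hcP0 hX0) (by positivity) hP h4 h5
    refine h6.trans ?_
    have e3 : α * ‖s‖ / (cP * X * (98 / 100 * (4 * κ.z))) =
      α / (cP * (98 / 100 * (4 * κ.z))) * (‖s‖ / X) := by
      field_simp
    rw [e3]
    linarith

/-! ### Integrability -/

private theorem isClosed_disc : IsClosed disc := by
  refine isClosed_le ?_ continuous_const
  fun_prop

private theorem isCompact_disc : IsCompact disc :=
  isCompact_box.of_isClosed_subset isClosed_disc disc_sub_box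

private theorem measurableSet_disc : MeasurableSet disc := isClosed_disc.measurableSet

private theorem re_ge (hκ : κ.Ok) (hs : s ∈ κ.Sec0) : -(1 / 100) ≤ s.re := by
  have h1 := sec0_small hκ hs
  have h2 := (abs_le.1 (Complex.abs_re_le_norm s)).1
  linarith

private theorem one_int (hκ : κ.Ok) (hs : s ∈ κ.Sec) :
    IntegrableOn (fun θ => 1 / (1 - κ.F s θ)) box := by
  refine ContinuousOn.integrableOn_compact isCompact_box ?_
  refine ContinuousOn.div continuousOn_const ?_ ?_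
  · exact (continuous_const.sub (F_cont hκ (re_ge hκ (sec_sub hs)))).continuousOn
  · intro θ _
    have h1 := sym_low hκ (sec_sub hs) θ
    have h2 : 0 < ‖s‖ := norm_pos_iff.2 hs.1
    have h3 := NN_nonneg θ
    have h4 := hκ.z_pos
    exact norm_pos_iff.1 (lt_of_lt_of_le (by positivity) h1)

private theorem sing_int (hκ : κ.Ok) (hs : s ∈ κ.Sec) :
    IntegrableOn (disc.indicator (fun θ : ℝ × ℝ =>
      1 / ((κ.alp : ℂ) * s + κ.kap * ((θ.1 ^ 2 + θ.2 ^ 2 : ℝ) : ℂ)))) box := by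
  refine Integrable.integrableOn ?_
  rw [integrable_indicator_iff measurableSet_disc]
  refine ContinuousOn.integrableOn_compact isCompact_disc ?_
  refine ContinuousOn.div continuousOn_const ?_ ?_
  · refine Continuous.continuousOn ?_
    fun_prop
  · intro θ _
    have hα := alp_pos hκ
    have hb := kap_pos hκ
    have h2 : 0 < ‖s‖ := norm_pos_iff.2 hs.1
    have hts : ‖(κ.alp : ℂ) * s‖ = κ.alp * ‖s‖ := by
      rw [norm_mul, Complex.norm_real, Real.norm_eq_abs, abs_of_pos hα]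
    have htre : -‖(κ.alp : ℂ) * s‖ / 2 ≤ ((κ.alp : ℂ) * s).re := by
      rw [hts, Complex.re_ofReal_mul]
      have := hs.2.2
      nlinarith
    have h3 : 0 ≤ κ.kap * (θ.1 ^ 2 + θ.2 ^ 2) := by positivity
    have h4 := quad_low h3 htre
    rw [hts] at h4
    have h5 : 0 < ‖(κ.alp : ℂ) * s + ((κ.kap * (θ.1 ^ 2 + θ.2 ^ 2) : ℝ) : ℂ)‖ :=
      lt_of_lt_of_le (by positivity) h4
    have h6 := norm_pos_iff.1 h5
    rw [Complex.ofReal_mul] at h6
    exact h6

private theorem gg_int (hκ : κ.Ok) (hs : s ∈ κ.Sec) : IntegrableOn (gg κ s) box :=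
  (one_int hκ hs).sub (sing_int hκ hs)

private theorem gg_meas (hκ : κ.Ok) (hs : s ∈ κ.Sec0) : Measurable (gg κ s) := by
  refine Measurable.sub ?_ ?_
  · refine Measurable.div measurable_const ?_
    exact (continuous_const.sub (F_cont hκ (re_ge hκ hs))).measurable
  · refine Measurable.indicator ?_ measurableSet_disc
    refine Measurable.div measurable_const ?_
    refine Continuous.measurable ?_
    fun_prop

private theorem gg_int0 (hκ : κ.Ok) (hs : s ∈ κ.Sec) : IntegrableOn (gg κ 0) box := by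
  obtain ⟨K, hK, hbd⟩ := gg_bd hκ
  have h1 : IntegrableOn (fun θ => gg κ s θ - gg κ 0 θ) box := by
    refine Measure.integrableOn_of_bounded (M := K) isCompact_box.measure_lt_top.ne ?_ ?_
    · exact ((gg_meas hκ (sec_sub hs)).sub
        (gg_meas hκ (zero_mem_sec0 hκ))).aestronglyMeasurable
    · refine (ae_restrict_iff' measurableSet_box).2 (ae_of_all _ fun θ hθ => ?_)
      refine (hbd s hs θ hθ).trans ?_
      have h2 : ‖s‖ / (‖s‖ + 2 * κ.z * NN θ) ≤ 1 := by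
        have h3 : 0 < ‖s‖ := norm_pos_iff.2 hs.1
        have h4 := NN_nonneg θ
        have h5 := hκ.z_pos
        rw [div_le_one (by positivity)]
        have : 0 ≤ 2 * κ.z * NN θ := by positivity
        linarith
      calc K * (‖s‖ / (‖s‖ + 2 * κ.z * NN θ)) ≤ K * 1 := mul_le_mul_of_nonneg_left h2 hK
        _ = K := mul_one K
  have h2 := (gg_int hκ hs).sub h1
  refine h2.congr (ae_of_all _ fun θ => ?_)
  simp

private theorem av_gg (hκ : κ.Ok) (hs : s ∈ κ.Sec) : av (gg κ s) = κ.gam s -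
    ((4 * Real.pi ^ 2 : ℝ) : ℂ)⁻¹ * ((Real.pi / κ.kap : ℝ) *
      (log (κ.alp * s + κ.kap * Real.pi ^ 2) - log (κ.alp * s))) := by
  have h1 : ∫ θ in box, gg κ s θ = (∫ θ in box, 1 / (1 - κ.F s θ)) -
      ∫ θ in box, disc.indicator (fun θ : ℝ × ℝ =>
        1 / ((κ.alp : ℂ) * s + κ.kap * ((θ.1 ^ 2 + θ.2 ^ 2 : ℝ) : ℂ))) θ :=
    integral_sub (one_int hκ hs) (sing_int hκ hs)
  rw [setIntegral_indicator measurableSet_disc, Set.inter_eq_self_of_subset_right disc_sub_box,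
    disc_int (alp_pos hκ) (kap_pos hκ) hs.1 hs.2.2] at h1
  unfold Mdl.gam av
  rw [h1, mul_sub]

/-- The logarithm near `1` in the sector. -/
private theorem log_one_add_le {w : ℂ} (hw : -‖w‖ / 2 ≤ w.re) : ‖log (1 + w)‖ ≤ 2 * ‖w‖ := by
  have hslit : ∀ t ∈ Icc (0 : ℝ) 1, 1 + (t : ℂ) * w ∈ slitPlane := by
    intro t ht
    rw [Complex.mem_slitPlane_iff]
    by_cases him : (1 + (t : ℂ) * w).im = 0
    · left
      simp only [add_im, one_im, mul_im, ofReal_re, ofReal_im, zero_mul, add_zero,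
        zero_add] at him
      simp only [add_re, one_re, mul_re, ofReal_re, ofReal_im, zero_mul, sub_zero]
      rcases mul_eq_zero.1 him with h | h
      · rw [h, zero_mul]; norm_num
      · have h1 : ‖w‖ = |w.re| := by
          have h2 : w = (w.re : ℂ) := Complex.ext rfl (by simp [h])
          rw [h2, Complex.norm_real]
          simp
        rw [h1] at hw
        have h3 : 0 ≤ w.re := by
          by_contra hcon
          push Not at hcon
          rw [abs_of_neg hcon] at hw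
          linarith
        have h4 := mul_nonneg ht.1 h3
        linarith
    · exact Or.inr him
  have hlow : ∀ t ∈ Icc (0 : ℝ) 1, 1 / 2 ≤ ‖1 + (t : ℂ) * w‖ := by
    intro t ht
    have h1 : ‖(t : ℂ) * w‖ = t * ‖w‖ := by
      rw [norm_mul, Complex.norm_real, Real.norm_eq_abs, abs_of_nonneg ht.1]
    have h2 : -‖(t : ℂ) * w‖ / 2 ≤ ((t : ℂ) * w).re := by
      rw [h1, Complex.re_ofReal_mul]
      have := mul_le_mul_of_nonneg_left hw ht.1
      linarith
    have h3 := quad_low (x := 1) zero_le_one h2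
    rw [Complex.ofReal_one, add_comm ((t : ℂ) * w) 1] at h3
    have := norm_nonneg ((t : ℂ) * w)
    linarith
  have hder : ∀ t ∈ Icc (0 : ℝ) 1, HasDerivWithinAt (fun t : ℝ => log (1 + (t : ℂ) * w))
      (w / (1 + (t : ℂ) * w)) (Icc 0 1) t := by
    intro t ht
    have h1 : HasDerivAt (fun t : ℝ => 1 + (t : ℂ) * w) w t := by
      have h2 : HasDerivAt (fun t : ℝ => (t : ℂ)) 1 t := Complex.ofRealCLM.hasDerivAt
      have h3 := (h2.mul_const w).const_add 1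
      rwa [one_mul] at h3
    exact (h1.clog_real (hslit t ht)).hasDerivWithinAt
  have h := norm_image_sub_le_of_norm_deriv_le_segment_01' (C := 2 * ‖w‖) hder (by
    intro t ht
    have h1 := hlow t ⟨ht.1, ht.2.le⟩
    rw [norm_div, div_le_iff₀ (by linarith)]
    have := mul_le_mul_of_nonneg_left h1 (show 0 ≤ 2 * ‖w‖ by positivity)
    linarith)
  simpa using h

theorem gam_asy (hκ : κ.Ok) : ∃ c₁ : ℝ, 0 < c₁ ∧ ∃ (c₂ : ℂ) (C : ℝ), ∀ s ∈ κ.Sec,
    ‖κ.gam s - (c₂ - c₁ * log s)‖ ≤ C * √‖s‖ := by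
  have hα := alp_pos hκ
  have hb := kap_pos hκ
  have hπ := Real.pi_pos
  obtain ⟨K, hK, hbd⟩ := gg_bd hκ
  obtain ⟨C, hC⟩ := av_sqrt hκ
  set c₁ : ℝ := (4 * Real.pi ^ 2)⁻¹ * (Real.pi / κ.kap) with hc₁
  have hc₁0 : 0 < c₁ := by positivity
  set β : ℝ := κ.alp / (κ.kap * Real.pi ^ 2) with hβ
  have hβ0 : 0 < β := by positivity
  refine ⟨c₁, hc₁0, c₁ * (Real.log (κ.kap * Real.pi ^ 2) - Real.log κ.alp) + av (gg κ 0),
    K * C + c₁ * (2 * β), fun s hs => ?_⟩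
  have hs0 : 0 < ‖s‖ := norm_pos_iff.2 hs.1
  -- the regular part
  have h1 : ‖av (gg κ s) - av (gg κ 0)‖ ≤ K * C * √‖s‖ := by
    have h2 : av (gg κ s) - av (gg κ 0) = av fun θ => gg κ s θ - gg κ 0 θ := by
      unfold av
      rw [integral_sub (gg_int hκ hs) (gg_int0 hκ hs), mul_sub]
    rw [h2]
    exact hC s _ K (hbd s hs)
  -- the logarithms
  have hwn : ‖(β : ℂ) * s‖ = β * ‖s‖ := by
    rw [norm_mul, Complex.norm_real, Real.norm_eq_abs, abs_of_pos hβ0]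
  have hwre : -‖(β : ℂ) * s‖ / 2 ≤ ((β : ℂ) * s).re := by
    rw [hwn, Complex.re_ofReal_mul]
    have := hs.2.2
    nlinarith
  have hne : 1 + (β : ℂ) * s ≠ 0 := by
    intro h0
    have h3 := quad_low (x := 1) zero_le_one hwre
    rw [Complex.ofReal_one, add_comm ((β : ℂ) * s) 1, h0, norm_zero] at h3
    have := norm_nonneg ((β : ℂ) * s)
    linarith
  have h2 : log ((κ.alp : ℂ) * s) = Real.log κ.alp + log s := Complex.log_ofReal_mul hα hs.1
  have h3 : log ((κ.alp : ℂ) * s + κ.kap * Real.pi ^ 2) =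
      Real.log (κ.kap * Real.pi ^ 2) + log (1 + (β : ℂ) * s) := by
    rw [← Complex.log_ofReal_mul (by positivity) hne]
    congr 1
    rw [hβ]
    have hb' : (κ.kap : ℂ) ≠ 0 := by exact_mod_cast hb.ne'
    have hπ' : (Real.pi : ℂ) ≠ 0 := by exact_mod_cast hπ.ne'
    push_cast
    field_simp
    ring
  have h4 := av_gg hκ hs
  rw [h2, h3] at h4
  have h5 : κ.gam s - (c₁ * (Real.log (κ.kap * Real.pi ^ 2) - Real.log κ.alp) + av (gg κ 0) -
      c₁ * log s) = (av (gg κ s) - av (gg κ 0)) + c₁ * log (1 + (β : ℂ) * s) := by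
    rw [h4, hc₁]
    push_cast
    ring
  rw [h5]
  refine (norm_add_le _ _).trans ?_
  rw [add_mul]
  refine add_le_add h1 ?_
  rw [norm_mul, Complex.norm_real, Real.norm_eq_abs, abs_of_pos hc₁0]
  have hle : ‖s‖ ≤ √‖s‖ := by
    have h6 := sec0_small hκ (sec_sub hs)
    refine Real.le_sqrt_of_sq_le ?_
    nlinarith
  have h7 : ‖log (1 + (β : ℂ) * s)‖ ≤ 2 * β * √‖s‖ := by
    refine (log_one_add_le hwre).trans ?_
    rw [hwn, ← mul_assoc]
    exact mul_le_mul_of_nonneg_left hle (by positivity)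
  calc c₁ * ‖log (1 + (β : ℂ) * s)‖ ≤ c₁ * (2 * β * √‖s‖) :=
      mul_le_mul_of_nonneg_left h7 hc₁0.le
    _ = c₁ * (2 * β) * √‖s‖ := by ring

end Pool.Agent.KAsym
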