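import Pool.Agent.KAsym.Neu

/-! KA12: pairings of regular families. -/

set_option autoImplicit false

open Complex MeasureTheory Set

namespace Pool.Agent.KAsym

open Pool.Agent.KLog (nrm nsq rt)

variable {R J H : Type} {κ : Mdl R J H} {s : ℂ} {f g : ℂ → ℤ × ℤ → ℂ} {C C' : ℝ}

/-- Regular functions. -/
structure RegS (κ : Mdl R J H) (f : ℂ → ℂ) : Prop where
  diff : DifferentiableOn ℂ f κ.Sec
  lip : ∃ C : ℝ, ∀ s ∈ κ.Sec0, ‖f s - f 0‖ ≤ C * √‖s‖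

private theorem pair_exp_bd (hκ : κ.Ok) (hs : s ∈ κ.Sec0) (n : ℕ) : ‖exp (-n * s)‖ ≤ 2 ^ n :=
  exp_bd ((sec0_small hκ hs).trans (by norm_num))

private theorem pair_norm_le_sqrt (hκ : κ.Ok) (hs : s ∈ κ.Sec0) : ‖s‖ ≤ √‖s‖ := by
  have h1 : ‖s‖ ≤ 1 := (sec0_small hκ hs).trans (by norm_num)
  have h0 : 0 ≤ ‖s‖ := norm_nonneg s
  apply Real.le_sqrt_of_sq_le
  nlinarith

private theorem pair_exp_lip (hκ : κ.Ok) (hs : s ∈ κ.Sec0) (n : ℕ) :
    ‖exp (-n * s) - 1‖ ≤ 2 ^ n * √‖s‖ :=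
  (exp_lip ((sec0_small hκ hs).trans (by norm_num))).trans
    (mul_le_mul_of_nonneg_left (pair_norm_le_sqrt hκ hs) (by positivity))

/-- The estimate of one term. -/
private theorem pair_term_bd {ι : Type} (hκ : κ.Ok) {c : ι → ℝ} {n : ι → ℕ} {a : ι → ℝ}
    {φ : ℂ → ι → ℂ} {B : ℝ} (hb : ∀ s ∈ κ.Sec0, ∀ i, ‖φ s i‖ ≤ B * a i) (hs : s ∈ κ.Sec0) (i : ι) :
    ‖(c i * exp (-n i * s)) * φ s i‖ ≤ B * (|c i| * 2 ^ n i * a i) := by
  have h1 := pair_exp_bd hκ hs (n i)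
  have h2 := hb s hs i
  have h3 : ‖(c i : ℂ)‖ = |c i| := by
    rw [Complex.norm_real, Real.norm_eq_abs]
  rw [norm_mul, norm_mul, h3]
  calc |c i| * ‖exp (-n i * s)‖ * ‖φ s i‖ ≤ |c i| * 2 ^ n i * (B * a i) := by
        apply mul_le_mul _ h2 (norm_nonneg _) (by positivity)
        exact mul_le_mul_of_nonneg_left h1 (abs_nonneg _)
    _ = B * (|c i| * 2 ^ n i * a i) := by ring

private theorem pair_term_lip {ι : Type} (hκ : κ.Ok) {c : ι → ℝ} {n : ι → ℕ} {a : ι → ℝ}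
    {φ : ℂ → ι → ℂ} {B L : ℝ} (hb : ∀ s ∈ κ.Sec0, ∀ i, ‖φ s i‖ ≤ B * a i)
    (hl : ∀ s ∈ κ.Sec0, ∀ i, ‖φ s i - φ 0 i‖ ≤ L * √‖s‖ * a i) (hs : s ∈ κ.Sec0) (i : ι) :
    ‖(c i * exp (-n i * s)) * φ s i - (c i * exp (-n i * 0)) * φ 0 i‖ ≤
      (B + L) * √‖s‖ * (|c i| * 2 ^ n i * a i) := by
  have h1 := pair_exp_bd hκ hs (n i)
  have h2 := pair_exp_lip hκ hs (n i)
  have h3 := hl s hs i
  have h4 := hb 0 (zero_mem_sec0 hκ) i
  have h5 : ‖(c i : ℂ)‖ = |c i| := by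
    rw [Complex.norm_real, Real.norm_eq_abs]
  have h6 : (c i * exp (-n i * s)) * φ s i - (c i * exp (-n i * 0)) * φ 0 i =
      c i * (exp (-n i * s) * (φ s i - φ 0 i) + (exp (-n i * s) - 1) * φ 0 i) := by
    rw [mul_zero, Complex.exp_zero]
    ring
  rw [h6, norm_mul, h5]
  have h7 : ‖exp (-n i * s) * (φ s i - φ 0 i) + (exp (-n i * s) - 1) * φ 0 i‖ ≤
      2 ^ n i * (L * √‖s‖ * a i) + 2 ^ n i * √‖s‖ * (B * a i) := by
    refine (norm_add_le _ _).trans (add_le_add ?_ ?_)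
    · rw [norm_mul]
      exact mul_le_mul h1 h3 (norm_nonneg _) (by positivity)
    · rw [norm_mul]
      exact mul_le_mul h2 h4 (norm_nonneg _) (by positivity)
  calc |c i| * ‖exp (-n i * s) * (φ s i - φ 0 i) + (exp (-n i * s) - 1) * φ 0 i‖
      ≤ |c i| * (2 ^ n i * (L * √‖s‖ * a i) + 2 ^ n i * √‖s‖ * (B * a i)) :=
        mul_le_mul_of_nonneg_left h7 (abs_nonneg _)
    _ = (B + L) * √‖s‖ * (|c i| * 2 ^ n i * a i) := by ring

/-- Sums of regular families. -/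
private theorem pair_series {ι : Type} (hκ : κ.Ok) {c : ι → ℝ} {n : ι → ℕ} {a : ι → ℝ}
    (hsum : Summable fun i => |c i| * 2 ^ n i * a i) {φ : ℂ → ι → ℂ} {B L : ℝ}
    (hd : ∀ i, DifferentiableOn ℂ (fun s => φ s i) κ.Sec)
    (hb : ∀ s ∈ κ.Sec0, ∀ i, ‖φ s i‖ ≤ B * a i)
    (hl : ∀ s ∈ κ.Sec0, ∀ i, ‖φ s i - φ 0 i‖ ≤ L * √‖s‖ * a i) :
    DifferentiableOn ℂ (fun s => ∑' i, (c i * exp (-n i * s)) * φ s i) κ.Sec ∧
    (∀ s ∈ κ.Sec0, ‖∑' i, (c i * exp (-n i * s)) * φ s i‖ ≤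
      B * ∑' i, |c i| * 2 ^ n i * a i) ∧
    (∀ s ∈ κ.Sec0, ‖∑' i, (c i * exp (-n i * s)) * φ s i -
        ∑' i, (c i * exp (-n i * 0)) * φ 0 i‖ ≤
      (B + L) * √‖s‖ * ∑' i, |c i| * 2 ^ n i * a i) := by
  have hsm : ∀ s ∈ κ.Sec0, Summable fun i => (c i * exp (-n i * s)) * φ s i := fun s hs =>
    Summable.of_norm_bounded (hsum.mul_left B) (fun i => pair_term_bd hκ hb hs i)
  refine ⟨?_, ?_, ?_⟩
  · refine differentiableOn_tsum_of_summable_norm (hsum.mul_left B) (fun i => ?_) isOpen_sec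
      (fun i s hs => pair_term_bd hκ hb (sec_sub hs) i)
    refine DifferentiableOn.mul ?_ (hd i)
    refine DifferentiableOn.const_mul ?_ _
    exact (Differentiable.cexp (differentiable_id.const_mul _)).differentiableOn
  · intro s hs
    rw [← tsum_mul_left]
    exact tsum_of_norm_bounded (hsum.mul_left B).hasSum (fun i => pair_term_bd hκ hb hs i)
  · intro s hs
    rw [← tsum_mul_left, ← (hsm s hs).tsum_sub (hsm 0 (zero_mem_sec0 hκ))]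
    exact tsum_of_norm_bounded (hsum.mul_left ((B + L) * √‖s‖)).hasSum
      (fun i => pair_term_lip hκ hb hl hs i)

private theorem om_pos (x : ℤ × ℤ) : 0 < om x := lt_of_lt_of_le one_pos (one_le_om x)

private theorem reg_nonneg (hκ : κ.Ok) (hf : Reg κ f C) : 0 ≤ C := by
  have h := hf.bd 0 (zero_mem_sec0 hκ) (1, 0) (by simp)
  have h0 := (norm_nonneg _).trans h
  exact nonneg_of_mul_nonneg_left h0 (om_pos _)

/-- The Lipschitz constant can be chosen nonnegative. -/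
private theorem reg_lip (hf : Reg κ f C) : ∃ L : ℝ, 0 ≤ L ∧
    ∀ s ∈ κ.Sec0, ∀ x, x ≠ 0 → ‖f s x - f 0 x‖ ≤ L * √‖s‖ * om x := by
  obtain ⟨L, hL⟩ := hf.lip
  refine ⟨|L|, abs_nonneg _, fun s hs x hx => (hL s hs x hx).trans ?_⟩
  have := om_pos x
  gcongr
  exact le_abs_self L

theorem srcs_reg (hκ : κ.Ok) (hf : Reg κ f C) : RegS κ fun s => κ.srcs s (f s) := by
  obtain ⟨L, hL0, hL⟩ := reg_lip hf
  have h := pair_series hκ (c := κ.hc) (n := κ.hn) (a := fun h => om (κ.ht h)) hκ.h_summable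
    (φ := fun s h => f s (κ.ht h)) (B := C) (L := L)
    (fun i => hf.diff _ (hκ.ht_ne i)) (fun s hs i => hf.bd s hs _ (hκ.ht_ne i))
    (fun s hs i => hL s hs _ (hκ.ht_ne i))
  refine ⟨h.1, (C + L) * ∑' i, |κ.hc i| * 2 ^ κ.hn i * om (κ.ht i), fun s hs => ?_⟩
  refine (h.2.2 s hs).trans (le_of_eq ?_)
  ring

private theorem dfc_series (hκ : κ.Ok) (hf : Reg κ f C) (hg : Reg κ g C') :
    ∃ L : ℝ, DifferentiableOn ℂ (fun s => κ.dfc s (f s) (g s)) κ.Sec ∧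
    (∀ s ∈ κ.Sec0, ‖κ.dfc s (f s) (g s)‖ ≤
      C * C' * ∑' j, |κ.jc j| * 2 ^ κ.jn j * om (κ.js j) * om (κ.jt j)) ∧
    (∀ s ∈ κ.Sec0, ‖κ.dfc s (f s) (g s) - κ.dfc 0 (f 0) (g 0)‖ ≤
      L * √‖s‖ * ∑' j, |κ.jc j| * 2 ^ κ.jn j * om (κ.js j) * om (κ.jt j)) := by
  obtain ⟨L, hL0, hL⟩ := reg_lip hf
  obtain ⟨L', hL0', hL'⟩ := reg_lip hg
  have hC := reg_nonneg hκ hf
  have hC' := reg_nonneg hκ hg
  have e1 : (fun j => |κ.jc j| * 2 ^ κ.jn j * om (κ.js j) * om (κ.jt j)) =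
      fun j => |κ.jc j| * 2 ^ κ.jn j * (om (κ.js j) * om (κ.jt j)) := by
    funext j
    ring
  have e2 : ∀ s, κ.dfc s (f s) (g s) =
      ∑' j, (κ.jc j * exp (-κ.jn j * s)) * (f s (κ.js j) * g s (κ.jt j)) := by
    intro s
    unfold Mdl.dfc Mdl.ej
    refine tsum_congr fun j => ?_
    ring
  have hsum := hκ.j_summable
  rw [e1] at hsum
  have h := pair_series hκ (c := κ.jc) (n := κ.jn) (a := fun j => om (κ.js j) * om (κ.jt j)) hsum
    (φ := fun s j => f s (κ.js j) * g s (κ.jt j)) (B := C * C') (L := L * C' + C * L')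
    (fun i => (hf.diff _ (hκ.js_ne i)).mul (hg.diff _ (hκ.jt_ne i)))
    (fun s hs i => ?_) (fun s hs i => ?_)
  · refine ⟨C * C' + (L * C' + C * L'), ?_, ?_, ?_⟩
    · simp only [e2]
      exact h.1
    · intro s hs
      rw [e2, e1]
      exact h.2.1 s hs
    · intro s hs
      rw [e2, e2, e1]
      exact h.2.2 s hs
  · have h1 := hf.bd s hs _ (hκ.js_ne i)
    have h2 := hg.bd s hs _ (hκ.jt_ne i)
    have := om_pos (κ.js i)
    rw [norm_mul]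
    calc ‖f s (κ.js i)‖ * ‖g s (κ.jt i)‖ ≤ (C * om (κ.js i)) * (C' * om (κ.jt i)) :=
          mul_le_mul h1 h2 (norm_nonneg _) (by positivity)
      _ = C * C' * (om (κ.js i) * om (κ.jt i)) := by ring
  · have h1 := hL s hs _ (hκ.js_ne i)
    have h2 := hL' s hs _ (hκ.jt_ne i)
    have h3 := hg.bd s hs _ (hκ.jt_ne i)
    have h4 := hf.bd 0 (zero_mem_sec0 hκ) _ (hκ.js_ne i)
    have o1 := om_pos (κ.js i)
    have o2 := om_pos (κ.jt i)
    have e3 : f s (κ.js i) * g s (κ.jt i) - f 0 (κ.js i) * g 0 (κ.jt i) =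
        (f s (κ.js i) - f 0 (κ.js i)) * g s (κ.jt i) +
        f 0 (κ.js i) * (g s (κ.jt i) - g 0 (κ.jt i)) := by ring
    rw [e3]
    calc ‖(f s (κ.js i) - f 0 (κ.js i)) * g s (κ.jt i) +
        f 0 (κ.js i) * (g s (κ.jt i) - g 0 (κ.jt i))‖
        ≤ (L * √‖s‖ * om (κ.js i)) * (C' * om (κ.jt i)) +
          (C * om (κ.js i)) * (L' * √‖s‖ * om (κ.jt i)) := by
          refine (norm_add_le _ _).trans (add_le_add ?_ ?_)
          · rw [norm_mul]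
            exact mul_le_mul h1 h3 (norm_nonneg _) (by positivity)
          · rw [norm_mul]
            exact mul_le_mul h4 h2 (norm_nonneg _) (by positivity)
      _ = (L * C' + C * L') * √‖s‖ * (om (κ.js i) * om (κ.jt i)) := by ring

theorem dfc_reg (hκ : κ.Ok) (hf : Reg κ f C) (hg : Reg κ g C') :
    RegS κ fun s => κ.dfc s (f s) (g s) := by
  obtain ⟨L, h1, -, h3⟩ := dfc_series hκ hf hg
  refine ⟨h1, L * ∑' j, |κ.jc j| * 2 ^ κ.jn j * om (κ.js j) * om (κ.jt j), fun s hs => ?_⟩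
  refine (h3 s hs).trans (le_of_eq ?_)
  ring

theorem dfc_bd (hκ : κ.Ok) (hf : Reg κ f C) (hg : Reg κ g C') (hs : s ∈ κ.Sec0) :
    ‖κ.dfc s (f s) (g s)‖ ≤ C * C' * (κ.z / 1000) := by
  obtain ⟨L, -, h2, -⟩ := dfc_series hκ hf hg
  have hC := reg_nonneg hκ hf
  have hC' := reg_nonneg hκ hg
  exact (h2 s hs).trans (mul_le_mul_of_nonneg_left hκ.j_le (by positivity))

private theorem eleven_sq_le (n : ℕ) : 11 * (n : ℝ) ^ 2 ≤ 3 * 4 ^ n := by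
  induction n with
  | zero => norm_num
  | succ n ih =>
    rcases Nat.eq_zero_or_pos n with rfl | hn
    · norm_num
    · have h1 : (1 : ℝ) ≤ n := by exact_mod_cast hn
      have h2 : (4 : ℝ) ^ (n + 1) = 4 * 4 ^ n := by ring
      push_cast
      rw [h2]
      nlinarith

theorem pot_reg (hκ : κ.Ok) : Reg κ κ.pot (3 / 10 / κ.z) := by
  have hz := hκ.z_pos
  refine ⟨fun x _ => pot_diff hκ x, fun s hs x _ => ?_, ?_⟩
  · refine (pot_bd hκ hs x).trans ?_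
    have h := eleven_sq_le (nrm x)
    unfold om
    have e1 : 11 / 10 / κ.z * (nrm x : ℝ) ^ 2 = (11 * (nrm x : ℝ) ^ 2) * (1 / 10 / κ.z) := by ring
    have e2 : 3 / 10 / κ.z * (4 : ℝ) ^ nrm x = (3 * 4 ^ nrm x) * (1 / 10 / κ.z) := by ring
    rw [e1, e2]
    exact mul_le_mul_of_nonneg_right h (by positivity)
  · obtain ⟨C, hC⟩ := pot_lip hκ
    refine ⟨|C|, fun s hs x _ => (hC s hs x).trans ?_⟩
    have h1 := nrm_sq_le_om x
    have h2 := le_abs_self C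
    have h3 := Real.sqrt_nonneg ‖s‖
    calc C * √‖s‖ * (nrm x : ℝ) ^ 2 ≤ |C| * √‖s‖ * (nrm x : ℝ) ^ 2 := by gcongr
      _ ≤ |C| * √‖s‖ * om x := by gcongr

theorem src_reg (hκ : κ.Ok) : ∃ C, Reg κ (fun s x => κ.srcs s (fun w => κ.GG s w x)) C := by
  have hz := hκ.z_pos
  obtain ⟨L, hL⟩ := GG_lip hκ
  have key : ∀ x : ℤ × ℤ, x ≠ 0 → _ := fun x hx =>
    pair_series hκ (c := κ.hc) (n := κ.hn) (a := fun h => om (κ.ht h)) hκ.h_summable
    (φ := fun s h => κ.GG s (κ.ht h) x) (B := 1 / κ.z * om x) (L := L * om x)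
    (fun i => GG_diff hκ _ _)
    (fun s hs i => (GG_bd hκ hs (hκ.ht_ne i) hx).trans (le_of_eq (by ring)))
    (fun s hs i => (hL s hs (κ.ht i) x).trans (le_of_eq (by ring)))
  refine ⟨1 / κ.z * ∑' h, |κ.hc h| * 2 ^ κ.hn h * om (κ.ht h), fun x hx => (key x hx).1,
    fun s hs x hx => ?_, ⟨(1 / κ.z + L) * ∑' h, |κ.hc h| * 2 ^ κ.hn h * om (κ.ht h),
      fun s hs x hx => ?_⟩⟩
  · refine ((key x hx).2.1 s hs).trans (le_of_eq ?_)
    ring
  · refine ((key x hx).2.2 s hs).trans (le_of_eq ?_)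
    ring

end Pool.Agent.KAsym
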