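import Pool.Agent.KAsym.SolGrn
import Pool.Agent.KAsym.Pair
import Pool.Agent.KAsym.GamAsy

/-! KA13: the singularity of the generating function. -/

set_option autoImplicit false

open Complex MeasureTheory Set

namespace Pool.Agent.KAsym

open Pool.Agent.KLog (nrm nsq rt)

variable {R J H : Type} {κ : Mdl R J H} {s : ℂ} {m : ℂ → ℤ × ℤ → ℂ}

private theorem om_nn (v : ℤ × ℤ) : 0 ≤ om v := by unfold om; positivity

private theorem near_exp_le (hκ : κ.Ok) (hs : s ∈ κ.Sec0) (n : ℕ) :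
    ‖exp (-(n : ℂ) * s)‖ ≤ 2 ^ n := by
  rw [Complex.norm_exp]
  have h1 : (-(n : ℂ) * s).re = n * (-s.re) := by simp
  rw [h1, Real.exp_nat_mul]
  have h2 : ‖s‖ < 40 * κ.z := hs.1
  have h3 : -‖s‖ / 2 ≤ s.re := hs.2
  have h4 := hκ.z_le
  have h5 : -s.re ≤ 1 / 2 := by
    have : κ.z ≤ 1 / 40 := h4.trans (by norm_num)
    linarith
  have h6 : Real.exp (-s.re) ≤ 2 := by
    calc Real.exp (-s.re) ≤ Real.exp (Real.log 2) :=
          Real.exp_le_exp.2 (h5.trans (by have := Real.log_two_gt_d9; linarith))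
      _ = 2 := Real.exp_log (by norm_num)
  exact pow_le_pow_left₀ (Real.exp_pos _).le h6 n

private theorem near_ej_le (hκ : κ.Ok) (hs : s ∈ κ.Sec0) (j : J) :
    ‖κ.ej s j‖ ≤ |κ.jc j| * 2 ^ κ.jn j := by
  unfold Mdl.ej
  rw [norm_mul, Complex.norm_real, Real.norm_eq_abs]
  exact mul_le_mul_of_nonneg_left (near_exp_le hκ hs _) (abs_nonneg _)

private theorem near_eh_le (hκ : κ.Ok) (hs : s ∈ κ.Sec0) (h : H) :
    ‖κ.eh s h‖ ≤ |κ.hc h| * 2 ^ κ.hn h := by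
  unfold Mdl.eh
  rw [norm_mul, Complex.norm_real, Real.norm_eq_abs]
  exact mul_le_mul_of_nonneg_left (near_exp_le hκ hs _) (abs_nonneg _)

private theorem near_sum_dfc (hκ : κ.Ok) (hs : s ∈ κ.Sec0) {f g : ℤ × ℤ → ℂ} {C C' : ℝ}
    (hf : ∀ x, x ≠ 0 → ‖f x‖ ≤ C * om x) (hg : ∀ x, x ≠ 0 → ‖g x‖ ≤ C' * om x) :
    Summable fun j => κ.ej s j * f (κ.js j) * g (κ.jt j) := by
  refine Summable.of_norm_bounded (hκ.j_summable.mul_left (C * C')) fun j => ?_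
  rw [norm_mul, norm_mul]
  have h1 := near_ej_le hκ hs j
  have h2 := hf _ (hκ.js_ne j)
  have h3 := hg _ (hκ.jt_ne j)
  calc ‖κ.ej s j‖ * ‖f (κ.js j)‖ * ‖g (κ.jt j)‖
      ≤ (|κ.jc j| * 2 ^ κ.jn j) * (C * om (κ.js j)) * (C' * om (κ.jt j)) := by
        refine mul_le_mul (mul_le_mul h1 h2 (norm_nonneg _) (by positivity)) h3 (norm_nonneg _) ?_
        exact mul_nonneg (by positivity) ((norm_nonneg _).trans h2)
    _ = C * C' * (|κ.jc j| * 2 ^ κ.jn j * om (κ.js j) * om (κ.jt j)) := by ring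

private theorem near_sum_srcs (hκ : κ.Ok) (hs : s ∈ κ.Sec0) {f : ℤ × ℤ → ℂ} {C : ℝ}
    (hf : ∀ x, x ≠ 0 → ‖f x‖ ≤ C * om x) : Summable fun h => κ.eh s h * f (κ.ht h) := by
  refine Summable.of_norm_bounded (hκ.h_summable.mul_left C) fun h => ?_
  rw [norm_mul]
  have h1 := near_eh_le hκ hs h
  have h2 := hf _ (hκ.ht_ne h)
  calc ‖κ.eh s h‖ * ‖f (κ.ht h)‖ ≤ (|κ.hc h| * 2 ^ κ.hn h) * (C * om (κ.ht h)) :=
        mul_le_mul h1 h2 (norm_nonneg _) (by positivity)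
    _ = C * (|κ.hc h| * 2 ^ κ.hn h * om (κ.ht h)) := by ring

/-- `dfc` is linear in the first argument. -/
private theorem near_dfc_lin (hκ : κ.Ok) (hs : s ∈ κ.Sec0) {f₁ f₂ f₃ g : ℤ × ℤ → ℂ}
    {C₁ C₂ C₃ C' : ℝ} (t : ℂ) (h1 : ∀ x, x ≠ 0 → ‖f₁ x‖ ≤ C₁ * om x)
    (h2 : ∀ x, x ≠ 0 → ‖f₂ x‖ ≤ C₂ * om x) (h3 : ∀ x, x ≠ 0 → ‖f₃ x‖ ≤ C₃ * om x)
    (hg : ∀ x, x ≠ 0 → ‖g x‖ ≤ C' * om x) :
    κ.dfc s (fun x => f₁ x - f₂ x + t * f₃ x) g =
      κ.dfc s f₁ g - κ.dfc s f₂ g + t * κ.dfc s f₃ g := by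
  unfold Mdl.dfc
  rw [← (near_sum_dfc hκ hs h1 hg).tsum_sub (near_sum_dfc hκ hs h2 hg), ← tsum_mul_left,
    ← ((near_sum_dfc hκ hs h1 hg).sub (near_sum_dfc hκ hs h2 hg)).tsum_add
      ((near_sum_dfc hκ hs h3 hg).mul_left t)]
  exact tsum_congr fun j => by ring

private theorem near_sec_sub (hs : s ∈ κ.Sec) : s ∈ κ.Sec0 := ⟨hs.2.1, hs.2.2.le⟩

private theorem near_sqrt_le (hκ : κ.Ok) (hs : s ∈ κ.Sec0) : √‖s‖ ≤ 1 := by
  have h2 : ‖s‖ < 40 * κ.z := hs.1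
  have h4 : κ.z ≤ 1 / 40 := hκ.z_le.trans (by norm_num)
  exact Real.sqrt_le_one.2 (by linarith)

private theorem near_regS_sub {f g : ℂ → ℂ} (hf : RegS κ f) (hg : RegS κ g) :
    RegS κ fun s => f s - g s := by
  refine ⟨hf.diff.sub hg.diff, ?_⟩
  obtain ⟨C, hC⟩ := hf.lip
  obtain ⟨C', hC'⟩ := hg.lip
  refine ⟨C + C', fun s hs => ?_⟩
  calc ‖f s - g s - (f 0 - g 0)‖ = ‖(f s - f 0) - (g s - g 0)‖ := by ring_nf
    _ ≤ ‖f s - f 0‖ + ‖g s - g 0‖ := norm_sub_le _ _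
    _ ≤ C * √‖s‖ + C' * √‖s‖ := add_le_add (hC s hs) (hC' s hs)
    _ = (C + C') * √‖s‖ := by ring

private theorem near_regS_mul (hκ : κ.Ok) {f g : ℂ → ℂ} (hf : RegS κ f) (hg : RegS κ g) :
    RegS κ fun s => f s * g s := by
  refine ⟨hf.diff.mul hg.diff, ?_⟩
  obtain ⟨C, hC⟩ := hf.lip
  obtain ⟨C', hC'⟩ := hg.lip
  refine ⟨|C| * (‖g 0‖ + |C'|) + ‖f 0‖ * |C'|, fun s hs => ?_⟩
  have h0 : 0 ≤ √‖s‖ := Real.sqrt_nonneg _
  have h1 : ‖f s - f 0‖ ≤ |C| * √‖s‖ :=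
    (hC s hs).trans (mul_le_mul_of_nonneg_right (le_abs_self _) h0)
  have h2 : ‖g s - g 0‖ ≤ |C'| * √‖s‖ :=
    (hC' s hs).trans (mul_le_mul_of_nonneg_right (le_abs_self _) h0)
  have h3 : ‖g s‖ ≤ ‖g 0‖ + |C'| := by
    have h4 : ‖g s‖ ≤ ‖g 0‖ + ‖g s - g 0‖ := by
      calc ‖g s‖ = ‖g 0 + (g s - g 0)‖ := by ring_nf
        _ ≤ _ := norm_add_le _ _
    have h5 : |C'| * √‖s‖ ≤ |C'| * 1 :=
      mul_le_mul_of_nonneg_left (near_sqrt_le hκ hs) (abs_nonneg _)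
    linarith
  calc ‖f s * g s - f 0 * g 0‖ = ‖(f s - f 0) * g s + f 0 * (g s - g 0)‖ := by ring_nf
    _ ≤ ‖f s - f 0‖ * ‖g s‖ + ‖f 0‖ * ‖g s - g 0‖ := by
        refine (norm_add_le _ _).trans ?_
        rw [norm_mul, norm_mul]
    _ ≤ (|C| * √‖s‖) * (‖g 0‖ + |C'|) + ‖f 0‖ * (|C'| * √‖s‖) := by gcongr
    _ = (|C| * (‖g 0‖ + |C'|) + ‖f 0‖ * |C'|) * √‖s‖ := by ring

/-- **The singularity.** -/
theorem near (hκ : κ.Ok) (hm : κ.Sol m) : ∃ g : ℂ → ℂ, DifferentiableOn ℂ g κ.Sec ∧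
    (∀ s ∈ κ.Sec, 0 < s.re → g s = κ.srcs s (m s)) ∧
    ∃ (A B c : ℂ) (C r : ℝ), 0 < r ∧ ∀ s ∈ κ.Sec, ‖s‖ < r →
      ‖g s - A + B / (c - log s)‖ ≤ C * √‖s‖ := by
  obtain ⟨C0, hsrc⟩ := src_reg hκ
  obtain ⟨p, hp, hpe⟩ := neumann hκ hsrc
  obtain ⟨h, hh, hhe⟩ := neumann hκ (pot_reg hκ)
  have hP := srcs_reg hκ hp
  have hQ := srcs_reg hκ hh
  have hpotS := srcs_reg hκ (pot_reg hκ)
  have hpp := dfc_reg hκ hp (pot_reg hκ)
  have hE := dfc_reg hκ hh (pot_reg hκ)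
  have hz := hκ.z_pos
  have hM := near_regS_mul hκ (near_regS_sub hpotS hpp) hQ
  -- the denominator
  have hD : ∀ s ∈ κ.Sec, 1 / (1000 * κ.z) ≤ ‖κ.gam s - κ.dfc s (h s) (κ.pot s)‖ := by
    intro s hs
    have h1 := gam_low hκ hs
    have h2 := dfc_bd hκ hh (pot_reg hκ) (near_sec_sub hs)
    have h3 : 2 * (3 / 10 / κ.z) * (3 / 10 / κ.z) * (κ.z / 1000) = 0.00018 / κ.z := by
      field_simp
      norm_num
    rw [h3] at h2
    have h4 := norm_sub_norm_le (κ.gam s) (κ.dfc s (h s) (κ.pot s))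
    have h5 : 1 / (500 * κ.z) = 0.002 / κ.z := by field_simp; norm_num
    have h6 : 1 / (1000 * κ.z) = 0.001 / κ.z := by field_simp; norm_num
    rw [h5] at h1
    rw [h6]
    have h7 : 0.001 / κ.z ≤ 0.002 / κ.z - 0.00018 / κ.z := by
      rw [← sub_div]
      exact div_le_div_of_nonneg_right (by norm_num) hz.le
    linarith
  have hDpos : 0 < 1 / (1000 * κ.z) := by positivity
  have hD0 : ∀ s ∈ κ.Sec, κ.gam s - κ.dfc s (h s) (κ.pot s) ≠ 0 := by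
    intro s hs h0
    have := hD s hs
    rw [h0, norm_zero] at this
    linarith
  refine ⟨fun s => κ.srcs s (p s) -
    (κ.srcs s (κ.pot s) - κ.dfc s (p s) (κ.pot s)) * κ.srcs s (h s) /
      (κ.gam s - κ.dfc s (h s) (κ.pot s)),
    hP.diff.sub (hM.diff.div ((gam_diff hκ).sub hE.diff) hD0), ?_, ?_⟩
  · intro s hs hre
    have hs0 := near_sec_sub hs
    obtain ⟨t, ht1, ht2⟩ := sol_pot hκ hm hre hs
    obtain ⟨Cm, hCm⟩ := hm.growth
    have hmb : ∀ x, x ≠ 0 → ‖m s x‖ ≤ Cm * om x := fun x _ => hCm s hre x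
    have hpb := hp.bd s hs0
    have hhb := hh.bd s hs0
    have hpotb := (pot_reg hκ).bd s hs0
    have he : ∀ x, x ≠ 0 → m s x - p s x + t * h s x = 0 := by
      refine uniq hκ hs0 (e := fun x => m s x - p s x + t * h s x)
        (C := Cm + 2 * C0 + ‖t‖ * (2 * (3 / 10 / κ.z))) ?_ ?_
      · intro x hx
        calc ‖m s x - p s x + t * h s x‖ ≤ ‖m s x - p s x‖ + ‖t * h s x‖ := norm_add_le _ _
          _ ≤ ‖m s x‖ + ‖p s x‖ + ‖t‖ * ‖h s x‖ := by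
              rw [norm_mul]
              exact add_le_add_left (norm_sub_le _ _) _
          _ ≤ Cm * om x + 2 * C0 * om x + ‖t‖ * (2 * (3 / 10 / κ.z) * om x) := by
              have := hmb x hx
              have := hpb x hx
              have := mul_le_mul_of_nonneg_left (hhb x hx) (norm_nonneg t)
              linarith
          _ = _ := by ring
      · intro x hx
        have hGb : ∀ w, w ≠ 0 → ‖κ.GG s w x‖ ≤ (1 / κ.z * om x) * om w := fun w hw => by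
          have := GG_bd hκ hs0 hw hx
          linarith [this, show 1 / κ.z * om w * om x = (1 / κ.z * om x) * om w by ring]
        rw [near_dfc_lin hκ hs0 t hmb hpb hhb hGb]
        have e1 := ht1 x
        have e2 := hpe s hs0 x hx
        have e3 := hhe s hs0 x hx
        linear_combination e1 - e2 + t * e3
    have hmx : ∀ x, x ≠ 0 → m s x = p s x - t * h s x := fun x hx => by
      linear_combination he x hx
    -- the pairing with the sources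
    have h1 : κ.srcs s (m s) = κ.srcs s (p s) - t * κ.srcs s (h s) := by
      unfold Mdl.srcs
      rw [← tsum_mul_left, ← (near_sum_srcs hκ hs0 hpb).tsum_sub
        ((near_sum_srcs hκ hs0 hhb).mul_left t)]
      refine tsum_congr fun i => ?_
      rw [hmx _ (hκ.ht_ne i)]
      ring
    have h2 : κ.dfc s (m s) (κ.pot s) =
        κ.dfc s (p s) (κ.pot s) - t * κ.dfc s (h s) (κ.pot s) := by
      unfold Mdl.dfc
      rw [← tsum_mul_left, ← (near_sum_dfc hκ hs0 hpb hpotb).tsum_sub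
        ((near_sum_dfc hκ hs0 hhb hpotb).mul_left t)]
      refine tsum_congr fun i => ?_
      rw [hmx _ (hκ.js_ne i)]
      ring
    rw [h2] at ht2
    have h3 : t * (κ.gam s - κ.dfc s (h s) (κ.pot s)) =
        κ.srcs s (κ.pot s) - κ.dfc s (p s) (κ.pot s) := by linear_combination ht2
    have h4 := hD0 s hs
    show κ.srcs s (p s) - (κ.srcs s (κ.pot s) - κ.dfc s (p s) (κ.pot s)) * κ.srcs s (h s) /
      (κ.gam s - κ.dfc s (h s) (κ.pot s)) = κ.srcs s (m s)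
    rw [h1, ← h3]
    field_simp
  · obtain ⟨c₁, hc₁, c₂, C₂, hasy⟩ := gam_asy hκ
    obtain ⟨CP, hCP⟩ := hP.lip
    obtain ⟨CM, hCM⟩ := hM.lip
    obtain ⟨CE, hCE⟩ := hE.lip
    set E : ℂ → ℂ := fun s => κ.dfc s (h s) (κ.pot s) with hEdef
    set P : ℂ → ℂ := fun s => κ.srcs s (p s) with hPdef
    set M : ℂ → ℂ := fun s => (κ.srcs s (κ.pot s) - κ.dfc s (p s) (κ.pot s)) * κ.srcs s (h s)
      with hMdef
    have hc1 : (c₁ : ℂ) ≠ 0 := by exact_mod_cast hc₁.ne'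
    set c : ℂ := (c₂ - E 0) / c₁ with hc
    refine ⟨P 0, M 0 / c₁, c, CP + CM * (1000 * κ.z) +
      ‖M 0‖ * (C₂ + CE) * (1000 * κ.z) / c₁, Real.exp (-(‖c‖ + 1)), Real.exp_pos _, ?_⟩
    intro s hs hsr
    have hs0 := near_sec_sub hs
    have hsn : 0 < ‖s‖ := norm_pos_iff.2 hs.1
    -- the logarithm is large
    have hlog : 1 ≤ ‖c - log s‖ := by
      have h1 : Real.log ‖s‖ < -(‖c‖ + 1) := by
        rw [← Real.log_exp (-(‖c‖ + 1))]
        exact Real.log_lt_log hsn hsr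
      have h2 : -Real.log ‖s‖ ≤ ‖log s‖ := by
        rw [← Complex.log_re]
        exact (neg_le_abs _).trans (Complex.abs_re_le_norm _)
      have h3 : ‖log s‖ - ‖c‖ ≤ ‖c - log s‖ := by
        rw [norm_sub_rev]
        exact norm_sub_norm_le _ _
      linarith
    have hln : c - log s ≠ 0 := fun h0 => by
      rw [h0, norm_zero] at hlog
      linarith
    set D : ℂ := κ.gam s - E s with hDdef
    set D₁ : ℂ := c₁ * (c - log s) with hD1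
    have hD1n : D₁ ≠ 0 := mul_ne_zero hc1 hln
    have hD1l : c₁ ≤ ‖D₁‖ := by
      rw [hD1, norm_mul, Complex.norm_real, Real.norm_eq_abs, abs_of_pos hc₁]
      nlinarith
    have hDn : D ≠ 0 := hD0 s hs
    have hDl : 1 / (1000 * κ.z) ≤ ‖D‖ := hD s hs
    have hdiff : ‖D₁ - D‖ ≤ (C₂ + CE) * √‖s‖ := by
      have e1 : D₁ - D = -(κ.gam s - (c₂ - c₁ * log s)) + (E s - E 0) := by
        rw [hD1, hDdef, hc]
        field_simp
        ring
      rw [e1]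
      calc _ ≤ ‖-(κ.gam s - (c₂ - c₁ * log s))‖ + ‖E s - E 0‖ := norm_add_le _ _
        _ ≤ C₂ * √‖s‖ + CE * √‖s‖ := by
            rw [norm_neg]
            exact add_le_add (hasy s hs) (hCE s hs0)
        _ = _ := by ring
    have hkey : P s - M s / D - P 0 + M 0 / c₁ / (c - log s) =
        (P s - P 0) - (M s - M 0) * D⁻¹ - M 0 * (D₁ - D) * D⁻¹ * D₁⁻¹ := by
      have e1 : M 0 / c₁ / (c - log s) = M 0 / D₁ := by rw [hD1, div_div]
      rw [e1]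
      field_simp
      ring
    have hDi : ‖D⁻¹‖ ≤ 1000 * κ.z := by
      rw [norm_inv, inv_le_comm₀ (norm_pos_iff.2 hDn) (by positivity)]
      rw [one_div] at hDl
      exact hDl
    have hD1i : ‖D₁⁻¹‖ ≤ 1 / c₁ := by
      rw [norm_inv, one_div]
      exact inv_anti₀ hc₁ hD1l
    show ‖P s - M s / D - P 0 + M 0 / c₁ / (c - log s)‖ ≤ _
    rw [hkey]
    have hq : 0 ≤ √‖s‖ := Real.sqrt_nonneg _
    have b1 : ‖P s - P 0‖ ≤ CP * √‖s‖ := hCP s hs0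
    have b2 : ‖(M s - M 0) * D⁻¹‖ ≤ (CM * √‖s‖) * (1000 * κ.z) := by
      rw [norm_mul]
      exact mul_le_mul (hCM s hs0) hDi (norm_nonneg _) ((norm_nonneg _).trans (hCM s hs0))
    have b3 : ‖M 0 * (D₁ - D) * D⁻¹ * D₁⁻¹‖ ≤
        ‖M 0‖ * ((C₂ + CE) * √‖s‖) * (1000 * κ.z) * (1 / c₁) := by
      rw [norm_mul, norm_mul, norm_mul]
      have n1 : 0 ≤ (C₂ + CE) * √‖s‖ := (norm_nonneg _).trans hdiff
      gcongr
    calc _ ≤ ‖(P s - P 0) - (M s - M 0) * D⁻¹‖ + ‖M 0 * (D₁ - D) * D⁻¹ * D₁⁻¹‖ :=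
          norm_sub_le _ _
      _ ≤ ‖P s - P 0‖ + ‖(M s - M 0) * D⁻¹‖ + ‖M 0 * (D₁ - D) * D⁻¹ * D₁⁻¹‖ :=
          add_le_add_left (norm_sub_le _ _) _
      _ ≤ CP * √‖s‖ + (CM * √‖s‖) * (1000 * κ.z) +
          ‖M 0‖ * ((C₂ + CE) * √‖s‖) * (1000 * κ.z) * (1 / c₁) :=
          add_le_add (add_le_add b1 b2) b3
      _ = _ := by ring

end Pool.Agent.KAsym
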