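import Pool.Agent.KAsym.Trf

/-! KA17: the asymptotics of the main integral. -/

set_option autoImplicit false

open Complex MeasureTheory Set Filter Topology

namespace Pool.Agent.KAsym

private lemma mi_norm_exp (a : ℂ) (ha : a.re = 1) (x : ℝ) : ‖exp (-(a * x))‖ = Real.exp (-x) := by
  rw [Complex.norm_exp]
  congr 1
  simp [ha]

private lemma mi_integrableOn (a : ℂ) (ha : a.re = 1) :
    IntegrableOn (fun x : ℝ => (x : ℂ) * exp (-(a * x))) (Ioi 0) := by
  have h := Real.GammaIntegral_convergent (s := 2) (by norm_num)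
  refine Integrable.mono' h ?_ ?_
  · exact (by fun_prop : Continuous fun x : ℝ => (x : ℂ) * exp (-(a * x))).aestronglyMeasurable
  · refine (ae_restrict_iff' measurableSet_Ioi).mpr (Eventually.of_forall fun x hx => ?_)
    have hx0 : 0 < x := hx
    rw [norm_mul, mi_norm_exp a ha, Complex.norm_real, Real.norm_of_nonneg hx0.le]
    have : x ^ ((2 : ℝ) - 1) = x := by
      norm_num
    rw [this, mul_comm]

private lemma mi_int (a : ℂ) (ha : a.re = 1) :
    ∫ x in Ioi (0 : ℝ), (x : ℂ) * exp (-(a * x)) = 1 / a ^ 2 := by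
  have ha0 : a ≠ 0 := by
    rintro rfl
    simp at ha
  have hd : ∀ x : ℝ, HasDerivAt (fun x : ℝ => -((x : ℂ) / a + 1 / a ^ 2) * exp (-(a * x)))
      ((x : ℂ) * exp (-(a * x))) x := by
    intro x
    have h1 : HasDerivAt (fun x : ℝ => (x : ℂ)) 1 x := Complex.ofRealCLM.hasDerivAt
    have h2 : HasDerivAt (fun x : ℝ => exp (-(a * (x : ℂ)))) (exp (-(a * x)) * (-(a * 1))) x :=
      ((h1.const_mul a).fun_neg).cexp
    have h3 : HasDerivAt (fun x : ℝ => -((x : ℂ) / a + 1 / a ^ 2)) (-(1 / a)) x :=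
      ((h1.div_const a).add_const _).fun_neg
    refine (h3.fun_mul h2).congr_deriv ?_
    have e : -(1 / a) * exp (-(a * (x : ℂ))) + -((x : ℂ) / a + 1 / a ^ 2) *
        (exp (-(a * (x : ℂ))) * -(a * 1)) =
        (x : ℂ) * exp (-(a * (x : ℂ))) * (a / a) +
        exp (-(a * (x : ℂ))) * (1 / a) * (a / a - 1) := by
      ring
    rw [e, div_self ha0]
    ring
  have ht : Tendsto (fun x : ℝ => -((x : ℂ) / a + 1 / a ^ 2) * exp (-(a * x))) atTop (𝓝 0) := by
    rw [tendsto_zero_iff_norm_tendsto_zero]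
    have h1 := Real.tendsto_pow_mul_exp_neg_atTop_nhds_zero 1
    have h0 := Real.tendsto_pow_mul_exp_neg_atTop_nhds_zero 0
    have h2 : Tendsto (fun x : ℝ => ‖a‖⁻¹ * (x ^ 1 * Real.exp (-x)) +
        ‖1 / a ^ 2‖ * (x ^ 0 * Real.exp (-x))) atTop (𝓝 (‖a‖⁻¹ * 0 + ‖1 / a ^ 2‖ * 0)) :=
      (h1.const_mul _).add (h0.const_mul _)
    rw [mul_zero, mul_zero, add_zero] at h2
    refine squeeze_zero' (Eventually.of_forall fun x => norm_nonneg _) ?_ h2
    filter_upwards [eventually_ge_atTop (0 : ℝ)] with x hx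
    rw [norm_mul, norm_neg, mi_norm_exp a ha]
    have h3 : ‖(x : ℂ) / a + 1 / a ^ 2‖ ≤ ‖a‖⁻¹ * x + ‖1 / a ^ 2‖ := by
      refine (norm_add_le _ _).trans ?_
      rw [norm_div, Complex.norm_real, Real.norm_of_nonneg hx, div_eq_inv_mul]
    have h4 := mul_le_mul_of_nonneg_right h3 (Real.exp_nonneg (-x))
    refine h4.trans (le_of_eq ?_)
    ring
  have h := integral_Ioi_of_hasDerivAt_of_tendsto (a := (0 : ℝ))
    ((hd 0).continuousAt.continuousWithinAt) (fun x _ => hd x) (mi_integrableOn a ha) ht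
  rw [h]
  simp

private lemma mi_sq (t : ℝ) : ‖(1 + t * I : ℂ)‖ ^ 2 = 1 + t ^ 2 := by
  rw [← Complex.normSq_eq_norm_sq, Complex.normSq_apply]
  simp
  ring

private lemma mi_ne (t : ℝ) : (1 + t * I : ℂ) ≠ 0 := by
  intro h
  have := mi_sq t
  rw [h] at this
  have h2 : (0 : ℝ) < 1 + t ^ 2 := by positivity
  simp at this
  linarith

/-- The inverse Fourier transform of `(1 + i t)⁻²` at `1`. -/
theorem gamma_two : (2 * Real.pi : ℂ)⁻¹ * ∫ t : ℝ, exp (t * I) / (1 + t * I) ^ 2 = exp (-1) := by
  set f : ℝ → ℂ := fun x => ((max x 0 : ℝ) : ℂ) * exp (-(x : ℂ)) with hf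
  have hfc : Continuous f := by fun_prop
  have hind : f = (Ioi (0 : ℝ)).indicator fun x : ℝ => (x : ℂ) * exp (-(1 * x)) := by
    funext x
    by_cases hx : 0 < x
    · rw [indicator_of_mem (show x ∈ Ioi (0 : ℝ) from hx), hf]
      simp only
      rw [max_eq_left hx.le, one_mul]
    · rw [indicator_of_notMem (show x ∉ Ioi (0 : ℝ) from hx), hf]
      simp only
      rw [max_eq_right (not_lt.mp hx)]
      simp
  have hfi : Integrable f := by
    rw [hind, integrable_indicator_iff measurableSet_Ioi]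
    exact mi_integrableOn 1 (by simp)
  have hF : FourierTransform.fourier f =
      fun ξ : ℝ => 1 / (1 + ((2 * Real.pi * ξ : ℝ) : ℂ) * I) ^ 2 := by
    funext ξ
    rw [Real.fourier_real_eq_integral_exp_smul]
    rw [← mi_int (1 + ((2 * Real.pi * ξ : ℝ) : ℂ) * I) (by simp), ← integral_indicator
      measurableSet_Ioi]
    refine integral_congr_ae (Eventually.of_forall fun x => ?_)
    simp only
    rw [hind]
    by_cases hx : x ∈ Ioi (0 : ℝ)
    · rw [indicator_of_mem hx, indicator_of_mem hx, smul_eq_mul, mul_left_comm, ← Complex.exp_add]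
      congr 2
      push_cast
      ring
    · rw [indicator_of_notMem hx, indicator_of_notMem hx, smul_zero]
  have hFi : Integrable (FourierTransform.fourier f) := by
    rw [hF]
    have h1 := (integrable_inv_one_add_sq).comp_mul_left' (R := 2 * Real.pi) (by positivity)
    refine Integrable.mono' h1 ?_ (Eventually.of_forall fun ξ => ?_)
    · refine Continuous.aestronglyMeasurable ?_
      refine Continuous.div continuous_const (by fun_prop) fun ξ => ?_
      exact pow_ne_zero _ (mi_ne _)
    · rw [norm_div, norm_pow, mi_sq]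
      simp
  have h := congrFun (hfc.fourierInv_fourier_eq hfi hFi) 1
  rw [Real.fourierInv_eq', hF] at h
  have h2 : ∀ ξ : ℝ, exp (((2 * Real.pi * inner ℝ ξ 1 : ℝ) : ℂ) * I) •
      (1 / (1 + ((2 * Real.pi * ξ : ℝ) : ℂ) * I) ^ 2) =
      (fun t : ℝ => exp (t * I) / (1 + t * I) ^ 2) (2 * Real.pi * ξ) := by
    intro ξ
    have h3 : (inner ℝ ξ 1 : ℝ) = ξ := by simp
    rw [h3, smul_eq_mul]
    simp only
    rw [mul_one_div]
  simp only [h2] at h
  rw [Measure.integral_comp_mul_left (fun t : ℝ => exp (t * I) / (1 + t * I) ^ 2)] at h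
  have h3 : |(2 * Real.pi)⁻¹| = (2 * Real.pi)⁻¹ := abs_of_pos (by positivity)
  rw [h3] at h
  have h4 : f 1 = exp (-1) := by
    rw [hf]
    simp
  rw [h4] at h
  rw [← h, Complex.real_smul]
  push_cast
  rfl

/-- **The main integral.** -/
theorem mnI_tendsto (B c : ℂ) {r : ℝ} (hr : 0 < r) (hr1 : r ≤ 1) (hc : 1 ≤ c.re - Real.log r) :
    Tendsto (fun n : ℕ => ((Real.log n ^ 2 / n : ℝ) : ℂ) * mnI B c r n) atTop
      (𝓝 (B * exp (-1))) := by
  set w : ℝ → ℂ := fun t => log (1 + t * I) with hw
  set L : ℕ → ℝ → ℂ := fun n t => c - w t + (Real.log n : ℝ) with hL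
  set H : ℕ → ℝ → ℂ := fun n t => B / (1 + t * I) ^ 2 *
    (((Real.log n : ℝ) * (L n t)⁻¹) ^ 2 - 2 * ((Real.log n : ℝ) * (L n t)⁻¹) ^ 2 * (L n t)⁻¹) *
    exp (t * I) with hH
  set J : ℕ → Set ℝ := fun n => Ioc (n * (-(r / 2))) (n * (r / 2)) with hJ
  -- the main integral in terms of H
  have key : ∀ n : ℕ, 0 < n → ((Real.log n ^ 2 / n : ℝ) : ℂ) * mnI B c r n =
      (2 * Real.pi : ℂ)⁻¹ * ∫ t : ℝ, (J n).indicator (H n) t := by
    intro n hn
    have hn0 : (0 : ℝ) < n := by exact_mod_cast hn
    have hnc : (n : ℂ) ≠ 0 := by exact_mod_cast hn.ne'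
    have e1 : ∀ φ : ℝ, mn2 B c ((n : ℂ)⁻¹ + φ * I) * exp (n * φ * I) =
        (fun t : ℝ => mn2 B c ((n : ℂ)⁻¹ * (1 + t * I)) * exp (t * I)) (n * φ) := by
      intro φ
      simp only
      have h1 : (n : ℂ)⁻¹ * (1 + ((n * φ : ℝ) : ℂ) * I) = (n : ℂ)⁻¹ + φ * I := by
        push_cast
        field_simp
      rw [h1]
      push_cast
      rfl
    have e2 : ∀ t : ℝ, mn2 B c ((n : ℂ)⁻¹ * (1 + t * I)) * exp (t * I) =
        (n : ℂ) ^ 2 * (B / (1 + t * I) ^ 2 * ((L n t)⁻¹ ^ 2 - 2 * (L n t)⁻¹ ^ 3) *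
          exp (t * I)) := by
      intro t
      have h1 : log ((n : ℂ)⁻¹ * (1 + t * I)) = w t - (Real.log n : ℝ) := by
        have h2 : (n : ℂ)⁻¹ = (((n : ℝ)⁻¹ : ℝ) : ℂ) := by push_cast; rfl
        rw [h2, Complex.log_ofReal_mul (by positivity) (mi_ne t), Real.log_inv]
        push_cast
        ring
      have h3 : c - log ((n : ℂ)⁻¹ * (1 + t * I)) = L n t := by
        rw [h1, hL]
        ring
      unfold mn2
      rw [h3, mul_pow]
      have h4 := mi_ne t
      rw [div_mul_eq_div_div, div_mul_eq_div_div]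
      simp only [div_eq_mul_inv, mul_inv, inv_pow, inv_inv]
      ring
    unfold mnI
    simp only [e1]
    rw [intervalIntegral.integral_comp_mul_left
      (fun t : ℝ => mn2 B c ((n : ℂ)⁻¹ * (1 + t * I)) * exp (t * I)) hn0.ne']
    simp only [e2]
    rw [intervalIntegral.integral_of_le (by nlinarith), integral_indicator measurableSet_Ioc]
    rw [MeasureTheory.integral_const_mul, Complex.real_smul]
    have e3 : ∫ t in J n, H n t = ((Real.log n : ℝ) : ℂ) ^ 2 *
        ∫ t in J n, B / (1 + t * I) ^ 2 * ((L n t)⁻¹ ^ 2 - 2 * (L n t)⁻¹ ^ 3) * exp (t * I) := by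
      rw [← MeasureTheory.integral_const_mul]
      refine integral_congr_ae (Eventually.of_forall fun t => ?_)
      simp only [hH]
      ring
    rw [e3]
    have e4 : ∫ t in Ioc ((n : ℝ) * (-(r / 2))) (n * (r / 2)),
        B / (1 + t * I) ^ 2 * ((L n t)⁻¹ ^ 2 - 2 * (L n t)⁻¹ ^ 3) * exp (t * I) =
        ∫ t in J n, B / (1 + t * I) ^ 2 * ((L n t)⁻¹ ^ 2 - 2 * (L n t)⁻¹ ^ 3) * exp (t * I) := rfl
    rw [e4]
    generalize (∫ t in J n, B / (1 + t * I) ^ 2 * ((L n t)⁻¹ ^ 2 - 2 * (L n t)⁻¹ ^ 3) *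
      exp (t * I)) = Q
    push_cast
    field_simp
  have hlim : Tendsto (fun n : ℕ => (2 * Real.pi : ℂ)⁻¹ * ∫ t : ℝ, (J n).indicator (H n) t) atTop
      (𝓝 ((2 * Real.pi : ℂ)⁻¹ * ∫ t : ℝ, B / (1 + t * I) ^ 2 * exp (t * I))) := by
    refine Tendsto.const_mul _ ?_
    refine tendsto_integral_filter_of_dominated_convergence
      (fun t => 3 * ‖B‖ * (5 + ‖c‖) ^ 2 * (1 + ‖t‖ ^ 2) ^ (-(3 / 2 : ℝ) / 2)) ?_ ?_ ?_ ?_
    · refine Eventually.of_forall fun n => ?_
      refine Measurable.aestronglyMeasurable ?_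
      refine Measurable.indicator ?_ measurableSet_Ioc
      simp only [hH, hL, hw]
      fun_prop
    · filter_upwards [eventually_ge_atTop (Nat.ceil (2 / r)), eventually_gt_atTop 0] with n hn hn0
      refine Eventually.of_forall fun t => ?_
      have hn1 : 2 / r ≤ n := (Nat.le_ceil _).trans (by exact_mod_cast hn)
      have hnp : (0 : ℝ) < n := by exact_mod_cast hn0
      by_cases ht : t ∈ J n
      · rw [indicator_of_mem ht]
        have ht1 : |t| ≤ n * (r / 2) := by
          rw [abs_le]
          exact ⟨by linarith [ht.1], ht.2⟩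
        set p : ℝ := 1 + t ^ 2 with hp
        have hp1 : 1 ≤ p := by nlinarith [sq_nonneg t]
        have hp0 : 0 < p := by linarith
        set m : ℝ := ‖(1 + t * I : ℂ)‖ with hm
        have hmp : m ^ 2 = p := mi_sq t
        have hm1 : 1 ≤ m := by nlinarith [norm_nonneg (1 + t * I : ℂ)]
        have hm2 : m ≤ 1 + |t| := by
          refine (norm_add_le _ _).trans ?_
          simp
        have hwre : (w t).re = Real.log m := by
          rw [hw]
          simp only
          rw [Complex.log_re]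
        have hLre : (L n t).re = c.re - Real.log m + Real.log n := by
          rw [hL]
          simp only [Complex.add_re, Complex.sub_re, Complex.ofReal_re]
          rw [hwre]
        have hmn : m ≤ n * r := by
          have h1 : 2 ≤ n * r := by
            rwa [div_le_iff₀ hr] at hn1
          linarith
        have hlm : Real.log m ≤ Real.log n + Real.log r := by
          rw [← Real.log_mul hnp.ne' hr.ne']
          exact Real.log_le_log (by linarith) hmn
        have hL1 : 1 ≤ (L n t).re := by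
          rw [hLre]
          linarith
        have hLn : (L n t).re ≤ ‖L n t‖ := Complex.re_le_norm _
        have hLn1 : 1 ≤ ‖L n t‖ := hL1.trans hLn
        have hlog : 0 ≤ Real.log n := Real.log_natCast_nonneg n
        have hlogm : 0 ≤ Real.log m := Real.log_nonneg hm1
        set s : ℝ := p ^ (1 / 8 : ℝ) with hs
        have hs1 : 1 ≤ s := Real.one_le_rpow hp1 (by norm_num)
        have hms : Real.log m ≤ 4 * s := by
          have h1 : Real.log p = 2 * Real.log m := by
            rw [← hmp, Real.log_pow]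
            push_cast
            ring
          have h2 := Real.log_le_rpow_div hp0.le (show (0 : ℝ) < 1 / 8 by norm_num)
          rw [h1, ← hs] at h2
          linarith
        have hcre : -c.re ≤ ‖c‖ := by
          have := Complex.abs_re_le_norm c
          exact (neg_le_abs _).trans this
        have hv : Real.log n ≤ (5 + ‖c‖) * s * ‖L n t‖ := by
          have h1 : Real.log n ≤ ‖L n t‖ + ‖c‖ + 4 * s := by
            have : Real.log n = (L n t).re - c.re + Real.log m := by
              rw [hLre]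
              ring
            linarith
          have h2 : ‖c‖ ≤ ‖c‖ * (s * ‖L n t‖) := by
            have : 1 ≤ s * ‖L n t‖ := one_le_mul_of_one_le_of_one_le hs1 hLn1
            exact le_mul_of_one_le_right (norm_nonneg _) this
          have h3 : ‖L n t‖ ≤ s * ‖L n t‖ := le_mul_of_one_le_left (norm_nonneg _) hs1
          have h4 : 4 * s ≤ 4 * s * ‖L n t‖ := le_mul_of_one_le_right (by linarith) hLn1
          nlinarith
        set v : ℂ := (Real.log n : ℝ) * (L n t)⁻¹ with hvd
        have hvn : ‖v‖ ≤ (5 + ‖c‖) * s := by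
          rw [hvd, norm_mul, norm_inv, Complex.norm_real, Real.norm_of_nonneg hlog,
            ← div_eq_mul_inv, div_le_iff₀ (by linarith)]
          exact hv
        have hu : ‖(L n t)⁻¹‖ ≤ 1 := by
          rw [norm_inv]
          exact inv_le_one_of_one_le₀ hLn1
        have hin : ‖v ^ 2 - 2 * v ^ 2 * (L n t)⁻¹‖ ≤ 3 * ((5 + ‖c‖) * s) ^ 2 := by
          have h1 : ‖v‖ ^ 2 ≤ ((5 + ‖c‖) * s) ^ 2 :=
            pow_le_pow_left₀ (norm_nonneg _) hvn 2
          have h2 : ‖2 * v ^ 2 * (L n t)⁻¹‖ ≤ 2 * ‖v‖ ^ 2 := by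
            rw [norm_mul, norm_mul, norm_pow]
            have h3 : ‖(2 : ℂ)‖ = 2 := by simp
            rw [h3]
            exact mul_le_of_le_one_right (by positivity) hu
          have h4 : ‖v ^ 2‖ = ‖v‖ ^ 2 := norm_pow _ _
          have h5 := norm_sub_le (v ^ 2) (2 * v ^ 2 * (L n t)⁻¹)
          linarith
        have hexp : ‖exp (t * I)‖ = 1 := Complex.norm_exp_ofReal_mul_I t
        simp only [hH]
        rw [← hvd, norm_mul, norm_mul, hexp, mul_one, norm_div, norm_pow, ← hm, hmp]
        have hfin : ‖B‖ / p * (3 * ((5 + ‖c‖) * s) ^ 2) =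
            3 * ‖B‖ * (5 + ‖c‖) ^ 2 * (1 + ‖t‖ ^ 2) ^ (-(3 / 2 : ℝ) / 2) := by
          have h1 : (1 + ‖t‖ ^ 2) = p := by rw [Real.norm_eq_abs, sq_abs]
          have h2 : s ^ 2 / p = p ^ (-(3 / 2 : ℝ) / 2) := by
            rw [hs, ← Real.rpow_natCast, ← Real.rpow_mul hp0.le]
            nth_rewrite 2 [← Real.rpow_one p]
            rw [← Real.rpow_sub hp0]
            norm_num
          rw [h1, ← h2]
          ring
        rw [← hfin]
        exact mul_le_mul_of_nonneg_left hin (by positivity)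
      · rw [indicator_of_notMem ht, norm_zero]
        positivity
    · refine Integrable.const_mul ?_ _
      exact integrable_rpow_neg_one_add_norm_sq (by simp; norm_num)
    · refine Eventually.of_forall fun t => ?_
      have hinv : Tendsto (fun n : ℕ => (L n t)⁻¹) atTop (𝓝 0) := by
        refine tendsto_inv₀_cobounded.comp ?_
        rw [← tendsto_norm_atTop_iff_cobounded]
        have h1 : Tendsto (fun n : ℕ => Real.log n - ‖c - w t‖) atTop atTop :=
          tendsto_atTop_add_const_right _ _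
            (Real.tendsto_log_atTop.comp tendsto_natCast_atTop_atTop)
        refine tendsto_atTop_mono (fun n => ?_) h1
        have h2 : ((Real.log n : ℝ) : ℂ) = L n t - (c - w t) := by
          simp only [hL]
          ring
        have h3 := norm_sub_le (L n t) (c - w t)
        rw [← h2, Complex.norm_real, Real.norm_of_nonneg (Real.log_natCast_nonneg n)] at h3
        linarith
      have hv : Tendsto (fun n : ℕ => ((Real.log n : ℝ) : ℂ) * (L n t)⁻¹) atTop (𝓝 1) := by
        have h1 : Tendsto (fun n : ℕ => 1 - (c - w t) * (L n t)⁻¹) atTop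
            (𝓝 (1 - (c - w t) * 0)) := (hinv.const_mul _).const_sub _
        rw [mul_zero, sub_zero] at h1
        refine h1.congr' ?_
        have h2 : ∀ᶠ n : ℕ in atTop, ‖c - w t‖ < Real.log n :=
          (Real.tendsto_log_atTop.comp tendsto_natCast_atTop_atTop).eventually_gt_atTop _
        filter_upwards [h2] with n hn
        have h3 : L n t ≠ 0 := by
          intro h0
          have h4 : ((Real.log n : ℝ) : ℂ) = L n t - (c - w t) := by
            simp only [hL]
            ring
          rw [h0, zero_sub] at h4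
          have h5 := congrArg norm h4
          rw [norm_neg, Complex.norm_real,
            Real.norm_of_nonneg (Real.log_natCast_nonneg n)] at h5
          linarith
        have h4 : ((Real.log n : ℝ) : ℂ) = L n t - (c - w t) := by
          simp only [hL]
          ring
        rw [h4, sub_mul (L n t), mul_inv_cancel₀ h3]
      have hmain : Tendsto (fun n : ℕ => H n t) atTop
          (𝓝 (B / (1 + t * I) ^ 2 * (1 ^ 2 - 2 * 1 ^ 2 * 0) * exp (t * I))) := by
        simp only [hH]
        exact (((hv.pow 2).sub (((hv.pow 2).const_mul 2).mul hinv)).const_mul _).mul_const _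
      have e0 : B / (1 + t * I) ^ 2 * (1 ^ 2 - 2 * 1 ^ 2 * 0) * exp (t * I) =
          B / (1 + t * I) ^ 2 * exp (t * I) := by ring
      rw [e0] at hmain
      refine hmain.congr' ?_
      have h1 : Tendsto (fun n : ℕ => (n : ℝ) * (r / 2)) atTop atTop :=
        tendsto_natCast_atTop_atTop.atTop_mul_const (by positivity)
      filter_upwards [h1.eventually_gt_atTop |t|] with n hn
      have h2 : t ∈ J n := by
        have h3 := abs_lt.mp hn
        exact ⟨by linarith [h3.1], h3.2.le⟩
      rw [indicator_of_mem h2]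
  have hval : (2 * Real.pi : ℂ)⁻¹ * ∫ t : ℝ, B / (1 + t * I) ^ 2 * exp (t * I) =
      B * exp (-1) := by
    rw [← gamma_two]
    have h1 : ∀ t : ℝ, B / (1 + t * I) ^ 2 * exp (t * I) =
        B * (exp (t * I) / (1 + t * I) ^ 2) := fun t => by ring
    simp only [h1]
    rw [MeasureTheory.integral_const_mul]
    ring
  rw [hval] at hlim
  refine hlim.congr' ?_
  filter_upwards [eventually_gt_atTop 0] with n hn
  exact (key n hn).symm

end Pool.Agent.KAsym
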