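import Pool.Agent.KAsym.Remd
import Pool.Agent.KAsym.MainInt

/-! KA18: the transfer theorem. -/

set_option autoImplicit false

open Complex MeasureTheory Set Filter Topology

namespace Pool.Agent.KAsym

variable {a : ℕ → ℝ} {f : ℂ → ℂ} {r : ℝ} {A B c : ℂ} {C : ℝ}

private theorem tr_log_sq (n : ℕ) :
    Real.log n ^ 2 ≤ 64 * (n : ℝ) ^ (1 / 4 : ℝ) := by
  have hn0 : (0 : ℝ) ≤ n := Nat.cast_nonneg n
  have h1 := Real.log_le_rpow_div hn0 (show (0 : ℝ) < 1 / 8 by norm_num)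
  have h0 : 0 ≤ Real.log n := Real.log_natCast_nonneg n
  have h2 : Real.log n ^ 2 ≤ ((n : ℝ) ^ (1 / 8 : ℝ) / (1 / 8)) ^ 2 := pow_le_pow_left₀ h0 h1 2
  have h3 : ((n : ℝ) ^ (1 / 8 : ℝ)) ^ 2 = (n : ℝ) ^ (1 / 4 : ℝ) := by
    rw [← Real.rpow_natCast, ← Real.rpow_mul hn0]
    norm_num
  calc Real.log n ^ 2 ≤ ((n : ℝ) ^ (1 / 8 : ℝ) / (1 / 8)) ^ 2 := h2
    _ = 64 * ((n : ℝ) ^ (1 / 8 : ℝ)) ^ 2 := by ring
    _ = 64 * (n : ℝ) ^ (1 / 4 : ℝ) := by rw [h3]

private theorem tr_tendsto : Tendsto (fun n : ℕ => Real.log n ^ 2 / n * √n) atTop (𝓝 0) := by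
  have h1 : Tendsto (fun n : ℕ => 64 * (n : ℝ) ^ (-(1 / 4) : ℝ)) atTop (𝓝 (64 * 0)) :=
    ((tendsto_rpow_neg_atTop (show (0 : ℝ) < 1 / 4 by norm_num)).comp
      tendsto_natCast_atTop_atTop).const_mul 64
  rw [mul_zero] at h1
  refine squeeze_zero' (Eventually.of_forall fun n => by positivity) ?_ h1
  filter_upwards [eventually_ge_atTop 1] with n hn
  have hn0 : (0 : ℝ) < n := by exact_mod_cast hn
  have h2 : √(n : ℝ) / n = (n : ℝ) ^ (-(1 / 2) : ℝ) := by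
    rw [Real.sqrt_eq_rpow]
    nth_rewrite 2 [← Real.rpow_one (n : ℝ)]
    rw [← Real.rpow_sub hn0]
    norm_num
  calc Real.log n ^ 2 / n * √n = Real.log n ^ 2 * (√(n : ℝ) / n) := by ring
    _ = Real.log n ^ 2 * (n : ℝ) ^ (-(1 / 2) : ℝ) := by rw [h2]
    _ ≤ 64 * (n : ℝ) ^ (1 / 4 : ℝ) * (n : ℝ) ^ (-(1 / 2) : ℝ) :=
        mul_le_mul_of_nonneg_right (tr_log_sq n) (by positivity)
    _ = 64 * (n : ℝ) ^ (-(1 / 4) : ℝ) := by
        rw [mul_assoc, ← Real.rpow_add hn0]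
        norm_num

private theorem transferC (h : Trf a f r A B c C) :
    Tendsto (fun n : ℕ => ((a n * n * Real.log n ^ 2 : ℝ) : ℂ)) atTop (𝓝 B) := by
  obtain ⟨M, n0, hM⟩ := rem_bd h
  have h1 := mnI_tendsto B c h.r_pos h.r_le h.c_re
  have h2 : Tendsto (fun n : ℕ => ((Real.log n ^ 2 / n : ℝ) : ℂ) *
      ((n : ℂ) ^ 2 * a n * exp (-1) - mnI B c r n)) atTop (𝓝 0) := by
    have h3 : Tendsto (fun n : ℕ => |M| * (Real.log n ^ 2 / n * √n)) atTop (𝓝 (|M| * 0)) :=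
      tr_tendsto.const_mul _
    rw [mul_zero] at h3
    refine squeeze_zero_norm' ?_ h3
    filter_upwards [eventually_ge_atTop n0] with n hn
    rw [norm_mul, Complex.norm_real, Real.norm_of_nonneg (by positivity)]
    calc Real.log n ^ 2 / n * ‖(n : ℂ) ^ 2 * a n * exp (-1) - mnI B c r n‖
        ≤ Real.log n ^ 2 / n * (M * √n) :=
          mul_le_mul_of_nonneg_left (hM n hn) (by positivity)
      _ ≤ Real.log n ^ 2 / n * (|M| * √n) :=
          mul_le_mul_of_nonneg_left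
            (mul_le_mul_of_nonneg_right (le_abs_self M) (Real.sqrt_nonneg _)) (by positivity)
      _ = |M| * (Real.log n ^ 2 / n * √n) := by ring
  have h4 := (h1.add h2).mul_const (exp 1)
  rw [add_zero, mul_assoc, ← Complex.exp_add, neg_add_cancel, Complex.exp_zero, mul_one] at h4
  refine h4.congr' ?_
  filter_upwards [eventually_gt_atTop 0] with n hn
  have hnc : (n : ℂ) ≠ 0 := by exact_mod_cast hn.ne'
  have he : exp (-1) * exp 1 = 1 := by
    rw [← Complex.exp_add, neg_add_cancel, Complex.exp_zero]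
  calc (((Real.log n ^ 2 / n : ℝ) : ℂ) * mnI B c r n + ((Real.log n ^ 2 / n : ℝ) : ℂ) *
        ((n : ℂ) ^ 2 * a n * exp (-1) - mnI B c r n)) * exp 1
      = ((Real.log n ^ 2 / n : ℝ) : ℂ) * ((n : ℂ) ^ 2 * a n) * (exp (-1) * exp 1) := by ring
    _ = ((a n * n * Real.log n ^ 2 : ℝ) : ℂ) := by
        rw [he]
        push_cast
        field_simp

/-- **The transfer theorem.** -/
theorem transfer (h : Trf a f r A B c C) :
    Tendsto (fun n : ℕ => a n * n * Real.log n ^ 2) atTop (𝓝 B.re) := by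
  have h1 := (Complex.continuous_re.tendsto B).comp (transferC h)
  refine h1.congr fun n => ?_
  exact Complex.ofReal_re _

theorem transfer_zero (h : Trf a f r A 0 c C) : ∃ M : ℝ, ∀ n : ℕ, 1 ≤ n →
    a n ≤ M * (n : ℝ) ^ (-(3 / 2 : ℝ)) := by
  obtain ⟨M, n0, hM⟩ := rem_bd h
  have hm : ∀ n : ℕ, mnI 0 c r n = 0 := fun n => by
    simp [mnI, mn2]
  have hx : ∀ n : ℕ, 1 ≤ n → (n : ℝ) ^ (3 / 2 : ℝ) * (n : ℝ) ^ (-(3 / 2 : ℝ)) = 1 := by
    intro n hn
    have hn0 : (0 : ℝ) < n := by exact_mod_cast hn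
    rw [← Real.rpow_add hn0, add_neg_cancel, Real.rpow_zero]
  refine ⟨|M| * Real.exp 1 + ∑ k ∈ Finset.range n0, a k * (k : ℝ) ^ (3 / 2 : ℝ), fun n hn => ?_⟩
  have hn0 : (0 : ℝ) < n := by exact_mod_cast hn
  have hp : 0 < (n : ℝ) ^ (-(3 / 2 : ℝ)) := Real.rpow_pos_of_pos hn0 _
  have hs : 0 ≤ ∑ k ∈ Finset.range n0, a k * (k : ℝ) ^ (3 / 2 : ℝ) :=
    Finset.sum_nonneg fun k _ => mul_nonneg (h.nonneg k) (by positivity)
  rcases lt_or_ge n n0 with hlt | hge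
  · have h1 : a n * (n : ℝ) ^ (3 / 2 : ℝ) ≤ ∑ k ∈ Finset.range n0, a k * (k : ℝ) ^ (3 / 2 : ℝ) :=
      Finset.single_le_sum (f := fun k : ℕ => a k * (k : ℝ) ^ (3 / 2 : ℝ))
        (fun k _ => mul_nonneg (h.nonneg k) (by positivity)) (Finset.mem_range.2 hlt)
    have h2 : 0 ≤ |M| * Real.exp 1 := by positivity
    calc a n = a n * (n : ℝ) ^ (3 / 2 : ℝ) * (n : ℝ) ^ (-(3 / 2 : ℝ)) := by
          rw [mul_assoc, hx n hn, mul_one]
      _ ≤ (|M| * Real.exp 1 + ∑ k ∈ Finset.range n0, a k * (k : ℝ) ^ (3 / 2 : ℝ)) *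
          (n : ℝ) ^ (-(3 / 2 : ℝ)) := mul_le_mul_of_nonneg_right (by linarith) hp.le
  · have h1 := hM n hge
    rw [hm n, sub_zero, norm_mul, norm_mul, norm_pow, Complex.norm_natCast, Complex.norm_real,
      Real.norm_of_nonneg (h.nonneg n), Complex.norm_exp, Complex.neg_re, Complex.one_re] at h1
    have he : Real.exp (-1) * Real.exp 1 = 1 := by
      rw [← Real.exp_add, neg_add_cancel, Real.exp_zero]
    have h2 : (n : ℝ) ^ 2 * a n ≤ |M| * Real.exp 1 * √n := by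
      calc (n : ℝ) ^ 2 * a n = (n : ℝ) ^ 2 * a n * Real.exp (-1) * Real.exp 1 := by
            rw [mul_assoc _ (Real.exp (-1)), he, mul_one]
        _ ≤ M * √n * Real.exp 1 := mul_le_mul_of_nonneg_right h1 (Real.exp_pos _).le
        _ ≤ |M| * √n * Real.exp 1 :=
            mul_le_mul_of_nonneg_right
              (mul_le_mul_of_nonneg_right (le_abs_self M) (Real.sqrt_nonneg _)) (Real.exp_pos _).le
        _ = |M| * Real.exp 1 * √n := by ring
    have h3 : √(n : ℝ) = (n : ℝ) ^ 2 * (n : ℝ) ^ (-(3 / 2 : ℝ)) := by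
      rw [Real.sqrt_eq_rpow, ← Real.rpow_natCast (n : ℝ) 2, ← Real.rpow_add hn0]
      norm_num
    rw [h3] at h2
    have h4 : (n : ℝ) ^ 2 * a n ≤ (n : ℝ) ^ 2 * (|M| * Real.exp 1 * (n : ℝ) ^ (-(3 / 2 : ℝ))) := by
      calc (n : ℝ) ^ 2 * a n ≤ |M| * Real.exp 1 * ((n : ℝ) ^ 2 * (n : ℝ) ^ (-(3 / 2 : ℝ))) := h2
        _ = _ := by ring
    have h5 : a n ≤ |M| * Real.exp 1 * (n : ℝ) ^ (-(3 / 2 : ℝ)) :=
      le_of_mul_le_mul_left h4 (by positivity)
    refine h5.trans (mul_le_mul_of_nonneg_right (by linarith) hp.le)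

/-- If the singularity were not there, then the coefficients would be small. -/
theorem ne_zero (h : Trf a f r A B c C) (hs : ¬ Summable fun n : ℕ => Real.log n ^ 2 * a n) :
    0 < B.re := by
  have hC := transferC h
  have him : B.im = 0 := by
    have h1 := (Complex.continuous_im.tendsto B).comp hC
    have h2 : Tendsto (fun _ : ℕ => (0 : ℝ)) atTop (𝓝 B.im) :=
      h1.congr fun n => Complex.ofReal_im _
    exact tendsto_nhds_unique h2 tendsto_const_nhds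
  have hre : 0 ≤ B.re := by
    refine ge_of_tendsto' (transfer h) fun n => ?_
    have := h.nonneg n
    positivity
  refine lt_of_le_of_ne hre fun h0 => hs ?_
  have hB : B = 0 := Complex.ext h0.symm him
  subst hB
  obtain ⟨M, hM⟩ := transfer_zero h
  have hsum : Summable fun n : ℕ => 64 * |M| * (n : ℝ) ^ (-(5 / 4) : ℝ) :=
    (Real.summable_nat_rpow.2 (by norm_num)).mul_left _
  refine Summable.of_nonneg_of_le (fun n => mul_nonneg (sq_nonneg _) (h.nonneg n))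
    (fun n => ?_) hsum
  rcases Nat.eq_zero_or_pos n with rfl | hn
  · simp
  · have hn0 : (0 : ℝ) < n := by exact_mod_cast hn
    have hp : 0 < (n : ℝ) ^ (-(3 / 2 : ℝ)) := Real.rpow_pos_of_pos hn0 _
    calc Real.log n ^ 2 * a n ≤ Real.log n ^ 2 * (|M| * (n : ℝ) ^ (-(3 / 2 : ℝ))) := by
          refine mul_le_mul_of_nonneg_left ((hM n hn).trans ?_) (sq_nonneg _)
          exact mul_le_mul_of_nonneg_right (le_abs_self M) hp.le
      _ ≤ 64 * (n : ℝ) ^ (1 / 4 : ℝ) * (|M| * (n : ℝ) ^ (-(3 / 2 : ℝ))) :=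
          mul_le_mul_of_nonneg_right (tr_log_sq n) (by positivity)
      _ = 64 * |M| * ((n : ℝ) ^ (1 / 4 : ℝ) * (n : ℝ) ^ (-(3 / 2 : ℝ))) := by ring
      _ = 64 * |M| * (n : ℝ) ^ (-(5 / 4) : ℝ) := by
          rw [← Real.rpow_add hn0]
          norm_num

end Pool.Agent.KAsym
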