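import Pool.Agent.KAsym.GenU
import Pool.Agent.KAsym.Near
import Pool.Agent.KAsym.FarR
import Pool.Agent.KAsym.Transfer
import Pool.Agent.KLog.Final

/-! KA25: the asymptotics of the number of stretched unknotted polygons. -/

set_option autoImplicit false

open Pool.Agent.LK Filter Topology
open scoped ENNReal

namespace Pool.Agent.KAsym

open Pool.Agent.KTube Pool.Agent.KRing Pool.Agent.KLog
open Pool.Agent.KTen (Zt)

/-! ### The model -/

variable {R J H : Type} {κ : Mdl R J H}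

private theorem one_sub_q (hκ : κ.Ok) : 1 - κ.q ≤ 9 * κ.z ∧ κ.q ≤ 1 := by
  have hz := hκ.z_pos
  have h2 : ∀ r, κ.rc r ≤ κ.rc r * 2 ^ κ.rn r * om (κ.ru r) := by
    intro r
    have h0 := hκ.rc_nn r
    have h3 : (1 : ℝ) ≤ 2 ^ κ.rn r := one_le_pow₀ (by norm_num)
    calc κ.rc r ≤ κ.rc r * 2 ^ κ.rn r := le_mul_of_one_le_right h0 h3
      _ ≤ _ := le_mul_of_one_le_right (by positivity) (one_le_om _)
  have hs : Summable κ.rc := hκ.r_summable.of_nonneg_of_le hκ.rc_nn h2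
  have h3 : ∑' r, κ.rc r ≤ κ.z / 1000 := (hs.tsum_le_tsum h2 hκ.r_summable).trans hκ.r_le
  have h4 : 0 ≤ ∑' r, κ.rc r := tsum_nonneg hκ.rc_nn
  have h5 := hκ.crit
  have h6 := hκ.q_pos
  have h7 : 0 < κ.q * κ.z := mul_pos h6 hz
  have h8 : κ.q ≤ 1 := by nlinarith
  have h9 : κ.q * κ.z ≤ κ.z := by nlinarith
  exact ⟨by nlinarith, h8⟩

/-- The points of the critical line away from the singularity. -/
private theorem mem_far (hκ : κ.Ok) {φ : ℝ} (h1 : 80 * κ.z ≤ |φ|) (h2 : |φ| ≤ Real.pi) :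
    (φ * Complex.I : ℂ) / 2 ∈ κ.Far := by
  have hz := hκ.z_pos
  refine ⟨?_, ?_⟩
  · rw [Complex.norm_exp]
    have : (-((φ * Complex.I : ℂ) / 2)).re = 0 := by simp
    rw [this, Real.exp_zero]
    norm_num
  · have e1 : (-2 : ℂ) * ((φ * Complex.I : ℂ) / 2) = ((-φ : ℝ) : ℂ) * Complex.I := by
      push_cast; ring
    rw [e1]
    obtain ⟨hq1, hq2⟩ := one_sub_q hκ
    have h3 : 2 / Real.pi * |φ| ≤ ‖1 - Complex.exp (((-φ : ℝ) : ℂ) * Complex.I)‖ := by
      have e2 : ‖1 - Complex.exp (((-φ : ℝ) : ℂ) * Complex.I)‖ = 2 * |Real.sin (φ / 2)| := by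
        rw [norm_sub_rev]
        have h := Complex.norm_exp_I_mul_ofReal_sub_one (-φ)
        rw [mul_comm] at h
        rw [h]
        rw [norm_mul, Real.norm_eq_abs, Real.norm_eq_abs, neg_div, Real.sin_neg, abs_neg]
        norm_num
      rw [e2]
      have h4 : 2 / Real.pi * |φ / 2| ≤ |Real.sin (φ / 2)| := by
        apply Real.mul_abs_le_abs_sin
        rw [abs_div, abs_two]
        linarith
      rw [abs_div, abs_two] at h4
      linarith
    have h4 : ‖(1 : ℂ) - κ.q‖ * ‖Complex.exp (((-φ : ℝ) : ℂ) * Complex.I)‖ ≤ 9 * κ.z := by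
      rw [Complex.norm_exp_ofReal_mul_I, mul_one]
      have : (1 : ℂ) - κ.q = ((1 - κ.q : ℝ) : ℂ) := by push_cast; ring
      rw [this, Complex.norm_real, Real.norm_of_nonneg (by linarith)]
      exact hq1
    have h5 : ‖1 - Complex.exp (((-φ : ℝ) : ℂ) * Complex.I)‖ ≤
        ‖1 - κ.q * Complex.exp (((-φ : ℝ) : ℂ) * Complex.I)‖ +
        ‖(1 : ℂ) - κ.q‖ * ‖Complex.exp (((-φ : ℝ) : ℂ) * Complex.I)‖ := by
      rw [← norm_mul]
      have e3 : 1 - Complex.exp (((-φ : ℝ) : ℂ) * Complex.I) =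
          (1 - κ.q * Complex.exp (((-φ : ℝ) : ℂ) * Complex.I)) -
          ((1 : ℂ) - κ.q) * Complex.exp (((-φ : ℝ) : ℂ) * Complex.I) := by ring
      rw [e3]
      exact norm_sub_le _ _
    have hpi : Real.pi < 4 := by linarith [Real.pi_lt_d2]
    have h6 : 40 * κ.z ≤ 2 / Real.pi * |φ| := by
      rw [div_mul_eq_mul_div, le_div_iff₀ Real.pi_pos]
      nlinarith
    linarith

/-! ### The generating function -/

variable {y z : ℝ}

private noncomputable def ff (y z : ℝ) (S : ℂ) : ℂ :=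
  uu y z (S / 2) + y / 2 * (mdl y z).srcs (S / 2) (mm y z (S / 2))

private noncomputable def GGf (y z : ℝ) (g : ℂ → ℂ) (S : ℂ) : ℂ :=
  uu y z (S / 2) + y / 2 * g (S / 2)

private theorem half_re (S : ℂ) : (S / 2).re = S.re / 2 := by
  have : (S / 2) = ((1 / 2 : ℝ) : ℂ) * S := by push_cast; ring
  rw [this, Complex.re_ofReal_mul]; ring

private theorem half_norm (S : ℂ) : ‖S / 2‖ = ‖S‖ / 2 := by
  rw [norm_div]; norm_num

private theorem GGf_diff (hy : 0 < y) (hz : 0 < z) (hz1 : z ≤ 1 / 10 ^ 12) (hq : y * z ^ 2 ≤ 1)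
    {g : ℂ → ℂ} {U V : Set ℂ} (hg : DifferentiableOn ℂ g U)
    (hV : ∀ S ∈ V, S / 2 ∈ U ∧ -(1 / 2) < (S / 2).re) :
    DifferentiableOn ℂ (GGf y z g) V := by
  have hh : DifferentiableOn ℂ (fun S : ℂ => S / 2) V := by fun_prop
  unfold GGf
  refine DifferentiableOn.add ?_ (DifferentiableOn.mul (differentiableOn_const _) ?_)
  · exact (uu_diff hy hz hz1 hq).comp hh fun S hS => (hV S hS).2
  · exact hg.comp hh fun S hS => (hV S hS).1

private theorem ext_aux (hy : 0 < y) (hz : 0 < z) (hz1 : z ≤ 1 / 10 ^ 12) (hq : y * z ^ 2 ≤ 1)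
    {g : ℂ → ℂ} {U : Set ℂ} (hU : IsOpen U) (hg : DifferentiableOn ℂ g U)
    (hgs : ∀ s ∈ U, 0 < s.re → g s = (mdl y z).srcs s (mm y z s)) {φ : ℝ}
    (hφ : (φ * Complex.I : ℂ) / 2 ∈ U) :
    ∃ ε > 0, ∃ g : ℂ → ℂ, DifferentiableOn ℂ g (Metric.ball (φ * Complex.I) ε) ∧
      ∀ s ∈ Metric.ball (φ * Complex.I : ℂ) ε, 0 < s.re → g s = ff y z s := by
  have hW : IsOpen {S : ℂ | S / 2 ∈ U ∧ -(1 / 2) < (S / 2).re} := by
    refine (hU.preimage (by fun_prop : Continuous fun S : ℂ => S / 2)).inter ?_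
    exact isOpen_lt continuous_const (Complex.continuous_re.comp
      (by fun_prop : Continuous fun S : ℂ => S / 2))
  have hmem : (φ * Complex.I : ℂ) ∈ {S : ℂ | S / 2 ∈ U ∧ -(1 / 2) < (S / 2).re} := by
    refine ⟨hφ, ?_⟩
    rw [half_re]
    simp
  obtain ⟨ε, hε, hsub⟩ := Metric.isOpen_iff.1 hW _ hmem
  refine ⟨ε, hε, GGf y z g, GGf_diff hy hz hz1 hq hg hsub, fun S hS hre => ?_⟩
  unfold GGf ff
  rw [hgs _ (hsub hS).1 (by rw [half_re]; linarith)]

/-- The hypotheses of the transfer theorem. -/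
theorem trf {y z : ℝ} (hy : 0 < y) (hz : 0 < z) (hz1 : z ≤ 1 / 10 ^ 12) (hq : y * z ^ 2 ≤ 1)
    (hone : ∑' π : {π // Free π}, wt (ENNReal.ofReal y) (ENNReal.ofReal z) π.1 = 1)
    (hs : Summable fun n : ℕ => Zt y UClass n * z ^ n) :
    ∃ (f : ℂ → ℂ) (r : ℝ) (A B c : ℂ) (C : ℝ),
      Trf (fun k => Zt y UClass (2 * k) * z ^ (2 * k)) f r A B c C := by
  have hκ := mdl_ok hy hz hz1 hq hone
  have hm := mdl_sol hy hz hz1 hq hone
  have hκz : (mdl y z).z = z := rfl
  obtain ⟨gn, hgn1, hgn2, A₀, B₀, c₀, C₀, r₀, hr₀, hgn3⟩ := near hκ hm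
  obtain ⟨gf, hgf1, hgf2⟩ := far hκ hm
  obtain ⟨Cu, hCu⟩ := uu_lip hy hz hz1 hq
  set c : ℂ := c₀ + Real.log 2 with hc
  set r : ℝ := min (min (80 * z) (2 * r₀)) (min (1 / 50) (Real.exp (c.re - 1))) with hr
  have hr0 : 0 < r := by
    rw [hr]
    refine lt_min (lt_min (by positivity) (by positivity)) (lt_min (by norm_num) (Real.exp_pos _))
  have hr1 : r ≤ 80 * z := (min_le_left _ _).trans (min_le_left _ _)
  have hr2 : r ≤ 2 * r₀ := (min_le_left _ _).trans (min_le_right _ _)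
  have hr3 : r ≤ 1 / 50 := (min_le_right _ _).trans (min_le_left _ _)
  have hr4 : r ≤ Real.exp (c.re - 1) := (min_le_right _ _).trans (min_le_right _ _)
  have hsec : ∀ S ∈ Sct r, S / 2 ∈ (mdl y z).Sec ∧ -(1 / 2) < (S / 2).re := by
    rintro S ⟨h1, h2, h3⟩
    refine ⟨⟨div_ne_zero h1 two_ne_zero, ?_, ?_⟩, ?_⟩
    · rw [half_norm, hκz]; linarith
    · rw [half_norm, half_re]; linarith
    · rw [half_re]; linarith [norm_nonneg S]
  refine ⟨ff y z, r, uu y z 0 + y / 2 * A₀, y / 2 * B₀, c, |Cu| + |y / 2 * C₀|, ?_⟩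
  refine { summable := ?_, nonneg := ?_, r_pos := hr0, r_le := by linarith, c_re := ?_,
           eq := ?_, ext := ?_, near := ?_ }
  · exact hs.comp_injective (i := fun k : ℕ => 2 * k) fun a b h => by
      have h' : 2 * a = 2 * b := h
      omega
  · intro n
    exact mul_nonneg (KTen.zt_nonneg hy.le _ _) (pow_nonneg hz.le _)
  · have : Real.log r ≤ c.re - 1 := by
      rw [← Real.log_exp (c.re - 1)]
      exact Real.log_le_log hr0 hr4
    linarith
  · intro S hS
    have h1 := gen_uu hy hz hz1 hq hone (s := S / 2) (by rw [half_re]; linarith)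
    unfold ff
    rw [← h1]
    have hinj : Function.Injective fun k : ℕ => 2 * k := fun a b h => by
      have h' : 2 * a = 2 * b := h
      omega
    have h2 : ∑' k : ℕ, (fun n : ℕ => ((Zt y UClass n * z ^ n : ℝ) : ℂ) *
        Complex.exp (-n * (S / 2))) (2 * k) = ∑' n : ℕ, ((Zt y UClass n * z ^ n : ℝ) : ℂ) *
        Complex.exp (-n * (S / 2)) := by
      refine hinj.tsum_eq (f := fun n : ℕ => ((Zt y UClass n * z ^ n : ℝ) : ℂ) *
        Complex.exp (-n * (S / 2))) fun n hn => ?_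
      by_contra hc
      have hodd : ¬ Even n := fun ⟨k, hk⟩ => hc ⟨k, by simp only; omega⟩
      apply hn
      simp only [KTen.u_odd hodd, zero_mul, Complex.ofReal_zero]
    rw [← h2]
    refine tsum_congr fun k => ?_
    simp only
    congr 2
    push_cast
    ring
  · intro φ h1 h2
    by_cases h3 : |φ| < 80 * z
    · refine ext_aux hy hz hz1 hq isOpen_sec hgn1 hgn2 ?_
      have hn : ‖(φ * Complex.I : ℂ) / 2‖ = |φ| / 2 := by
        rw [half_norm, norm_mul, Complex.norm_real, Complex.norm_I, mul_one, Real.norm_eq_abs]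
      refine ⟨?_, ?_, ?_⟩
      · rw [← norm_pos_iff, hn]; linarith
      · rw [hn, hκz]; linarith
      · rw [hn, half_re]
        have : (φ * Complex.I : ℂ).re = 0 := by simp
        rw [this]
        linarith
    · exact ext_aux hy hz hz1 hq isOpen_far hgf1 hgf2 (mem_far hκ (by rw [hκz]; linarith) h2)
  · refine ⟨GGf y z gn, GGf_diff hy hz hz1 hq hgn1 hsec, fun S hS hre => ?_, fun S hS => ?_⟩
    · unfold GGf ff
      rw [hgn2 _ (hsec S hS).1 (by rw [half_re]; linarith)]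
    · have h1 := hgn3 (S / 2) (hsec S hS).1 (by
        rw [half_norm]; linarith [hS.2.1])
      have h2 := hCu (S / 2) (by rw [half_norm]; linarith [hS.2.1])
      have hlog : Complex.log (S / 2) = Complex.log S - Real.log 2 := by
        have e1 : S / 2 = ((2⁻¹ : ℝ) : ℂ) * S := by push_cast; ring
        rw [e1, Complex.log_ofReal_mul (by norm_num) hS.1, Real.log_inv]
        push_cast; ring
      have e2 : c₀ - Complex.log (S / 2) = c - Complex.log S := by rw [hlog, hc]; ring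
      rw [e2] at h1
      have hn1 : ‖S‖ ≤ 1 := by linarith [hS.2.1]
      have hn0 : 0 ≤ ‖S‖ := norm_nonneg _
      have h3 : ‖S‖ / 2 ≤ √‖S‖ := by
        have : ‖S‖ ≤ √‖S‖ := by
          rw [Real.le_sqrt hn0 hn0]
          nlinarith
        linarith
      have h4 : √(‖S‖ / 2) ≤ √‖S‖ := Real.sqrt_le_sqrt (by linarith)
      have e3 : GGf y z gn S - (uu y z 0 + y / 2 * A₀) + y / 2 * B₀ / (c - Complex.log S) =
          (uu y z (S / 2) - uu y z 0) + (y / 2 : ℂ) * (gn (S / 2) - A₀ +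
            B₀ / (c - Complex.log S)) := by
        unfold GGf
        ring
      rw [e3]
      rw [half_norm] at h1 h2
      have h5 : ‖(y / 2 : ℂ)‖ = y / 2 := by
        have : (y / 2 : ℂ) = ((y / 2 : ℝ) : ℂ) := by push_cast; ring
        rw [this, Complex.norm_real, Real.norm_of_nonneg (by positivity)]
      calc _ ≤ ‖uu y z (S / 2) - uu y z 0‖ + ‖(y / 2 : ℂ) * (gn (S / 2) - A₀ +
            B₀ / (c - Complex.log S))‖ := norm_add_le _ _
        _ ≤ |Cu| * √‖S‖ + |y / 2 * C₀| * √‖S‖ := by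
          refine add_le_add ?_ ?_
          · calc _ ≤ Cu * (‖S‖ / 2) := h2
              _ ≤ |Cu| * (‖S‖ / 2) := mul_le_mul_of_nonneg_right (le_abs_self _) (by positivity)
              _ ≤ |Cu| * √‖S‖ := mul_le_mul_of_nonneg_left h3 (abs_nonneg _)
          · rw [norm_mul, h5]
            calc _ ≤ y / 2 * (C₀ * √(‖S‖ / 2)) := mul_le_mul_of_nonneg_left h1 (by positivity)
              _ = (y / 2 * C₀) * √(‖S‖ / 2) := by ring
              _ ≤ |y / 2 * C₀| * √(‖S‖ / 2) :=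
                mul_le_mul_of_nonneg_right (le_abs_self _) (Real.sqrt_nonneg _)
              _ ≤ |y / 2 * C₀| * √‖S‖ := mul_le_mul_of_nonneg_left h4 (abs_nonneg _)
        _ = _ := by ring

/-- **The asymptotics of the number of stretched unknotted polygons.** -/
theorem main {y : ℝ} (hy : 10 ^ 24 ≤ y) : ∃ μ : ℝ, 0 < μ ∧ ∃ A : ℝ, 0 < A ∧
    Tendsto (fun k : ℕ => Zt y UClass (2 * k) /
      (μ ^ (2 * k) / (((2 * k : ℕ) : ℝ) * Real.log ((2 * k : ℕ) : ℝ) ^ 2))) atTop (𝓝 A) := by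
  have hy0 : 0 < y := lt_of_lt_of_le (by norm_num) hy
  obtain ⟨z, hz, hz4, hq, hone⟩ := exists_crit (le_trans (by norm_num) hy : (10 : ℝ) ^ 8 ≤ y)
  have hz1 : z ≤ 1 / 10 ^ 12 := by
    by_contra h
    push Not at h
    have h1 : (1 / 10 ^ 12 : ℝ) ^ 2 < z ^ 2 := pow_lt_pow_left₀ h (by norm_num) (by norm_num)
    have h2 : (10 : ℝ) ^ 24 * (1 / 10 ^ 12) ^ 2 < y * z ^ 2 := by
      calc (10 : ℝ) ^ 24 * (1 / 10 ^ 12) ^ 2 < 10 ^ 24 * z ^ 2 := by
            exact mul_lt_mul_of_pos_left h1 (by norm_num)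
        _ ≤ y * z ^ 2 := mul_le_mul_of_nonneg_right hy (sq_nonneg _)
    norm_num at h2
    linarith
  obtain ⟨hs1, hs2⟩ := sums_at hy0 hz hz4 hq hone
  obtain ⟨f, r, A, B, c, C, hT⟩ := trf hy0 hz hz1 hq hone hs1
  set a : ℕ → ℝ := fun k => Zt y UClass (2 * k) * z ^ (2 * k) with ha
  have hann : ∀ k, 0 ≤ a k := hT.nonneg
  have hns : ¬ Summable fun n : ℕ => Real.log n ^ 2 * a n := by
    intro hsum
    apply hs2
    have hinj : Function.Injective fun k : ℕ => 2 * k := fun a b h => by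
      have h' : 2 * a = 2 * b := h
      omega
    refine (hinj.summable_iff ?_).1 ?_
    · intro n hn
      have hodd : ¬ Even n := fun ⟨k, hk⟩ => hn ⟨k, by simp only; omega⟩
      simp only [KTen.u_odd hodd, zero_mul, mul_zero]
    · have h2 : Summable fun n : ℕ => 2 * Real.log 2 ^ 2 * a n + 2 * (Real.log n ^ 2 * a n) :=
        (hT.summable.mul_left _).add (hsum.mul_left 2)
      refine h2.of_nonneg_of_le (fun n => ?_) fun n => ?_
      · exact mul_nonneg (sq_nonneg _) (hann n)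
      · have h3 : Real.log ((2 * n : ℕ) : ℝ) ^ 2 ≤ 2 * Real.log 2 ^ 2 + 2 * Real.log n ^ 2 := by
          rcases Nat.eq_zero_or_pos n with rfl | hn
          · simp
            positivity
          · push_cast
            rw [Real.log_mul two_ne_zero (by exact_mod_cast hn.ne')]
            nlinarith [sq_nonneg (Real.log 2 - Real.log n)]
        show Real.log ((2 * n : ℕ) : ℝ) ^ 2 * a n ≤ _
        have := mul_le_mul_of_nonneg_right h3 (hann n)
        linarith
  have hB := ne_zero hT hns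
  have hlim := transfer hT
  refine ⟨z⁻¹, inv_pos.2 hz, 2 * B.re, by positivity, ?_⟩
  have hl : Tendsto (fun k : ℕ => (Real.log ((2 * k : ℕ) : ℝ) / Real.log k) ^ 2) atTop (𝓝 1) := by
    have h1 : Tendsto (fun k : ℕ => Real.log (k : ℝ)) atTop atTop :=
      Real.tendsto_log_atTop.comp tendsto_natCast_atTop_atTop
    have h2 : Tendsto (fun k : ℕ => (Real.log 2 / Real.log k + 1) ^ 2) atTop (𝓝 1) := by
      have := ((h1.const_div_atTop (Real.log 2)).add_const 1).pow 2
      simpa using this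
    refine h2.congr' ?_
    filter_upwards [eventually_ge_atTop 2] with k hk
    have hk2 : (2 : ℝ) ≤ k := by exact_mod_cast hk
    have hk0 : (k : ℝ) ≠ 0 := by linarith
    have hlk : Real.log k ≠ 0 := (Real.log_pos (by linarith)).ne'
    push_cast
    rw [Real.log_mul two_ne_zero hk0]
    field_simp
  have h3 := (hlim.mul hl).const_mul 2
  rw [mul_one] at h3
  refine h3.congr' ?_
  filter_upwards [eventually_ge_atTop 2] with k hk
  have hk2 : (2 : ℝ) ≤ k := by exact_mod_cast hk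
  have hk0 : (k : ℝ) ≠ 0 := by linarith
  have hlk : Real.log k ≠ 0 := (Real.log_pos (by linarith)).ne'
  have hl2 : Real.log ((2 * k : ℕ) : ℝ) ≠ 0 := by
    push_cast
    exact (Real.log_pos (by linarith)).ne'
  simp only [ha]
  have hzk : z ^ (2 * k) ≠ 0 := pow_ne_zero _ hz.ne'
  rw [inv_pow]
  generalize Real.log ((2 * k : ℕ) : ℝ) = L at *
  push_cast
  field_simp

end Pool.Agent.KAsym
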