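import Mathlib
import Pool.Agent.KLog.Ker

/-! A translation invariant kernel on `ℤ²` with a small localised defect, killed at the origin:
definitions. Everything is a function of a complex number `s`, an element of size `n` has the weight
`exp (- n s)`. -/

set_option autoImplicit false

open Complex MeasureTheory Set

namespace Pool.Agent.KAsym

open Pool.Agent.KLog (nrm nsq rt)

/-- The scalar product. -/
noncomputable def dot (θ : ℝ × ℝ) (u : ℤ × ℤ) : ℝ := θ.1 * u.1 + θ.2 * u.2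

/-- The weight `4 ^ |v|`. -/
noncomputable def om (v : ℤ × ℤ) : ℝ := 4 ^ nrm v

/-- `2 - cos θ₁ - cos θ₂`. -/
noncomputable def NN (θ : ℝ × ℝ) : ℝ := 2 - Real.cos θ.1 - Real.cos θ.2

/-- The torus. -/
def box : Set (ℝ × ℝ) := Icc (-Real.pi) Real.pi ×ˢ Icc (-Real.pi) Real.pi

/-- The average over the torus. -/
noncomputable def av (f : ℝ × ℝ → ℂ) : ℂ := ((4 * Real.pi ^ 2 : ℝ) : ℂ)⁻¹ * ∫ θ in box, f θ

/-- The data: `R` are the free elements that are not basic, `J` are the defects, `H` are the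
sources. -/
structure Mdl (R J H : Type) where
  z : ℝ
  q : ℝ
  /-- weight, size, displacement of a free element -/
  rc : R → ℝ
  rn : R → ℕ
  ru : R → ℤ × ℤ
  /-- signed weight, size, source and target of a defect -/
  jc : J → ℝ
  jn : J → ℕ
  js : J → ℤ × ℤ
  jt : J → ℤ × ℤ
  /-- weight, size and position of a source -/
  hc : H → ℝ
  hn : H → ℕ
  ht : H → ℤ × ℤ

variable {R J H : Type}

/-- The hypotheses. -/
structure Mdl.Ok (κ : Mdl R J H) : Prop where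
  z_pos : 0 < κ.z
  z_le : κ.z ≤ 1 / 10 ^ 12
  q_pos : 0 < κ.q
  rc_nn : ∀ r, 0 ≤ κ.rc r
  r_summable : Summable fun r => κ.rc r * 2 ^ κ.rn r * om (κ.ru r)
  r_le : ∑' r, κ.rc r * 2 ^ κ.rn r * om (κ.ru r) ≤ κ.z / 1000
  /-- The free elements are invariant under rotation. -/
  rot : ∃ σ : R ≃ R, ∀ r, κ.rc (σ r) = κ.rc r ∧ κ.rn (σ r) = κ.rn r ∧ κ.ru (σ r) = rt (κ.ru r)
  /-- Criticality. -/
  crit : κ.q * (1 + 8 * κ.z) + ∑' r, κ.rc r = 1
  j_summable : Summable fun j => |κ.jc j| * 2 ^ κ.jn j * om (κ.js j) * om (κ.jt j)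
  j_le : ∑' j, |κ.jc j| * 2 ^ κ.jn j * om (κ.js j) * om (κ.jt j) ≤ κ.z / 1000
  js_ne : ∀ j, κ.js j ≠ 0
  jt_ne : ∀ j, κ.jt j ≠ 0
  h_summable : Summable fun h => |κ.hc h| * 2 ^ κ.hn h * om (κ.ht h)
  ht_ne : ∀ h, κ.ht h ≠ 0

namespace Mdl

variable (κ : Mdl R J H)

/-- The symbol of the free kernel: no step `q`, a unit step `2 q z`. -/
noncomputable def F (s : ℂ) (θ : ℝ × ℝ) : ℂ :=
  κ.q * exp (-2 * s) * (1 + 4 * κ.z * exp (-s) * ((Real.cos θ.1 + Real.cos θ.2 : ℝ) : ℂ)) +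
    ∑' r, κ.rc r * exp (-κ.rn r * s) * (Real.cos (dot θ (κ.ru r)) : ℂ)

/-- The Green function at the origin. -/
noncomputable def gam (s : ℂ) : ℂ := av fun θ => 1 / (1 - κ.F s θ)

/-- The Green function. -/
noncomputable def grn (s : ℂ) (x : ℤ × ℤ) : ℂ := av fun θ => (Real.cos (dot θ x) : ℂ) / (1 - κ.F s θ)

/-- The potential kernel. -/
noncomputable def pot (s : ℂ) (x : ℤ × ℤ) : ℂ :=
  av fun θ => (1 - (Real.cos (dot θ x) : ℂ)) / (1 - κ.F s θ)

/-- The regular part of the Green function killed at the origin. -/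
noncomputable def GG (s : ℂ) (w x : ℤ × ℤ) : ℂ := κ.pot s w + κ.pot s x - κ.pot s (x - w)

/-- The weight of a free element. -/
noncomputable def er (s : ℂ) (r : R) : ℂ := κ.rc r * exp (-κ.rn r * s)

/-- The weight of a defect. -/
noncomputable def ej (s : ℂ) (j : J) : ℂ := κ.jc j * exp (-κ.jn j * s)

/-- The weight of a source. -/
noncomputable def eh (s : ℂ) (h : H) : ℂ := κ.hc h * exp (-κ.hn h * s)

/-- The sector near the singularity, without the singularity. -/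
def Sec : Set ℂ := {s | s ≠ 0 ∧ ‖s‖ < 40 * κ.z ∧ -‖s‖ / 2 < s.re}

/-- The sector near the singularity, with the singularity. -/
def Sec0 : Set ℂ := {s | ‖s‖ < 40 * κ.z ∧ -‖s‖ / 2 ≤ s.re}

/-- The region away from the singularities. -/
def Far : Set ℂ := {s | ‖exp (-s)‖ < 11 / 10 ∧ 20 * κ.z < ‖1 - κ.q * exp (-2 * s)‖}

/-- The pairing with the sources. -/
noncomputable def srcs (s : ℂ) (f : ℤ × ℤ → ℂ) : ℂ := ∑' h, κ.eh s h * f (κ.ht h)

/-- The pairing `f D g`. -/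
noncomputable def dfc (s : ℂ) (f g : ℤ × ℤ → ℂ) : ℂ :=
  ∑' j, κ.ej s j * f (κ.js j) * g (κ.jt j)

/-- The measures driven by the kernel, for `0 < re s`. -/
structure Sol (m : ℂ → ℤ × ℤ → ℂ) : Prop where
  summable : ∀ s : ℂ, 0 < s.re → Summable fun v => ‖m s v‖
  growth : ∃ C : ℝ, ∀ s : ℂ, 0 < s.re → ∀ v, ‖m s v‖ ≤ C * om v
  zero : ∀ s, m s 0 = 0
  eqn : ∀ s : ℂ, 0 < s.re → ∀ x, x ≠ 0 → m s x =
    κ.q * exp (-2 * s) * m s x +
    2 * κ.q * κ.z * exp (-3 * s) *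
      (m s (x + (1, 0)) + m s (x + (-1, 0)) + m s (x + (0, 1)) + m s (x + (0, -1))) +
    ∑' r, κ.er s r * m s (x - κ.ru r) +
    (∑' h, if κ.ht h = x then κ.eh s h else 0) -
    ∑' j, if κ.jt j = x then κ.ej s j * m s (κ.js j) else 0

end Mdl

end Pool.Agent.KAsym
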