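import Pool.Agent.KLog.Rest
import Pool.Agent.KLog.CapSum
import Pool.Agent.KLog.Gen

/-! KA19: all pairs that are not basic together are small, with larger weights; the halves and the
polygons without sections with two edges. -/

set_option autoImplicit false

open Pool.Agent.LK
open scoped ENNReal

namespace Pool.Agent.KAsym

open Pool.Agent.KTube Pool.Agent.KRing Pool.Agent.KLog

variable {y z : ℝ}

private theorem rest_len (x : List Letter) : x.length = brk x + stp x := by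
  induction x with
  | nil => rfl
  | cons c x ih =>
    cases c with
    | none => rw [List.length_cons, brk_none, stp_none, ih]; omega
    | some d => rw [List.length_cons, brk_some, stp_some, ih]; omega

private theorem rest_length (π : PP) : π.1.length + π.2.length = nv π + nh π := by
  rw [← length_lets π.1, ← length_lets π.2, rest_len, rest_len]
  unfold nv nh
  omega

private theorem rest_geom {x : ℝ≥0∞} {k : ℕ} {c : ℕ → ℝ≥0∞} {K : ℝ≥0∞} (hx : 2 * x ≤ 1 / 2)
    (hc : ∀ m, c m ≤ K * 2 ^ m) : ∑' m, c m * x ^ (m + k) ≤ 2 * K * x ^ k := by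
  have h1 : ∀ m, c m * x ^ (m + k) ≤ K * x ^ k * (2 * x) ^ m := by
    intro m
    calc c m * x ^ (m + k) ≤ K * 2 ^ m * x ^ (m + k) := by
          gcongr
          exact hc m
      _ = K * x ^ k * (2 * x) ^ m := by
          rw [mul_pow, pow_add]
          ring
  refine (ENNReal.tsum_le_tsum h1).trans ?_
  rw [ENNReal.tsum_mul_left, ENNReal.tsum_geometric]
  have h2 : (1 - 2 * x)⁻¹ ≤ 2 := by
    rw [ENNReal.inv_le_iff_inv_le]
    refine le_trans ?_ (tsub_le_tsub_left hx 1)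
    rw [one_div, ENNReal.one_sub_inv_two]
  calc K * x ^ k * (1 - 2 * x)⁻¹ ≤ K * x ^ k * 2 := by gcongr
    _ = 2 * K * x ^ k := by ring

private theorem rest_num (n : ℕ) : n + 5 ≤ 5 * 2 ^ n := by
  induction n with
  | zero => norm_num
  | succ n ih => rw [pow_succ]; omega

private theorem rest_num' (n : ℕ) : n + 3 ≤ 3 * 2 ^ n := by
  induction n with
  | zero => norm_num
  | succ n ih => rw [pow_succ]; omega

private theorem ofReal_nat (n : ℕ) : ENNReal.ofReal (n : ℝ) = (n : ℝ≥0∞) := ENNReal.ofReal_natCast n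

/-- **The rest.** -/
theorem rest_strong (hy : 0 < y) (hz : 0 < z) (hz1 : z ≤ 1 / 10 ^ 12) (hq : y * z ^ 2 ≤ 1) :
    ∑' p : {p // ¬ Bas p ∧ (Free p ∨ ∃ v, Valid v p)},
      wt (ENNReal.ofReal y) (ENNReal.ofReal z) p.1 * 2 ^ (p.1.1.length + p.1.2.length + 2) *
        576 ^ nh p.1 ≤ ENNReal.ofReal (z / 1000) := by
  set s := Real.sqrt z with hs
  have hs0 : 0 < s := Real.sqrt_pos.2 hz
  have hsz : s ^ 2 = z := Real.sq_sqrt hz.le
  have hs1 : s ≤ 1 / 10 ^ 6 := by
    rw [hs]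
    refine (Real.sqrt_le_left (by norm_num)).2 ?_
    norm_num at hz1 ⊢
    exact hz1
  set S := 2 * ENNReal.ofReal s with hS
  set b := 1152 * ENNReal.ofReal z with hb
  set g : PP → ℝ≥0∞ := fun p => S ^ nv p * b ^ nh p with hgdef
  -- the geometric condition
  have hgeo : ∀ p : PP, (Free p ∨ ∃ v, Valid v p) → ∃ v, Geo v p := by
    rintro p (⟨v, -, hv⟩ | ⟨v, hv⟩)
    · exact ⟨v, hv.1⟩
    · exact ⟨v, hv.1⟩
  have hpt : ∀ p : {p : PP // ¬ Bas p ∧ (Free p ∨ ∃ v, Valid v p)},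
      wt (ENNReal.ofReal y) (ENNReal.ofReal z) p.1 * 2 ^ (p.1.1.length + p.1.2.length + 2) *
        576 ^ nh p.1 ≤ 4 * g p.1 := by
    rintro ⟨p, -, hp⟩
    obtain ⟨v, hv⟩ := hgeo p hp
    have h1 := wt_le hv hy hz (hz1.trans (by norm_num)) hq
    rw [hgdef]
    simp only
    rw [rest_length p]
    calc wt (ENNReal.ofReal y) (ENNReal.ofReal z) p * 2 ^ (nv p + nh p + 2) * 576 ^ nh p
        ≤ (ENNReal.ofReal s ^ nv p * ENNReal.ofReal z ^ nh p) * 2 ^ (nv p + nh p + 2) *
          576 ^ nh p := by gcongr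
      _ = 4 * (S ^ nv p * b ^ nh p) := by
        have e : (1152 : ℝ≥0∞) = 2 * 576 := by norm_num
        rw [hb, hS, e, mul_pow, mul_pow, mul_pow, pow_add, pow_add]
        ring
  refine (ENNReal.tsum_le_tsum hpt).trans ?_
  rw [ENNReal.tsum_mul_left]
  let A : ℕ → Set PP := fun m => {p | NR p.1 ∧ NR p.2 ∧ p.1.length + p.2.length = m + 4}
  let B : ℕ → Set PP := fun m =>
    {p | Steps p.1 ∧ Steps p.2 ∧ nv p = 0 ∧ p.1.length + p.2.length = m + 2}
  have hsub : {p : PP | ¬ Bas p ∧ (Free p ∨ ∃ v, Valid v p)} ⊆ (⋃ m, A m) ∪ ⋃ m, B m := by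
    rintro p ⟨h1, h2⟩
    obtain ⟨v, hv⟩ := hgeo p h2
    have hlen := rest_length p
    by_cases h3 : nv p = 0
    · right
      have h4 : 2 ≤ nh p := by
        by_contra h5
        exact h1 ⟨h3, by omega⟩
      rw [Set.mem_iUnion]
      exact ⟨nh p - 2, hv.stA, hv.stB, h3, by omega⟩
    · left
      have h4 : 4 ≤ nv p := by
        by_contra h5
        exact h3 (nv_eq_zero hv (by omega))
      rw [Set.mem_iUnion]
      refine ⟨nv p + nh p - 4, nr_of_nodup hv.stA hv.block.nodupA,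
        nr_of_nodup hv.stB (p := (v.1, v.2, 1)) ?_, by omega⟩
      exact List.nodup_reverse.1 hv.block.nodupB
  have e2 : (2 : ℝ≥0∞) = ENNReal.ofReal 2 := by
    have := ofReal_nat 2
    simpa using this.symm
  have hθ : S + 16 * b = ENNReal.ofReal (2 * s + 18432 * s ^ 2) := by
    rw [hb, hS, ← hsz, ENNReal.ofReal_add (by positivity) (by positivity),
      ENNReal.ofReal_mul (by norm_num), ENNReal.ofReal_mul (by norm_num)]
    have e : ENNReal.ofReal 18432 = 16 * 1152 := by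
      rw [show (18432 : ℝ) = ((18432 : ℕ) : ℝ) by norm_num, ENNReal.ofReal_natCast]
      norm_num
    rw [e, mul_assoc, ← e2]
  have h4b : 4 * b = ENNReal.ofReal (4608 * s ^ 2) := by
    rw [hb, ← hsz, ENNReal.ofReal_mul (by norm_num)]
    have e : ENNReal.ofReal 4608 = 4 * 1152 := by
      rw [show (4608 : ℝ) = ((4608 : ℕ) : ℝ) by norm_num, ENNReal.ofReal_natCast]
      norm_num
    rw [e, mul_assoc]
  have half : ∀ t : ℝ, 0 ≤ t → t ≤ 1 / 4 → 2 * ENNReal.ofReal t ≤ 1 / 2 := by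
    intro t h0 ht
    have e3 : (1 / 2 : ℝ≥0∞) = ENNReal.ofReal (1 / 2) := by
      rw [ENNReal.ofReal_div_of_pos (by norm_num), ← e2, ENNReal.ofReal_one]
    rw [e3, e2, ← ENNReal.ofReal_mul (by norm_num)]
    exact ENNReal.ofReal_le_ofReal (by linarith)
  have hss : s ^ 2 ≤ 1 / 10 ^ 12 := by rw [hsz]; exact hz1
  have hA : ∑' m, ∑' p : A m, g p ≤ 40 * (S + 16 * b) ^ 4 := by
    calc ∑' m, ∑' p : A m, g p ≤ ∑' m : ℕ, (4 * ((m + 4 : ℕ) + 1)) * (S + 16 * b) ^ (m + 4) :=
          ENNReal.tsum_le_tsum fun m => pair_sum S b (m + 4)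
      _ ≤ 2 * 20 * (S + 16 * b) ^ 4 := by
          refine rest_geom ?_ ?_
          · rw [hθ]
            refine half _ (by positivity) ?_
            norm_num at hs1 hss ⊢
            linarith
          · intro m
            have h := rest_num m
            have h' : ((m + 5 : ℕ) : ℝ≥0∞) ≤ ((5 * 2 ^ m : ℕ) : ℝ≥0∞) := by exact_mod_cast h
            push_cast at h' ⊢
            calc 4 * ((m : ℝ≥0∞) + 4 + 1) = 4 * (m + 5) := by
                  rw [add_assoc]; norm_num
              _ ≤ 4 * (5 * 2 ^ m) := by gcongr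
              _ = 20 * 2 ^ m := by rw [← mul_assoc]; norm_num
      _ = 40 * (S + 16 * b) ^ 4 := by norm_num
  have hB : ∑' m, ∑' p : B m, g p ≤ 6 * (4 * b) ^ 2 := by
    calc ∑' m, ∑' p : B m, g p ≤ ∑' m : ℕ, (((m + 2 : ℕ) : ℝ≥0∞) + 1) * (4 * b) ^ (m + 2) := by
          refine ENNReal.tsum_le_tsum fun m => ?_
          refine le_trans (le_of_eq (tsum_congr fun p => ?_)) (horizontal_sum b (m + 2))
          rw [hgdef]
          simp only
          rw [p.2.2.2.1, pow_zero, one_mul]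
      _ ≤ 2 * 3 * (4 * b) ^ 2 := by
          refine rest_geom ?_ ?_
          · rw [h4b]
            refine half _ (by positivity) ?_
            norm_num at hs1 hss ⊢
            linarith
          · intro m
            have h := rest_num' m
            have h' : ((m + 3 : ℕ) : ℝ≥0∞) ≤ ((3 * 2 ^ m : ℕ) : ℝ≥0∞) := by exact_mod_cast h
            push_cast at h' ⊢
            calc (m : ℝ≥0∞) + 2 + 1 = m + 3 := by
                  rw [add_assoc]; norm_num
              _ ≤ 3 * 2 ^ m := h'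
      _ = 6 * (4 * b) ^ 2 := by norm_num
  calc 4 * ∑' p : {p : PP // ¬ Bas p ∧ (Free p ∨ ∃ v, Valid v p)}, g p.1
      ≤ 4 * ∑' p : ((⋃ m, A m) ∪ ⋃ m, B m : Set PP), g p :=
        mul_le_mul_right (ENNReal.tsum_mono_subtype g hsub) 4
    _ ≤ 4 * (∑' p : (⋃ m, A m : Set PP), g p + ∑' p : (⋃ m, B m : Set PP), g p) :=
        mul_le_mul_right (ENNReal.tsum_union_le g _ _) 4
    _ ≤ 4 * (∑' m, ∑' p : A m, g p + ∑' m, ∑' p : B m, g p) :=
        mul_le_mul_right
          (add_le_add (ENNReal.tsum_iUnion_le_tsum g A) (ENNReal.tsum_iUnion_le_tsum g B)) 4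
    _ ≤ 4 * (40 * (S + 16 * b) ^ 4 + 6 * (4 * b) ^ 2) := mul_le_mul_right (add_le_add hA hB) 4
    _ = ENNReal.ofReal (160 * (2 * s + 18432 * s ^ 2) ^ 4 + 24 * (4608 * s ^ 2) ^ 2) := by
        have e1 : ENNReal.ofReal (160 * (2 * s + 18432 * s ^ 2) ^ 4) =
            4 * (40 * ENNReal.ofReal (2 * s + 18432 * s ^ 2) ^ 4) := by
          rw [ENNReal.ofReal_mul (by norm_num), ENNReal.ofReal_pow (by positivity),
            show (160 : ℝ) = ((160 : ℕ) : ℝ) by norm_num, ENNReal.ofReal_natCast, ← mul_assoc]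
          norm_num
        have e2 : ENNReal.ofReal (24 * (4608 * s ^ 2) ^ 2) =
            4 * (6 * ENNReal.ofReal (4608 * s ^ 2) ^ 2) := by
          rw [ENNReal.ofReal_mul (by norm_num), ENNReal.ofReal_pow (by positivity),
            show (24 : ℝ) = ((24 : ℕ) : ℝ) by norm_num, ENNReal.ofReal_natCast, ← mul_assoc]
          norm_num
        rw [hθ, h4b, mul_add, ← e1, ← e2]
        exact (ENNReal.ofReal_add (by positivity) (by positivity)).symm
    _ ≤ ENNReal.ofReal (z / 1000) := by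
        refine ENNReal.ofReal_le_ofReal ?_
        rw [← hsz]
        have h1 : 2 * s + 18432 * s ^ 2 ≤ 3 * s := by
          have : s ^ 2 = s * s := by ring
          have h2 : s * s ≤ 1 / 10 ^ 6 * s := mul_le_mul_of_nonneg_right hs1 hs0.le
          norm_num at h2
          linarith
        have h2 : (2 * s + 18432 * s ^ 2) ^ 4 ≤ (3 * s) ^ 4 :=
          pow_le_pow_left₀ (by positivity) h1 4
        have h4 : 0 ≤ s ^ 2 := by positivity
        have h5 : s ^ 4 ≤ s ^ 2 * (1 / 10 ^ 12) := by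
          have : s ^ 4 = s ^ 2 * s ^ 2 := by ring
          rw [this]
          exact mul_le_mul_of_nonneg_left hss h4
        have h6 : (3 * s) ^ 4 = 81 * s ^ 4 := by ring
        have h7 : (4608 * s ^ 2) ^ 2 = 21233664 * s ^ 4 := by ring
        rw [h6] at h2
        rw [h7]
        norm_num at h2 h5 ⊢
        linarith

private theorem nrm_add (u v : ℤ × ℤ) : nrm (u + v) ≤ nrm u + nrm v := by
  unfold nrm
  have h1 := Int.natAbs_add_le u.1 v.1
  have h2 := Int.natAbs_add_le u.2 v.2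
  simp only [Prod.fst_add, Prod.snd_add]
  omega

private theorem nrm_disp (x : List Letter) : nrm (disp x) ≤ stp x := by
  induction x with
  | nil => simp [nrm]
  | cons c x ih =>
    rw [disp_cons]
    refine (nrm_add _ _).trans ?_
    cases c with
    | none => simpa [nrm] using ih
    | some d =>
      rw [stp_some]
      have : nrm (lv (some d)) = 1 := by
        fin_cases d <;> rfl
      omega

/-- The word of a half. -/
private theorem exists_word {v : ℤ × ℤ} {l : List P3} (h : Half 0 v l) :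
    ∃ s : List P3, NR s ∧ l = (wk (0, 0, 0) s).reverse ∧ nrm v ≤ stp (lets s) ∧
      4 * lspan l ≤ brk (lets s) ∧ l.length = brk (lets s) + stp (lets s) + 1 := by
  obtain ⟨⟨hne, hl, r, hr, -⟩, hn⟩ := h
  have hhead : l.reverse.head? = some ((0, 0, 0) : P3) := by
    rw [List.head?_reverse]
    exact hl.last
  obtain ⟨s, hs⟩ := exists_wk l.reverse _ hhead
  have hsteps : Steps s := by
    have h1 : l.reverse.IsChain Adj := by
      rw [List.isChain_reverse]
      exact hl.chain.imp fun _ _ h => h.symm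
    rw [hs, chain_wk] at h1
    exact h1
  have hnd : (wk (0, 0, 0) s).Nodup := by
    rw [← hs, List.nodup_reverse]
    exact hl.nodup
  have hlast : ((0, 0, 0) : P3) + s.sum = (v.1, v.2, 0) := by
    have h1 : l.reverse.getLast? = some (v.1, v.2, 0) := by
      rw [List.getLast?_reverse]
      exact hl.head
    rw [hs, last_wk] at h1
    exact Option.some.inj h1
  have hsum := sum_of_lets hsteps
  have hv : v = disp (lets s) := by
    refine Prod.ext ?_ ?_
    · rw [← hsum.1]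
      have := congrArg Prod.fst hlast
      simpa using this.symm
    · rw [← hsum.2]
      have := congrArg (fun p : P3 => p.2.1) hlast
      simpa using this.symm
  refine ⟨s, nr_of_nodup hsteps hnd, ?_, ?_, ?_, ?_⟩
  · rw [← hs, List.reverse_reverse]
  · rw [hv]
    exact nrm_disp _
  · refine lower_height hne hr hl hs hsteps ?_
    intro j hj h2
    have h3 : {c | leg c j ∈ LatticeTube.pedges l}.ncard = 2 := by
      have h4 : {c | leg c j ∈ LatticeTube.pedges l} = cross (ring (r ++ l)) j := by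
        ext c
        exact (cross_ring_low hr hl hj).symm
      rw [h4]
      exact h2
    have h5 : {j : ℤ | {c | leg c j ∈ LatticeTube.pedges l}.ncard = 2}.Finite := by
      refine (planes_finite' l).subset ?_
      intro i hi
      have h6 : {c | leg c i ∈ LatticeTube.pedges l}.Nonempty := by
        refine Set.nonempty_of_ncard_ne_zero ?_
        rw [hi]
        norm_num
      exact h6
    have h7 : {j : ℤ | {c | leg c j ∈ LatticeTube.pedges l}.ncard = 2} = ∅ :=
      (Set.ncard_eq_zero h5).1 hn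
    have h8 : j ∈ {j : ℤ | {c | leg c j ∈ LatticeTube.pedges l}.ncard = 2} := h3
    rw [h7] at h8
    exact h8
  · have h1 : l.length = l.reverse.length := (List.length_reverse).symm
    rw [h1, hs, length_wk, ← length_lets s, length_eq]

/-- The weight of a half. -/
private theorem weight_le (hy : 0 < y) (hz : 0 < z) (hz1 : z ≤ 1) (hq : y * z ^ 2 ≤ 1)
    {L b n m : ℕ} (hL : 4 * L ≤ b) (hm : m ≤ n) :
    (ENNReal.ofReal y ^ L * ENNReal.ofReal z ^ (b + n + 1)) * 2 ^ (b + n + 1) * 4 ^ m ≤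
      2 * ((2 * ENNReal.ofReal (Real.sqrt z)) ^ b * (8 * ENNReal.ofReal z) ^ n) := by
  have hs0 : 0 < Real.sqrt z := Real.sqrt_pos.2 hz
  have hs1 : Real.sqrt z ≤ 1 := by
    rw [Real.sqrt_le_left (by norm_num)]
    simpa using hz1
  have hss : Real.sqrt z ^ 2 = z := Real.sq_sqrt hz.le
  have key : y ^ L * z ^ b ≤ Real.sqrt z ^ b := by
    obtain ⟨c, rfl⟩ : ∃ c, b = 4 * L + c := ⟨b - 4 * L, by omega⟩
    have h1 : y ^ L * z ^ (4 * L + c) = (y * z ^ 2) ^ L * (z ^ (2 * L) * z ^ c) := by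
      rw [mul_pow, ← pow_mul, pow_add]
      have : z ^ (4 * L) = z ^ (2 * L) * z ^ (2 * L) := by
        rw [← pow_add]
        congr 1
        omega
      rw [this]
      ring
    have h2 : z ^ (2 * L) * z ^ c ≤ Real.sqrt z ^ (4 * L + c) := by
      rw [pow_add]
      have h3 : z ^ (2 * L) = Real.sqrt z ^ (4 * L) := by
        rw [show 4 * L = 2 * (2 * L) by omega, pow_mul (Real.sqrt z), hss]
      rw [h3]
      refine mul_le_mul_of_nonneg_left ?_ (by positivity)
      refine pow_le_pow_left₀ hz.le ?_ c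
      calc z = Real.sqrt z * Real.sqrt z := (Real.mul_self_sqrt hz.le).symm
        _ ≤ Real.sqrt z * 1 := mul_le_mul_of_nonneg_left hs1 hs0.le
        _ = _ := mul_one _
    rw [h1]
    calc (y * z ^ 2) ^ L * (z ^ (2 * L) * z ^ c) ≤ 1 * (z ^ (2 * L) * z ^ c) := by
          refine mul_le_mul_of_nonneg_right ?_ (by positivity)
          exact pow_le_one₀ (by positivity) hq
      _ ≤ _ := by rw [one_mul]; exact h2
  have e2 : (2 : ℝ≥0∞) = ENNReal.ofReal 2 := by
    rw [show (2 : ℝ) = ((2 : ℕ) : ℝ) by norm_num, ENNReal.ofReal_natCast]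
    norm_num
  have e4 : (4 : ℝ≥0∞) = ENNReal.ofReal 4 := by
    rw [show (4 : ℝ) = ((4 : ℕ) : ℝ) by norm_num, ENNReal.ofReal_natCast]
    norm_num
  have e8 : (8 : ℝ≥0∞) = ENNReal.ofReal 8 := by
    rw [show (8 : ℝ) = ((8 : ℕ) : ℝ) by norm_num, ENNReal.ofReal_natCast]
    norm_num
  have hL : (ENNReal.ofReal y ^ L * ENNReal.ofReal z ^ (b + n + 1)) * 2 ^ (b + n + 1) * 4 ^ m =
      ENNReal.ofReal ((y ^ L * z ^ (b + n + 1)) * 2 ^ (b + n + 1) * 4 ^ m) := by
    rw [e2, e4, ENNReal.ofReal_mul (by positivity), ENNReal.ofReal_mul (by positivity),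
      ENNReal.ofReal_mul (by positivity), ENNReal.ofReal_pow hy.le, ENNReal.ofReal_pow hz.le,
      ENNReal.ofReal_pow (by norm_num), ENNReal.ofReal_pow (by norm_num)]
  have hR : 2 * ((2 * ENNReal.ofReal (Real.sqrt z)) ^ b * (8 * ENNReal.ofReal z) ^ n) =
      ENNReal.ofReal (2 * ((2 * Real.sqrt z) ^ b * (8 * z) ^ n)) := by
    rw [ENNReal.ofReal_mul (by norm_num), ENNReal.ofReal_mul (by positivity),
      ENNReal.ofReal_pow (by positivity), ENNReal.ofReal_pow (by positivity),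
      ENNReal.ofReal_mul (by norm_num), ENNReal.ofReal_mul (by norm_num), ← e2, ← e8]
  rw [hL, hR]
  refine ENNReal.ofReal_le_ofReal ?_
  have h5 : (4 : ℝ) ^ m ≤ 4 ^ n := pow_le_pow_right₀ (by norm_num) hm
  calc (y ^ L * z ^ (b + n + 1)) * 2 ^ (b + n + 1) * 4 ^ m =
        (y ^ L * z ^ b) * z ^ n * z * 2 ^ (b + n + 1) * 4 ^ m := by ring
    _ ≤ Real.sqrt z ^ b * z ^ n * 1 * 2 ^ (b + n + 1) * 4 ^ n := by gcongr
    _ = 2 * ((2 * Real.sqrt z) ^ b * (8 * z) ^ n) := by
      have e : (8 : ℝ) = 2 * 4 := by norm_num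
      rw [e, mul_pow, mul_pow, mul_pow, pow_succ, pow_add]
      ring

/-- The halves without sections with two edges. -/
theorem cap_strong (hy : 0 < y) (hz : 0 < z) (hz1 : z ≤ 1 / 10 ^ 12) (hq : y * z ^ 2 ≤ 1) :
    ∑' v, ∑' l : {l // Half 0 v l},
      wl (ENNReal.ofReal y) (ENNReal.ofReal z) l.1 * 2 ^ l.1.length * 4 ^ nrm v ≠ ⊤ := by
  classical
  choose! W hW1 hW2 hW3 hW4 hW5 using fun (p : Σ v : ℤ × ℤ, {l // Half 0 v l}) =>
    exists_word p.2.2
  let F : (Σ n : ℕ, {s : List P3 // NR s ∧ s.length = n}) → ℝ≥0∞ := fun q =>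
    (2 * ENNReal.ofReal (Real.sqrt z)) ^ brk (lets q.2.1) *
      (8 * ENNReal.ofReal z) ^ stp (lets q.2.1)
  let φ : (Σ v : ℤ × ℤ, {l // Half 0 v l}) → (Σ n : ℕ, {s : List P3 // NR s ∧ s.length = n}) :=
    fun p => ⟨(W p).length, ⟨W p, hW1 p, rfl⟩⟩
  have hφ : Function.Injective φ := by
    intro p p' h
    have h1 : W p = W p' := by
      have : ∀ q q' : (Σ n : ℕ, {s : List P3 // NR s ∧ s.length = n}), q = q' → q.2.1 = q'.2.1 := by
        rintro q _ rfl
        rfl
      exact this _ _ h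
    have h2 : p.2.1 = p'.2.1 := by rw [hW2 p, hW2 p', h1]
    obtain ⟨v, l, hl⟩ := p
    obtain ⟨v', l', hl'⟩ := p'
    simp only at h2
    subst h2
    have h3 := hl.1.2.1.head
    rw [hl'.1.2.1.head] at h3
    have h4 := Option.some.inj h3
    simp only [Prod.mk.injEq, and_true] at h4
    have h5 : v = v' := Prod.ext h4.1.symm h4.2.symm
    subst h5
    rfl
  have h1 : ∑' v, ∑' l : {l // Half 0 v l},
      wl (ENNReal.ofReal y) (ENNReal.ofReal z) l.1 * 2 ^ l.1.length * 4 ^ nrm v =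
      ∑' p : (Σ v : ℤ × ℤ, {l // Half 0 v l}),
        wl (ENNReal.ofReal y) (ENNReal.ofReal z) p.2.1 * 2 ^ p.2.1.length * 4 ^ nrm p.1 := by
    rw [ENNReal.tsum_sigma']
  have h2 : ∑' p : (Σ v : ℤ × ℤ, {l // Half 0 v l}),
      wl (ENNReal.ofReal y) (ENNReal.ofReal z) p.2.1 * 2 ^ p.2.1.length * 4 ^ nrm p.1 ≤
        ∑' p, 2 * F (φ p) := by
    refine ENNReal.tsum_le_tsum fun p => ?_
    unfold wl
    rw [hW5 p]
    exact weight_le hy hz (hz1.trans (by norm_num)) hq (hW4 p) (hW3 p)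
  have h3 : ∑' p, F (φ p) ≤ ∑' q, F q := ENNReal.tsum_comp_le_tsum_of_injective hφ F
  have h4 : ∑' q, F q ≤
      ∑' n : ℕ, 2 * (2 * ENNReal.ofReal (Real.sqrt z) + 16 * (8 * ENNReal.ofReal z)) ^ n := by
    rw [ENNReal.tsum_sigma']
    exact ENNReal.tsum_le_tsum fun n => word_sum _ _ n
  rw [h1]
  rw [ENNReal.tsum_mul_left] at h2
  refine ne_top_of_le_ne_top ?_ (h2.trans (mul_le_mul_right (h3.trans h4) 2))
  refine ENNReal.mul_ne_top (by norm_num) ?_
  rw [ENNReal.tsum_mul_left, ENNReal.tsum_geometric]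
  refine ENNReal.mul_ne_top (by norm_num) ?_
  rw [ENNReal.inv_ne_top]
  have h5 : Real.sqrt z ≤ 1 / 10 ^ 6 := by
    rw [Real.sqrt_le_left (by norm_num)]
    refine hz1.trans (le_of_eq ?_)
    norm_num
  have h6 : 2 * ENNReal.ofReal (Real.sqrt z) + 16 * (8 * ENNReal.ofReal z) < 1 := by
    have e2 : (2 : ℝ≥0∞) = ENNReal.ofReal 2 := by
      rw [show (2 : ℝ) = ((2 : ℕ) : ℝ) by norm_num, ENNReal.ofReal_natCast]
      norm_num
    have e8 : (8 : ℝ≥0∞) = ENNReal.ofReal 8 := by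
      rw [show (8 : ℝ) = ((8 : ℕ) : ℝ) by norm_num, ENNReal.ofReal_natCast]
      norm_num
    have e16 : (16 : ℝ≥0∞) = ENNReal.ofReal 16 := by
      rw [show (16 : ℝ) = ((16 : ℕ) : ℝ) by norm_num, ENNReal.ofReal_natCast]
      norm_num
    rw [e2, e8, e16, ← ENNReal.ofReal_mul (by norm_num), ← ENNReal.ofReal_mul (by norm_num),
      ← ENNReal.ofReal_mul (by norm_num),
      ← ENNReal.ofReal_add (by positivity) (by positivity), ← ENNReal.ofReal_one]
    rw [ENNReal.ofReal_lt_ofReal_iff (by norm_num)]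
    norm_num at h5 hz1 ⊢
    linarith
  exact (tsub_pos_of_lt h6).ne'

/-- The polygons without sections with two edges. -/
theorem un_strong (hy : 0 < y) (hz : 0 < z) (hz1 : z ≤ 1 / 10 ^ 12) (hq : y * z ^ 2 ≤ 1) :
    ∑' E : PN 0, ENNReal.ofReal y ^ span E.1 * ENNReal.ofReal z ^ E.1.card * 2 ^ E.1.card ≠ ⊤ := by
  classical
  obtain ⟨x, hx1, hxy, hxz⟩ : ∃ x : ℝ, 1 ≤ x ∧ y ≤ x ^ 4 ∧ x ^ 4 * z ^ 2 ≤ 1 := by
    have hm : (1 : ℝ) ≤ max 1 y := le_max_left _ _
    have e4 : (max 1 y ^ (1 / 4 : ℝ)) ^ 4 = max 1 y := by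
      rw [← Real.rpow_natCast, ← Real.rpow_mul (by linarith)]
      norm_num
    refine ⟨max 1 y ^ (1 / 4 : ℝ), Real.one_le_rpow hm (by norm_num), ?_, ?_⟩
    · rw [e4]
      exact le_max_right _ _
    · rw [e4]
      rcases max_choice 1 y with h | h
      · rw [h, one_mul]
        nlinarith
      · rw [h]
        exact hq
  have hx0 : 0 < x := by linarith
  have h2 : x ^ 2 * z ≤ 1 := by
    by_contra h
    push Not at h
    nlinarith
  have h3 : x * z ≤ 1 / 10 ^ 6 := by
    have h4 : (x * z) ^ 2 ≤ z := by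
      have : (x * z) ^ 2 = x ^ 2 * z * z := by ring
      rw [this]
      nlinarith
    have h5 : (x * z) ^ 2 ≤ (1 / 10 ^ 6) ^ 2 := h4.trans (hz1.trans (by norm_num))
    exact (pow_le_pow_iff_left₀ (by positivity) (by norm_num) two_ne_zero).1 h5
  have hw : (x + 3) * (2 * z) + 5 * x * (2 * z) ^ 2 < 1 := by
    have e : (x + 3) * (2 * z) + 5 * x * (2 * z) ^ 2 =
        2 * (x * z) + 6 * z + 20 * ((x * z) * z) := by ring
    rw [e]
    have h5 : (x * z) * z ≤ 1 / 10 ^ 6 * (1 / 10 ^ 12) :=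
      mul_le_mul h3 hz1 hz.le (by norm_num)
    norm_num at h3 h5 hz1 ⊢
    linarith
  have hsum := KTen.words_Z3 hx1 (z := 2 * z) (by positivity) hw
  refine ne_top_of_le_ne_top hsum.tsum_ofReal_ne_top ?_
  have hmem : ∀ E : PN 0, (IsPolygon E.1 ∧ Normed E.1) := fun E => ⟨E.2.1, E.2.2.2.1⟩
  let φ : PN 0 → KTen.NPoly := fun E => ⟨E.1, hmem E⟩
  have hφ : Function.Injective φ := by
    intro E F h
    exact Subtype.ext (congrArg (fun x : KTen.NPoly => x.1) h)
  refine le_trans ?_ (ENNReal.tsum_comp_le_tsum_of_injective hφ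
    (fun E : KTen.NPoly => ENNReal.ofReal ((2 * z) ^ E.1.card * x ^ LatticeTube.vert E.1)))
  refine ENNReal.tsum_le_tsum fun E => ?_
  have e2 : (2 : ℝ≥0∞) = ENNReal.ofReal 2 := by
    rw [show (2 : ℝ) = ((2 : ℕ) : ℝ) by norm_num, ENNReal.ofReal_natCast]
    norm_num
  rw [e2, ← ENNReal.ofReal_pow hy.le, ← ENNReal.ofReal_pow hz.le,
    ← ENNReal.ofReal_mul (pow_nonneg hy.le _), ← ENNReal.ofReal_pow (by norm_num),
    ← ENNReal.ofReal_mul (by positivity)]
  refine ENNReal.ofReal_le_ofReal ?_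
  have hE := E.2
  have h5 : 4 * span E.1 ≤ LatticeTube.vert E.1 + 2 * {k : ℤ | IsTwo E.1 k}.ncard :=
    LatticeTube.sectionStatement.1 E.1 hE.1
  rw [hE.2.2.2, mul_zero, add_zero] at h5
  have h6 : y ^ span E.1 ≤ x ^ LatticeTube.vert E.1 :=
    calc y ^ span E.1 ≤ (x ^ 4) ^ span E.1 := pow_le_pow_left₀ hy.le hxy _
      _ = x ^ (4 * span E.1) := by rw [← pow_mul]
      _ ≤ x ^ LatticeTube.vert E.1 := pow_le_pow_right₀ hx1 h5
  calc y ^ span E.1 * z ^ E.1.card * 2 ^ E.1.card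
      ≤ x ^ LatticeTube.vert E.1 * z ^ E.1.card * 2 ^ E.1.card := by gcongr
    _ = (2 * z) ^ (φ E).1.card * x ^ LatticeTube.vert (φ E).1 := by
      rw [mul_pow]
      change _ = 2 ^ E.1.card * z ^ E.1.card * x ^ LatticeTube.vert E.1
      ring

end Pool.Agent.KAsym
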