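import Pool.Agent.KAsym.Symbol
import Pool.Agent.KAsym.Disc

/-! KA3: averages over the torus. -/

set_option autoImplicit false

open Complex MeasureTheory Set

namespace Pool.Agent.KAsym

open Pool.Agent.KLog (nrm nsq rt)

variable {R J H : Type} {κ : Mdl R J H} {s : ℂ}

theorem isCompact_box : IsCompact box := isCompact_Icc.prod isCompact_Icc

theorem measurableSet_box : MeasurableSet box := measurableSet_Icc.prod measurableSet_Icc

theorem volume_box : volume.real box = 4 * Real.pi ^ 2 := by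
  have h : volume.real (Icc (-Real.pi) Real.pi) = 2 * Real.pi := by
    rw [Real.volume_real_Icc_of_le (by linarith [Real.pi_pos])]
    ring
  unfold box
  rw [Measure.volume_eq_prod, measureReal_prod_prod, h]
  ring

private theorem ka3_c_norm : ‖((4 * Real.pi ^ 2 : ℝ) : ℂ)⁻¹‖ = (4 * Real.pi ^ 2)⁻¹ := by
  rw [norm_inv, Complex.norm_real, Real.norm_of_nonneg (by positivity)]

theorem av_norm_le {f : ℝ × ℝ → ℂ} {C : ℝ} (h : ∀ θ ∈ box, ‖f θ‖ ≤ C) : ‖av f‖ ≤ C := by
  have h1 : ‖∫ θ in box, f θ‖ ≤ C * volume.real box :=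
    norm_setIntegral_le_of_norm_le_const isCompact_box.measure_lt_top h
  rw [volume_box] at h1
  have h2 : 0 < 4 * Real.pi ^ 2 := by positivity
  unfold av
  rw [norm_mul, ka3_c_norm, inv_mul_le_iff₀ h2]
  linarith

theorem av_norm_le' {f : ℝ × ℝ → ℂ} {g : ℝ × ℝ → ℝ} (hg : IntegrableOn g box)
    (h : ∀ θ ∈ box, ‖f θ‖ ≤ g θ) : ‖av f‖ ≤ (4 * Real.pi ^ 2)⁻¹ * ∫ θ in box, g θ := by
  have h1 : ‖∫ θ in box, f θ‖ ≤ ∫ θ in box, g θ :=
    norm_integral_le_of_norm_le hg (ae_restrict_of_forall_mem measurableSet_box h)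
  unfold av
  rw [norm_mul, ka3_c_norm]
  exact mul_le_mul_of_nonneg_left h1 (by positivity)

/-- Averages depending on a complex parameter. -/
theorem diffOn_av {Ω : Set ℂ} (hΩ : IsOpen Ω) {f : ℂ → ℝ × ℝ → ℂ}
    (hf : ∀ θ ∈ box, DifferentiableOn ℂ (fun s => f s θ) Ω)
    (hm : ∀ s ∈ Ω, ContinuousOn (f s) box)
    (hb : ∀ s ∈ Ω, ∃ ε > 0, ∃ C : ℝ, Metric.ball s ε ⊆ Ω ∧
      ∀ s' ∈ Metric.ball s ε, ∀ θ ∈ box, ‖f s' θ‖ ≤ C) :
    DifferentiableOn ℂ (fun s => av (f s)) Ω := by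
  intro s₀ hs₀
  obtain ⟨ε, hε, C, hball, hC⟩ := hb s₀ hs₀
  have hε2 : 0 < ε / 2 := by linarith
  have hmeas : ∀ s ∈ Ω, AEStronglyMeasurable (f s) (volume.restrict box) := fun s hs =>
    (hm s hs).aestronglyMeasurable measurableSet_box
  have hder : ∀ θ ∈ box, ∀ s ∈ Metric.ball s₀ ε,
      HasDerivAt (fun w => f w θ) (deriv (fun w => f w θ) s) s := fun θ hθ s hs =>
    ((hf θ hθ).differentiableAt (hΩ.mem_nhds (hball hs))).hasDerivAt
  have hF' : AEStronglyMeasurable (fun θ => deriv (fun w => f w θ) s₀)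
      (volume.restrict box) := by
    let h : ℕ → ℝ := fun n => ε / 2 * (1 / ((n : ℝ) + 1))
    have hpos : ∀ n, 0 < h n := fun n => by positivity
    have hle : ∀ n, h n ≤ ε / 2 := fun n => by
      have h1 : 1 / ((n : ℝ) + 1) ≤ 1 := by
        rw [div_le_one (by positivity)]
        linarith [(Nat.cast_nonneg n : (0 : ℝ) ≤ n)]
      calc h n ≤ ε / 2 * 1 := mul_le_mul_of_nonneg_left h1 hε2.le
        _ = ε / 2 := mul_one _
    have hlim : Filter.Tendsto h Filter.atTop (nhds 0) := by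
      have := (tendsto_one_div_add_atTop_nhds_zero_nat (𝕜 := ℝ)).const_mul (ε / 2)
      rw [mul_zero] at this
      exact this
    have hlim' : Filter.Tendsto (fun n => ((h n : ℝ) : ℂ)) Filter.atTop (nhdsWithin 0 {0}ᶜ) := by
      refine tendsto_nhdsWithin_iff.2 ⟨?_, Filter.Eventually.of_forall fun n => ?_⟩
      · have := (Complex.continuous_ofReal.tendsto 0).comp hlim
        rw [Complex.ofReal_zero] at this
        exact this
      · simpa using (hpos n).ne'
    have hmem : ∀ n, s₀ + ((h n : ℝ) : ℂ) ∈ Metric.ball s₀ ε := fun n => by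
      rw [Metric.mem_ball, dist_eq_norm, add_sub_cancel_left, Complex.norm_real,
        Real.norm_of_nonneg (hpos n).le]
      linarith [hle n]
    refine aestronglyMeasurable_of_tendsto_ae Filter.atTop
      (f := fun n θ => ((h n : ℝ) : ℂ)⁻¹ • (f (s₀ + ((h n : ℝ) : ℂ)) θ - f s₀ θ)) (fun n => ?_) ?_
    · exact (((hmeas _ (hball (hmem n))).sub (hmeas _ hs₀)).const_smul ((h n : ℝ) : ℂ)⁻¹ :)
    · refine ae_restrict_of_forall_mem measurableSet_box fun θ hθ => ?_
      exact (hder θ hθ s₀ (Metric.mem_ball_self hε)).tendsto_slope_zero.comp hlim'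
  have key := hasDerivAt_integral_of_dominated_loc_of_deriv_le (μ := volume.restrict box)
    (F := f) (x₀ := s₀) (s := Metric.ball s₀ (ε / 2))
    (F' := fun s θ => deriv (fun w => f w θ) s) (bound := fun _ => C / (ε / 2))
    (Metric.ball_mem_nhds _ hε2)
    (Filter.eventually_of_mem (hΩ.mem_nhds hs₀) hmeas)
    ((hm s₀ hs₀).integrableOn_compact isCompact_box) hF'
    (ae_restrict_of_forall_mem measurableSet_box fun θ hθ s hs => ?_)
    (continuousOn_const.integrableOn_compact isCompact_box)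
    (ae_restrict_of_forall_mem measurableSet_box fun θ hθ s hs => ?_)
  · exact ((key.2.const_mul _).differentiableAt).differentiableWithinAt
  · have hsub : Metric.closedBall s (ε / 2) ⊆ Metric.ball s₀ ε := by
      intro w hw
      rw [Metric.mem_closedBall] at hw
      rw [Metric.mem_ball] at hs ⊢
      have := dist_triangle w s s₀
      linarith
    refine Complex.norm_deriv_le_of_forall_mem_sphere_norm_le hε2 ?_ fun w hw => ?_
    · refine DifferentiableOn.diffContOnCl ?_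
      refine (hf θ hθ).mono fun w hw => hball (hsub (Metric.closure_ball_subset_closedBall hw))
    · exact hC w (hsub (Metric.sphere_subset_closedBall hw)) θ hθ
  · exact hder θ hθ s (Metric.ball_subset_ball (by linarith) hs)

private theorem ka3_dot_cont (x : ℤ × ℤ) : Continuous fun θ : ℝ × ℝ => dot θ x := by
  unfold dot
  fun_prop

private theorem ka3_term_le (hκ : κ.Ok) (hs : -(1 / 100) ≤ s.re) (r : R) (θ : ℝ × ℝ) :
    ‖(κ.rc r : ℂ) * exp (-κ.rn r * s) * (Real.cos (dot θ (κ.ru r)) : ℂ)‖ ≤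
      κ.rc r * 2 ^ κ.rn r * om (κ.ru r) := by
  have h1 := hκ.rc_nn r
  have h2 := exp_bd' (n := κ.rn r) hs
  have h3 := one_le_om (κ.ru r)
  rw [norm_mul, norm_mul, Complex.norm_real, Real.norm_of_nonneg h1, Complex.norm_real,
    Real.norm_eq_abs]
  have h4 := Real.abs_cos_le_one (dot θ (κ.ru r))
  refine mul_le_mul (mul_le_mul_of_nonneg_left h2 h1) (h4.trans h3) (abs_nonneg _) ?_
  positivity

theorem F_cont (hκ : κ.Ok) (hs : -(1 / 100) ≤ s.re) : Continuous (κ.F s) := by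
  unfold Mdl.F
  refine Continuous.add ?_ ?_
  · fun_prop
  · refine continuous_tsum (fun r => ?_) hκ.r_summable fun r θ => ka3_term_le hκ hs r θ
    have := ka3_dot_cont (κ.ru r)
    fun_prop

theorem F_diff (hκ : κ.Ok) (θ : ℝ × ℝ) :
    DifferentiableOn ℂ (fun s => κ.F s θ) {s | -(1 / 100) < s.re} := by
  unfold Mdl.F
  refine DifferentiableOn.add ?_ ?_
  · fun_prop
  · refine differentiableOn_tsum_of_summable_norm hκ.r_summable (fun r => ?_) ?_
      fun r w hw => ka3_term_le hκ (le_of_lt hw) r θ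
    · fun_prop
    · exact isOpen_lt continuous_const Complex.continuous_re

/-- The function `|θ|⁻¹` is integrable. -/
theorem integrable_rsqrt : IntegrableOn (fun θ : ℝ × ℝ => (Real.sqrt (NN θ))⁻¹) box := by
  have hm : Measurable (fun θ : ℝ × ℝ => (Real.sqrt (NN θ))⁻¹) := by
    unfold NN
    fun_prop
  refine Integrable.mono' (integrable_rnorm.const_mul (Real.sqrt (2 / Real.pi ^ 2))⁻¹)
    hm.aestronglyMeasurable (ae_restrict_of_forall_mem measurableSet_box fun θ hθ => ?_)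
  rw [Real.norm_of_nonneg (inv_nonneg.2 (Real.sqrt_nonneg _)), ← mul_inv]
  have hc : 0 < 2 / Real.pi ^ 2 := by positivity
  rw [← Real.sqrt_mul hc.le]
  have h0 : 0 ≤ θ.1 ^ 2 + θ.2 ^ 2 := by positivity
  rcases h0.eq_or_lt with h | h
  · have h1 : θ.1 = 0 := by nlinarith [sq_nonneg θ.1, sq_nonneg θ.2]
    have h2 : θ.2 = 0 := by nlinarith [sq_nonneg θ.1, sq_nonneg θ.2]
    have h3 : NN θ = 0 := by
      unfold NN
      rw [h1, h2, Real.cos_zero]
      norm_num
    rw [h3, Real.sqrt_zero, inv_zero]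
    positivity
  · refine inv_anti₀ (Real.sqrt_pos.2 (mul_pos hc h)) (Real.sqrt_le_sqrt (NN_ge hθ))

/-- The averages of functions bounded by `|s| / (|s| + 2 z NN)`. -/
theorem av_sqrt (hκ : κ.Ok) : ∃ C : ℝ, ∀ (s : ℂ) (f : ℝ × ℝ → ℂ) (K : ℝ),
    (∀ θ ∈ box, ‖f θ‖ ≤ K * (‖s‖ / (‖s‖ + 2 * κ.z * NN θ))) → ‖av f‖ ≤ K * C * √‖s‖ := by
  have hz := hκ.z_pos
  refine ⟨(4 * Real.pi ^ 2)⁻¹ * ∫ θ in box, (Real.sqrt (2 * κ.z))⁻¹ * (Real.sqrt (NN θ))⁻¹,
    fun s f K hf => ?_⟩
  have hbox0 : (0 : ℝ × ℝ) ∈ box := by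
    have := Real.pi_pos
    refine ⟨⟨?_, ?_⟩, ?_, ?_⟩ <;> simp <;> linarith
  have hN0 : NN 0 = 0 := by
    unfold NN
    simp
    norm_num
  rcases (norm_nonneg s).eq_or_lt with h0 | h0
  · have h1 : ‖av f‖ ≤ 0 := av_norm_le fun θ hθ => by
      have := hf θ hθ
      rwa [← h0, zero_div, mul_zero] at this
    rw [← h0, Real.sqrt_zero, mul_zero]
    exact h1
  · have hK : 0 ≤ K := by
      have h1 := (norm_nonneg _).trans (hf 0 hbox0)
      rw [hN0, mul_zero, add_zero, div_self h0.ne', mul_one] at h1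
      exact h1
    have hint : IntegrableOn (fun θ => K * √‖s‖ *
        ((Real.sqrt (2 * κ.z))⁻¹ * (Real.sqrt (NN θ))⁻¹)) box :=
      (integrable_rsqrt.const_mul _).const_mul _
    have hae : ∀ᵐ θ ∂(volume.restrict box), ‖f θ‖ ≤ K * √‖s‖ *
        ((Real.sqrt (2 * κ.z))⁻¹ * (Real.sqrt (NN θ))⁻¹) := by
      have hne : ∀ᵐ θ ∂(volume.restrict box), θ ≠ (0 : ℝ × ℝ) := by
        refine ae_restrict_of_ae ?_
        rw [ae_iff]
        simp
      have hb : ∀ᵐ θ ∂(volume.restrict box), θ ∈ box := ae_restrict_mem measurableSet_box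
      filter_upwards [hne, hb] with θ h1 h2
      have hN := NN_pos h2 h1
      refine (hf θ h2).trans ?_
      rw [mul_assoc K]
      refine mul_le_mul_of_nonneg_left ?_ hK
      have hzN : 0 < 2 * κ.z * NN θ := by positivity
      rw [← mul_inv, ← Real.sqrt_mul (by positivity), ← div_eq_mul_inv, ← Real.sqrt_div h0.le]
      refine Real.le_sqrt_of_sq_le ?_
      have h3 : 0 < ‖s‖ + 2 * κ.z * NN θ := by linarith
      rw [div_pow, div_le_div_iff₀ (by positivity) hzN]
      have h4 : ‖s‖ * (2 * κ.z * NN θ) ≤ (‖s‖ + 2 * κ.z * NN θ) ^ 2 := by nlinarith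
      nlinarith [mul_le_mul_of_nonneg_left h4 h0.le]
    have h1 : ‖∫ θ in box, f θ‖ ≤ ∫ θ in box, K * √‖s‖ *
        ((Real.sqrt (2 * κ.z))⁻¹ * (Real.sqrt (NN θ))⁻¹) := norm_integral_le_of_norm_le hint hae
    rw [integral_const_mul] at h1
    unfold av
    rw [norm_mul, ka3_c_norm]
    calc (4 * Real.pi ^ 2)⁻¹ * ‖∫ θ in box, f θ‖
        ≤ (4 * Real.pi ^ 2)⁻¹ * (K * √‖s‖ *
          ∫ θ in box, (Real.sqrt (2 * κ.z))⁻¹ * (Real.sqrt (NN θ))⁻¹) :=
          mul_le_mul_of_nonneg_left h1 (by positivity)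
      _ = _ := by ring

end Pool.Agent.KAsym
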