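import Pool.Agent.KAsym.Av

/-! KA9: the Green function inverts the free kernel. -/

set_option autoImplicit false

open Complex MeasureTheory Set

namespace Pool.Agent.KAsym

open Pool.Agent.KLog (nrm nsq rt)

variable {R J H : Type} {κ : Mdl R J H} {s : ℂ}

/-! ## The average of the characters -/

private theorem conv_int_cos (n : ℤ) :
    ∫ t in Icc (-Real.pi) Real.pi, Real.cos (t * n) = if n = 0 then 2 * Real.pi else 0 := by
  rw [integral_Icc_eq_integral_Ioc,
    ← intervalIntegral.integral_of_le (by linarith [Real.pi_pos])]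
  split_ifs with h
  · subst h
    simp only [Int.cast_zero, mul_zero, Real.cos_zero, intervalIntegral.integral_const,
      smul_eq_mul, mul_one]
    ring
  · have hn : (n : ℝ) ≠ 0 := by exact_mod_cast h
    rw [intervalIntegral.integral_comp_mul_right (fun t => Real.cos t) hn, integral_cos]
    have h1 : Real.sin (Real.pi * n) = 0 := by
      rw [mul_comm]
      exact Real.sin_int_mul_pi n
    rw [neg_mul, Real.sin_neg, h1]
    simp

private theorem conv_int_sin (n : ℤ) :
    ∫ t in Icc (-Real.pi) Real.pi, Real.sin (t * n) = 0 := by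
  rw [integral_Icc_eq_integral_Ioc,
    ← intervalIntegral.integral_of_le (by linarith [Real.pi_pos])]
  by_cases h : n = 0
  · subst h
    simp
  · have hn : (n : ℝ) ≠ 0 := by exact_mod_cast h
    rw [intervalIntegral.integral_comp_mul_right (fun t => Real.sin t) hn, integral_sin]
    rw [neg_mul, Real.cos_neg, sub_self, smul_zero]

private theorem conv_io {f : ℝ × ℝ → ℝ} (hf : Continuous f) : IntegrableOn f box :=
  hf.continuousOn.integrableOn_compact isCompact_box

private theorem conv_ioc {f : ℝ × ℝ → ℂ} (hf : Continuous f) : IntegrableOn f box :=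
  hf.continuousOn.integrableOn_compact isCompact_box

theorem av_cos (x : ℤ × ℤ) :
    av (fun θ => (Real.cos (dot θ x) : ℂ)) = if x = 0 then 1 else 0 := by
  have h1 : ∫ θ in box, Real.cos (dot θ x) =
      (if x.1 = 0 then 2 * Real.pi else 0) * (if x.2 = 0 then 2 * Real.pi else 0) := by
    have e : ∀ θ : ℝ × ℝ, Real.cos (dot θ x) = Real.cos (θ.1 * x.1) * Real.cos (θ.2 * x.2) -
        Real.sin (θ.1 * x.1) * Real.sin (θ.2 * x.2) := fun θ => Real.cos_add _ _
    simp only [e]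
    rw [integral_sub (conv_io (by fun_prop)) (conv_io (by fun_prop)), box,
      Measure.volume_eq_prod,
      setIntegral_prod_mul (fun t : ℝ => Real.cos (t * x.1)) (fun t : ℝ => Real.cos (t * x.2)),
      setIntegral_prod_mul (fun t : ℝ => Real.sin (t * x.1)) (fun t : ℝ => Real.sin (t * x.2)),
      conv_int_cos, conv_int_cos, conv_int_sin, zero_mul, sub_zero]
  unfold av
  beta_reduce
  rw [integral_complex_ofReal, h1]
  have hpi : (Real.pi : ℂ) ≠ 0 := by exact_mod_cast Real.pi_ne_zero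
  by_cases hx1 : x.1 = 0
  · by_cases hx2 : x.2 = 0
    · have hx : x = 0 := Prod.ext hx1 hx2
      rw [if_pos hx1, if_pos hx2, if_pos hx]
      push_cast
      field_simp
      ring
    · have hx : x ≠ 0 := fun h => hx2 (by rw [h]; rfl)
      rw [if_neg hx2, if_neg hx, mul_zero, ofReal_zero, mul_zero]
  · have hx : x ≠ 0 := fun h => hx1 (by rw [h]; rfl)
    rw [if_neg hx1, if_neg hx, zero_mul, ofReal_zero, mul_zero]

/-! ## Bounds -/

private theorem conv_rc (hκ : κ.Ok) : Summable κ.rc := by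
  refine Summable.of_nonneg_of_le hκ.rc_nn (fun r => ?_) hκ.r_summable
  have h1 : (1 : ℝ) ≤ 2 ^ κ.rn r := one_le_pow₀ (by norm_num)
  have h2 : (1 : ℝ) ≤ om (κ.ru r) := one_le_pow₀ (by norm_num)
  have h0 := hκ.rc_nn r
  calc κ.rc r = κ.rc r * 1 * 1 := by ring
    _ ≤ κ.rc r * 2 ^ κ.rn r * om (κ.ru r) := by gcongr

private theorem conv_er (hκ : κ.Ok) (hs : 0 < s.re) (r : R) : ‖κ.er s r‖ ≤ κ.rc r := by
  unfold Mdl.er
  rw [norm_mul, Complex.norm_real, Real.norm_of_nonneg (hκ.rc_nn r), Complex.norm_exp]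
  have h1 : (-(κ.rn r : ℂ) * s).re = -((κ.rn r : ℝ) * s.re) := by
    simp
  rw [h1]
  have h2 : Real.exp (-((κ.rn r : ℝ) * s.re)) ≤ 1 := by
    rw [Real.exp_le_one_iff]
    have : 0 ≤ (κ.rn r : ℝ) * s.re := by positivity
    linarith
  exact mul_le_of_le_one_right (hκ.rc_nn r) h2

private theorem conv_cos (t : ℝ) : ‖(Real.cos t : ℂ)‖ ≤ 1 := by
  rw [Complex.norm_real]
  exact Real.abs_cos_le_one t

private theorem conv_sin (t : ℝ) : ‖(Real.sin t : ℂ)‖ ≤ 1 := by
  rw [Complex.norm_real]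
  exact Real.abs_sin_le_one t

theorem F_lt (hκ : κ.Ok) (hs : 0 < s.re) : ∃ ρ < 1, ∀ θ, ‖κ.F s θ‖ ≤ ρ := by
  have hq := hκ.q_pos
  have hz := hκ.z_pos
  refine ⟨κ.q * Real.exp (-2 * s.re) * (1 + 8 * κ.z) + ∑' r, κ.rc r, ?_, fun θ => ?_⟩
  · have h1 := hκ.crit
    have h2 : Real.exp (-2 * s.re) < 1 := by
      rw [Real.exp_lt_one_iff]
      linarith
    have h3 : 0 < κ.q * (1 + 8 * κ.z) := by positivity
    have h4 : κ.q * (1 + 8 * κ.z) * Real.exp (-2 * s.re) < κ.q * (1 + 8 * κ.z) * 1 :=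
      mul_lt_mul_of_pos_left h2 h3
    nlinarith
  · unfold Mdl.F
    refine (norm_add_le _ _).trans (add_le_add ?_ ?_)
    · rw [norm_mul, norm_mul, Complex.norm_real, Real.norm_of_nonneg hq.le, Complex.norm_exp]
      have h1 : (-2 * s).re = -2 * s.re := by simp
      rw [h1]
      refine mul_le_mul_of_nonneg_left ?_ (by positivity)
      refine (norm_add_le _ _).trans ?_
      rw [norm_one, norm_mul, norm_mul, norm_mul, Complex.norm_real,
        Real.norm_of_nonneg hz.le, Complex.norm_exp, Complex.norm_real]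
      have h2 : Real.exp ((-s).re) ≤ 1 := by
        rw [Real.exp_le_one_iff, Complex.neg_re]
        linarith
      have h3 : ‖Real.cos θ.1 + Real.cos θ.2‖ ≤ 2 := by
        refine (norm_add_le _ _).trans ?_
        have := Real.abs_cos_le_one θ.1
        have := Real.abs_cos_le_one θ.2
        rw [Real.norm_eq_abs, Real.norm_eq_abs]
        linarith
      have h4 : ‖(4 : ℂ)‖ = 4 := by simp
      rw [h4]
      have h5 : Real.exp ((-s).re) * ‖Real.cos θ.1 + Real.cos θ.2‖ ≤ 1 * 2 :=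
        mul_le_mul h2 h3 (norm_nonneg _) zero_le_one
      nlinarith
    · refine (norm_tsum_le_tsum_norm ?_).trans ?_
      · refine Summable.of_nonneg_of_le (fun _ => norm_nonneg _) (fun r => ?_) (conv_rc hκ)
        rw [norm_mul]
        exact (mul_le_of_le_one_right (norm_nonneg _) (conv_cos _)).trans (conv_er hκ hs r)
      · refine Summable.tsum_le_tsum (fun r => ?_) ?_ (conv_rc hκ)
        · rw [norm_mul]
          exact (mul_le_of_le_one_right (norm_nonneg _) (conv_cos _)).trans (conv_er hκ hs r)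
        · refine Summable.of_nonneg_of_le (fun _ => norm_nonneg _) (fun r => ?_) (conv_rc hκ)
          rw [norm_mul]
          exact (mul_le_of_le_one_right (norm_nonneg _) (conv_cos _)).trans (conv_er hκ hs r)

private theorem conv_low (hκ : κ.Ok) (hs : 0 < s.re) :
    ∃ c > 0, ∀ θ, c ≤ ‖1 - κ.F s θ‖ := by
  obtain ⟨ρ, hρ, h⟩ := F_lt hκ hs
  refine ⟨1 - ρ, by linarith, fun θ => ?_⟩
  have h1 := norm_sub_norm_le (1 : ℂ) (κ.F s θ)
  rw [norm_one] at h1
  have := h θ
  linarith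

theorem grn_bd (hκ : κ.Ok) (hs : 0 < s.re) : ∃ C : ℝ, ∀ x, ‖κ.grn s x‖ ≤ C := by
  obtain ⟨c, hc, h⟩ := conv_low hκ hs
  refine ⟨1 / c, fun x => av_norm_le fun θ _ => ?_⟩
  rw [norm_div]
  exact div_le_div₀ zero_le_one (conv_cos _) hc (h θ)

/-! ## Averages of sums -/

private theorem conv_mul (c : ℂ) (f : ℝ × ℝ → ℂ) : av (fun θ => c * f θ) = c * av f := by
  unfold av
  rw [integral_const_mul]
  ring

private theorem conv_add {f g : ℝ × ℝ → ℂ} (hf : Continuous f) (hg : Continuous g) :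
    av (fun θ => f θ + g θ) = av f + av g := by
  unfold av
  rw [integral_add (conv_ioc hf) (conv_ioc hg)]
  ring

private theorem conv_sub {f g : ℝ × ℝ → ℂ} (hf : Continuous f) (hg : Continuous g) :
    av (fun θ => f θ - g θ) = av f - av g := by
  unfold av
  rw [integral_sub (conv_ioc hf) (conv_ioc hg)]
  ring

private theorem conv_comb {a b : ℂ} {f f1 f2 f3 f4 g : ℝ × ℝ → ℂ} (hf : Continuous f)
    (h1 : Continuous f1) (h2 : Continuous f2) (h3 : Continuous f3) (h4 : Continuous f4)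
    (hg : Continuous g) :
    av f - a * av f - b * (av f1 + av f2 + av f3 + av f4) - av g =
      av fun θ => f θ - a * f θ - b * (f1 θ + f2 θ + f3 θ + f4 θ) - g θ := by
  have h5 : Continuous fun θ => f1 θ + f2 θ := h1.add h2
  have h6 : Continuous fun θ => f1 θ + f2 θ + f3 θ := h5.add h3
  have h7 : Continuous fun θ => f1 θ + f2 θ + f3 θ + f4 θ := h6.add h4
  have h8 : Continuous fun θ => b * (f1 θ + f2 θ + f3 θ + f4 θ) := continuous_const.mul h7
  have h9 : Continuous fun θ => a * f θ := continuous_const.mul hf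
  have h10 : Continuous fun θ => f θ - a * f θ := hf.sub h9
  have h11 : Continuous fun θ => f θ - a * f θ - b * (f1 θ + f2 θ + f3 θ + f4 θ) := h10.sub h8
  rw [conv_sub h11 hg, conv_sub h10 h8, conv_sub hf h9, conv_mul a f,
    conv_mul b fun θ => f1 θ + f2 θ + f3 θ + f4 θ, conv_add h6 h4, conv_add h5 h3,
    conv_add h1 h2]

private theorem conv_fsum {ι : Type} (S : Finset ι) {f : ι → ℝ × ℝ → ℂ}
    (hf : ∀ i, Continuous (f i)) : av (fun θ => ∑ i ∈ S, f i θ) = ∑ i ∈ S, av (f i) := by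
  unfold av
  rw [integral_finsetSum S fun i _ => conv_ioc (hf i), Finset.mul_sum]

private theorem conv_hasSum {ι : Type} {f : ι → ℝ × ℝ → ℂ} {u : ι → ℝ} (hu : Summable u)
    (hf : ∀ i, Continuous (f i)) (hb : ∀ i θ, ‖f i θ‖ ≤ u i) :
    HasSum (fun i => av (f i)) (av fun θ => ∑' i, f i θ) := by
  have hc : Continuous fun θ => ∑' i, f i θ := continuous_tsum hf hu hb
  unfold HasSum
  rw [SummationFilter.unconditional_filter, Metric.tendsto_nhds]
  intro ε hε
  have h1 := Metric.tendstoUniformly_iff.1 (tendstoUniformly_tsum hu hb) (ε / 2) (by linarith)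
  refine h1.mono fun S hS => ?_
  rw [← conv_fsum S hf, dist_comm, dist_eq_norm,
    ← conv_sub hc (continuous_finsetSum S fun i _ => hf i)]
  refine lt_of_le_of_lt (av_norm_le (C := ε / 2) fun θ _ => ?_) (by linarith)
  have h2 := (hS θ).le
  rwa [dist_eq_norm] at h2

/-! ## The equation -/

private theorem conv_rt (u : ℤ × ℤ) (θ : ℝ × ℝ) : dot θ (rt (rt u)) = -dot θ u := by
  unfold dot rt
  push_cast
  ring

private theorem conv_odd (hκ : κ.Ok) (θ : ℝ × ℝ) :
    ∑' r, κ.er s r * (Real.sin (dot θ (κ.ru r)) : ℂ) = 0 := by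
  obtain ⟨σ, hσ⟩ := hκ.rot
  have h1 : ∑' r, κ.er s r * (Real.sin (dot θ (κ.ru r)) : ℂ) =
      ∑' r, -(κ.er s r * (Real.sin (dot θ (κ.ru r)) : ℂ)) := by
    rw [← (σ.trans σ).tsum_eq fun r => κ.er s r * (Real.sin (dot θ (κ.ru r)) : ℂ)]
    refine tsum_congr fun r => ?_
    have e1 : κ.er s ((σ.trans σ) r) = κ.er s r := by
      unfold Mdl.er
      rw [Equiv.trans_apply, (hσ (σ r)).1, (hσ r).1, (hσ (σ r)).2.1, (hσ r).2.1]
    have e2 : κ.ru ((σ.trans σ) r) = rt (rt (κ.ru r)) := by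
      rw [Equiv.trans_apply, (hσ (σ r)).2.2, (hσ r).2.2]
    rw [e1, e2, conv_rt, Real.sin_neg]
    push_cast
    ring
  rw [tsum_neg] at h1
  exact self_eq_neg.1 h1

private theorem conv_dot_sub (θ : ℝ × ℝ) (x u : ℤ × ℤ) : dot θ (x - u) = dot θ x - dot θ u := by
  unfold dot
  simp only [Prod.fst_sub, Prod.snd_sub]
  push_cast
  ring

private theorem conv_four (θ : ℝ × ℝ) (x : ℤ × ℤ) :
    Real.cos (dot θ (x + (1, 0))) + Real.cos (dot θ (x + (-1, 0))) +
      Real.cos (dot θ (x + (0, 1))) + Real.cos (dot θ (x + (0, -1))) =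
    2 * Real.cos (dot θ x) * (Real.cos θ.1 + Real.cos θ.2) := by
  have e1 : dot θ (x + (1, 0)) = dot θ x + θ.1 := by
    unfold dot
    simp only [Prod.fst_add, Prod.snd_add]
    push_cast
    ring
  have e2 : dot θ (x + (-1, 0)) = dot θ x - θ.1 := by
    unfold dot
    simp only [Prod.fst_add, Prod.snd_add]
    push_cast
    ring
  have e3 : dot θ (x + (0, 1)) = dot θ x + θ.2 := by
    unfold dot
    simp only [Prod.fst_add, Prod.snd_add]
    push_cast
    ring
  have e4 : dot θ (x + (0, -1)) = dot θ x - θ.2 := by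
    unfold dot
    simp only [Prod.fst_add, Prod.snd_add]
    push_cast
    ring
  rw [e1, e2, e3, e4, Real.cos_add, Real.cos_sub, Real.cos_add, Real.cos_sub]
  ring

theorem grn_eqn (hκ : κ.Ok) (hs : 0 < s.re) (x : ℤ × ℤ) :
    κ.grn s x - κ.q * exp (-2 * s) * κ.grn s x -
      2 * κ.q * κ.z * exp (-3 * s) * (κ.grn s (x + (1, 0)) + κ.grn s (x + (-1, 0)) +
        κ.grn s (x + (0, 1)) + κ.grn s (x + (0, -1))) -
      ∑' r, κ.er s r * κ.grn s (x - κ.ru r) = if x = 0 then 1 else 0 := by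
  obtain ⟨c, hc, hlow⟩ := conv_low hκ hs
  have hne : ∀ θ, 1 - κ.F s θ ≠ 0 := fun θ h => by
    have := hlow θ
    rw [h, norm_zero] at this
    linarith
  have hF : Continuous (κ.F s) := F_cont hκ (by linarith)
  have hdot : ∀ y : ℤ × ℤ, Continuous fun θ : ℝ × ℝ => dot θ y := by
    intro y
    unfold dot
    fun_prop
  have hcos : ∀ y : ℤ × ℤ, Continuous fun θ : ℝ × ℝ => (Real.cos (dot θ y) : ℂ) := fun y =>
    Complex.continuous_ofReal.comp (Real.continuous_cos.comp (hdot y))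
  have hcont : ∀ y : ℤ × ℤ, Continuous fun θ : ℝ × ℝ =>
      (Real.cos (dot θ y) : ℂ) / (1 - κ.F s θ) := fun y =>
    (hcos y).div (continuous_const.sub hF) hne
  have hbd : ∀ (y : ℤ × ℤ) θ, ‖(Real.cos (dot θ y) : ℂ) / (1 - κ.F s θ)‖ ≤ 1 / c := by
    intro y θ
    rw [norm_div]
    exact div_le_div₀ zero_le_one (conv_cos _) hc (hlow θ)
  -- the sum over the free elements
  have hsumc : ∀ θ : ℝ × ℝ, Summable fun r => κ.er s r * (Real.cos (dot θ (κ.ru r)) : ℂ) := by
    intro θ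
    refine Summable.of_norm_bounded (conv_rc hκ) fun r => ?_
    rw [norm_mul]
    exact (mul_le_of_le_one_right (norm_nonneg _) (conv_cos _)).trans (conv_er hκ hs r)
  have hsums : ∀ θ : ℝ × ℝ, Summable fun r => κ.er s r * (Real.sin (dot θ (κ.ru r)) : ℂ) := by
    intro θ
    refine Summable.of_norm_bounded (conv_rc hκ) fun r => ?_
    rw [norm_mul]
    exact (mul_le_of_le_one_right (norm_nonneg _) (conv_sin _)).trans (conv_er hκ hs r)
  have hE : HasSum (fun r => κ.er s r * κ.grn s (x - κ.ru r))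
      (av fun θ => ∑' r, κ.er s r * ((Real.cos (dot θ (x - κ.ru r)) : ℂ) / (1 - κ.F s θ))) := by
    have h1 := conv_hasSum (u := fun r => κ.rc r * (1 / c))
      (f := fun r θ => κ.er s r * ((Real.cos (dot θ (x - κ.ru r)) : ℂ) / (1 - κ.F s θ)))
      ((conv_rc hκ).mul_right _) (fun r => continuous_const.mul (hcont _)) fun r θ => by
        rw [norm_mul]
        exact mul_le_mul (conv_er hκ hs r) (hbd _ θ) (norm_nonneg _) (hκ.rc_nn r)
    simp only [conv_mul] at h1
    exact h1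
  have hpt : ∀ θ : ℝ × ℝ,
      ∑' r, κ.er s r * ((Real.cos (dot θ (x - κ.ru r)) : ℂ) / (1 - κ.F s θ)) =
      (∑' r, κ.er s r * (Real.cos (dot θ (κ.ru r)) : ℂ)) *
        ((Real.cos (dot θ x) : ℂ) / (1 - κ.F s θ)) := by
    intro θ
    have h1 : ∀ r, κ.er s r * ((Real.cos (dot θ (x - κ.ru r)) : ℂ) / (1 - κ.F s θ)) =
        κ.er s r * (Real.cos (dot θ (κ.ru r)) : ℂ) *
          ((Real.cos (dot θ x) : ℂ) / (1 - κ.F s θ)) +
        κ.er s r * (Real.sin (dot θ (κ.ru r)) : ℂ) *
          ((Real.sin (dot θ x) : ℂ) / (1 - κ.F s θ)) := by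
      intro r
      rw [conv_dot_sub, Real.cos_sub]
      push_cast
      ring
    simp only [h1]
    rw [((hsumc θ).mul_right _).tsum_add ((hsums θ).mul_right _), tsum_mul_right,
      tsum_mul_right, conv_odd hκ θ, zero_mul, add_zero]
  have hEc : Continuous fun θ : ℝ × ℝ =>
      ∑' r, κ.er s r * (Real.cos (dot θ (κ.ru r)) : ℂ) :=
    continuous_tsum (fun r => continuous_const.mul (hcos _)) (conv_rc hκ) fun r θ => by
      rw [norm_mul]
      exact (mul_le_of_le_one_right (norm_nonneg _) (conv_cos _)).trans (conv_er hκ hs r)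
  have hgc : Continuous fun θ : ℝ × ℝ => (∑' r, κ.er s r * (Real.cos (dot θ (κ.ru r)) : ℂ)) *
      ((Real.cos (dot θ x) : ℂ) / (1 - κ.F s θ)) := hEc.mul (hcont x)
  rw [hE.tsum_eq]
  simp only [hpt]
  have hg : ∀ y, κ.grn s y = av fun θ => (Real.cos (dot θ y) : ℂ) / (1 - κ.F s θ) :=
    fun _ => rfl
  rw [hg x, hg (x + (1, 0)), hg (x + (-1, 0)), hg (x + (0, 1)), hg (x + (0, -1)),
    conv_comb (hcont _) (hcont _) (hcont _) (hcont _) (hcont _) hgc, ← av_cos x]
  congr 1
  funext θ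
  have h4 : (Real.cos (dot θ (x + (1, 0))) : ℂ) + (Real.cos (dot θ (x + (-1, 0))) : ℂ) +
      (Real.cos (dot θ (x + (0, 1))) : ℂ) + (Real.cos (dot θ (x + (0, -1))) : ℂ) =
      2 * (Real.cos (dot θ x) : ℂ) * ((Real.cos θ.1 : ℂ) + (Real.cos θ.2 : ℂ)) := by
    exact_mod_cast congrArg (fun t : ℝ => (t : ℂ)) (conv_four θ x)
  have hexp : exp (-3 * s) = exp (-2 * s) * exp (-s) := by
    rw [← Complex.exp_add]
    congr 1
    ring
  have hFe : κ.F s θ = κ.q * exp (-2 * s) *
      (1 + 4 * κ.z * exp (-s) * ((Real.cos θ.1 : ℂ) + (Real.cos θ.2 : ℂ))) +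
      ∑' r, κ.er s r * (Real.cos (dot θ (κ.ru r)) : ℂ) := by
    unfold Mdl.F Mdl.er
    push_cast
    rfl
  have hn := hne θ
  rw [← add_div, ← add_div, ← add_div, h4, hexp]
  have h5 : (Real.cos (dot θ x) : ℂ) * (1 - κ.F s θ) / (1 - κ.F s θ) =
      (Real.cos (dot θ x) : ℂ) := by
    rw [mul_div_assoc, div_self hn, mul_one]
  refine Eq.trans ?_ h5
  rw [div_eq_mul_inv, div_eq_mul_inv, div_eq_mul_inv]
  generalize (1 - κ.F s θ)⁻¹ = D
  rw [hFe]
  ring

end Pool.Agent.KAsym
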