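import Pool.Agent.KAsym.Av

/-! KA5: the Green function at the origin. -/

set_option autoImplicit false

open Complex MeasureTheory Set

namespace Pool.Agent.KAsym

open Pool.Agent.KLog (nrm nsq rt)

variable {R J H : Type} {κ : Mdl R J H} {s : ℂ}

private theorem gam_re (hκ : κ.Ok) (hs : s ∈ κ.Sec) : -(1 / 100) < s.re := by
  have h1 := sec0_small hκ (sec_sub hs)
  have h2 := Complex.abs_re_le_norm s
  have h3 := neg_abs_le s.re
  linarith

private theorem gam_ne (hκ : κ.Ok) (hs : s ∈ κ.Sec) (θ : ℝ × ℝ) : 1 - κ.F s θ ≠ 0 := by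
  have h1 := sym_low hκ (sec_sub hs) θ
  have h2 : 0 < ‖s‖ := norm_pos_iff.2 hs.1
  have h3 := NN_nonneg θ
  have h4 := hκ.z_pos
  have h5 : 0 ≤ 2 * κ.z * NN θ := by positivity
  intro h
  rw [h, norm_zero] at h1
  linarith

private theorem gam_cont (hκ : κ.Ok) (hs : s ∈ κ.Sec) :
    Continuous fun θ => 1 / (1 - κ.F s θ) :=
  continuous_const.div (continuous_const.sub (F_cont hκ (gam_re hκ hs).le))
    fun θ => gam_ne hκ hs θ

theorem gam_diff (hκ : κ.Ok) : DifferentiableOn ℂ κ.gam κ.Sec := by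
  refine diffOn_av (f := fun s θ => 1 / (1 - κ.F s θ)) isOpen_sec (fun θ _ => ?_) (fun s hs => ?_)
    (fun s hs => ?_)
  · have h1 : DifferentiableOn ℂ (fun s => κ.F s θ) κ.Sec :=
      (F_diff hκ θ).mono fun s hs => gam_re hκ hs
    exact (differentiableOn_const 1).div ((differentiableOn_const 1).sub h1)
      fun s hs => gam_ne hκ hs θ
  · exact (gam_cont hκ hs).continuousOn
  · have hpos : 0 < ‖s‖ := norm_pos_iff.2 hs.1
    obtain ⟨ε, hε, hball⟩ := Metric.isOpen_iff.1 (isOpen_sec (κ := κ)) s hs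
    refine ⟨min ε (‖s‖ / 2), lt_min hε (half_pos hpos), 1 / (98 / 100 * (‖s‖ / 2)), ?_, ?_⟩
    · exact (Metric.ball_subset_ball (min_le_left _ _)).trans hball
    · intro s' hs' θ _
      have h1 : s' ∈ κ.Sec := hball (Metric.ball_subset_ball (min_le_left _ _) hs')
      have h2 : ‖s' - s‖ < ‖s‖ / 2 := by
        have := Metric.ball_subset_ball (min_le_right ε (‖s‖ / 2)) hs'
        rwa [mem_ball_iff_norm] at this
      have h3 : ‖s‖ / 2 ≤ ‖s'‖ := by
        have h4 : ‖s‖ ≤ ‖s'‖ + ‖s' - s‖ := by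
          have h5 : s = s' - (s' - s) := by ring
          calc ‖s‖ = ‖s' - (s' - s)‖ := by rw [← h5]
            _ ≤ ‖s'‖ + ‖s' - s‖ := norm_sub_le _ _
        linarith
      have h6 := sym_low hκ (sec_sub h1) θ
      have h7 := NN_nonneg θ
      have h8 := hκ.z_pos
      have h9 : 0 ≤ 2 * κ.z * NN θ := by positivity
      rw [norm_div, norm_one]
      exact one_div_le_one_div_of_le (by positivity) (by linarith)

private theorem gam_point (hκ : κ.Ok) (hs : s ∈ κ.Sec) (θ : ℝ × ℝ) :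
    1 / (250 * κ.z) ≤ ((1 + s / ‖s‖) * (1 / (1 - κ.F s θ))).re := by
  have hz := hκ.z_pos
  have hpos : 0 < ‖s‖ := norm_pos_iff.2 hs.1
  have h1 := sym_re hκ hs θ
  have h2 := sym_upp hκ (sec_sub hs) θ
  have h3 := gam_ne hκ hs θ
  have h4 := NN_nonneg θ
  have h5 := NN_le θ
  have h6 : ‖s‖ < 40 * κ.z := hs.2.1
  generalize 1 - κ.F s θ = a at *
  have hD : 0 < ‖s‖ + 2 * κ.z * NN θ := by positivity
  have hD2 : ‖s‖ + 2 * κ.z * NN θ ≤ 48 * κ.z := by nlinarith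
  generalize ‖s‖ + 2 * κ.z * NN θ = D at *
  have ha : 0 < ‖a‖ := norm_pos_iff.2 h3
  have h7 : ((1 + s / ‖s‖) * (1 / a)).re = ((1 + (starRingEnd ℂ) s / ‖s‖) * a).re / ‖a‖ ^ 2 := by
    have h8 : (1 + s / (‖s‖ : ℂ)) * (1 / a) =
        (starRingEnd ℂ) ((1 + (starRingEnd ℂ) s / ‖s‖) * a) / ((‖a‖ ^ 2 : ℝ) : ℂ) := by
      have h9 : ((‖a‖ ^ 2 : ℝ) : ℂ) = (starRingEnd ℂ) a * a := by
        rw [mul_comm, Complex.mul_conj, Complex.normSq_eq_norm_sq]
      have h10 : (starRingEnd ℂ) a ≠ 0 := (map_ne_zero _).2 h3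
      rw [h9, map_mul, map_add, map_one, map_div₀, Complex.conj_conj, Complex.conj_ofReal]
      field_simp
    rw [h8, Complex.div_ofReal_re, Complex.conj_re]
  rw [h7, div_le_div_iff₀ (by positivity) (by positivity)]
  have h11 : ‖a‖ ^ 2 ≤ (21 / 10 * D) ^ 2 := by
    have := norm_nonneg a
    exact pow_le_pow_left₀ this h2 2
  nlinarith [mul_pos hz hD, mul_nonneg hD.le (sub_nonneg.2 hD2)]

theorem gam_low (hκ : κ.Ok) (hs : s ∈ κ.Sec) : 1 / (500 * κ.z) ≤ ‖κ.gam s‖ := by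
  have hz := hκ.z_pos
  have hpos : 0 < ‖s‖ := norm_pos_iff.2 hs.1
  have hbox : 0 < 4 * Real.pi ^ 2 := by positivity
  have hint : IntegrableOn (fun θ => (1 + s / ‖s‖) * (1 / (1 - κ.F s θ))) box :=
    (continuous_const.mul (gam_cont hκ hs)).continuousOn.integrableOn_compact isCompact_box
  have h1 : (1 + s / ‖s‖) * κ.gam s = ((4 * Real.pi ^ 2 : ℝ) : ℂ)⁻¹ *
      ∫ θ in box, (1 + s / ‖s‖) * (1 / (1 - κ.F s θ)) := by
    rw [integral_const_mul]
    unfold Mdl.gam av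
    ring
  have h2 : ((1 + s / ‖s‖) * κ.gam s).re = (4 * Real.pi ^ 2)⁻¹ *
      ∫ θ in box, ((1 + s / ‖s‖) * (1 / (1 - κ.F s θ))).re := by
    rw [h1, ← Complex.ofReal_inv, Complex.re_ofReal_mul]
    congr 1
    exact (integral_re hint).symm
  have h3 : ∫ _θ in box, 1 / (250 * κ.z) ≤
      ∫ θ in box, ((1 + s / ‖s‖) * (1 / (1 - κ.F s θ))).re := by
    refine setIntegral_mono_on ?_ hint.re measurableSet_box fun θ _ => gam_point hκ hs θ
    exact continuous_const.continuousOn.integrableOn_compact isCompact_box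
  rw [setIntegral_const, volume_box, smul_eq_mul] at h3
  have h4 : 1 / (250 * κ.z) ≤ ((1 + s / ‖s‖) * κ.gam s).re := by
    rw [h2]
    calc 1 / (250 * κ.z) = (4 * Real.pi ^ 2)⁻¹ * (4 * Real.pi ^ 2 * (1 / (250 * κ.z))) := by
          rw [← mul_assoc, inv_mul_cancel₀ hbox.ne', one_mul]
      _ ≤ _ := mul_le_mul_of_nonneg_left h3 (by positivity)
  have h5 : ‖(1 : ℂ) + s / ‖s‖‖ ≤ 2 := by
    calc ‖(1 : ℂ) + s / ‖s‖‖ ≤ ‖(1 : ℂ)‖ + ‖s / ‖s‖‖ := norm_add_le _ _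
      _ = 2 := by
        rw [norm_one, norm_div, Complex.norm_real, norm_norm, div_self hpos.ne']
        norm_num
  have h6 : 1 / (250 * κ.z) ≤ 2 * ‖κ.gam s‖ := by
    calc 1 / (250 * κ.z) ≤ ((1 + s / ‖s‖) * κ.gam s).re := h4
      _ ≤ ‖(1 + s / ‖s‖) * κ.gam s‖ := Complex.re_le_norm _
      _ = ‖(1 : ℂ) + s / ‖s‖‖ * ‖κ.gam s‖ := norm_mul _ _
      _ ≤ 2 * ‖κ.gam s‖ := mul_le_mul_of_nonneg_right h5 (norm_nonneg _)
  have h7 : 1 / (250 * κ.z) = 2 * (1 / (500 * κ.z)) := by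
    field_simp
    norm_num
  rw [h7] at h6
  linarith

end Pool.Agent.KAsym
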