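import Pool.Agent.KAsym.Trf

/-! KA15: the coefficients as integrals over the line `re s = 1 / n`. -/

set_option autoImplicit false

open Complex MeasureTheory Set Filter Topology

namespace Pool.Agent.KAsym

variable {a : ℕ → ℝ} {f : ℂ → ℂ} {r : ℝ} {A B c : ℂ} {C : ℝ}

/-- The general term of the derivatives. -/
private noncomputable def lineT (a : ℕ → ℝ) (j n : ℕ) (s : ℂ) : ℂ := (n : ℂ) ^ j * a n * exp (-n * s)

private theorem lineT_norm (h : ∀ n, 0 ≤ a n) (j n : ℕ) (s : ℂ) :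
    ‖lineT a j n s‖ = (n : ℝ) ^ j * Real.exp (-(n * s.re)) * a n := by
  rw [lineT, norm_mul, norm_mul, norm_pow, Complex.norm_natCast, Complex.norm_real,
    Real.norm_of_nonneg (h n), Complex.norm_exp]
  have h1 : (-(n : ℂ) * s).re = -(n * s.re) := by simp
  rw [h1]
  ring

/-- The bound of the coefficients. -/
private theorem lineT_bd {σ : ℝ} (hσ : 0 < σ) (j n : ℕ) :
    (n : ℝ) ^ j * Real.exp (-(n * σ)) ≤ j.factorial / σ ^ j := by
  have h1 := Real.pow_div_factorial_le_exp ((n : ℝ) * σ) (by positivity) j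
  have h2 : (0 : ℝ) < j.factorial := by exact_mod_cast j.factorial_pos
  rw [div_le_iff₀ h2, mul_pow] at h1
  rw [Real.exp_neg, le_div_iff₀ (by positivity)]
  have h3 : 0 < Real.exp (n * σ) := Real.exp_pos _
  have h4 : (n : ℝ) ^ j * (Real.exp (n * σ))⁻¹ * σ ^ j =
      (n : ℝ) ^ j * σ ^ j * (Real.exp (n * σ))⁻¹ := by ring
  rw [h4, ← div_eq_mul_inv, div_le_iff₀ h3]
  linarith

private theorem lineT_le (h : ∀ n, 0 ≤ a n) {σ : ℝ} (hσ : 0 < σ) (j n : ℕ) {s : ℂ}
    (hs : σ ≤ s.re) : ‖lineT a j n s‖ ≤ j.factorial / σ ^ j * a n := by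
  rw [lineT_norm h]
  refine mul_le_mul_of_nonneg_right ?_ (h n)
  refine le_trans ?_ (lineT_bd hσ j n)
  refine mul_le_mul_of_nonneg_left (Real.exp_le_exp.2 ?_) (by positivity)
  have : (n : ℝ) * σ ≤ n * s.re := mul_le_mul_of_nonneg_left hs (Nat.cast_nonneg n)
  linarith

private theorem lineT_summable (h : ∀ n, 0 ≤ a n) (ha : Summable a) (j : ℕ) {s : ℂ}
    (hs : 0 < s.re) : Summable fun n => lineT a j n s :=
  Summable.of_norm_bounded (ha.mul_left (j.factorial / s.re ^ j)) fun n => lineT_le h hs j n le_rfl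

private theorem lineT_hasDerivAt (h : ∀ n, 0 ≤ a n) (ha : Summable a) (j : ℕ) {s : ℂ}
    (hs : 0 < s.re) :
    HasDerivAt (fun z => ∑' n, lineT a j n z) (-∑' n, lineT a (j + 1) n s) s := by
  have hσ : 0 < s.re / 2 := half_pos hs
  set t : Set ℂ := {z | s.re / 2 < z.re} with ht
  have hto : IsOpen t := isOpen_lt continuous_const Complex.continuous_re
  have htc : IsPreconnected t := (convex_halfSpace_re_gt (s.re / 2)).isPreconnected
  have hst : s ∈ t := by
    rw [ht, mem_ofPred_eq]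
    linarith
  have hg : ∀ n y, y ∈ t → HasDerivAt (lineT a j n) (-lineT a (j + 1) n y) y := by
    intro n y _
    have h1 : HasDerivAt (fun z : ℂ => -(n : ℂ) * z) (-(n : ℂ)) y := by
      simpa using (hasDerivAt_id y).const_mul (-(n : ℂ))
    have h2 := (h1.cexp).const_mul ((n : ℂ) ^ j * a n)
    have h3 : (n : ℂ) ^ j * a n * (exp (-(n : ℂ) * y) * -(n : ℂ)) = -lineT a (j + 1) n y := by
      rw [lineT]
      ring
    rw [h3] at h2
    exact h2
  have h1 := hasDerivAt_tsum_of_isPreconnected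
    (u := fun n => (j + 1).factorial / (s.re / 2) ^ (j + 1) * a n)
    (ha.mul_left _) hto htc hg (fun n y hy => by
      rw [norm_neg]
      exact lineT_le h hσ (j + 1) n (le_of_lt hy)) hst (lineT_summable h ha j hs) hst
  rw [tsum_neg] at h1
  exact h1

private theorem line_nhds {s : ℂ} (hs : 0 < s.re) : ∀ᶠ z in 𝓝 s, 0 < z.re :=
  (isOpen_lt continuous_const Complex.continuous_re).mem_nhds hs

private theorem line_f (h : Trf a f r A B c C) {s : ℂ} (hs : 0 < s.re) :
    HasDerivAt f (-∑' n, lineT a 1 n s) s := by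
  have h1 := lineT_hasDerivAt h.nonneg h.summable 0 hs
  refine h1.congr_of_eventuallyEq ?_
  filter_upwards [line_nhds hs] with z hz
  rw [h.eq z hz]
  refine tsum_congr fun n => ?_
  rw [lineT, pow_zero, one_mul]

/-- The second derivative. -/
theorem deriv_two (h : Trf a f r A B c C) {s : ℂ} (hs : 0 < s.re) :
    iteratedDeriv 2 f s = ∑' n : ℕ, (n : ℂ) ^ 2 * a n * exp (-n * s) := by
  have h1 : iteratedDeriv 2 f = deriv (deriv f) := by
    rw [iteratedDeriv_succ, iteratedDeriv_one]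
  have h2 : HasDerivAt (fun z => -∑' n, lineT a 1 n z) (∑' n, lineT a 2 n s) s := by
    have h3 := (lineT_hasDerivAt h.nonneg h.summable 1 hs).neg
    rw [neg_neg] at h3
    exact h3
  have h3 : HasDerivAt (deriv f) (∑' n, lineT a 2 n s) s := by
    refine h2.congr_of_eventuallyEq ?_
    filter_upwards [line_nhds hs] with z hz
    exact (line_f h hz).deriv
  rw [h1, h3.deriv]
  rfl

theorem f_diff (h : Trf a f r A B c C) : DifferentiableOn ℂ f {s | 0 < s.re} := fun _ hs =>
  (line_f h hs).differentiableAt.differentiableWithinAt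

/-- The integral of a character. -/
private theorem line_char (n m : ℕ) :
    ∫ φ in (-Real.pi)..Real.pi, exp (-(m * φ * I)) * exp (n * φ * I) =
      if m = n then (2 * Real.pi : ℂ) else 0 := by
  by_cases hmn : m = n
  · rw [if_pos hmn]
    subst hmn
    have h1 : ∀ φ : ℝ, exp (-(m * φ * I)) * exp (m * φ * I) = 1 := fun φ => by
      rw [← Complex.exp_add, neg_add_cancel, Complex.exp_zero]
    simp only [h1, intervalIntegral.integral_const, Complex.real_smul]
    push_cast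
    ring
  · rw [if_neg hmn]
    have hk : ((n : ℂ) - m) * I ≠ 0 := by
      refine mul_ne_zero (sub_ne_zero.2 ?_) I_ne_zero
      exact fun h => hmn (Nat.cast_injective h).symm
    have h1 : ∀ φ : ℝ, exp (-(m * φ * I)) * exp (n * φ * I) = exp (((n : ℂ) - m) * I * φ) := by
      intro φ
      rw [← Complex.exp_add]
      congr 1
      ring
    simp only [h1]
    rw [integral_exp_mul_complex hk]
    have h2 : exp (((n : ℂ) - m) * I * (Real.pi : ℝ)) =
        exp (((n : ℂ) - m) * I * ((-Real.pi : ℝ) : ℂ)) := by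
      rw [Complex.exp_eq_exp_iff_exists_int]
      refine ⟨(n : ℤ) - m, ?_⟩
      push_cast
      ring
    rw [h2, sub_self, zero_div]

/-- The coefficient formula. -/
theorem coeff_line (h : Trf a f r A B c C) {n : ℕ} (hn : 0 < n) :
    (n : ℂ) ^ 2 * a n * exp (-1) = (2 * Real.pi : ℂ)⁻¹ * ∫ φ in (-Real.pi)..Real.pi,
      iteratedDeriv 2 f ((n : ℂ)⁻¹ + φ * I) * exp (n * φ * I) := by
  have hn' : (0 : ℝ) < (n : ℝ)⁻¹ := by positivity
  have hre : ∀ φ : ℝ, ((n : ℂ)⁻¹ + φ * I).re = (n : ℝ)⁻¹ := by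
    intro φ
    have h1 : ((n : ℂ)⁻¹ + φ * I) = (((n : ℝ)⁻¹ : ℝ) : ℂ) + φ * I := by push_cast; rfl
    rw [h1]
    simp
  have hsum : ∀ φ : ℝ, HasSum (fun m => lineT a 2 m ((n : ℂ)⁻¹ + φ * I) * exp (n * φ * I))
      (iteratedDeriv 2 f ((n : ℂ)⁻¹ + φ * I) * exp (n * φ * I)) := by
    intro φ
    have h1 : 0 < ((n : ℂ)⁻¹ + φ * I).re := by rw [hre]; exact hn'
    rw [deriv_two h h1]
    exact (lineT_summable h.nonneg h.summable 2 h1).hasSum.mul_right _
  have key := intervalIntegral.hasSum_integral_of_dominated_convergence (μ := volume)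
    (a := -Real.pi) (b := Real.pi)
    (F := fun m (φ : ℝ) => lineT a 2 m ((n : ℂ)⁻¹ + φ * I) * exp (n * φ * I))
    (f := fun φ : ℝ => iteratedDeriv 2 f ((n : ℂ)⁻¹ + φ * I) * exp (n * φ * I))
    (fun m _ => ((2 : ℕ).factorial : ℝ) / ((n : ℝ)⁻¹) ^ 2 * a m)
    (fun m => by
      apply Continuous.aestronglyMeasurable
      unfold lineT
      fun_prop)
    (fun m => Eventually.of_forall fun φ _ => by
      rw [norm_mul]
      have h1 : ‖exp (n * φ * I)‖ = 1 := by
        rw [Complex.norm_exp]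
        simp
      rw [h1, mul_one]
      exact lineT_le h.nonneg hn' 2 m (by rw [hre]))
    (Eventually.of_forall fun φ _ => h.summable.mul_left _)
    intervalIntegrable_const
    (Eventually.of_forall fun φ _ => hsum φ)
  have hint : ∀ m : ℕ, ∫ φ in (-Real.pi)..Real.pi,
      lineT a 2 m ((n : ℂ)⁻¹ + φ * I) * exp (n * φ * I) =
      if m = n then (n : ℂ) ^ 2 * a n * exp (-1) * (2 * Real.pi : ℂ) else 0 := by
    intro m
    have h1 : ∀ φ : ℝ, lineT a 2 m ((n : ℂ)⁻¹ + φ * I) * exp (n * φ * I) =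
        ((m : ℂ) ^ 2 * a m * exp (-(m * (n : ℂ)⁻¹))) *
          (exp (-(m * φ * I)) * exp (n * φ * I)) := by
      intro φ
      rw [lineT]
      have h2 : exp (-(m : ℂ) * ((n : ℂ)⁻¹ + φ * I)) =
          exp (-(m * (n : ℂ)⁻¹)) * exp (-(m * φ * I)) := by
        rw [← Complex.exp_add]
        congr 1
        ring
      rw [h2]
      ring
    simp only [h1]
    rw [intervalIntegral.integral_const_mul, line_char]
    by_cases hmn : m = n
    · rw [if_pos hmn, if_pos hmn, hmn]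
      have h2 : -((n : ℂ) * (n : ℂ)⁻¹) = -1 := by
        rw [mul_inv_cancel₀]
        exact_mod_cast hn.ne'
      rw [h2]
    · rw [if_neg hmn, if_neg hmn, mul_zero]
  simp only [hint] at key
  have h1 := key.unique (hasSum_ite_eq n _)
  rw [h1]
  have h2 : (2 * Real.pi : ℂ) ≠ 0 := by
    have := Real.pi_ne_zero
    exact mul_ne_zero two_ne_zero (by exact_mod_cast this)
  field_simp

/-- Away from the singularity the second derivative is bounded. -/
theorem far_bd (h : Trf a f r A B c C) : ∃ (σ M : ℝ), 0 < σ ∧ ∀ (t φ : ℝ), 0 < t → t < σ →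
    r / 2 ≤ |φ| → |φ| ≤ Real.pi → ‖iteratedDeriv 2 f (t + φ * I)‖ ≤ M := by
  have hK : IsCompact {φ : ℝ | r / 2 ≤ |φ| ∧ |φ| ≤ Real.pi} := by
    refine Metric.isCompact_of_isClosed_isBounded ?_ ?_
    · exact (isClosed_le continuous_const continuous_abs).inter
        (isClosed_le continuous_abs continuous_const)
    · refine (Metric.isBounded_Icc (-Real.pi) Real.pi).subset fun φ hφ => ?_
      exact abs_le.1 hφ.2
  have key : ∃ (σ M : ℝ), 0 < σ ∧ ∀ (t φ : ℝ), 0 < t → t < σ →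
      φ ∈ {φ : ℝ | r / 2 ≤ |φ| ∧ |φ| ≤ Real.pi} → ‖iteratedDeriv 2 f (t + φ * I)‖ ≤ M := by
    refine hK.induction_on (p := fun S => ∃ (σ M : ℝ), 0 < σ ∧ ∀ (t φ : ℝ), 0 < t → t < σ →
      φ ∈ S → ‖iteratedDeriv 2 f (t + φ * I)‖ ≤ M) ?_ ?_ ?_ ?_
    · exact ⟨1, 0, one_pos, fun t φ _ _ h => absurd h (notMem_empty φ)⟩
    · rintro S T hST ⟨σ, M, hσ, hM⟩
      exact ⟨σ, M, hσ, fun t φ h1 h2 h3 => hM t φ h1 h2 (hST h3)⟩
    · rintro S T ⟨σ, M, hσ, hM⟩ ⟨σ', M', hσ', hM'⟩
      refine ⟨min σ σ', max M M', lt_min hσ hσ', fun t φ h1 h2 h3 => ?_⟩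
      rcases h3 with h3 | h3
      · exact (hM t φ h1 (lt_of_lt_of_le h2 (min_le_left _ _)) h3).trans (le_max_left _ _)
      · exact (hM' t φ h1 (lt_of_lt_of_le h2 (min_le_right _ _)) h3).trans (le_max_right _ _)
    · rintro φ₀ ⟨h1, h2⟩
      obtain ⟨ε, hε, g, hg, hgf⟩ := h.ext φ₀ h1 h2
      have hg2 : ContinuousOn (iteratedDeriv 2 g) (Metric.ball (φ₀ * I) ε) := by
        have h3 : DifferentiableOn ℂ (deriv g) (Metric.ball (φ₀ * I) ε) :=
          hg.deriv Metric.isOpen_ball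
        have h4 : DifferentiableOn ℂ (deriv (deriv g)) (Metric.ball (φ₀ * I) ε) :=
          h3.deriv Metric.isOpen_ball
        have h5 : iteratedDeriv 2 g = deriv (deriv g) := by
          rw [iteratedDeriv_succ, iteratedDeriv_one]
        rw [h5]
        exact h4.continuousOn
      have hc : IsCompact (Metric.closedBall (φ₀ * I : ℂ) (ε / 2)) := isCompact_closedBall _ _
      obtain ⟨M, hM⟩ := hc.exists_bound_of_continuousOn
        (hg2.mono (Metric.closedBall_subset_ball (by linarith)))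
      refine ⟨Metric.ball φ₀ (ε / 4), mem_nhdsWithin_of_mem_nhds (Metric.ball_mem_nhds _
        (by linarith)), ε / 4, M, by linarith, fun t φ ht ht' hφ => ?_⟩
      have hs : (t + φ * I : ℂ) ∈ Metric.closedBall (φ₀ * I : ℂ) (ε / 2) := by
        rw [Metric.mem_closedBall, dist_eq_norm]
        have h3 : (t + φ * I : ℂ) - φ₀ * I = (t : ℂ) + ((φ - φ₀ : ℝ) : ℂ) * I := by
          push_cast
          ring
        rw [h3]
        have h4 : ‖((φ - φ₀ : ℝ) : ℂ) * I‖ = |φ - φ₀| := by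
          rw [norm_mul, Complex.norm_I, mul_one, Complex.norm_real, Real.norm_eq_abs]
        have h5 : ‖(t : ℂ)‖ = t := by
          rw [Complex.norm_real, Real.norm_of_nonneg ht.le]
        have h6 : |φ - φ₀| < ε / 4 := by
          rw [Metric.mem_ball, Real.dist_eq] at hφ
          exact hφ
        calc ‖(t : ℂ) + ((φ - φ₀ : ℝ) : ℂ) * I‖ ≤ ‖(t : ℂ)‖ + ‖((φ - φ₀ : ℝ) : ℂ) * I‖ :=
              norm_add_le _ _
          _ ≤ ε / 2 := by rw [h4, h5]; linarith
      have hsb : (t + φ * I : ℂ) ∈ Metric.ball (φ₀ * I : ℂ) ε :=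
        Metric.closedBall_subset_ball (by linarith) hs
      have hre : 0 < (t + φ * I : ℂ).re := by simpa using ht
      have heq : g =ᶠ[𝓝 (t + φ * I : ℂ)] f := by
        filter_upwards [Metric.isOpen_ball.mem_nhds hsb, line_nhds hre] with z hz hz'
        exact hgf z hz hz'
      have h3 : iteratedDeriv 2 g (t + φ * I) = iteratedDeriv 2 f (t + φ * I) :=
        heq.iteratedDeriv_eq 2
      rw [← h3]
      exact hM _ hs
  obtain ⟨σ, M, hσ, hM⟩ := key
  exact ⟨σ, M, hσ, fun t φ h1 h2 h3 h4 => hM t φ h1 h2 ⟨h3, h4⟩⟩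

end Pool.Agent.KAsym
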