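import Pool.Agent.KAsym.RestB
import Pool.Agent.KAsym.RecB
import Pool.Agent.KAsym.CutB

/-! KA22: the blocks of the unknotted polygons as a model. -/

set_option autoImplicit false

open Pool.Agent.LK
open scoped ENNReal

namespace Pool.Agent.KAsym

open Pool.Agent.KTube Pool.Agent.KRing Pool.Agent.KLog

variable {y z : ℝ}

/-- The free pairs that are not basic. -/
abbrev RT : Type := {π : PP // Free π ∧ ¬ Bas π}

/-- The defects. -/
abbrev JT : Type := {p : (ℤ × ℤ) × PP // p.1 ≠ 0 ∧ p.1 + dsp p.2 ≠ 0 ∧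
  ((Free p.2 ∧ ¬ Valid p.1 p.2) ∨ (Valid p.1 p.2 ∧ ¬ Free p.2))}

/-- The halves without sections with two edges. -/
abbrev HT : Type := Σ v : ℤ × ℤ, {l // Half 0 v l}

open Classical in
/-- The model. -/
noncomputable def mdl (y z : ℝ) : Mdl RT JT HT where
  z := z
  q := y * z ^ 2
  rc := fun r => wtR y z r.1
  rn := fun r => ln r.1
  ru := fun r => dsp r.1
  jc := fun j => if Free j.1.2 then wtR y z j.1.2 else -wtR y z j.1.2
  jn := fun j => ln j.1.2
  js := fun j => j.1.1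
  jt := fun j => j.1.1 + dsp j.1.2
  hc := fun h => wlR y z h.2.1
  hn := fun h => h.2.1.length
  ht := fun h => h.1

private theorem md_wt (hy : 0 < y) (hz : 0 < z) (π : PP) :
    wt (ENNReal.ofReal y) (ENNReal.ofReal z) π = ENNReal.ofReal (wtR y z π) := by
  unfold wt wtR ln
  rw [ENNReal.ofReal_mul (by positivity), ENNReal.ofReal_pow hy.le, ENNReal.ofReal_pow hz.le]

private theorem md_wl (hy : 0 < y) (hz : 0 < z) (l : List P3) :
    wl (ENNReal.ofReal y) (ENNReal.ofReal z) l = ENNReal.ofReal (wlR y z l) := by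
  unfold wl wlR
  rw [ENNReal.ofReal_mul (by positivity), ENNReal.ofReal_pow hy.le, ENNReal.ofReal_pow hz.le]

private theorem md_wtR_nn (hy : 0 < y) (hz : 0 < z) (π : PP) : 0 ≤ wtR y z π := by
  unfold wtR
  positivity

private theorem md_wlR_nn (hy : 0 < y) (hz : 0 < z) (l : List P3) : 0 ≤ wlR y z l := by
  unfold wlR
  positivity

private theorem md_om_nn (v : ℤ × ℤ) : 0 ≤ om v := by
  unfold om
  positivity

private theorem md_two (n : ℕ) : ENNReal.ofReal (2 ^ n) = 2 ^ n := by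
  rw [ENNReal.ofReal_pow (by norm_num), ENNReal.ofReal_ofNat]

private theorem md_om (v : ℤ × ℤ) : ENNReal.ofReal (om v) = 4 ^ nrm v := by
  unfold om
  rw [ENNReal.ofReal_pow (by norm_num), ENNReal.ofReal_ofNat]

/-- A sum of nonnegative numbers. -/
private theorem md_sum {α : Type*} {f : α → ℝ} (hf : ∀ a, 0 ≤ f a) {c : ℝ≥0∞} (hc : c ≠ ⊤)
    (h : ∑' a, ENNReal.ofReal (f a) ≤ c) : Summable f ∧ ∑' a, f a ≤ c.toReal := by
  have h0 : ∑' a, ENNReal.ofReal (f a) ≠ ⊤ := (h.trans_lt hc.lt_top).ne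
  have h1 := ENNReal.summable_toReal h0
  have h2 : (fun a => (ENNReal.ofReal (f a)).toReal) = f :=
    funext fun a => ENNReal.toReal_ofReal (hf a)
  rw [h2] at h1
  refine ⟨h1, ?_⟩
  have h3 : ∑' a, f a = (∑' a, ENNReal.ofReal (f a)).toReal := by
    rw [ENNReal.tsum_toReal_eq fun a => ENNReal.ofReal_ne_top, h2]
  rw [h3]
  exact ENNReal.toReal_mono hc h

/-- The pairs that are not basic. -/
private abbrev NB : Type := {p : PP // ¬ Bas p ∧ (Free p ∨ ∃ v, Valid v p)}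

private theorem md_nrm_dsp (p : NB) : nrm (dsp p.1) ≤ nh p.1 := by
  have h : ∃ v, Valid v p.1 := by
    rcases p.2.2 with ⟨v, -, hv⟩ | h
    · exact ⟨v, hv⟩
    · exact h
  obtain ⟨v, hv⟩ := h
  exact nrm_dsp_le hv.1.stA hv.1.stB

private theorem md_r (hy : 0 < y) (hz : 0 < z) (hz1 : z ≤ 1 / 10 ^ 12) (hq : y * z ^ 2 ≤ 1) :
    ∑' r : RT, ENNReal.ofReal (wtR y z r.1 * 2 ^ ln r.1 * om (dsp r.1)) ≤
      ENNReal.ofReal (z / 1000) := by
  refine le_trans ?_ (rest_strong hy hz hz1 hq)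
  let φ : RT → NB := fun r => ⟨r.1, r.2.2, Or.inl r.2.1⟩
  have hφ : Function.Injective φ := fun a b h => Subtype.ext (congrArg (fun x : NB => x.1) h)
  refine le_trans (ENNReal.tsum_le_tsum fun r => ?_) (ENNReal.tsum_comp_le_tsum_of_injective hφ
    fun p : NB => wt (ENNReal.ofReal y) (ENNReal.ofReal z) p.1 *
      2 ^ (p.1.1.length + p.1.2.length + 2) * 576 ^ nh p.1)
  have h1 := md_nrm_dsp (φ r)
  change nrm (dsp r.1) ≤ nh r.1 at h1
  change _ ≤ wt (ENNReal.ofReal y) (ENNReal.ofReal z) r.1 *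
      2 ^ (r.1.1.length + r.1.2.length + 2) * 576 ^ nh r.1
  have h2 := md_wtR_nn hy hz r.1
  rw [ENNReal.ofReal_mul (by positivity), ENNReal.ofReal_mul h2, md_two, md_om, md_wt hy hz]
  refine mul_le_mul' le_rfl ?_
  calc (4 : ℝ≥0∞) ^ nrm (dsp r.1) ≤ 4 ^ nh r.1 := pow_le_pow_right₀ (by norm_num) h1
    _ ≤ 576 ^ nh r.1 := pow_le_pow_left' (by norm_num) _

private theorem md_count (l : ℕ) : ∑' v : ℤ × ℤ, (if nrm v ≤ l then (1 : ℝ≥0∞) else 0) ≤ 9 ^ l := by
  have h1 : ∑' v : ℤ × ℤ, (if nrm v ≤ l then (1 : ℝ≥0∞) else 0) =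
      ∑ v ∈ Finset.Icc (-(l : ℤ)) l ×ˢ Finset.Icc (-(l : ℤ)) l,
        if nrm v ≤ l then (1 : ℝ≥0∞) else 0 := by
    refine tsum_eq_sum fun v hv => if_neg fun h => hv ?_
    unfold nrm at h
    rw [Finset.mem_product, Finset.mem_Icc, Finset.mem_Icc]
    omega
  have h2 : ∀ n : ℕ, (2 * n + 1) ^ 2 ≤ 9 ^ n := by
    intro n
    induction n with
    | zero => norm_num
    | succ n ih =>
      calc (2 * (n + 1) + 1) ^ 2 ≤ (2 * n + 1) ^ 2 * 9 := by ring_nf; omega
        _ ≤ 9 ^ n * 9 := Nat.mul_le_mul_right 9 ih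
        _ = 9 ^ (n + 1) := (pow_succ 9 n).symm
  rw [h1]
  refine (Finset.sum_le_sum fun v _ => (?_ : _ ≤ (1 : ℝ≥0∞))).trans ?_
  · split_ifs
    · exact le_rfl
    · exact zero_le_one
  · rw [Finset.sum_const, Finset.card_product, Int.card_Icc]
    have h3 : ((l : ℤ) + 1 - -l).toNat = 2 * l + 1 := by omega
    rw [h3, ← pow_two, nsmul_eq_mul, mul_one]
    exact_mod_cast h2 l

/-- A defect is not basic. -/
private theorem md_nb (j : JT) : ¬ Bas j.1.2 := by
  obtain ⟨⟨v, π⟩, hv, hu, h⟩ := j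
  simp only at hv hu h ⊢
  intro hb
  rcases h with ⟨hf, hn⟩ | ⟨hV, hn⟩
  · rcases bas_free_iff.1 ⟨hb, hf⟩ with rfl | ⟨i, rfl⟩ | ⟨i, rfl⟩
    · exact hn (valid_nil.2 hv)
    · refine hn ((valid_left i).2 ⟨hv, ?_⟩)
      rintro rfl
      apply hu
      simp [dsp, hz, st4]
    · refine hn ((valid_right i).2 ⟨hv, ?_⟩)
      intro h
      apply hu
      rw [← h]
      simp [dsp, hz, st4]
  · rcases bas_valid_iff.1 ⟨hb, hV⟩ with ⟨rfl, -⟩ | ⟨i, rfl, -⟩ | ⟨i, rfl, -⟩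
    · exact hn (bas_free_iff.2 (Or.inl rfl)).2
    · exact hn (bas_free_iff.2 (Or.inr (Or.inl ⟨i, rfl⟩))).2
    · exact hn (bas_free_iff.2 (Or.inr (Or.inr ⟨i, rfl⟩))).2

/-- A defect is near the origin. -/
private theorem md_near (j : JT) : nrm j.1.1 ≤ nh j.1.2 := by
  by_contra h
  rw [not_le] at h
  have h1 := valid_far h
  rcases j.2.2.2 with ⟨h2, h3⟩ | ⟨h2, h3⟩
  · exact h3 (h1.2 h2)
  · exact h3 (h1.1 h2)

private theorem md_nrm_add (u v : ℤ × ℤ) : nrm (u + v) ≤ nrm u + nrm v := by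
  unfold nrm
  simp only [Prod.fst_add, Prod.snd_add]
  omega

private theorem md_j (hy : 0 < y) (hz : 0 < z) (hz1 : z ≤ 1 / 10 ^ 12) (hq : y * z ^ 2 ≤ 1) :
    ∑' j : JT, ENNReal.ofReal (wtR y z j.1.2 * 2 ^ ln j.1.2 * om j.1.1 *
      om (j.1.1 + dsp j.1.2)) ≤ ENNReal.ofReal (z / 1000) := by
  refine le_trans ?_ (rest_strong hy hz hz1 hq)
  let g : NB × (ℤ × ℤ) → ℝ≥0∞ := fun x => wt (ENNReal.ofReal y) (ENNReal.ofReal z) x.1.1 *
    2 ^ (x.1.1.1.length + x.1.1.2.length + 2) * 64 ^ nh x.1.1 *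
      (if nrm x.2 ≤ nh x.1.1 then 1 else 0)
  let φ : JT → NB × (ℤ × ℤ) := fun j => (⟨j.1.2, md_nb j, by
    rcases j.2.2.2 with h | h
    · exact Or.inl h.1
    · exact Or.inr ⟨_, h.1⟩⟩, j.1.1)
  have hφ : Function.Injective φ := by
    intro a b h
    have h1 := congrArg (fun x : NB × (ℤ × ℤ) => x.1.1) h
    have h2 := congrArg (fun x : NB × (ℤ × ℤ) => x.2) h
    exact Subtype.ext (Prod.ext h2 h1)
  have h1 : ∑' j : JT, ENNReal.ofReal (wtR y z j.1.2 * 2 ^ ln j.1.2 * om j.1.1 *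
      om (j.1.1 + dsp j.1.2)) ≤ ∑' x, g x := by
    refine le_trans (ENNReal.tsum_le_tsum fun j => ?_)
      (ENNReal.tsum_comp_le_tsum_of_injective hφ g)
    have h1 := md_nrm_dsp (φ j).1
    change nrm (dsp j.1.2) ≤ nh j.1.2 at h1
    have h2 := md_near j
    have h3 := md_nrm_add j.1.1 (dsp j.1.2)
    have h4 := md_wtR_nn hy hz j.1.2
    have h5 := md_om_nn j.1.1
    change _ ≤ wt (ENNReal.ofReal y) (ENNReal.ofReal z) j.1.2 *
      2 ^ (j.1.2.1.length + j.1.2.2.length + 2) * 64 ^ nh j.1.2 *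
        (if nrm j.1.1 ≤ nh j.1.2 then 1 else 0)
    rw [if_pos h2, mul_one, ENNReal.ofReal_mul (by positivity), ENNReal.ofReal_mul (by positivity),
      ENNReal.ofReal_mul h4, md_two, md_om, md_om, md_wt hy hz, mul_assoc]
    refine mul_le_mul' le_rfl ?_
    rw [← pow_add]
    calc (4 : ℝ≥0∞) ^ (nrm j.1.1 + nrm (j.1.1 + dsp j.1.2)) ≤ 4 ^ (3 * nh j.1.2) :=
          pow_le_pow_right₀ (by norm_num) (by omega)
      _ = 64 ^ nh j.1.2 := by
          rw [pow_mul]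
          norm_num
  refine h1.trans ?_
  rw [ENNReal.tsum_prod (f := fun a b => g (a, b))]
  refine ENNReal.tsum_le_tsum fun p => ?_
  change ∑' v : ℤ × ℤ, wt (ENNReal.ofReal y) (ENNReal.ofReal z) p.1 *
    2 ^ (p.1.1.length + p.1.2.length + 2) * 64 ^ nh p.1 *
      (if nrm v ≤ nh p.1 then (1 : ℝ≥0∞) else 0) ≤ _
  rw [ENNReal.tsum_mul_left]
  refine (mul_le_mul' le_rfl (md_count _)).trans ?_
  rw [mul_assoc, ← mul_pow]
  norm_num

private theorem md_h (hy : 0 < y) (hz : 0 < z) (hz1 : z ≤ 1 / 10 ^ 12) (hq : y * z ^ 2 ≤ 1) :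
    ∑' h : HT, ENNReal.ofReal (wlR y z h.2.1 * 2 ^ h.2.1.length * om h.1) ≠ ⊤ := by
  refine (lt_of_le_of_lt ?_ (cap_strong hy hz hz1 hq).lt_top).ne
  rw [ENNReal.tsum_sigma' fun h : HT =>
    ENNReal.ofReal (wlR y z h.2.1 * 2 ^ h.2.1.length * om h.1)]
  refine ENNReal.tsum_le_tsum fun v => ENNReal.tsum_le_tsum fun l => ?_
  have h2 := md_wlR_nn hy hz l.1
  rw [ENNReal.ofReal_mul (by positivity), ENNReal.ofReal_mul h2, md_two, md_om, md_wl hy hz]

private theorem md_brk (x : List Letter) : x.length = brk x + stp x := by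
  induction x with
  | nil => rfl
  | cons c x ih =>
    cases c with
    | none => rw [List.length_cons, brk_none, stp_none, ih]; omega
    | some d => rw [List.length_cons, brk_some, stp_some, ih]; omega

private theorem md_len (π : PP) : ln π = nv π + nh π + 2 := by
  unfold ln
  rw [← length_lets π.1, ← length_lets π.2, md_brk, md_brk]
  unfold nv nh
  omega

private theorem md_pow {m n : ℕ} (h : (2 : ℝ≥0∞) ^ m = 2 ^ n) : m = n := by
  have h1 : ((2 ^ m : ℕ) : ℝ≥0∞) = ((2 ^ n : ℕ) : ℝ≥0∞) := by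
    push_cast
    exact h
  exact Nat.pow_right_injective le_rfl (Nat.cast_injective h1)

private theorem md_rot : ∃ σ : RT ≃ RT, ∀ r, wtR y z (σ r).1 = wtR y z r.1 ∧
    ln (σ r).1 = ln r.1 ∧ dsp (σ r).1 = rt (dsp r.1) := by
  obtain ⟨σ, hσ⟩ := free_rot
  have hl : ∀ π, ln (σ π).1 = ln π.1 := by
    intro π
    have h := (hσ π).1 1 2
    unfold wt at h
    rw [one_pow, one_mul, one_pow, one_mul] at h
    exact md_pow h
  have hh : ∀ π, (hgt (σ π).1).toNat = (hgt π.1).toNat := by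
    intro π
    have h := (hσ π).1 2 1
    unfold wt at h
    rw [one_pow, mul_one, one_pow, mul_one] at h
    exact md_pow h
  have hb : ∀ π, Bas (σ π).1 ↔ Bas π.1 := by
    intro π
    have h1 := hl π
    rw [md_len, md_len] at h1
    have h2 := (hσ π).2.1
    unfold Bas
    omega
  let e : {π : {π // Free π} // ¬ Bas π.1} ≃ RT :=
    Equiv.subtypeSubtypeEquivSubtypeInter (fun π : PP => Free π) (fun π => ¬ Bas π)
  have hb' : ∀ π : {π // Free π}, ¬ Bas π.1 ↔ ¬ Bas (σ π).1 := fun π => not_congr (hb π).symm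
  refine ⟨e.symm.trans ((σ.subtypeEquiv hb').trans e), fun r => ?_⟩
  have h : (e.symm.trans ((σ.subtypeEquiv hb').trans e) r).1 = (σ ⟨r.1, r.2.1⟩).1 := rfl
  rw [h]
  refine ⟨?_, hl _, (hσ _).2.2⟩
  unfold wtR
  rw [hl, hh]

private theorem md_crit (hy : 0 < y) (hz : 0 < z) (hz1 : z ≤ 1 / 10 ^ 12) (hq : y * z ^ 2 ≤ 1)
    (hone : ∑' π : {π // Free π}, wt (ENNReal.ofReal y) (ENNReal.ofReal z) π.1 = 1) :
    y * z ^ 2 * (1 + 8 * z) + ∑' r : RT, wtR y z r.1 = 1 := by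
  have h1 : ∑' p : {p // Bas p ∧ Free p}, wt (ENNReal.ofReal y) (ENNReal.ofReal z) p.1 =
      ENNReal.ofReal (y * z ^ 2 * (1 + 8 * z)) := by
    have h := basF hy hz fun _ => 1
    simp only [mul_one, nb] at h
    rw [h, show (1 + 1 + 1 + 1 : ℝ≥0∞) = ENNReal.ofReal 4 by
      rw [ENNReal.ofReal_ofNat]; norm_num, ← ENNReal.ofReal_mul (by positivity),
      ← ENNReal.ofReal_add (by positivity) (by positivity)]
    congr 1
    ring
  have h2 : ∑' r : RT, ENNReal.ofReal (wtR y z r.1) ≤ ENNReal.ofReal (z / 1000) := by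
    refine le_trans (ENNReal.tsum_le_tsum fun r => ENNReal.ofReal_le_ofReal ?_)
      (md_r hy hz hz1 hq)
    have h3 : (1 : ℝ) ≤ 2 ^ ln r.1 := one_le_pow₀ (by norm_num)
    have h4 : (1 : ℝ) ≤ om (dsp r.1) := one_le_pow₀ (by norm_num)
    have h5 := md_wtR_nn hy hz r.1
    calc wtR y z r.1 = wtR y z r.1 * 1 * 1 := by ring
      _ ≤ wtR y z r.1 * 2 ^ ln r.1 * om (dsp r.1) := by gcongr
  have h3 := md_sum (fun r : RT => md_wtR_nn hy hz r.1) ENNReal.ofReal_ne_top h2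
  have h4 : ∑' r : RT, ENNReal.ofReal (wtR y z r.1) = ENNReal.ofReal (∑' r : RT, wtR y z r.1) :=
    (ENNReal.ofReal_tsum_of_nonneg (fun r : RT => md_wtR_nn hy hz r.1) h3.1).symm
  have h5 : ∑' π : {π // Free π}, wt (ENNReal.ofReal y) (ENNReal.ofReal z) π.1 =
      ∑' p : {p // Bas p ∧ Free p}, wt (ENNReal.ofReal y) (ENNReal.ofReal z) p.1 +
        ∑' r : RT, wt (ENNReal.ofReal y) (ENNReal.ofReal z) r.1 := by
    have h6 : ∀ P : PP → Prop, ∑' p : {p // P p}, wt (ENNReal.ofReal y) (ENNReal.ofReal z) p.1 =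
        ∑' p, {p | P p}.indicator (wt (ENNReal.ofReal y) (ENNReal.ofReal z)) p := fun P =>
      tsum_subtype {p | P p} (wt (ENNReal.ofReal y) (ENNReal.ofReal z))
    rw [h6 Free, h6 fun p => Bas p ∧ Free p, h6 fun p => Free p ∧ ¬ Bas p, ← ENNReal.tsum_add]
    refine tsum_congr fun p => ?_
    by_cases h7 : Free p <;> by_cases h8 : Bas p <;> simp [h7, h8]
  have h6 : ∑' r : RT, wt (ENNReal.ofReal y) (ENNReal.ofReal z) r.1 =
      ∑' r : RT, ENNReal.ofReal (wtR y z r.1) := tsum_congr fun r => md_wt hy hz r.1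
  rw [hone, h1, h6, h4, ← ENNReal.ofReal_add (by positivity)
    (tsum_nonneg fun r : RT => md_wtR_nn hy hz r.1), ← ENNReal.ofReal_one] at h5
  have h7 : 0 ≤ y * z ^ 2 * (1 + 8 * z) + ∑' r : RT, wtR y z r.1 :=
    add_nonneg (by positivity) (tsum_nonneg fun r : RT => md_wtR_nn hy hz r.1)
  exact ((ENNReal.ofReal_eq_ofReal_iff zero_le_one h7).1 h5).symm

open Classical in
private theorem md_abs (hy : 0 < y) (hz : 0 < z) (j : JT) :
    |if Free j.1.2 then wtR y z j.1.2 else -wtR y z j.1.2| = wtR y z j.1.2 := by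
  split_ifs
  · exact abs_of_nonneg (md_wtR_nn hy hz _)
  · rw [abs_neg]
    exact abs_of_nonneg (md_wtR_nn hy hz _)

theorem mdl_ok (hy : 0 < y) (hz : 0 < z) (hz1 : z ≤ 1 / 10 ^ 12) (hq : y * z ^ 2 ≤ 1)
    (hone : ∑' π : {π // Free π}, wt (ENNReal.ofReal y) (ENNReal.ofReal z) π.1 = 1) :
    (mdl y z).Ok := by
  classical
  have hzz : 0 ≤ z / 1000 := by positivity
  have hr := md_sum (f := fun r : RT => wtR y z r.1 * 2 ^ ln r.1 * om (dsp r.1))
    (fun r => mul_nonneg (mul_nonneg (md_wtR_nn hy hz _) (by positivity)) (md_om_nn _))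
    ENNReal.ofReal_ne_top (md_r hy hz hz1 hq)
  have hj := md_sum (f := fun j : JT => wtR y z j.1.2 * 2 ^ ln j.1.2 * om j.1.1 *
      om (j.1.1 + dsp j.1.2))
    (fun r => mul_nonneg (mul_nonneg (mul_nonneg (md_wtR_nn hy hz _) (by positivity))
      (md_om_nn _)) (md_om_nn _))
    ENNReal.ofReal_ne_top (md_j hy hz hz1 hq)
  have hh := md_sum (f := fun h : HT => wlR y z h.2.1 * 2 ^ h.2.1.length * om h.1)
    (fun r => mul_nonneg (mul_nonneg (md_wlR_nn hy hz _) (by positivity)) (md_om_nn _))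
    (md_h hy hz hz1 hq) le_rfl
  rw [ENNReal.toReal_ofReal hzz] at hr hj
  have hja : ∀ j : JT, |(mdl y z).jc j| = wtR y z j.1.2 := fun j => md_abs hy hz j
  have hha : ∀ h : HT, |(mdl y z).hc h| = wlR y z h.2.1 := fun h =>
    abs_of_nonneg (md_wlR_nn hy hz h.2.1)
  exact
    { z_pos := hz
      z_le := hz1
      q_pos := mul_pos hy (pow_pos hz 2)
      rc_nn := fun r => md_wtR_nn hy hz r.1
      r_summable := hr.1
      r_le := hr.2
      rot := md_rot
      crit := md_crit hy hz hz1 hq hone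
      j_summable := by
        simp only [hja]
        exact hj.1
      j_le := by
        simp only [hja]
        exact hj.2
      js_ne := fun j => j.2.1
      jt_ne := fun j => j.2.2.1
      h_summable := by
        simp only [hha]
        exact hh.1
      ht_ne := fun h => h.2.2.1.1.symm }

end Pool.Agent.KAsym
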