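import Pool.Agent.KAsym.Pot

/-! KA11: Neumann series. -/

set_option autoImplicit false

open Complex MeasureTheory Set

namespace Pool.Agent.KAsym

open Pool.Agent.KLog (nrm nsq rt)

variable {R J H : Type} {κ : Mdl R J H} {s : ℂ}

/-- Regular families. -/
structure Reg (κ : Mdl R J H) (f : ℂ → ℤ × ℤ → ℂ) (C : ℝ) : Prop where
  diff : ∀ x, x ≠ 0 → DifferentiableOn ℂ (fun s => f s x) κ.Sec
  bd : ∀ s ∈ κ.Sec0, ∀ x, x ≠ 0 → ‖f s x‖ ≤ C * om x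
  lip : ∃ C' : ℝ, ∀ s ∈ κ.Sec0, ∀ x, x ≠ 0 → ‖f s x - f 0 x‖ ≤ C' * √‖s‖ * om x

private lemma e10 : ((1 : ℤ), (0 : ℤ)) ≠ 0 := by
  intro h
  have := congrArg Prod.fst h
  simp at this

private lemma om_pos (x : ℤ × ℤ) : 0 < om x := lt_of_lt_of_le one_pos (one_le_om x)

private noncomputable def wgt (κ : Mdl R J H) (j : J) : ℝ :=
  |κ.jc j| * 2 ^ κ.jn j * om (κ.js j) * om (κ.jt j)

private lemma wgt_nn (j : J) : 0 ≤ wgt κ j := by
  have h1 := om_pos (κ.js j)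
  have h2 := om_pos (κ.jt j)
  unfold wgt
  positivity

private lemma ej_bd (hκ : κ.Ok) (hs : s ∈ κ.Sec0) (j : J) :
    ‖κ.ej s j‖ ≤ |κ.jc j| * 2 ^ κ.jn j := by
  unfold Mdl.ej
  rw [norm_mul, Complex.norm_real, Real.norm_eq_abs]
  exact mul_le_mul_of_nonneg_left (exp_bd ((sec0_small hκ hs).trans (by norm_num)))
    (abs_nonneg _)

private lemma le_sqrt_norm (hκ : κ.Ok) (hs : s ∈ κ.Sec0) : ‖s‖ ≤ √‖s‖ := by
  have h1 := sec0_small hκ hs
  have h2 := norm_nonneg s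
  have h3 : ‖s‖ ≤ 1 := h1.trans (by norm_num)
  refine Real.le_sqrt_of_sq_le ?_
  nlinarith

private lemma ej_lip (hκ : κ.Ok) (hs : s ∈ κ.Sec0) (j : J) :
    ‖κ.ej s j - κ.ej 0 j‖ ≤ |κ.jc j| * 2 ^ κ.jn j * √‖s‖ := by
  have e : κ.ej s j - κ.ej 0 j = (κ.jc j : ℂ) * (exp (-κ.jn j * s) - 1) := by
    unfold Mdl.ej
    rw [mul_zero, Complex.exp_zero]
    ring
  rw [e, norm_mul, Complex.norm_real, Real.norm_eq_abs, mul_assoc]
  refine mul_le_mul_of_nonneg_left ?_ (abs_nonneg _)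
  refine (exp_lip ((sec0_small hκ hs).trans (by norm_num))).trans ?_
  exact mul_le_mul_of_nonneg_left (le_sqrt_norm hκ hs) (by positivity)

private lemma term_bd (hκ : κ.Ok) (hs : s ∈ κ.Sec0) {f g : ℤ × ℤ → ℂ} {C D : ℝ}
    (hf : ∀ x, x ≠ 0 → ‖f x‖ ≤ C * om x) (hg : ∀ x, x ≠ 0 → ‖g x‖ ≤ D * om x) (j : J) :
    ‖κ.ej s j * f (κ.js j) * g (κ.jt j)‖ ≤ C * D * wgt κ j := by
  have h1 := ej_bd hκ hs j
  have h2 := hf _ (hκ.js_ne j)
  have h3 := hg _ (hκ.jt_ne j)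
  rw [norm_mul, norm_mul]
  have h4 : ‖κ.ej s j‖ * ‖f (κ.js j)‖ * ‖g (κ.jt j)‖ ≤
      (|κ.jc j| * 2 ^ κ.jn j) * (C * om (κ.js j)) * (D * om (κ.jt j)) :=
    mul_le_mul (mul_le_mul h1 h2 (norm_nonneg _) (by positivity)) h3 (norm_nonneg _)
      (mul_nonneg (by positivity) ((norm_nonneg _).trans h2))
  refine h4.trans (le_of_eq ?_)
  unfold wgt
  ring

private lemma C_nn {f : ℤ × ℤ → ℂ} {C : ℝ} (hf : ∀ x, x ≠ 0 → ‖f x‖ ≤ C * om x) : 0 ≤ C := by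
  have h1 := hf _ e10
  have h2 := om_pos ((1 : ℤ), (0 : ℤ))
  have h3 := norm_nonneg (f ((1 : ℤ), (0 : ℤ)))
  by_contra hc
  push Not at hc
  have h4 : C * om ((1 : ℤ), (0 : ℤ)) < 0 := mul_neg_of_neg_of_pos hc h2
  linarith

private lemma dfc_bd0 (hκ : κ.Ok) (hs : s ∈ κ.Sec0) {f g : ℤ × ℤ → ℂ} {C D : ℝ}
    (hf : ∀ x, x ≠ 0 → ‖f x‖ ≤ C * om x) (hg : ∀ x, x ≠ 0 → ‖g x‖ ≤ D * om x) :
    ‖κ.dfc s f g‖ ≤ C * D * (κ.z / 1000) := by
  have h1 : HasSum (fun j => C * D * wgt κ j) (C * D * ∑' j, wgt κ j) :=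
    (Summable.hasSum hκ.j_summable).mul_left _
  have h2 := tsum_of_norm_bounded h1 (term_bd hκ hs hf hg)
  refine h2.trans (mul_le_mul_of_nonneg_left hκ.j_le (mul_nonneg (C_nn hf) (C_nn hg)))

private lemma GG_bd' (hκ : κ.Ok) (hs : s ∈ κ.Sec0) {x : ℤ × ℤ} (hx : x ≠ 0) :
    ∀ w, w ≠ 0 → ‖κ.GG s w x‖ ≤ 1 / κ.z * om x * om w := by
  intro w hw
  refine (GG_bd hκ hs hw hx).trans (le_of_eq ?_)
  ring

/-- one step -/
private noncomputable def stp (κ : Mdl R J H) (f : ℂ → ℤ × ℤ → ℂ) (s : ℂ) (x : ℤ × ℤ) : ℂ :=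
  -κ.dfc s (f s) (fun w => κ.GG s w x)

private lemma stp_bd0 (hκ : κ.Ok) (hs : s ∈ κ.Sec0) {f : ℤ × ℤ → ℂ} {C : ℝ}
    (hf : ∀ x, x ≠ 0 → ‖f x‖ ≤ C * om x) {x : ℤ × ℤ} (hx : x ≠ 0) :
    ‖-κ.dfc s f (fun w => κ.GG s w x)‖ ≤ C / 1000 * om x := by
  have hz := hκ.z_pos
  rw [norm_neg]
  refine (dfc_bd0 hκ hs hf (GG_bd' hκ hs hx)).trans (le_of_eq ?_)
  field_simp

private lemma stp_diff (hκ : κ.Ok) {f : ℂ → ℤ × ℤ → ℂ} {C : ℝ}
    (hd : ∀ x, x ≠ 0 → DifferentiableOn ℂ (fun s => f s x) κ.Sec)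
    (hb : ∀ s ∈ κ.Sec0, ∀ x, x ≠ 0 → ‖f s x‖ ≤ C * om x) (x : ℤ × ℤ) (hx : x ≠ 0) :
    DifferentiableOn ℂ (fun s => stp κ f s x) κ.Sec := by
  unfold stp Mdl.dfc
  refine DifferentiableOn.neg ?_
  refine differentiableOn_tsum_of_summable_norm
    (u := fun j => C * (1 / κ.z * om x) * wgt κ j) ?_ ?_ isOpen_sec ?_
  · exact Summable.mul_left _ hκ.j_summable
  · intro j
    refine DifferentiableOn.mul (DifferentiableOn.mul ?_ (hd _ (hκ.js_ne j))) (GG_diff hκ _ _)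
    unfold Mdl.ej
    fun_prop
  · intro j s hs
    exact term_bd hκ (sec_sub hs) (hb s (sec_sub hs)) (GG_bd' hκ (sec_sub hs) hx) j

private lemma stp_lip (hκ : κ.Ok) {f : ℂ → ℤ × ℤ → ℂ} {C L G : ℝ} (hG : 0 ≤ G)
    (hG' : ∀ s ∈ κ.Sec0, ∀ w x : ℤ × ℤ, ‖κ.GG s w x - κ.GG 0 w x‖ ≤ G * √‖s‖ * om w * om x)
    (hb : ∀ s ∈ κ.Sec0, ∀ x, x ≠ 0 → ‖f s x‖ ≤ C * om x)
    (hl : ∀ s ∈ κ.Sec0, ∀ x, x ≠ 0 → ‖f s x - f 0 x‖ ≤ L * √‖s‖ * om x)
    (s : ℂ) (hs : s ∈ κ.Sec0) (x : ℤ × ℤ) (hx : x ≠ 0) :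
    ‖stp κ f s x - stp κ f 0 x‖ ≤
      (L / 1000 + (1 + G * κ.z) / 1000 * C) * √‖s‖ * om x := by
  have hz := hκ.z_pos
  have h0 := zero_mem_sec0 hκ
  have hC := C_nn (hb s hs)
  have hr := Real.sqrt_nonneg ‖s‖
  have hox := om_pos x
  have hs1 : Summable fun j => κ.ej s j * f s (κ.js j) * κ.GG s (κ.jt j) x :=
    Summable.of_norm_bounded (g := fun j => C * (1 / κ.z * om x) * wgt κ j)
      (Summable.mul_left _ hκ.j_summable) (term_bd hκ hs (hb s hs) (GG_bd' hκ hs hx))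
  have hs2 : Summable fun j => κ.ej 0 j * f 0 (κ.js j) * κ.GG 0 (κ.jt j) x :=
    Summable.of_norm_bounded (g := fun j => C * (1 / κ.z * om x) * wgt κ j)
      (Summable.mul_left _ hκ.j_summable) (term_bd hκ h0 (hb 0 h0) (GG_bd' hκ h0 hx))
  have e : stp κ f s x - stp κ f 0 x = -∑' j, (κ.ej s j * f s (κ.js j) * κ.GG s (κ.jt j) x -
      κ.ej 0 j * f 0 (κ.js j) * κ.GG 0 (κ.jt j) x) := by
    rw [hs1.tsum_sub hs2]
    unfold stp Mdl.dfc
    ring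
  have hL : 0 ≤ L * √‖s‖ := by
    have h1 := hl s hs _ e10
    have h2 := om_pos ((1 : ℤ), (0 : ℤ))
    have h3 := (norm_nonneg _).trans h1
    exact nonneg_of_mul_nonneg_left h3 h2
  have hterm : ∀ j, ‖κ.ej s j * f s (κ.js j) * κ.GG s (κ.jt j) x -
      κ.ej 0 j * f 0 (κ.js j) * κ.GG 0 (κ.jt j) x‖ ≤
      ((C / κ.z + C * G) * √‖s‖ + L * √‖s‖ / κ.z) * om x * wgt κ j := by
    intro j
    have a1 := ej_bd hκ h0 j
    have a2 := ej_lip hκ hs j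
    have b1 := hb s hs _ (hκ.js_ne j)
    have b0 := hb 0 h0 _ (hκ.js_ne j)
    have b2 := hl s hs _ (hκ.js_ne j)
    have c1 := GG_bd' hκ hs hx _ (hκ.jt_ne j)
    have c2 := hG' s hs (κ.jt j) x
    have o1 := om_pos (κ.js j)
    have o2 := om_pos (κ.jt j)
    have ea : κ.ej s j * f s (κ.js j) * κ.GG s (κ.jt j) x -
        κ.ej 0 j * f 0 (κ.js j) * κ.GG 0 (κ.jt j) x =
        (κ.ej s j - κ.ej 0 j) * f s (κ.js j) * κ.GG s (κ.jt j) x +
        κ.ej 0 j * (f s (κ.js j) - f 0 (κ.js j)) * κ.GG s (κ.jt j) x +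
        κ.ej 0 j * f 0 (κ.js j) * (κ.GG s (κ.jt j) x - κ.GG 0 (κ.jt j) x) := by
      ring
    rw [ea]
    have t1 : ‖(κ.ej s j - κ.ej 0 j) * f s (κ.js j) * κ.GG s (κ.jt j) x‖ ≤
        (|κ.jc j| * 2 ^ κ.jn j * √‖s‖) * (C * om (κ.js j)) * (1 / κ.z * om x * om (κ.jt j)) := by
      rw [norm_mul, norm_mul]
      exact mul_le_mul (mul_le_mul a2 b1 (norm_nonneg _) (by positivity)) c1 (norm_nonneg _)
        (by positivity)
    have t2 : ‖κ.ej 0 j * (f s (κ.js j) - f 0 (κ.js j)) * κ.GG s (κ.jt j) x‖ ≤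
        (|κ.jc j| * 2 ^ κ.jn j) * (L * √‖s‖ * om (κ.js j)) *
          (1 / κ.z * om x * om (κ.jt j)) := by
      rw [norm_mul, norm_mul]
      exact mul_le_mul (mul_le_mul a1 b2 (norm_nonneg _) (by positivity)) c1 (norm_nonneg _)
        (by positivity)
    have t3 : ‖κ.ej 0 j * f 0 (κ.js j) * (κ.GG s (κ.jt j) x - κ.GG 0 (κ.jt j) x)‖ ≤
        (|κ.jc j| * 2 ^ κ.jn j) * (C * om (κ.js j)) *
          (G * √‖s‖ * om (κ.jt j) * om x) := by
      rw [norm_mul, norm_mul]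
      exact mul_le_mul (mul_le_mul a1 b0 (norm_nonneg _) (by positivity)) c2 (norm_nonneg _)
        (by positivity)
    refine (norm_add₃_le).trans ((add_le_add (add_le_add t1 t2) t3).trans (le_of_eq ?_))
    unfold wgt
    field_simp
    ring
  rw [e, norm_neg]
  have hsum : HasSum (fun j => ((C / κ.z + C * G) * √‖s‖ + L * √‖s‖ / κ.z) * om x * wgt κ j)
      (((C / κ.z + C * G) * √‖s‖ + L * √‖s‖ / κ.z) * om x * ∑' j, wgt κ j) :=
    (Summable.hasSum hκ.j_summable).mul_left _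
  refine (tsum_of_norm_bounded hsum hterm).trans ?_
  have hpos : 0 ≤ ((C / κ.z + C * G) * √‖s‖ + L * √‖s‖ / κ.z) * om x := by positivity
  refine (mul_le_mul_of_nonneg_left hκ.j_le hpos).trans (le_of_eq ?_)
  field_simp
  ring

private noncomputable def itr (κ : Mdl R J H) (f : ℂ → ℤ × ℤ → ℂ) : ℕ → ℂ → ℤ × ℤ → ℂ
  | 0 => f
  | k + 1 => stp κ (itr κ f k)

private lemma itr_bd (hκ : κ.Ok) {f : ℂ → ℤ × ℤ → ℂ} {C : ℝ}
    (hb : ∀ s ∈ κ.Sec0, ∀ x, x ≠ 0 → ‖f s x‖ ≤ C * om x) (k : ℕ) :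
    ∀ s ∈ κ.Sec0, ∀ x, x ≠ 0 → ‖itr κ f k s x‖ ≤ C * (1 / 1000) ^ k * om x := by
  induction k with
  | zero =>
    intro s hs x hx
    rw [pow_zero, mul_one]
    exact hb s hs x hx
  | succ k ih =>
    intro s hs x hx
    refine (stp_bd0 hκ hs (ih s hs) hx).trans (le_of_eq ?_)
    rw [pow_succ]
    ring

private lemma itr_diff (hκ : κ.Ok) {f : ℂ → ℤ × ℤ → ℂ} {C : ℝ} (hf : Reg κ f C) (k : ℕ) :
    ∀ x, x ≠ 0 → DifferentiableOn ℂ (fun s => itr κ f k s x) κ.Sec := by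
  induction k with
  | zero => exact hf.diff
  | succ k ih =>
    intro x hx
    exact stp_diff hκ ih (itr_bd hκ hf.bd k) x hx

private lemma itr_lip (hκ : κ.Ok) {f : ℂ → ℤ × ℤ → ℂ} {C : ℝ} (hf : Reg κ f C) :
    ∃ M : ℝ, ∀ k : ℕ, ∀ s ∈ κ.Sec0, ∀ x, x ≠ 0 →
      ‖itr κ f k s x - itr κ f k 0 x‖ ≤ M * (1 / 2) ^ k * √‖s‖ * om x := by
  obtain ⟨L, hL⟩ := hf.lip
  obtain ⟨G0, hG0⟩ := GG_lip hκ
  have hz := hκ.z_pos
  have hC : 0 ≤ C := C_nn (hf.bd 0 (zero_mem_sec0 hκ))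
  set G := |G0| with hG
  have hGn : 0 ≤ G := abs_nonneg _
  have hG' : ∀ s ∈ κ.Sec0, ∀ w x : ℤ × ℤ,
      ‖κ.GG s w x - κ.GG 0 w x‖ ≤ G * √‖s‖ * om w * om x := by
    intro s hs w x
    have h1 := om_pos w
    have h2 := om_pos x
    refine (hG0 s hs w x).trans ?_
    have h3 : G0 * √‖s‖ ≤ G * √‖s‖ :=
      mul_le_mul_of_nonneg_right (le_abs_self _) (Real.sqrt_nonneg _)
    exact mul_le_mul_of_nonneg_right (mul_le_mul_of_nonneg_right h3 h1.le) h2.le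
  set K := (1 + G * κ.z) / 1000 with hK
  have hKn : 0 ≤ K := by positivity
  refine ⟨|L| + 3 * (K * C), fun k => ?_⟩
  have hM : 0 ≤ |L| + 3 * (K * C) := by positivity
  induction k with
  | zero =>
    intro s hs x hx
    rw [pow_zero, mul_one]
    refine (hL s hs x hx).trans ?_
    have h2 := om_pos x
    refine mul_le_mul_of_nonneg_right (mul_le_mul_of_nonneg_right ?_ (Real.sqrt_nonneg _)) h2.le
    have h3 := le_abs_self L
    have h4 : 0 ≤ K * C := by positivity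
    linarith
  | succ k ih =>
    intro s hs x hx
    have h2 := om_pos x
    refine (stp_lip hκ hGn hG' (itr_bd hκ hf.bd k) ih s hs x hx).trans ?_
    refine mul_le_mul_of_nonneg_right (mul_le_mul_of_nonneg_right ?_ (Real.sqrt_nonneg _)) h2.le
    have h5 : ((1 : ℝ) / 1000) ^ k ≤ (1 / 2) ^ k :=
      pow_le_pow_left₀ (by norm_num) (by norm_num) k
    have h6 : 0 ≤ K * C := by positivity
    have h7 : K * (C * (1 / 1000) ^ k) ≤ K * C * (1 / 2) ^ k := by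
      rw [← mul_assoc]
      exact mul_le_mul_of_nonneg_left h5 h6
    have h8 : (0 : ℝ) ≤ (1 / 2) ^ k := by positivity
    have h9 : 0 ≤ |L| * (1 / 2 : ℝ) ^ k := by positivity
    have h10 : 0 ≤ K * C * (1 / 2 : ℝ) ^ k := by positivity
    rw [← hK, pow_succ]
    nlinarith

/-- **The Neumann series.** -/
theorem neumann (hκ : κ.Ok) {f : ℂ → ℤ × ℤ → ℂ} {C : ℝ} (hf : Reg κ f C) : ∃ g, Reg κ g (2 * C) ∧
    ∀ s ∈ κ.Sec0, ∀ x, x ≠ 0 → g s x = f s x - κ.dfc s (g s) (fun w => κ.GG s w x) := by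
  have hz := hκ.z_pos
  have hC : 0 ≤ C := C_nn (hf.bd 0 (zero_mem_sec0 hκ))
  have hgeo : Summable fun k : ℕ => ((1 : ℝ) / 1000) ^ k :=
    summable_geometric_of_lt_one (by norm_num) (by norm_num)
  have hgeo2 : Summable fun k : ℕ => ((1 : ℝ) / 2) ^ k :=
    summable_geometric_of_lt_one (by norm_num) (by norm_num)
  have hsum : ∀ s ∈ κ.Sec0, ∀ x, x ≠ 0 → Summable fun k => itr κ f k s x := by
    intro s hs x hx
    refine Summable.of_norm_bounded (g := fun k : ℕ => C * (1 / 1000) ^ k * om x)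
      ((hgeo.mul_left C).mul_right _) fun k => itr_bd hκ hf.bd k s hs x hx
  refine ⟨fun s x => ∑' k, itr κ f k s x, ⟨?_, ?_, ?_⟩, ?_⟩
  · intro x hx
    exact differentiableOn_tsum_of_summable_norm (u := fun k : ℕ => C * (1 / 1000) ^ k * om x)
      ((hgeo.mul_left C).mul_right _) (fun k => itr_diff hκ hf k x hx) isOpen_sec
      fun k s hs => itr_bd hκ hf.bd k s (sec_sub hs) x hx
  · intro s hs x hx
    have h1 : HasSum (fun k : ℕ => C * (1 / 1000) ^ k * om x)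
        (C * (1 - 1 / 1000)⁻¹ * om x) :=
      ((hasSum_geometric_of_lt_one (by norm_num) (by norm_num)).mul_left C).mul_right _
    refine (tsum_of_norm_bounded h1 fun k => itr_bd hκ hf.bd k s hs x hx).trans ?_
    have h2 := om_pos x
    refine mul_le_mul_of_nonneg_right ?_ h2.le
    rw [mul_comm 2 C]
    exact mul_le_mul_of_nonneg_left (by norm_num) hC
  · obtain ⟨M, hM⟩ := itr_lip hκ hf
    refine ⟨M * 2, fun s hs x hx => ?_⟩
    have h0 := zero_mem_sec0 hκ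
    have e : (∑' k, itr κ f k s x) - ∑' k, itr κ f k 0 x =
        ∑' k, (itr κ f k s x - itr κ f k 0 x) := ((hsum s hs x hx).tsum_sub (hsum 0 h0 x hx)).symm
    simp only [e]
    have h1 : HasSum (fun k : ℕ => M * (1 / 2) ^ k * √‖s‖ * om x)
        (M * 2 * √‖s‖ * om x) :=
      ((hasSum_geometric_two.mul_left M).mul_right _).mul_right _
    exact tsum_of_norm_bounded h1 fun k => hM k s hs x hx
  · intro s hs x hx
    have h1 : (∑' k, itr κ f k s x) = f s x + ∑' k, itr κ f (k + 1) s x :=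
      (hsum s hs x hx).tsum_eq_zero_add
    have h2 : (∑' k, itr κ f (k + 1) s x) = -∑' k, ∑' j,
        κ.ej s j * itr κ f k s (κ.js j) * κ.GG s (κ.jt j) x := by
      rw [← tsum_neg]
      rfl
    have h3 : Summable (Function.uncurry fun (k : ℕ) (j : J) =>
        κ.ej s j * itr κ f k s (κ.js j) * κ.GG s (κ.jt j) x) := by
      have h4 : Summable fun p : ℕ × J => ((C * (1 / 1000) ^ p.1) * (1 / κ.z * om x)) *
          wgt κ p.2 := by
        refine Summable.mul_of_nonneg (f := fun k : ℕ => (C * (1 / 1000) ^ k) * (1 / κ.z * om x))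
          (g := wgt κ) ((hgeo.mul_left C).mul_right _) hκ.j_summable ?_ ?_
        · intro k
          have h5 := om_pos x
          show 0 ≤ (C * (1 / 1000) ^ k) * (1 / κ.z * om x)
          positivity
        · intro j
          exact wgt_nn j
      refine Summable.of_norm_bounded h4 ?_
      rintro ⟨k, j⟩
      exact term_bd hκ hs (itr_bd hκ hf.bd k s hs) (GG_bd' hκ hs hx) j
    have h6 : (∑' k, ∑' j, κ.ej s j * itr κ f k s (κ.js j) * κ.GG s (κ.jt j) x) =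
        κ.dfc s (fun y => ∑' k, itr κ f k s y) (fun w => κ.GG s w x) := by
      rw [← h3.tsum_comm]
      unfold Mdl.dfc
      refine tsum_congr fun j => ?_
      rw [tsum_mul_right, tsum_mul_left]
    show (∑' k, itr κ f k s x) = _
    rw [h1, h2, h6]
    ring

theorem uniq (hκ : κ.Ok) (hs : s ∈ κ.Sec0) {e : ℤ × ℤ → ℂ} {C : ℝ}
    (he : ∀ x, x ≠ 0 → ‖e x‖ ≤ C * om x)
    (h : ∀ x, x ≠ 0 → e x = -κ.dfc s e (fun w => κ.GG s w x)) (x : ℤ × ℤ) (hx : x ≠ 0) :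
    e x = 0 := by
  have h1 : ∀ k : ℕ, ∀ x, x ≠ 0 → ‖e x‖ ≤ C * (1 / 1000) ^ k * om x := by
    intro k
    induction k with
    | zero =>
      intro x hx
      rw [pow_zero, mul_one]
      exact he x hx
    | succ k ih =>
      intro x hx
      rw [h x hx]
      refine (stp_bd0 hκ hs ih hx).trans (le_of_eq ?_)
      rw [pow_succ]
      ring
  have h2 : Filter.Tendsto (fun k : ℕ => C * (1 / 1000) ^ k * om x) Filter.atTop (nhds 0) := by
    have h3 : Filter.Tendsto (fun k : ℕ => ((1 : ℝ) / 1000) ^ k) Filter.atTop (nhds 0) :=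
      tendsto_pow_atTop_nhds_zero_of_lt_one (by norm_num) (by norm_num)
    have h4 := (h3.const_mul C).mul_const (om x)
    simpa using h4
  have h5 : ‖e x‖ ≤ 0 := ge_of_tendsto' h2 fun k => h1 k x hx
  exact norm_eq_zero.1 (le_antisymm h5 (norm_nonneg _))

end Pool.Agent.KAsym
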