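import Pool.Agent.KAsym.Av

/-! KA4: the potential kernel. -/

set_option autoImplicit false

open Complex MeasureTheory Set

namespace Pool.Agent.KAsym

open Pool.Agent.KLog (nrm nsq rt)

variable {R J H : Type} {κ : Mdl R J H} {s : ℂ}

theorem pot_zero (s : ℂ) : κ.pot s 0 = 0 := by
  unfold Mdl.pot av dot
  simp

theorem pot_neg (s : ℂ) (x : ℤ × ℤ) : κ.pot s (-x) = κ.pot s x := by
  have h : ∀ θ : ℝ × ℝ, Real.cos (dot θ (-x)) = Real.cos (dot θ x) := by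
    intro θ
    have h1 : dot θ (-x) = -dot θ x := by
      unfold dot
      rw [Prod.fst_neg, Prod.snd_neg]
      push_cast
      ring
    rw [h1, Real.cos_neg]
  unfold Mdl.pot
  simp only [h]

/-- the integrand -/
private noncomputable def potI (κ : Mdl R J H) (s : ℂ) (x : ℤ × ℤ) (θ : ℝ × ℝ) : ℂ :=
  (1 - (Real.cos (dot θ x) : ℂ)) / (1 - κ.F s θ)

private lemma potI_num (θ : ℝ × ℝ) (x : ℤ × ℤ) :
    ‖(1 - (Real.cos (dot θ x) : ℂ))‖ ≤ 2 * (nrm x : ℝ) ^ 2 * NN θ := by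
  have h1 : (1 - (Real.cos (dot θ x) : ℂ)) = ((1 - Real.cos (dot θ x) : ℝ) : ℂ) := by
    push_cast
    ring
  rw [h1, Complex.norm_real, Real.norm_eq_abs, abs_of_nonneg]
  · exact one_sub_cos_dot_le θ x
  · linarith [Real.cos_le_one (dot θ x)]

private lemma potI_bd (hκ : κ.Ok) (hs : s ∈ κ.Sec0) (x : ℤ × ℤ) (θ : ℝ × ℝ) :
    ‖potI κ s x θ‖ ≤ 11 / 10 / κ.z * (nrm x : ℝ) ^ 2 := by
  have hz := hκ.z_pos
  have hnum := potI_num θ x
  have hN := NN_nonneg θ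
  have hlow := sym_low hκ hs θ
  have hC : 0 ≤ 11 / 10 / κ.z * (nrm x : ℝ) ^ 2 := by positivity
  unfold potI
  rw [norm_div]
  rcases hN.eq_or_lt with h0 | h0
  · rw [← h0, mul_zero] at hnum
    rw [le_antisymm hnum (norm_nonneg _), zero_div]
    exact hC
  · have hs0 := norm_nonneg s
    have hd : 98 / 100 * (2 * κ.z * NN θ) ≤ ‖1 - κ.F s θ‖ := by
      refine le_trans ?_ hlow
      nlinarith
    have hd0 : 0 < 98 / 100 * (2 * κ.z * NN θ) := by positivity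
    rw [div_le_iff₀ (hd0.trans_le hd)]
    refine hnum.trans ?_
    refine le_trans ?_ (mul_le_mul_of_nonneg_left hd hC)
    have e : 11 / 10 / κ.z * (nrm x : ℝ) ^ 2 * (98 / 100 * (2 * κ.z * NN θ)) =
        (11 * 98 / 1000) * (2 * (nrm x : ℝ) ^ 2 * NN θ) := by
      field_simp
      ring
    rw [e]
    have h1 : 0 ≤ 2 * (nrm x : ℝ) ^ 2 * NN θ := by positivity
    nlinarith

private lemma potI_meas (hκ : κ.Ok) (hs : s ∈ κ.Sec0) (x : ℤ × ℤ) : Measurable (potI κ s x) := by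
  have h1 := sec0_small hκ hs
  have h2 : -(1 / 100) ≤ s.re := by
    have h3 := (abs_le.1 (Complex.abs_re_le_norm s)).1
    linarith
  have h4 : Continuous fun θ : ℝ × ℝ => (1 - (Real.cos (dot θ x) : ℂ)) := by
    unfold dot
    fun_prop
  exact h4.measurable.div (continuous_const.sub (F_cont hκ h2)).measurable

private lemma potI_int (hκ : κ.Ok) (hs : s ∈ κ.Sec0) (x : ℤ × ℤ) :
    IntegrableOn (potI κ s x) box := by
  refine Measure.integrableOn_of_bounded (M := 11 / 10 / κ.z * (nrm x : ℝ) ^ 2)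
    isCompact_box.measure_lt_top.ne (potI_meas hκ hs x).aestronglyMeasurable ?_
  exact Filter.Eventually.of_forall fun θ => potI_bd hκ hs x θ

theorem pot_bd (hκ : κ.Ok) (hs : s ∈ κ.Sec0) (x : ℤ × ℤ) :
    ‖κ.pot s x‖ ≤ 11 / 10 / κ.z * (nrm x : ℝ) ^ 2 :=
  av_norm_le fun θ _ => potI_bd hκ hs x θ

private lemma potI_ne (hκ : κ.Ok) (hs : s ∈ κ.Sec) (θ : ℝ × ℝ) : 1 - κ.F s θ ≠ 0 := by
  have h1 := sym_low hκ (sec_sub hs) θ
  have h2 : 0 < ‖s‖ := norm_pos_iff.2 hs.1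
  have h3 := hκ.z_pos
  have h4 := NN_nonneg θ
  have h5 : 0 ≤ 2 * κ.z * NN θ := by positivity
  rw [← norm_pos_iff]
  linarith

private lemma potI_re (hκ : κ.Ok) (hs : s ∈ κ.Sec) : -(1 / 100) < s.re := by
  have h1 := sec0_small hκ (sec_sub hs)
  have h3 := (abs_le.1 (Complex.abs_re_le_norm s)).1
  linarith

theorem pot_diff (hκ : κ.Ok) (x : ℤ × ℤ) : DifferentiableOn ℂ (fun s => κ.pot s x) κ.Sec := by
  refine diffOn_av (f := fun s => potI κ s x) isOpen_sec ?_ ?_ ?_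
  · intro θ _
    unfold potI
    refine DifferentiableOn.div (differentiableOn_const _) ?_ fun s hs => potI_ne hκ hs θ
    exact (differentiableOn_const _).sub ((F_diff hκ θ).mono fun s hs => potI_re hκ hs)
  · intro s hs
    unfold potI
    refine ContinuousOn.div ?_ ?_ fun θ _ => potI_ne hκ hs θ
    · unfold dot
      fun_prop
    · exact (continuous_const.sub (F_cont hκ (potI_re hκ hs).le)).continuousOn
  · intro s hs
    obtain ⟨ε, hε, hball⟩ := Metric.isOpen_iff.1 isOpen_sec s hs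
    exact ⟨ε, hε, 11 / 10 / κ.z * (nrm x : ℝ) ^ 2, hball,
      fun s' hs' θ _ => potI_bd hκ (sec_sub (hball hs')) x θ⟩

theorem pot_lip (hκ : κ.Ok) : ∃ C : ℝ, ∀ s ∈ κ.Sec0, ∀ x : ℤ × ℤ,
    ‖κ.pot s x - κ.pot 0 x‖ ≤ C * √‖s‖ * (nrm x : ℝ) ^ 2 := by
  obtain ⟨C, hC⟩ := av_sqrt hκ
  refine ⟨4 / κ.z * C, fun s hs x => ?_⟩
  have h0 := zero_mem_sec0 hκ
  have hz := hκ.z_pos
  have e : κ.pot s x - κ.pot 0 x = av fun θ => potI κ s x θ - potI κ 0 x θ := by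
    unfold av
    rw [integral_sub (potI_int hκ hs x) (potI_int hκ h0 x), mul_sub]
    rfl
  have h1 := hC s (fun θ => potI κ s x θ - potI κ 0 x θ) (4 / κ.z * (nrm x : ℝ) ^ 2) (by
    intro θ _
    have hnum := potI_num θ x
    have hN := NN_nonneg θ
    have hs0 := norm_nonneg s
    rcases hN.eq_or_lt with hN0 | hN0
    · rw [← hN0, mul_zero] at hnum
      have h2 : (1 - (Real.cos (dot θ x) : ℂ)) = 0 :=
        norm_eq_zero.1 (le_antisymm hnum (norm_nonneg _))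
      unfold potI
      rw [h2, zero_div, zero_div, sub_zero, norm_zero]
      positivity
    · have hl1 := sym_low hκ hs θ
      have hl2 := sym_low hκ h0 θ
      rw [norm_zero, zero_add] at hl2
      have hp : 0 < 2 * κ.z * NN θ := by positivity
      have hp1 : 0 < 98 / 100 * (‖s‖ + 2 * κ.z * NN θ) := by positivity
      have hp2 : 0 < 98 / 100 * (2 * κ.z * NN θ) := by positivity
      have hn1 : 1 - κ.F s θ ≠ 0 := norm_pos_iff.1 (hp1.trans_le hl1)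
      have hn2 : 1 - κ.F 0 θ ≠ 0 := norm_pos_iff.1 (hp2.trans_le hl2)
      have e2 : potI κ s x θ - potI κ 0 x θ = (1 - (Real.cos (dot θ x) : ℂ)) *
          (κ.F s θ - κ.F 0 θ) / ((1 - κ.F s θ) * (1 - κ.F 0 θ)) := by
        unfold potI
        rw [div_sub_div _ _ hn1 hn2]
        congr 1
        ring
      rw [e2, norm_div, norm_mul, norm_mul]
      have hlip := sym_lip hκ hs θ
      rw [div_le_iff₀ (mul_pos (hp1.trans_le hl1) (hp2.trans_le hl2))]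
      have h3 : ‖(1 - (Real.cos (dot θ x) : ℂ))‖ * ‖κ.F s θ - κ.F 0 θ‖ ≤
          2 * (nrm x : ℝ) ^ 2 * NN θ * (3 * ‖s‖) :=
        mul_le_mul hnum hlip (norm_nonneg _) (by positivity)
      have h4 : 98 / 100 * (‖s‖ + 2 * κ.z * NN θ) * (98 / 100 * (2 * κ.z * NN θ)) ≤
          ‖1 - κ.F s θ‖ * ‖1 - κ.F 0 θ‖ := mul_le_mul hl1 hl2 hp2.le (norm_nonneg _)
      refine h3.trans (le_trans ?_ (mul_le_mul_of_nonneg_left h4 (by positivity)))
      have hden : ‖s‖ + 2 * κ.z * NN θ ≠ 0 := by positivity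
      have e3 : 4 / κ.z * (nrm x : ℝ) ^ 2 * (‖s‖ / (‖s‖ + 2 * κ.z * NN θ)) *
          (98 / 100 * (‖s‖ + 2 * κ.z * NN θ) * (98 / 100 * (2 * κ.z * NN θ))) =
          8 * (98 / 100) ^ 2 * ((nrm x : ℝ) ^ 2 * NN θ * ‖s‖) := by
        field_simp
        ring
      rw [e3]
      have h5 : 0 ≤ (nrm x : ℝ) ^ 2 * NN θ * ‖s‖ := by positivity
      nlinarith)
  rw [e]
  refine h1.trans (le_of_eq ?_)
  ring

private lemma nrm_sub_sq (x w : ℤ × ℤ) :
    (nrm (x - w) : ℝ) ^ 2 ≤ 2 * (nrm x : ℝ) ^ 2 + 2 * (nrm w : ℝ) ^ 2 := by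
  have h1 : nrm (x - w) ≤ nrm x + nrm w := by
    unfold KLog.nrm
    rw [Prod.fst_sub, Prod.snd_sub]
    omega
  have h2 : (nrm (x - w) : ℝ) ≤ nrm x + nrm w := by exact_mod_cast h1
  have h3 : (0 : ℝ) ≤ nrm (x - w) := Nat.cast_nonneg _
  nlinarith [sq_nonneg ((nrm x : ℝ) - nrm w)]

theorem GG_bd (hκ : κ.Ok) (hs : s ∈ κ.Sec0) {w x : ℤ × ℤ} (hw : w ≠ 0) (hx : x ≠ 0) :
    ‖κ.GG s w x‖ ≤ 1 / κ.z * om w * om x := by
  have hz := hκ.z_pos
  have h1 := pot_bd hκ hs w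
  have h2 := pot_bd hκ hs x
  have h3 := pot_bd hκ hs (x - w)
  have h4 := nrm_sub_sq x w
  have h5 := nrm_sq_le_om' hw
  have h6 := nrm_sq_le_om' hx
  have h7 := four_le_om hw
  have h8 := four_le_om hx
  have h9 : ‖κ.GG s w x‖ ≤ ‖κ.pot s w‖ + ‖κ.pot s x‖ + ‖κ.pot s (x - w)‖ := by
    unfold Mdl.GG
    exact (norm_sub_le _ _).trans (add_le_add_left (norm_add_le _ _) _)
  have h10 : 0 < 11 / 10 / κ.z := by positivity
  have h11 : ‖κ.GG s w x‖ ≤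
      11 / 10 / κ.z * ((nrm w : ℝ) ^ 2 + (nrm x : ℝ) ^ 2 + (nrm (x - w) : ℝ) ^ 2) := by
    rw [mul_add, mul_add]
    linarith
  have h12 : (nrm w : ℝ) ^ 2 + (nrm x : ℝ) ^ 2 + (nrm (x - w) : ℝ) ^ 2 ≤
      3 / 8 * (om w * om x) := by
    nlinarith [mul_nonneg (sub_nonneg.2 h7) (sub_nonneg.2 h8)]
  refine h11.trans ((mul_le_mul_of_nonneg_left h12 h10.le).trans ?_)
  have e : 11 / 10 / κ.z * (3 / 8 * (om w * om x)) = 33 / 80 * (1 / κ.z * om w * om x) := by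
    field_simp
    ring
  rw [e]
  have h13 : 0 ≤ 1 / κ.z * om w * om x := by positivity
  linarith

theorem GG_diff (hκ : κ.Ok) (w x : ℤ × ℤ) :
    DifferentiableOn ℂ (fun s => κ.GG s w x) κ.Sec :=
  ((pot_diff hκ w).add (pot_diff hκ x)).sub (pot_diff hκ (x - w))

theorem GG_lip (hκ : κ.Ok) : ∃ C : ℝ, ∀ s ∈ κ.Sec0, ∀ w x : ℤ × ℤ,
    ‖κ.GG s w x - κ.GG 0 w x‖ ≤ C * √‖s‖ * om w * om x := by
  obtain ⟨C, hC⟩ := pot_lip hκ
  refine ⟨6 * |C|, fun s hs w x => ?_⟩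
  have hr := Real.sqrt_nonneg ‖s‖
  have habs : ∀ y : ℤ × ℤ, ‖κ.pot s y - κ.pot 0 y‖ ≤ |C| * √‖s‖ * (nrm y : ℝ) ^ 2 := by
    intro y
    refine (hC s hs y).trans ?_
    exact mul_le_mul_of_nonneg_right (mul_le_mul_of_nonneg_right (le_abs_self C) hr)
      (sq_nonneg _)
  have h1 := habs w
  have h2 := habs x
  have h3 := habs (x - w)
  have h4 := nrm_sub_sq x w
  have h5 := nrm_sq_le_om w
  have h6 := nrm_sq_le_om x
  have h7 := one_le_om w
  have h8 := one_le_om x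
  have e : κ.GG s w x - κ.GG 0 w x = (κ.pot s w - κ.pot 0 w) + (κ.pot s x - κ.pot 0 x) -
      (κ.pot s (x - w) - κ.pot 0 (x - w)) := by
    unfold Mdl.GG
    ring
  have h9 : ‖κ.GG s w x - κ.GG 0 w x‖ ≤ |C| * √‖s‖ *
      ((nrm w : ℝ) ^ 2 + (nrm x : ℝ) ^ 2 + (nrm (x - w) : ℝ) ^ 2) := by
    rw [e, mul_add, mul_add]
    refine (norm_sub_le _ _).trans (add_le_add ((norm_add_le _ _).trans (add_le_add h1 h2)) h3)
  have h10 : (nrm w : ℝ) ^ 2 + (nrm x : ℝ) ^ 2 + (nrm (x - w) : ℝ) ^ 2 ≤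
      6 * (om w * om x) := by
    nlinarith [mul_nonneg (sub_nonneg.2 h7) (sub_nonneg.2 h8)]
  have h11 : 0 ≤ |C| * √‖s‖ := mul_nonneg (abs_nonneg C) hr
  refine h9.trans ((mul_le_mul_of_nonneg_left h10 h11).trans (le_of_eq ?_))
  ring

end Pool.Agent.KAsym
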