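import Pool.Agent.KAsym.Conv
import Pool.Agent.KAsym.Gam
import Pool.Agent.KAsym.Pot

/-! KA10: the solution in terms of the Green function. -/

set_option autoImplicit false

open Complex MeasureTheory Set

namespace Pool.Agent.KAsym

open Pool.Agent.KLog (nrm nsq rt)

variable {R J H : Type} {κ : Mdl R J H} {s : ℂ} {m : ℂ → ℤ × ℤ → ℂ}

/-- pairing with a measure supported on the points `t h` -/
private theorem sg_src {I : Type} {c : I → ℂ} {t : I → ℤ × ℤ} (hc : Summable fun h => ‖c h‖)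
    {f : ℤ × ℤ → ℂ} {C : ℝ} (hf : ∀ w, ‖f w‖ ≤ C) :
    HasSum (fun w => (∑' h, if t h = w then c h else 0) * f w) (∑' h, c h * f (t h)) := by
  classical
  have h1 : Summable fun h => c h * f (t h) := by
    refine Summable.of_norm_bounded (hc.mul_right C) fun h => ?_
    rw [norm_mul]
    exact mul_le_mul_of_nonneg_left (hf _) (norm_nonneg _)
  have hinj : Function.Injective fun h : I => ((t h, h) : (ℤ × ℤ) × I) := fun a b hab =>
    (Prod.mk.inj hab).2
  have h2 : HasSum (fun p : (ℤ × ℤ) × I => if t p.2 = p.1 then c p.2 * f p.1 else 0)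
      (∑' h, c h * f (t h)) := by
    rw [← hinj.hasSum_iff]
    · simpa [Function.comp_def] using h1.hasSum
    · rintro ⟨w, h⟩ hw
      rw [if_neg]
      intro h3
      exact hw ⟨h, Prod.ext h3 rfl⟩
  refine h2.prod_fiberwise fun w => ?_
  have h3 : Summable fun h => if t h = w then c h else 0 := by
    refine Summable.of_norm_bounded hc fun h => ?_
    split_ifs
    · exact le_rfl
    · rw [norm_zero]
      exact norm_nonneg _
  refine (h3.hasSum.mul_right (f w)).congr_fun fun h => ?_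
  dsimp only
  rw [ite_mul, zero_mul]

/-- a bounded function times an absolutely summable one -/
private theorem sg_sum {M g : ℤ × ℤ → ℂ} (hM : Summable fun v => ‖M v‖) {C : ℝ}
    (hg : ∀ x, ‖g x‖ ≤ C) : Summable fun w => M w * g w := by
  refine Summable.of_norm_bounded (hM.mul_right C) fun w => ?_
  rw [norm_mul]
  exact mul_le_mul_of_nonneg_left (hg _) (norm_nonneg _)

/-- the Green function inverts the kernel -/
private theorem sg_conv {a b : ℂ} {er : R → ℂ} {ru : R → ℤ × ℤ} (her : Summable fun r => ‖er r‖)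
    {M g : ℤ × ℤ → ℂ} (hM : Summable fun v => ‖M v‖) {C : ℝ} (hg : ∀ x, ‖g x‖ ≤ C)
    (hgn : ∀ x, g (-x) = g x)
    (heq : ∀ x, g x - a * g x - b * (g (x + (1, 0)) + g (x + (-1, 0)) + g (x + (0, 1)) +
      g (x + (0, -1))) - ∑' r, er r * g (x - ru r) = if x = 0 then 1 else 0) (x : ℤ × ℤ) :
    HasSum (fun w => (M w - a * M w - b * (M (w + (1, 0)) + M (w + (-1, 0)) + M (w + (0, 1)) +
      M (w + (0, -1))) - ∑' r, er r * M (w - ru r)) * g (w - x)) (M x) := by
  classical
  have hC : 0 ≤ C := (norm_nonneg _).trans (hg 0)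
  have hsw : ∀ w : ℤ × ℤ, g (w - x) = g (x - w) := fun w => by rw [← hgn, neg_sub]
  -- the term without shift
  have h0 : HasSum (fun w => M w * g (x - w)) (∑' w, M w * g (x - w)) :=
    (sg_sum (g := fun w => g (x - w)) hM fun w => hg _).hasSum
  -- the shifts by one
  have he : ∀ e : ℤ × ℤ, HasSum (fun w => M w * g (x - w + e)) (∑' w, M w * g (x - w + e)) :=
    fun e => (sg_sum (g := fun w => g (x - w + e)) hM fun w => hg _).hasSum
  have he' : ∀ e : ℤ × ℤ, HasSum (fun w => M (w + e) * g (w - x)) (∑' w, M w * g (x - w + e)) := by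
    intro e
    have h1 := (Equiv.hasSum_iff (Equiv.addRight e)).2 (he e)
    refine h1.congr_fun fun w => ?_
    show _ = M (w + e) * g (x - (w + e) + e)
    rw [hsw, show x - (w + e) + e = x - w by abel]
  -- the other elements
  have hFs : Summable fun p : (ℤ × ℤ) × R => er p.2 * M p.1 * g (x - p.1 - ru p.2) := by
    refine Summable.of_norm_bounded ((hM.mul_of_nonneg her (fun _ => norm_nonneg _)
      (fun _ => norm_nonneg _)).mul_right C) fun p => ?_
    rw [norm_mul, norm_mul, mul_comm ‖er p.2‖]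
    exact mul_le_mul_of_nonneg_left (hg _) (mul_nonneg (norm_nonneg _) (norm_nonneg _))
  have hrs : ∀ (N : ℤ × ℤ → ℂ) (D : ℝ), (∀ v, ‖N v‖ ≤ D) →
      Summable fun r => er r * N (ru r) := by
    intro N D hN
    refine Summable.of_norm_bounded (her.mul_right D) fun r => ?_
    rw [norm_mul]
    exact mul_le_mul_of_nonneg_left (hN _) (norm_nonneg _)
  have hr : HasSum (fun w => M w * ∑' r, er r * g (x - w - ru r))
      (∑' p : (ℤ × ℤ) × R, er p.2 * M p.1 * g (x - p.1 - ru p.2)) := by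
    refine hFs.hasSum.prod_fiberwise fun w => ?_
    refine ((hrs (fun v => g (x - w - v)) C fun v => hg _).hasSum.mul_left (M w)).congr_fun
      fun r => ?_
    dsimp only
    ring
  obtain ⟨D, hD⟩ : ∃ D : ℝ, ∀ v, ‖M v‖ ≤ D := ⟨∑' v, ‖M v‖, fun v =>
    hM.le_tsum v fun _ _ => norm_nonneg _⟩
  let E : (ℤ × ℤ) × R ≃ (ℤ × ℤ) × R :=
    { toFun := fun p => (p.1 - ru p.2, p.2)
      invFun := fun p => (p.1 + ru p.2, p.2)
      left_inv := fun p => by simp
      right_inv := fun p => by simp }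
  have hr' : HasSum (fun w => (∑' r, er r * M (w - ru r)) * g (w - x))
      (∑' p : (ℤ × ℤ) × R, er p.2 * M p.1 * g (x - p.1 - ru p.2)) := by
    have h1 := (Equiv.hasSum_iff E).2 hFs.hasSum
    refine h1.prod_fiberwise fun w => ?_
    refine ((hrs (fun v => M (w - v)) D fun v => hD _).hasSum.mul_right (g (w - x))).congr_fun
      fun r => ?_
    show er r * M (w - ru r) * g (x - (w - ru r) - ru r) = _
    rw [hsw, show x - (w - ru r) - ru r = x - w by abel]
  -- both sides
  have hL := ((h0.sub (h0.mul_left a)).sub ((((he' (1, 0)).add (he' (-1, 0))).add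
    (he' (0, 1))).add (he' (0, -1)) |>.mul_left b)).sub hr'
  have hR := ((h0.sub (h0.mul_left a)).sub ((((he (1, 0)).add (he (-1, 0))).add
    (he (0, 1))).add (he (0, -1)) |>.mul_left b)).sub hr
  have hR' : HasSum (fun w => M w * if x - w = 0 then 1 else 0) (M x) := by
    have h1 := hasSum_ite_eq x (M x)
    refine h1.congr_fun fun w => ?_
    by_cases h : w = x
    · subst h
      simp
    · rw [if_neg h, if_neg (fun h2 => h (sub_eq_zero.1 h2).symm), mul_zero]
  have hR'' := hR'.congr_fun (g := fun w => M w * g (x - w) - a * (M w * g (x - w)) -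
    b * (M w * g (x - w + (1, 0)) + M w * g (x - w + (-1, 0)) + M w * g (x - w + (0, 1)) +
      M w * g (x - w + (0, -1))) - M w * ∑' r, er r * g (x - w - ru r)) fun w => by
        rw [← heq (x - w)]
        ring
  rw [hR.unique hR''] at hL
  refine hL.congr_fun fun w => ?_
  rw [hsw]
  ring

private theorem grn_neg (s : ℂ) (x : ℤ × ℤ) : κ.grn s (-x) = κ.grn s x := by
  unfold Mdl.grn
  congr 1
  funext θ
  have h : dot θ (-x) = -dot θ x := by
    unfold dot
    simp only [Prod.fst_neg, Prod.snd_neg, Int.cast_neg]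
    ring
  rw [h, Real.cos_neg]

private theorem sg_exp {n : ℕ} (hs : 0 < s.re) : ‖exp (-n * s)‖ ≤ 1 := by
  rw [Complex.norm_exp]
  apply Real.exp_le_one_iff.2
  have h : (-(n : ℂ) * s).re = -(n * s.re) := by
    rw [neg_mul, Complex.neg_re, Complex.mul_re, Complex.natCast_re, Complex.natCast_im]
    ring
  rw [h]
  have : 0 ≤ (n : ℝ) * s.re := mul_nonneg (Nat.cast_nonneg _) hs.le
  linarith

private theorem sg_er (hκ : κ.Ok) (hs : 0 < s.re) : Summable fun r => ‖κ.er s r‖ := by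
  refine Summable.of_nonneg_of_le (fun _ => norm_nonneg _) (fun r => ?_) (rc_summable hκ)
  unfold Mdl.er
  rw [norm_mul, Complex.norm_real, Real.norm_of_nonneg (hκ.rc_nn r)]
  exact mul_le_of_le_one_right (hκ.rc_nn r) (sg_exp hs)

private theorem sg_eh (hκ : κ.Ok) (hs : 0 < s.re) : Summable fun h => ‖κ.eh s h‖ := by
  refine Summable.of_nonneg_of_le (fun _ => norm_nonneg _) (fun h => ?_) hκ.h_summable
  unfold Mdl.eh
  rw [norm_mul, Complex.norm_real, Real.norm_eq_abs]
  have h1 : |κ.hc h| * ‖exp (-κ.hn h * s)‖ ≤ |κ.hc h| :=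
    mul_le_of_le_one_right (abs_nonneg _) (sg_exp hs)
  refine h1.trans ?_
  rw [mul_assoc]
  exact le_mul_of_one_le_right (abs_nonneg _)
    (one_le_mul_of_one_le_of_one_le (one_le_pow₀ (by norm_num)) (one_le_om _))

private theorem sg_ej (hκ : κ.Ok) (hs : 0 < s.re) {f : ℤ × ℤ → ℂ} {C : ℝ}
    (hf : ∀ v, ‖f v‖ ≤ C * om v) : Summable fun j => ‖κ.ej s j * f (κ.js j)‖ := by
  have hC : 0 ≤ C := by
    have h := (norm_nonneg _).trans (hf 0)
    exact nonneg_of_mul_nonneg_left h (lt_of_lt_of_le one_pos (one_le_om _))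
  refine Summable.of_nonneg_of_le (fun _ => norm_nonneg _) (fun j => ?_)
    (hκ.j_summable.mul_left C)
  unfold Mdl.ej
  rw [norm_mul, norm_mul, Complex.norm_real, Real.norm_eq_abs]
  have h1 : |κ.jc j| * ‖exp (-κ.jn j * s)‖ ≤ |κ.jc j| * 2 ^ κ.jn j :=
    mul_le_mul_of_nonneg_left ((sg_exp hs).trans (one_le_pow₀ (by norm_num))) (abs_nonneg _)
  have h0 : 0 ≤ |κ.jc j| * 2 ^ κ.jn j := by positivity
  have h2 : 0 ≤ om (κ.js j) := le_trans zero_le_one (one_le_om _)
  calc |κ.jc j| * ‖exp (-κ.jn j * s)‖ * ‖f (κ.js j)‖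
      ≤ |κ.jc j| * 2 ^ κ.jn j * (C * om (κ.js j)) :=
        mul_le_mul h1 (hf _) (norm_nonneg _) h0
    _ = C * (|κ.jc j| * 2 ^ κ.jn j * om (κ.js j)) := by ring
    _ ≤ C * (|κ.jc j| * 2 ^ κ.jn j * om (κ.js j) * om (κ.jt j)) :=
        mul_le_mul_of_nonneg_left (le_mul_of_one_le_right (mul_nonneg h0 h2) (one_le_om _)) hC

theorem sol_grn (hκ : κ.Ok) (hm : κ.Sol m) (hs : 0 < s.re) : ∃ k : ℂ, ∀ x, m s x =
    κ.srcs s (fun w => κ.grn s (w - x)) - κ.dfc s (m s) (fun w => κ.grn s (w - x)) -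
      k * κ.grn s x := by
  classical
  obtain ⟨C, hC⟩ := grn_bd hκ hs
  obtain ⟨K, hK⟩ := hm.growth
  set a : ℂ := κ.q * exp (-2 * s) with ha
  set b : ℂ := 2 * κ.q * κ.z * exp (-3 * s) with hb
  set ρ : ℤ × ℤ → ℂ := fun w => m s w - a * m s w - b * (m s (w + (1, 0)) + m s (w + (-1, 0)) +
    m s (w + (0, 1)) + m s (w + (0, -1))) - ∑' r, κ.er s r * m s (w - κ.ru r) with hρ
  refine ⟨-ρ 0, fun x => ?_⟩
  have h1 := sg_conv (a := a) (b := b) (sg_er hκ hs) (hm.summable s hs) hC (grn_neg s)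
    (fun x => grn_eqn hκ hs x) x
  have h2 : HasSum (fun w => (∑' h, if κ.ht h = w then κ.eh s h else 0) * κ.grn s (w - x))
      (κ.srcs s fun w => κ.grn s (w - x)) := sg_src (sg_eh hκ hs) fun w => hC _
  have h3 : HasSum (fun w => (∑' j, if κ.jt j = w then κ.ej s j * m s (κ.js j) else 0) *
      κ.grn s (w - x)) (κ.dfc s (m s) fun w => κ.grn s (w - x)) :=
    sg_src (sg_ej hκ hs (hK s hs)) fun w => hC _
  have h4 : HasSum (fun w => (if w = 0 then ρ 0 else 0) * κ.grn s (w - x))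
      (ρ 0 * κ.grn s x) := by
    have h5 := hasSum_ite_eq (0 : ℤ × ℤ) (ρ 0 * κ.grn s x)
    refine h5.congr_fun fun w => ?_
    by_cases h : w = 0
    · subst h
      rw [if_pos rfl, if_pos rfl, zero_sub, grn_neg]
    · rw [if_neg h, if_neg h, zero_mul]
  have h5 := (h2.sub h3).add h4
  have h6 : ∀ w, ρ w = (∑' h, if κ.ht h = w then κ.eh s h else 0) -
      (∑' j, if κ.jt j = w then κ.ej s j * m s (κ.js j) else 0) + if w = 0 then ρ 0 else 0 := by
    intro w
    by_cases h : w = 0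
    · subst h
      have e1 : (∑' h, if κ.ht h = 0 then κ.eh s h else 0) = 0 :=
        (tsum_congr fun h => if_neg (hκ.ht_ne h)).trans tsum_zero
      have e2 : (∑' j, if κ.jt j = 0 then κ.ej s j * m s (κ.js j) else 0) = 0 :=
        (tsum_congr fun j => if_neg (hκ.jt_ne j)).trans tsum_zero
      rw [e1, e2, if_pos rfl]
      ring
    · rw [if_neg h]
      have e := hm.eqn s hs w h
      rw [← ha, ← hb] at e
      rw [hρ]
      dsimp only
      linear_combination e
  have h7 := h5.unique (h1.congr_fun fun w => by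
    rw [← sub_mul, ← add_mul, ← h6 w])
  rw [← h7]
  ring

private theorem sg_split (hκ : κ.Ok) (hs : 0 < s.re) (x : ℤ × ℤ) :
    κ.grn s x = κ.gam s - κ.pot s x := by
  obtain ⟨ρ, hρ, hF⟩ := F_lt hκ hs
  have hc := F_cont hκ (s := s) (by linarith)
  have hne : ∀ θ, 1 - κ.F s θ ≠ 0 := by
    intro θ h0
    have h1 := hF θ
    rw [← sub_eq_zero.1 h0, norm_one] at h1
    exact absurd hρ (not_lt.2 h1)
  have hcos : Continuous fun θ : ℝ × ℝ => (Real.cos (dot θ x) : ℂ) := by
    unfold dot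
    fun_prop
  have i1 : IntegrableOn (fun θ => 1 / (1 - κ.F s θ)) box :=
    (continuous_const.div (continuous_const.sub hc) hne).continuousOn.integrableOn_compact
      isCompact_box
  have i2 : IntegrableOn (fun θ => (1 - (Real.cos (dot θ x) : ℂ)) / (1 - κ.F s θ)) box :=
    ((continuous_const.sub hcos).div (continuous_const.sub hc)
      hne).continuousOn.integrableOn_compact isCompact_box
  unfold Mdl.grn Mdl.gam Mdl.pot av
  rw [← mul_sub, ← integral_sub i1 i2]
  congr 2
  funext θ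
  rw [← sub_div]
  ring

/-- In terms of the potential kernel. -/
theorem sol_pot (hκ : κ.Ok) (hm : κ.Sol m) (hs : 0 < s.re) (hs1 : s ∈ κ.Sec) : ∃ t : ℂ,
    (∀ x, m s x = κ.srcs s (fun w => κ.GG s w x) - κ.dfc s (m s) (fun w => κ.GG s w x) -
      t * κ.pot s x) ∧
    t * κ.gam s = κ.srcs s (κ.pot s) - κ.dfc s (m s) (κ.pot s) := by
  have _ := hs1
  obtain ⟨k, hk⟩ := sol_grn hκ hm hs
  obtain ⟨C, hC⟩ := grn_bd hκ hs
  obtain ⟨K, hK⟩ := hm.growth
  have hg := sg_split hκ hs
  have hp : ∀ x, κ.pot s x = κ.gam s - κ.grn s x := fun x => by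
    rw [hg]
    ring
  have hpn : ∀ x, κ.pot s (-x) = κ.pot s x := fun x => by
    rw [hp, hp, grn_neg]
  have hp0 : κ.pot s 0 = 0 := pot_zero s
  have hB : ∀ x, ‖κ.pot s x‖ ≤ ‖κ.gam s‖ + C := fun x => by
    rw [hp]
    exact (norm_sub_le _ _).trans (add_le_add le_rfl (hC x))
  -- linear functionals
  have hE := sg_eh hκ hs
  have hJ := sg_ej hκ hs (hK s hs)
  have lin : ∀ {I : Type} {c : I → ℂ} (t : I → ℤ × ℤ) (_ : Summable fun h => ‖c h‖) (x : ℤ × ℤ),
      (∑' h, c h * κ.grn s (t h - x) = (∑' h, c h) * κ.gam s - ∑' h, c h * κ.pot s (t h - x)) ∧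
      (∑' h, c h * κ.GG s (t h) x = (∑' h, c h * κ.pot s (t h)) + (∑' h, c h) * κ.pot s x -
        ∑' h, c h * κ.pot s (t h - x)) := by
    intro I c t hc x
    have h0 : Summable c := hc.of_norm
    have hsum : ∀ y : I → ℤ × ℤ, Summable fun h => c h * κ.pot s (y h) := fun y => by
      refine Summable.of_norm_bounded (hc.mul_right (‖κ.gam s‖ + C)) fun h => ?_
      rw [norm_mul]
      exact mul_le_mul_of_nonneg_left (hB _) (norm_nonneg _)
    constructor
    · have h1 := (h0.hasSum.mul_right (κ.gam s)).sub (hsum fun h => t h - x).hasSum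
      refine (h1.congr_fun fun h => ?_).tsum_eq
      rw [hg]
      ring
    · have h1 := ((hsum t).hasSum.add (h0.hasSum.mul_right (κ.pot s x))).sub
        (hsum fun h => t h - x).hasSum
      refine (h1.congr_fun fun h => ?_).tsum_eq
      unfold Mdl.GG
      rw [← hpn (x - t h), neg_sub]
      ring
  obtain ⟨σ, hσ⟩ : ∃ σ, σ = ∑' h, κ.eh s h := ⟨_, rfl⟩
  obtain ⟨δ, hδ⟩ : ∃ δ, δ = ∑' j, κ.ej s j * m s (κ.js j) := ⟨_, rfl⟩
  have key : ∀ x, m s x = (σ - δ - k) * κ.gam s - (κ.srcs s fun w => κ.pot s (w - x)) +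
      (κ.dfc s (m s) fun w => κ.pot s (w - x)) + k * κ.pot s x := by
    intro x
    have h1 := (lin κ.ht hE x).1
    have h2 := (lin κ.jt hJ x).1
    rw [← hσ] at h1
    rw [← hδ] at h2
    have h3 := hk x
    have h4 := hg x
    unfold Mdl.srcs Mdl.dfc at h3 ⊢
    rw [h3, h1, h2, h4]
    ring
  have h0 := key 0
  rw [hm.zero, hp0] at h0
  simp only [sub_zero] at h0
  refine ⟨σ - δ - k, fun x => ?_, ?_⟩
  · have h1 := (lin κ.ht hE x).2
    have h2 := (lin κ.jt hJ x).2
    rw [← hσ] at h1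
    rw [← hδ] at h2
    have h3 := key x
    unfold Mdl.srcs Mdl.dfc at h0 h3 ⊢
    rw [h3, h1, h2]
    linear_combination -h0
  · linear_combination -h0

end Pool.Agent.KAsym
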