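import Pool.Agent.KAsym.Trig

/-! KA2: the symbol near the singularity. -/

set_option autoImplicit false

open Complex MeasureTheory Set

namespace Pool.Agent.KAsym

open Pool.Agent.KLog (nrm nsq rt)

variable {R J H : Type} {κ : Mdl R J H} {s : ℂ}

private theorem two_pow_one_le (n : ℕ) : (1 : ℝ) ≤ 2 ^ n := one_le_pow₀ (by norm_num)

private theorem rc_le (hκ : κ.Ok) (r : R) : κ.rc r ≤ κ.rc r * 2 ^ κ.rn r * om (κ.ru r) := by
  have h1 := hκ.rc_nn r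
  have h2 := two_pow_one_le (κ.rn r)
  have h3 := one_le_om (κ.ru r)
  have h4 : κ.rc r ≤ κ.rc r * 2 ^ κ.rn r := le_mul_of_one_le_right h1 h2
  exact h4.trans (le_mul_of_one_le_right (h1.trans h4) h3)

theorem rc_summable (hκ : κ.Ok) : Summable κ.rc :=
  Summable.of_nonneg_of_le hκ.rc_nn (rc_le hκ) hκ.r_summable

private theorem rc_sum_le (hκ : κ.Ok) : ∑' r, κ.rc r ≤ κ.z / 1000 :=
  ((rc_summable hκ).tsum_le_tsum (rc_le hκ) hκ.r_summable).trans hκ.r_le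

theorem q_bd (hκ : κ.Ok) : 99 / 100 ≤ κ.q ∧ κ.q ≤ 1 := by
  have h1 := hκ.crit
  have h2 := rc_sum_le hκ
  have h3 : 0 ≤ ∑' r, κ.rc r := tsum_nonneg hκ.rc_nn
  have h4 := hκ.z_pos
  have h5 := hκ.z_le
  have h6 := hκ.q_pos
  have h7 : κ.q ≤ 1 := by
    have : 0 ≤ κ.q * (8 * κ.z) := by positivity
    nlinarith
  refine ⟨?_, h7⟩
  have h8 : κ.q * (8 * κ.z) ≤ 1 * (8 * κ.z) := mul_le_mul_of_nonneg_right h7 (by linarith)
  have h9 : (1 : ℝ) / 10 ^ 12 ≤ 1 / 10000 := by norm_num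
  nlinarith

theorem sec_sub : κ.Sec ⊆ κ.Sec0 := fun _ hs => ⟨hs.2.1, hs.2.2.le⟩

theorem zero_mem_sec0 (hκ : κ.Ok) : (0 : ℂ) ∈ κ.Sec0 := by
  refine ⟨?_, ?_⟩
  · rw [norm_zero]
    have := hκ.z_pos
    linarith
  · simp

theorem isOpen_sec : IsOpen κ.Sec := by
  have h1 : IsOpen {s : ℂ | s ≠ 0} := isOpen_ne
  have h2 : IsOpen {s : ℂ | ‖s‖ < 40 * κ.z} := isOpen_lt continuous_norm continuous_const
  have h3 : IsOpen {s : ℂ | -‖s‖ / 2 < s.re} :=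
    isOpen_lt (by fun_prop) Complex.continuous_re
  exact h1.inter (h2.inter h3)

/-- A small number. -/
theorem sec0_small (hκ : κ.Ok) (hs : s ∈ κ.Sec0) : ‖s‖ ≤ 1 / 10 ^ 10 := by
  have h1 := hs.1
  have h2 := hκ.z_le
  have h3 : (40 : ℝ) * (1 / 10 ^ 12) ≤ 1 / 10 ^ 10 := by norm_num
  linarith

private theorem sec0_hund (hκ : κ.Ok) (hs : s ∈ κ.Sec0) : ‖s‖ ≤ 1 / 100 :=
  (sec0_small hκ hs).trans (by norm_num)

theorem F_zero (hκ : κ.Ok) : κ.F 0 0 = 1 := by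
  have h1 := hκ.crit
  have h2 : (∑' r, (κ.rc r : ℂ) * exp (-κ.rn r * 0) *
      (Real.cos (dot 0 (κ.ru r)) : ℂ)) = ((∑' r, κ.rc r : ℝ) : ℂ) := by
    rw [Complex.ofReal_tsum]
    refine tsum_congr fun r => ?_
    have h3 : dot 0 (κ.ru r) = 0 := by simp [dot]
    rw [h3]
    simp
  unfold Mdl.F
  rw [h2]
  have h4 : ((κ.q * (1 + 8 * κ.z) + ∑' r, κ.rc r : ℝ) : ℂ) = 1 := by
    rw [h1]
    simp
  push_cast at h4
  simp only [mul_zero, neg_zero, exp_zero, mul_one, Prod.fst_zero, Prod.snd_zero, Real.cos_zero]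
  push_cast
  linear_combination h4

/-- The terms of the sum. -/
private theorem sym_terms (hκ : κ.Ok) (hs : ‖s‖ ≤ 1 / 100) (θ : ℝ × ℝ) :
    ∃ f₁ f₂ : ℂ, ‖f₁‖ ≤ κ.z / 1000 * ‖s‖ ∧ ‖f₂‖ ≤ κ.z / 1000 * (2 * NN θ) ∧
      (∑' r, κ.rc r * exp (-κ.rn r * s) * (Real.cos (dot θ (κ.ru r)) : ℂ)) =
        ((∑' r, κ.rc r : ℝ) : ℂ) - f₁ - f₂ := by
  have hW := hκ.r_summable
  have hb₁ : ∀ r, ‖(κ.rc r : ℂ) * (1 - exp (-κ.rn r * s))‖ ≤
      κ.rc r * 2 ^ κ.rn r * om (κ.ru r) * ‖s‖ := by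
    intro r
    have h1 := hκ.rc_nn r
    have h2 := exp_lip (n := κ.rn r) hs
    have h3 := one_le_om (κ.ru r)
    rw [norm_mul, Complex.norm_real, Real.norm_of_nonneg h1, norm_sub_rev]
    calc κ.rc r * ‖exp (-κ.rn r * s) - 1‖ ≤ κ.rc r * (2 ^ κ.rn r * ‖s‖) :=
          mul_le_mul_of_nonneg_left h2 h1
      _ = κ.rc r * 2 ^ κ.rn r * 1 * ‖s‖ := by ring
      _ ≤ κ.rc r * 2 ^ κ.rn r * om (κ.ru r) * ‖s‖ := by
          refine mul_le_mul_of_nonneg_right (mul_le_mul_of_nonneg_left h3 ?_) (norm_nonneg _)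
          positivity
  have hb₂ : ∀ r, ‖(κ.rc r : ℂ) * exp (-κ.rn r * s) *
      ((1 - Real.cos (dot θ (κ.ru r)) : ℝ) : ℂ)‖ ≤
      κ.rc r * 2 ^ κ.rn r * om (κ.ru r) * (2 * NN θ) := by
    intro r
    have h1 := hκ.rc_nn r
    have h2 := exp_bd (n := κ.rn r) hs
    have h3 := one_sub_cos_dot_le θ (κ.ru r)
    have h4 := nrm_sq_le_om (κ.ru r)
    have h5 := NN_nonneg θ
    have h6 : 0 ≤ 1 - Real.cos (dot θ (κ.ru r)) := by
      have := Real.cos_le_one (dot θ (κ.ru r))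
      linarith
    have h7 : 1 - Real.cos (dot θ (κ.ru r)) ≤ om (κ.ru r) * (2 * NN θ) := by
      refine h3.trans ?_
      have := mul_le_mul_of_nonneg_right h4 (show 0 ≤ 2 * NN θ by linarith)
      linarith
    rw [norm_mul, norm_mul, Complex.norm_real, Complex.norm_real, Real.norm_of_nonneg h1,
      Real.norm_of_nonneg h6]
    calc κ.rc r * ‖exp (-κ.rn r * s)‖ * (1 - Real.cos (dot θ (κ.ru r)))
        ≤ κ.rc r * 2 ^ κ.rn r * (om (κ.ru r) * (2 * NN θ)) :=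
          mul_le_mul (mul_le_mul_of_nonneg_left h2 h1) h7 h6 (by positivity)
      _ = κ.rc r * 2 ^ κ.rn r * om (κ.ru r) * (2 * NN θ) := by ring
  have hs₁ : Summable fun r => (κ.rc r : ℂ) * (1 - exp (-κ.rn r * s)) :=
    Summable.of_norm_bounded (hW.mul_right ‖s‖) hb₁
  have hs₂ : Summable fun r => (κ.rc r : ℂ) * exp (-κ.rn r * s) *
      ((1 - Real.cos (dot θ (κ.ru r)) : ℝ) : ℂ) :=
    Summable.of_norm_bounded (hW.mul_right (2 * NN θ)) hb₂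
  have hs₀ : Summable fun r => (κ.rc r : ℂ) := Complex.ofRealCLM.summable (rc_summable hκ)
  refine ⟨∑' r, (κ.rc r : ℂ) * (1 - exp (-κ.rn r * s)), ∑' r, (κ.rc r : ℂ) *
    exp (-κ.rn r * s) * ((1 - Real.cos (dot θ (κ.ru r)) : ℝ) : ℂ), ?_, ?_, ?_⟩
  · refine (tsum_of_norm_bounded (hW.mul_right ‖s‖).hasSum hb₁).trans ?_
    rw [tsum_mul_right]
    exact mul_le_mul_of_nonneg_right hκ.r_le (norm_nonneg _)
  · refine (tsum_of_norm_bounded (hW.mul_right (2 * NN θ)).hasSum hb₂).trans ?_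
    rw [tsum_mul_right]
    exact mul_le_mul_of_nonneg_right hκ.r_le (by have := NN_nonneg θ; linarith)
  · rw [Complex.ofReal_tsum, ← hs₀.tsum_sub hs₁, ← (hs₀.sub hs₁).tsum_sub hs₂]
    refine tsum_congr fun r => ?_
    push_cast
    ring

/-- The main part and the error. -/
private theorem sym_main (hκ : κ.Ok) (hs : s ∈ κ.Sec0) (θ : ℝ × ℝ) :
    ∃ e : ℂ, ‖e‖ ≤ 1 / 1000 * ‖s‖ + κ.z / 500 * NN θ ∧
      1 - κ.F s θ = 2 * κ.q * s + ((4 * κ.q * κ.z * NN θ : ℝ) : ℂ) + e := by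
  have hs' := sec0_hund hκ hs
  obtain ⟨f₁, f₂, h1, h2, h3⟩ := sym_terms hκ hs' θ
  obtain ⟨hq1, hq2⟩ := q_bd hκ
  have hz := hκ.z_pos
  have hz' := hκ.z_le
  have hN := NN_nonneg θ
  have hN' := NN_le θ
  have e2 := exp_quad (n := 2) hs'
  have e3 := exp_lip (n := 3) hs'
  simp only [Nat.cast_ofNat] at e2 e3
  have hc : ((κ.q * (1 + 8 * κ.z) + ∑' r, κ.rc r : ℝ) : ℂ) = 1 := by
    rw [hκ.crit]
    simp
  push_cast at hc
  have h33 : exp (-3 * s) = exp (-2 * s) * exp (-s) := by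
    rw [← exp_add]
    congr 1
    ring
  have hNN : ((Real.cos θ.1 + Real.cos θ.2 : ℝ) : ℂ) = 2 - ((NN θ : ℝ) : ℂ) := by
    unfold NN
    push_cast
    ring
  refine ⟨-κ.q * (exp (-2 * s) - 1 + 2 * s) - 8 * κ.q * κ.z * (exp (-3 * s) - 1) +
    4 * κ.q * κ.z * NN θ * (exp (-3 * s) - 1) + f₁ + f₂, ?_, ?_⟩
  · have hq0 : ‖(κ.q : ℂ)‖ ≤ 1 := by
      rw [Complex.norm_real, Real.norm_of_nonneg (by linarith)]
      exact hq2
    have n1 : ‖-(κ.q : ℂ) * (exp (-2 * s) - 1 + 2 * s)‖ ≤ 160 * κ.z * ‖s‖ := by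
      rw [norm_mul, norm_neg]
      have h4 : ‖exp (-2 * s) - 1 + 2 * s‖ ≤ 160 * κ.z * ‖s‖ := by
        refine e2.trans ?_
        have := mul_le_mul_of_nonneg_right hs.1.le (norm_nonneg s)
        nlinarith
      calc ‖(κ.q : ℂ)‖ * ‖exp (-2 * s) - 1 + 2 * s‖ ≤ 1 * (160 * κ.z * ‖s‖) :=
            mul_le_mul hq0 h4 (norm_nonneg _) zero_le_one
        _ = 160 * κ.z * ‖s‖ := one_mul _
    have n2 : ‖8 * (κ.q : ℂ) * κ.z * (exp (-3 * s) - 1)‖ ≤ 64 * κ.z * ‖s‖ := by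
      rw [norm_mul, norm_mul, norm_mul, Complex.norm_real κ.z, Real.norm_of_nonneg hz.le]
      have h4 : ‖(8 : ℂ)‖ * ‖(κ.q : ℂ)‖ * κ.z ≤ 8 * 1 * κ.z := by
        refine mul_le_mul_of_nonneg_right (mul_le_mul (by simp) hq0 (norm_nonneg _) (by norm_num))
          hz.le
      have h5 : ‖exp (-3 * s) - 1‖ ≤ 8 * ‖s‖ := e3.trans (by norm_num)
      calc ‖(8 : ℂ)‖ * ‖(κ.q : ℂ)‖ * κ.z * ‖exp (-3 * s) - 1‖ ≤ 8 * 1 * κ.z * (8 * ‖s‖) :=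
            mul_le_mul h4 h5 (norm_nonneg _) (by linarith)
        _ = 64 * κ.z * ‖s‖ := by ring
    have n3 : ‖4 * (κ.q : ℂ) * κ.z * NN θ * (exp (-3 * s) - 1)‖ ≤ 128 * κ.z * ‖s‖ := by
      rw [norm_mul, norm_mul, norm_mul, norm_mul, Complex.norm_real κ.z,
        Real.norm_of_nonneg hz.le, Complex.norm_real (NN θ), Real.norm_of_nonneg hN]
      have h4 : ‖(4 : ℂ)‖ * ‖(κ.q : ℂ)‖ * κ.z ≤ 4 * 1 * κ.z := by
        refine mul_le_mul_of_nonneg_right (mul_le_mul (by simp) hq0 (norm_nonneg _) (by norm_num))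
          hz.le
      have h6 : ‖(4 : ℂ)‖ * ‖(κ.q : ℂ)‖ * κ.z * NN θ ≤ 4 * 1 * κ.z * 4 :=
        mul_le_mul h4 hN' hN (by linarith)
      have h5 : ‖exp (-3 * s) - 1‖ ≤ 8 * ‖s‖ := e3.trans (by norm_num)
      calc ‖(4 : ℂ)‖ * ‖(κ.q : ℂ)‖ * κ.z * NN θ * ‖exp (-3 * s) - 1‖
          ≤ 4 * 1 * κ.z * 4 * (8 * ‖s‖) :=
            mul_le_mul h6 h5 (norm_nonneg _) (by linarith)
        _ = 128 * κ.z * ‖s‖ := by ring
    have hn := norm_nonneg s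
    have hzs : κ.z * ‖s‖ ≤ 1 / 10 ^ 12 * ‖s‖ := mul_le_mul_of_nonneg_right hz' hn
    calc ‖-(κ.q : ℂ) * (exp (-2 * s) - 1 + 2 * s) - 8 * κ.q * κ.z * (exp (-3 * s) - 1) +
          4 * κ.q * κ.z * NN θ * (exp (-3 * s) - 1) + f₁ + f₂‖
        ≤ 160 * κ.z * ‖s‖ + 64 * κ.z * ‖s‖ + 128 * κ.z * ‖s‖ + κ.z / 1000 * ‖s‖ +
          κ.z / 1000 * (2 * NN θ) := by
          refine (norm_add_le _ _).trans (add_le_add ?_ h2)
          refine (norm_add_le _ _).trans (add_le_add ?_ h1)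
          refine (norm_add_le _ _).trans (add_le_add ?_ n3)
          exact (norm_sub_le _ _).trans (add_le_add n1 n2)
      _ ≤ 1 / 1000 * ‖s‖ + κ.z / 500 * NN θ := by
          nlinarith
  · unfold Mdl.F
    rw [h3, hNN]
    push_cast
    linear_combination (-1 : ℂ) * hc + 4 * (κ.q : ℂ) * κ.z * (2 - ((NN θ : ℝ) : ℂ)) * h33

private theorem norm_main (a b : ℝ) (ha : 0 ≤ a) (hb : 0 ≤ b) (hs : -‖s‖ / 2 ≤ s.re) :
    (a * ‖s‖ + b) / 2 ≤ ‖(a : ℂ) * s + b‖ := by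
  have h1 : ‖(a : ℂ) * s + b‖ ^ 2 = (a * ‖s‖) ^ 2 + 2 * a * b * s.re + b ^ 2 := by
    rw [← Complex.normSq_eq_norm_sq, Complex.normSq_apply, mul_pow, ← Complex.normSq_eq_norm_sq s,
      Complex.normSq_apply]
    simp
    ring
  have h2 : ((a * ‖s‖ + b) / 2) ^ 2 ≤ ‖(a : ℂ) * s + b‖ ^ 2 := by
    rw [h1]
    have h3 : 0 ≤ 2 * a * b := by positivity
    nlinarith [mul_le_mul_of_nonneg_left hs h3, sq_nonneg (a * ‖s‖ - b)]
  exact le_of_sq_le_sq h2 (norm_nonneg _)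

/-- **The lower bound for the symbol.** -/
theorem sym_low (hκ : κ.Ok) (hs : s ∈ κ.Sec0) (θ : ℝ × ℝ) :
    98 / 100 * (‖s‖ + 2 * κ.z * NN θ) ≤ ‖1 - κ.F s θ‖ := by
  obtain ⟨e, h1, h2⟩ := sym_main hκ hs θ
  obtain ⟨hq1, hq2⟩ := q_bd hκ
  have hz := hκ.z_pos
  have hN := NN_nonneg θ
  have hzN : 0 ≤ κ.z * NN θ := mul_nonneg hz.le hN
  have hn := norm_nonneg s
  have h3 := norm_main (s := s) (2 * κ.q) (4 * κ.q * κ.z * NN θ) (by linarith)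
    (by have : 0 ≤ κ.q := by linarith
        positivity) hs.2
  have h4 : ‖1 - κ.F s θ‖ ≥ ‖((2 * κ.q : ℝ) : ℂ) * s + ((4 * κ.q * κ.z * NN θ : ℝ) : ℂ)‖ - ‖e‖ := by
    rw [h2]
    have h5 := norm_sub_le (2 * κ.q * s + ((4 * κ.q * κ.z * NN θ : ℝ) : ℂ) + e) e
    rw [add_sub_cancel_right] at h5
    have h6 : ((2 * κ.q : ℝ) : ℂ) = 2 * κ.q := by push_cast; ring
    rw [h6]
    linarith
  have h7 : 99 / 100 * (‖s‖ + 2 * κ.z * NN θ) ≤ κ.q * (‖s‖ + 2 * κ.z * NN θ) :=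
    mul_le_mul_of_nonneg_right hq1 (by nlinarith)
  nlinarith

theorem sym_upp (hκ : κ.Ok) (hs : s ∈ κ.Sec0) (θ : ℝ × ℝ) :
    ‖1 - κ.F s θ‖ ≤ 21 / 10 * (‖s‖ + 2 * κ.z * NN θ) := by
  obtain ⟨e, h1, h2⟩ := sym_main hκ hs θ
  obtain ⟨hq1, hq2⟩ := q_bd hκ
  have hz := hκ.z_pos
  have hN := NN_nonneg θ
  have hzN : 0 ≤ κ.z * NN θ := mul_nonneg hz.le hN
  have hn := norm_nonneg s
  have hq0 : 0 ≤ κ.q := by linarith
  have h3 : ‖2 * κ.q * s + ((4 * κ.q * κ.z * NN θ : ℝ) : ℂ)‖ ≤ 2 * κ.q * ‖s‖ +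
      4 * κ.q * κ.z * NN θ := by
    refine (norm_add_le _ _).trans (add_le_add ?_ ?_)
    · rw [norm_mul, norm_mul, Complex.norm_real, Real.norm_of_nonneg hq0]
      simp
    · rw [Complex.norm_real, Real.norm_of_nonneg (by positivity)]
  have h4 : κ.q * (‖s‖ + 2 * κ.z * NN θ) ≤ 1 * (‖s‖ + 2 * κ.z * NN θ) :=
    mul_le_mul_of_nonneg_right hq2 (by nlinarith)
  rw [h2]
  refine (norm_add_le _ _).trans ?_
  nlinarith

/-- The real part in the direction of `1 + s / |s|`. -/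
theorem sym_re (hκ : κ.Ok) (hs : s ∈ κ.Sec) (θ : ℝ × ℝ) :
    96 / 100 * (‖s‖ + 2 * κ.z * NN θ) ≤
      ((1 + (starRingEnd ℂ) s / ‖s‖) * (1 - κ.F s θ)).re := by
  obtain ⟨e, h1, h2⟩ := sym_main hκ (sec_sub hs) θ
  obtain ⟨hq1, hq2⟩ := q_bd hκ
  have hz := hκ.z_pos
  have hN := NN_nonneg θ
  have hzN : 0 ≤ κ.z * NN θ := mul_nonneg hz.le hN
  have hn : 0 < ‖s‖ := norm_pos_iff.2 hs.1
  have hn' : (‖s‖ : ℂ) ≠ 0 := by
    rw [Ne, Complex.ofReal_eq_zero]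
    exact hn.ne'
  have hq0 : 0 ≤ κ.q := by linarith
  set p : ℂ := 1 + (starRingEnd ℂ) s / ‖s‖ with hp
  have hps : p * s = s + ‖s‖ := by
    rw [hp, add_mul, one_mul, div_mul_eq_mul_div, mul_comm ((starRingEnd ℂ) s) s,
      Complex.mul_conj, Complex.normSq_eq_norm_sq]
    congr 1
    push_cast
    field_simp
  have hpre : p.re = 1 + s.re / ‖s‖ := by
    rw [hp, Complex.add_re, Complex.one_re, Complex.div_ofReal_re, Complex.conj_re]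
  have hpre2 : 1 / 2 ≤ p.re := by
    rw [hpre]
    have h3 : -(1 / 2) ≤ s.re / ‖s‖ := by
      rw [le_div_iff₀ hn]
      have := hs.2.2
      linarith
    linarith
  have hpn : ‖p‖ ≤ 2 := by
    rw [hp]
    refine (norm_add_le _ _).trans ?_
    rw [norm_div, RCLike.norm_conj, Complex.norm_real, Real.norm_of_nonneg hn.le,
      div_self hn.ne', norm_one]
    norm_num
  have hpe : -(2 * ‖e‖) ≤ (p * e).re := by
    have h3 := Complex.abs_re_le_norm (p * e)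
    rw [norm_mul] at h3
    have h4 := mul_le_mul_of_nonneg_right hpn (norm_nonneg e)
    have h5 := (abs_le.1 h3).1
    linarith
  have h6 : (p * (1 - κ.F s θ)).re = 2 * κ.q * (s.re + ‖s‖) + 4 * κ.q * κ.z * NN θ * p.re +
      (p * e).re := by
    rw [h2]
    have h7 : p * (2 * κ.q * s + ((4 * κ.q * κ.z * NN θ : ℝ) : ℂ) + e) =
        ((2 * κ.q : ℝ) : ℂ) * (p * s) + ((4 * κ.q * κ.z * NN θ : ℝ) : ℂ) * p + p * e := by
      push_cast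
      ring
    rw [h7, hps, Complex.add_re, Complex.add_re, Complex.re_ofReal_mul, Complex.re_ofReal_mul,
      Complex.add_re, Complex.ofReal_re]
  rw [h6]
  have h8 : ‖s‖ / 2 ≤ s.re + ‖s‖ := by
    have := hs.2.2
    linarith
  have h9 : κ.q * ‖s‖ ≤ 2 * κ.q * (s.re + ‖s‖) := by
    have := mul_le_mul_of_nonneg_left h8 hq0
    linarith
  have h10 : 2 * κ.q * κ.z * NN θ ≤ 4 * κ.q * κ.z * NN θ * p.re := by
    have h11 : 0 ≤ 4 * κ.q * κ.z * NN θ := by positivity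
    have := mul_le_mul_of_nonneg_left hpre2 h11
    linarith
  have h7 : 99 / 100 * (‖s‖ + 2 * κ.z * NN θ) ≤ κ.q * (‖s‖ + 2 * κ.z * NN θ) :=
    mul_le_mul_of_nonneg_right hq1 (by nlinarith)
  nlinarith

theorem sym_lip (hκ : κ.Ok) (hs : s ∈ κ.Sec0) (θ : ℝ × ℝ) :
    ‖κ.F s θ - κ.F 0 θ‖ ≤ 3 * ‖s‖ := by
  have hs' := sec0_hund hκ hs
  obtain ⟨hq1, hq2⟩ := q_bd hκ
  have hz := hκ.z_pos
  have hz' := hκ.z_le
  have hn := norm_nonneg s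
  have e2 := exp_quad (n := 2) hs'
  have e3 := exp_lip (n := 3) hs'
  simp only [Nat.cast_ofNat] at e2 e3
  have hq0 : ‖(κ.q : ℂ)‖ ≤ 1 := by
    rw [Complex.norm_real, Real.norm_of_nonneg (by linarith)]
    exact hq2
  have hW := hκ.r_summable
  have hcos : ∀ t : ℝ, ‖((Real.cos t : ℝ) : ℂ)‖ ≤ 1 := fun t => by
    rw [Complex.norm_real, Real.norm_eq_abs]
    exact Real.abs_cos_le_one t
  have hb : ∀ r, ‖(κ.rc r : ℂ) * (exp (-κ.rn r * s) - 1) *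
      ((Real.cos (dot θ (κ.ru r)) : ℝ) : ℂ)‖ ≤
      κ.rc r * 2 ^ κ.rn r * om (κ.ru r) * ‖s‖ := by
    intro r
    have h1 := hκ.rc_nn r
    have h2 := exp_lip (n := κ.rn r) hs'
    have h3 := one_le_om (κ.ru r)
    rw [norm_mul, norm_mul, Complex.norm_real (κ.rc r), Real.norm_of_nonneg h1]
    calc κ.rc r * ‖exp (-κ.rn r * s) - 1‖ * ‖((Real.cos (dot θ (κ.ru r)) : ℝ) : ℂ)‖
        ≤ κ.rc r * (2 ^ κ.rn r * ‖s‖) * 1 :=
          mul_le_mul (mul_le_mul_of_nonneg_left h2 h1) (hcos _) (norm_nonneg _) (by positivity)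
      _ = κ.rc r * 2 ^ κ.rn r * 1 * ‖s‖ := by ring
      _ ≤ κ.rc r * 2 ^ κ.rn r * om (κ.ru r) * ‖s‖ := by
          refine mul_le_mul_of_nonneg_right (mul_le_mul_of_nonneg_left h3 ?_) (norm_nonneg _)
          positivity
  have hsum : ∀ w : ℂ, ‖w‖ ≤ 1 / 100 → Summable fun r => (κ.rc r : ℂ) * exp (-κ.rn r * w) *
      ((Real.cos (dot θ (κ.ru r)) : ℝ) : ℂ) := by
    intro w hw
    refine Summable.of_norm_bounded hW fun r => ?_
    have h1 := hκ.rc_nn r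
    have h2 := exp_bd (n := κ.rn r) hw
    have h3 := one_le_om (κ.ru r)
    rw [norm_mul, norm_mul, Complex.norm_real (κ.rc r), Real.norm_of_nonneg h1]
    calc κ.rc r * ‖exp (-κ.rn r * w)‖ * ‖((Real.cos (dot θ (κ.ru r)) : ℝ) : ℂ)‖
        ≤ κ.rc r * 2 ^ κ.rn r * 1 :=
          mul_le_mul (mul_le_mul_of_nonneg_left h2 h1) (hcos _) (norm_nonneg _) (by positivity)
      _ ≤ κ.rc r * 2 ^ κ.rn r * om (κ.ru r) :=
          mul_le_mul_of_nonneg_left h3 (by positivity)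
  have h33 : exp (-3 * s) = exp (-2 * s) * exp (-s) := by
    rw [← exp_add]
    congr 1
    ring
  have hdec : κ.F s θ - κ.F 0 θ = κ.q * (exp (-2 * s) - 1) +
      4 * κ.q * κ.z * ((Real.cos θ.1 : ℝ) + (Real.cos θ.2 : ℝ)) * (exp (-3 * s) - 1) +
      ∑' r, (κ.rc r : ℂ) * (exp (-κ.rn r * s) - 1) *
        ((Real.cos (dot θ (κ.ru r)) : ℝ) : ℂ) := by
    have h4 : (∑' r, (κ.rc r : ℂ) * (exp (-κ.rn r * s) - 1) *
        ((Real.cos (dot θ (κ.ru r)) : ℝ) : ℂ)) =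
        (∑' r, κ.rc r * exp (-κ.rn r * s) * (Real.cos (dot θ (κ.ru r)) : ℂ)) -
        ∑' r, κ.rc r * exp (-κ.rn r * 0) * (Real.cos (dot θ (κ.ru r)) : ℂ) := by
      rw [← (hsum s hs').tsum_sub (hsum 0 (by simp))]
      refine tsum_congr fun r => ?_
      simp only [mul_zero, exp_zero]
      ring
    rw [h4]
    unfold Mdl.F
    simp only [mul_zero, neg_zero, exp_zero]
    push_cast
    linear_combination
      (-4 : ℂ) * κ.q * κ.z * (Complex.cos θ.1 + Complex.cos θ.2) * h33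
  rw [hdec]
  have n1 : ‖(κ.q : ℂ) * (exp (-2 * s) - 1)‖ ≤ 21 / 10 * ‖s‖ := by
    rw [norm_mul]
    have h4 : ‖exp (-2 * s) - 1‖ ≤ 21 / 10 * ‖s‖ := by
      have h5 : exp (-2 * s) - 1 = (exp (-2 * s) - 1 + 2 * s) - 2 * s := by ring
      rw [h5]
      refine (norm_sub_le _ _).trans ?_
      rw [norm_mul]
      have h6 : ‖(2 : ℂ)‖ = 2 := by simp
      rw [h6]
      have h7 := mul_le_mul_of_nonneg_right hs' hn
      nlinarith
    calc ‖(κ.q : ℂ)‖ * ‖exp (-2 * s) - 1‖ ≤ 1 * (21 / 10 * ‖s‖) :=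
          mul_le_mul hq0 h4 (norm_nonneg _) zero_le_one
      _ = 21 / 10 * ‖s‖ := one_mul _
  have n2 : ‖4 * (κ.q : ℂ) * κ.z * ((Real.cos θ.1 : ℝ) + (Real.cos θ.2 : ℝ)) *
      (exp (-3 * s) - 1)‖ ≤ 64 * κ.z * ‖s‖ := by
    rw [norm_mul, norm_mul, norm_mul, norm_mul, Complex.norm_real κ.z,
      Real.norm_of_nonneg hz.le]
    have h4 : ‖(4 : ℂ)‖ * ‖(κ.q : ℂ)‖ * κ.z ≤ 4 * 1 * κ.z := by
      refine mul_le_mul_of_nonneg_right (mul_le_mul (by simp) hq0 (norm_nonneg _) (by norm_num))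
        hz.le
    have h5 : ‖exp (-3 * s) - 1‖ ≤ 8 * ‖s‖ := e3.trans (by norm_num)
    have h6 : ‖((Real.cos θ.1 : ℝ) : ℂ) + ((Real.cos θ.2 : ℝ) : ℂ)‖ ≤ 2 :=
      (norm_add_le _ _).trans (by have := hcos θ.1; have := hcos θ.2; linarith)
    have h7 : ‖(4 : ℂ)‖ * ‖(κ.q : ℂ)‖ * κ.z *
        ‖((Real.cos θ.1 : ℝ) : ℂ) + ((Real.cos θ.2 : ℝ) : ℂ)‖ ≤ 4 * 1 * κ.z * 2 :=
      mul_le_mul h4 h6 (norm_nonneg _) (by linarith)
    calc ‖(4 : ℂ)‖ * ‖(κ.q : ℂ)‖ * κ.z *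
        ‖((Real.cos θ.1 : ℝ) : ℂ) + ((Real.cos θ.2 : ℝ) : ℂ)‖ * ‖exp (-3 * s) - 1‖
        ≤ 4 * 1 * κ.z * 2 * (8 * ‖s‖) := mul_le_mul h7 h5 (norm_nonneg _) (by linarith)
      _ = 64 * κ.z * ‖s‖ := by ring
  have n3 : ‖∑' r, (κ.rc r : ℂ) * (exp (-κ.rn r * s) - 1) *
        ((Real.cos (dot θ (κ.ru r)) : ℝ) : ℂ)‖ ≤ κ.z / 1000 * ‖s‖ := by
    refine (tsum_of_norm_bounded (hW.mul_right ‖s‖).hasSum hb).trans ?_
    rw [tsum_mul_right]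
    exact mul_le_mul_of_nonneg_right hκ.r_le hn
  have hzs : κ.z * ‖s‖ ≤ 1 / 10 ^ 12 * ‖s‖ := mul_le_mul_of_nonneg_right hz' hn
  refine (norm_add_le _ _).trans ((add_le_add ((norm_add_le _ _).trans (add_le_add n1 n2))
    n3).trans ?_)
  nlinarith

end Pool.Agent.KAsym
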