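import Mathlib

/-! Transfer of a logarithmic singularity to the coefficients: definitions. -/

set_option autoImplicit false

open Complex MeasureTheory Set Filter Topology

namespace Pool.Agent.KAsym

/-- The sector. -/
def Sct (r : ℝ) : Set ℂ := {s | s ≠ 0 ∧ ‖s‖ < r ∧ -‖s‖ / 2 < s.re}

/-- The hypotheses of the transfer theorem. -/
structure Trf (a : ℕ → ℝ) (f : ℂ → ℂ) (r : ℝ) (A B c : ℂ) (C : ℝ) : Prop where
  summable : Summable a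
  nonneg : ∀ n, 0 ≤ a n
  r_pos : 0 < r
  r_le : r ≤ 1
  c_re : 1 ≤ c.re - Real.log r
  eq : ∀ s : ℂ, 0 < s.re → f s = ∑' n : ℕ, a n * exp (-n * s)
  ext : ∀ φ : ℝ, r / 2 ≤ |φ| → |φ| ≤ Real.pi → ∃ ε > 0, ∃ g : ℂ → ℂ,
    DifferentiableOn ℂ g (Metric.ball (φ * I) ε) ∧
      ∀ s ∈ Metric.ball (φ * I : ℂ) ε, 0 < s.re → g s = f s
  near : ∃ g : ℂ → ℂ, DifferentiableOn ℂ g (Sct r) ∧ (∀ s ∈ Sct r, 0 < s.re → g s = f s) ∧
    ∀ s ∈ Sct r, ‖g s - A + B / (c - log s)‖ ≤ C * √‖s‖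

/-- The second derivative of `- B / (c - log s)`. -/
noncomputable def mn2 (B c s : ℂ) : ℂ :=
  B / (s ^ 2 * (c - log s) ^ 2) - 2 * B / (s ^ 2 * (c - log s) ^ 3)

/-- The main integral. -/
noncomputable def mnI (B c : ℂ) (r : ℝ) (n : ℕ) : ℂ :=
  (2 * Real.pi : ℂ)⁻¹ * ∫ φ in (-(r / 2))..(r / 2),
    mn2 B c ((n : ℂ)⁻¹ + φ * I) * exp (n * φ * I)

end Pool.Agent.KAsym
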