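import Pool.Agent.KAsym.Defs

/-! KA1: elementary inequalities. -/

set_option autoImplicit false

open Complex MeasureTheory Set

namespace Pool.Agent.KAsym

open Pool.Agent.KLog (nrm nsq rt)

theorem NN_nonneg (θ : ℝ × ℝ) : 0 ≤ NN θ := by
  unfold NN
  linarith [Real.cos_le_one θ.1, Real.cos_le_one θ.2]

theorem NN_le (θ : ℝ × ℝ) : NN θ ≤ 4 := by
  unfold NN
  linarith [Real.neg_one_le_cos θ.1, Real.neg_one_le_cos θ.2]

theorem NN_le_sq (θ : ℝ × ℝ) : NN θ ≤ (θ.1 ^ 2 + θ.2 ^ 2) / 2 := by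
  unfold NN
  linarith [Real.one_sub_sq_div_two_le_cos (x := θ.1), Real.one_sub_sq_div_two_le_cos (x := θ.2)]

/-- `1 - cos t ≥ 2 t² / π²` for `|t| ≤ π`. -/
theorem NN_ge {θ : ℝ × ℝ} (h : θ ∈ box) : 2 / Real.pi ^ 2 * (θ.1 ^ 2 + θ.2 ^ 2) ≤ NN θ := by
  obtain ⟨h1, h2⟩ := h
  have e1 := Real.cos_le_one_sub_mul_cos_sq (abs_le.2 ⟨h1.1, h1.2⟩)
  have e2 := Real.cos_le_one_sub_mul_cos_sq (abs_le.2 ⟨h2.1, h2.2⟩)
  unfold NN
  rw [mul_add]
  linarith

theorem NN_pos {θ : ℝ × ℝ} (h : θ ∈ box) (h0 : θ ≠ 0) : 0 < NN θ := by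
  refine lt_of_lt_of_le ?_ (NN_ge h)
  have h1 : 0 < θ.1 ^ 2 + θ.2 ^ 2 := by
    by_contra hc
    have h2 := sq_nonneg θ.1
    have h3 := sq_nonneg θ.2
    have h4 : θ.1 = 0 := by
      have : θ.1 ^ 2 = 0 := by linarith
      exact pow_eq_zero_iff (two_ne_zero) |>.1 this
    have h5 : θ.2 = 0 := by
      have : θ.2 ^ 2 = 0 := by linarith
      exact pow_eq_zero_iff (two_ne_zero) |>.1 this
    exact h0 (Prod.ext h4 h5)
  have h2 : 0 < 2 / Real.pi ^ 2 := by positivity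
  exact mul_pos h2 h1

private theorem ka1_sin_nat (u : ℝ) (k : ℕ) : |Real.sin (k * u)| ≤ k * |Real.sin u| := by
  induction k with
  | zero => simp
  | succ k ih =>
    have h1 : ((k + 1 : ℕ) : ℝ) * u = k * u + u := by push_cast; ring
    rw [h1, Real.sin_add]
    calc |Real.sin (k * u) * Real.cos u + Real.cos (k * u) * Real.sin u|
        ≤ |Real.sin (k * u) * Real.cos u| + |Real.cos (k * u) * Real.sin u| := abs_add_le _ _
      _ = |Real.sin (k * u)| * |Real.cos u| + |Real.cos (k * u)| * |Real.sin u| := by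
          rw [abs_mul, abs_mul]
      _ ≤ |Real.sin (k * u)| * 1 + 1 * |Real.sin u| := by
          gcongr
          · exact Real.abs_cos_le_one u
          · exact Real.abs_cos_le_one _
      _ ≤ k * |Real.sin u| * 1 + 1 * |Real.sin u| := by gcongr
      _ = ((k + 1 : ℕ) : ℝ) * |Real.sin u| := by push_cast; ring

private theorem ka1_cos_eq (t : ℝ) : 1 - Real.cos t = 2 * Real.sin (t / 2) ^ 2 := by
  rw [Real.sin_sq_eq_half_sub]
  ring_nf

private theorem ka1_cos_int (t : ℝ) (k : ℤ) :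
    1 - Real.cos (t * k) ≤ (k.natAbs : ℝ) ^ 2 * (1 - Real.cos t) := by
  have h0 : Real.cos (t * k) = Real.cos (k.natAbs * t) := by
    have h : ((k.natAbs : ℕ) : ℝ) = |(k : ℝ)| := by rw [Nat.cast_natAbs, Int.cast_abs]
    rw [h]
    rcases abs_choice (k : ℝ) with h1 | h1
    · rw [h1, mul_comm]
    · rw [h1, neg_mul, Real.cos_neg, mul_comm]
  rw [h0, ka1_cos_eq, ka1_cos_eq t]
  have h1 := ka1_sin_nat (t / 2) k.natAbs
  have h2 : (k.natAbs : ℝ) * t / 2 = k.natAbs * (t / 2) := by ring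
  rw [h2]
  have h3 : Real.sin (k.natAbs * (t / 2)) ^ 2 ≤ (k.natAbs * |Real.sin (t / 2)|) ^ 2 := by
    rw [← sq_abs]
    gcongr
  rw [mul_pow, sq_abs] at h3
  linarith

private theorem ka1_cos_add (a b : ℝ) :
    1 - Real.cos (a + b) ≤ 2 * (1 - Real.cos a) + 2 * (1 - Real.cos b) := by
  rw [ka1_cos_eq, ka1_cos_eq a, ka1_cos_eq b]
  have h1 : (a + b) / 2 = a / 2 + b / 2 := by ring
  rw [h1, Real.sin_add]
  have h2 : (Real.sin (a / 2) * Real.cos (b / 2) + Real.cos (a / 2) * Real.sin (b / 2)) ^ 2 ≤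
      2 * (Real.sin (a / 2) * Real.cos (b / 2)) ^ 2 +
        2 * (Real.cos (a / 2) * Real.sin (b / 2)) ^ 2 := by
    nlinarith [sq_nonneg (Real.sin (a / 2) * Real.cos (b / 2) -
      Real.cos (a / 2) * Real.sin (b / 2))]
  have h3 : (Real.sin (a / 2) * Real.cos (b / 2)) ^ 2 ≤ Real.sin (a / 2) ^ 2 := by
    rw [mul_pow]
    exact mul_le_of_le_one_right (sq_nonneg _) (Real.cos_sq_le_one _)
  have h4 : (Real.cos (a / 2) * Real.sin (b / 2)) ^ 2 ≤ Real.sin (b / 2) ^ 2 := by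
    rw [mul_pow]
    exact mul_le_of_le_one_left (sq_nonneg _) (Real.cos_sq_le_one _)
  linarith

/-- `1 - cos (k t) ≤ k² (1 - cos t)` and `1 - cos (a + b) ≤ 2 (1 - cos a) + 2 (1 - cos b)`. -/
theorem one_sub_cos_dot_le (θ : ℝ × ℝ) (x : ℤ × ℤ) :
    1 - Real.cos (dot θ x) ≤ 2 * (nrm x : ℝ) ^ 2 * NN θ := by
  have h1 := ka1_cos_add (θ.1 * x.1) (θ.2 * x.2)
  have h2 := ka1_cos_int θ.1 x.1
  have h3 := ka1_cos_int θ.2 x.2
  have h4 : 0 ≤ 1 - Real.cos θ.1 := by linarith [Real.cos_le_one θ.1]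
  have h5 : 0 ≤ 1 - Real.cos θ.2 := by linarith [Real.cos_le_one θ.2]
  have h6 : (x.1.natAbs : ℝ) ^ 2 ≤ (nrm x : ℝ) ^ 2 := by
    unfold nrm
    gcongr
    omega
  have h7 : (x.2.natAbs : ℝ) ^ 2 ≤ (nrm x : ℝ) ^ 2 := by
    unfold nrm
    gcongr
    omega
  have h8 := mul_le_mul_of_nonneg_right h6 h4
  have h9 := mul_le_mul_of_nonneg_right h7 h5
  have h10 : 2 * (nrm x : ℝ) ^ 2 * NN θ =
      2 * ((nrm x : ℝ) ^ 2 * (1 - Real.cos θ.1)) + 2 * ((nrm x : ℝ) ^ 2 * (1 - Real.cos θ.2)) := by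
    unfold NN
    ring
  rw [h10]
  unfold dot
  linarith

private theorem ka1_sq_le (x : ℤ × ℤ) : (x.1 : ℝ) ^ 2 + (x.2 : ℝ) ^ 2 ≤ (nrm x : ℝ) ^ 2 := by
  unfold nrm
  have h1 : ((x.1.natAbs : ℕ) : ℝ) = |(x.1 : ℝ)| := by
    rw [Nat.cast_natAbs, Int.cast_abs]
  have h2 : ((x.2.natAbs : ℕ) : ℝ) = |(x.2 : ℝ)| := by
    rw [Nat.cast_natAbs, Int.cast_abs]
  push_cast
  rw [← sq_abs (x.1 : ℝ), ← sq_abs (x.2 : ℝ)]
  nlinarith [mul_nonneg (abs_nonneg (x.1 : ℝ)) (abs_nonneg (x.2 : ℝ))]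

theorem dot_sq_le (θ : ℝ × ℝ) (x : ℤ × ℤ) : dot θ x ^ 2 ≤ (θ.1 ^ 2 + θ.2 ^ 2) * (nrm x : ℝ) ^ 2 := by
  have h1 : dot θ x ^ 2 ≤ (θ.1 ^ 2 + θ.2 ^ 2) * ((x.1 : ℝ) ^ 2 + (x.2 : ℝ) ^ 2) := by
    unfold dot
    nlinarith [sq_nonneg (θ.1 * x.2 - θ.2 * x.1)]
  exact h1.trans (mul_le_mul_of_nonneg_left (ka1_sq_le x) (by positivity))

theorem one_le_om (x : ℤ × ℤ) : 1 ≤ om x := one_le_pow₀ (by norm_num)

theorem om_add_le (x w : ℤ × ℤ) : om (x + w) ≤ om x * om w := by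
  unfold om
  rw [← pow_add]
  refine pow_le_pow_right₀ (by norm_num) ?_
  unfold nrm
  have h1 := Int.natAbs_add_le x.1 w.1
  have h2 := Int.natAbs_add_le x.2 w.2
  simp only [Prod.fst_add, Prod.snd_add]
  omega

theorem om_neg (x : ℤ × ℤ) : om (-x) = om x := by
  unfold om nrm
  simp only [Prod.fst_neg, Prod.snd_neg, Int.natAbs_neg]

private theorem ka1_sq (n : ℕ) : (n + 1) ^ 2 ≤ 4 ^ n := by
  induction n with
  | zero => norm_num
  | succ n ih =>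
    rw [pow_succ 4 n]
    have h1 : (n + 1 + 1) ^ 2 ≤ 4 * (n + 1) ^ 2 := by
      have h2 : (n + 1 + 1) ^ 2 ≤ (2 * (n + 1)) ^ 2 := Nat.pow_le_pow_left (by omega) 2
      rwa [mul_pow] at h2
    omega

private theorem ka1_four (n : ℕ) : n ^ 4 ≤ 16 * 4 ^ n := by
  rcases Nat.lt_or_ge n 4 with h | h
  · interval_cases n <;> norm_num
  · induction n, h using Nat.le_induction with
    | base => norm_num
    | succ n hn ih =>
      have h1 : (n + 1) ^ 4 ≤ 4 * n ^ 4 := by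
        have h2 : 4 * (n + 1) ≤ 5 * n := by omega
        have h3 := Nat.pow_le_pow_left h2 4
        rw [mul_pow, mul_pow] at h3
        norm_num at h3
        nlinarith [Nat.zero_le (n ^ 4)]
      rw [pow_succ 4 n]
      linarith

theorem nrm_sq_le_om (x : ℤ × ℤ) : (nrm x : ℝ) ^ 2 ≤ om x := by
  unfold om
  have h1 : nrm x ^ 2 ≤ 4 ^ nrm x := (Nat.pow_le_pow_left (Nat.le_succ _) 2).trans (ka1_sq _)
  exact_mod_cast h1

private theorem ka1_pos {x : ℤ × ℤ} (hx : x ≠ 0) : 0 < nrm x := by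
  unfold nrm
  by_contra h
  apply hx
  have h1 : x.1 = 0 := by omega
  have h2 : x.2 = 0 := by omega
  exact Prod.ext h1 h2

theorem nrm_sq_le_om' {x : ℤ × ℤ} (hx : x ≠ 0) : (nrm x : ℝ) ^ 2 ≤ om x / 4 := by
  unfold om
  obtain ⟨n, hn⟩ := Nat.exists_eq_succ_of_ne_zero (ka1_pos hx).ne'
  rw [hn]
  have h1 := ka1_sq n
  have h2 : ((n + 1 : ℕ) : ℝ) ^ 2 ≤ 4 ^ n := by exact_mod_cast h1
  rw [Nat.succ_eq_add_one, pow_succ 4 n]
  linarith

theorem nrm_four_le_om (x : ℤ × ℤ) : (nrm x : ℝ) ^ 4 ≤ 16 * om x := by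
  unfold om
  have h1 := ka1_four (nrm x)
  exact_mod_cast h1

theorem four_le_om {x : ℤ × ℤ} (hx : x ≠ 0) : 4 ≤ om x := by
  unfold om
  calc (4 : ℝ) = 4 ^ 1 := by norm_num
    _ ≤ 4 ^ nrm x := pow_le_pow_right₀ (by norm_num) (ka1_pos hx)

variable {s : ℂ} {n : ℕ}

private theorem ka1_exp_one : Real.exp (1 / 100) ≤ 1.011 := by
  have h := Real.exp_bound_div_one_sub_of_interval (x := 1 / 100) (by norm_num) (by norm_num)
  refine h.trans ?_
  norm_num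

private theorem ka1_exp_nat (n : ℕ) : Real.exp (n / 100) ≤ 1.011 ^ n := by
  have h1 : (n : ℝ) / 100 = n * (1 / 100) := by ring
  rw [h1, Real.exp_nat_mul]
  exact pow_le_pow_left₀ (Real.exp_pos _).le ka1_exp_one n

private theorem ka1_exp_le (n : ℕ) : Real.exp (n / 100) ≤ 2 ^ n :=
  (ka1_exp_nat n).trans (pow_le_pow_left₀ (by norm_num) (by norm_num) n)

private theorem ka1_lin (n : ℕ) : (n : ℝ) ≤ 1.9 ^ n := by
  induction n with
  | zero => norm_num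
  | succ n ih =>
    rcases Nat.eq_zero_or_pos n with rfl | h
    · norm_num
    · rw [pow_succ]
      have h1 : (1 : ℝ) ≤ n := by exact_mod_cast h
      rcases Nat.lt_or_ge n 2 with h2 | h2
      · have : n = 1 := by omega
        subst this
        norm_num
      · have h3 : (2 : ℝ) ≤ n := by exact_mod_cast h2
        push_cast
        nlinarith

private theorem ka1_quad (n : ℕ) (hn : 6 ≤ n) : (n : ℝ) ^ 2 ≤ 1.9 ^ n := by
  induction n, hn using Nat.le_induction with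
  | base => norm_num
  | succ n hn ih =>
    have h1 : (6 : ℝ) ≤ n := by exact_mod_cast hn
    rw [pow_succ (1.9 : ℝ) n]
    push_cast
    nlinarith

private theorem ka1_combine {a : ℝ} (n : ℕ) (h : a ≤ 1.9 ^ n) :
    a * Real.exp (n / 100) ≤ 2 ^ n := by
  calc a * Real.exp (n / 100) ≤ 1.9 ^ n * 1.011 ^ n :=
        mul_le_mul h (ka1_exp_nat n) (Real.exp_pos _).le (by positivity)
    _ = (1.9 * 1.011) ^ n := (mul_pow _ _ _).symm
    _ ≤ 2 ^ n := pow_le_pow_left₀ (by norm_num) (by norm_num) n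

private theorem ka1_sq34 (n : ℕ) : 3 / 4 * (n : ℝ) ^ 2 ≤ 2 ^ n := by
  rcases Nat.lt_or_ge n 4 with h | h
  · interval_cases n <;> norm_num
  · induction n, h using Nat.le_induction with
    | base => norm_num
    | succ n hn ih =>
      have h1 : (4 : ℝ) ≤ n := by exact_mod_cast hn
      rw [pow_succ (2 : ℝ) n]
      push_cast
      nlinarith

theorem exp_bd' (hs : -(1 / 100) ≤ s.re) : ‖exp (-n * s)‖ ≤ 2 ^ n := by
  rw [Complex.norm_exp]
  refine le_trans (Real.exp_le_exp.2 ?_) (ka1_exp_le n)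
  have h1 : (-(n : ℂ) * s).re = -(n * s.re) := by
    rw [neg_mul, Complex.neg_re, ← Complex.ofReal_natCast, Complex.re_ofReal_mul]
  rw [h1]
  have h2 : (0 : ℝ) ≤ n := Nat.cast_nonneg n
  nlinarith

theorem exp_bd (hs : ‖s‖ ≤ 1 / 100) : ‖exp (-n * s)‖ ≤ 2 ^ n := by
  refine exp_bd' ?_
  have h1 := Complex.abs_re_le_norm s
  have h2 := neg_abs_le s.re
  linarith

theorem exp_le_one (hs : 0 ≤ s.re) : ‖exp (-n * s)‖ ≤ 1 := by
  rw [Complex.norm_exp]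
  have h1 : (-(n : ℂ) * s).re = -(n * s.re) := by
    rw [neg_mul, Complex.neg_re, ← Complex.ofReal_natCast, Complex.re_ofReal_mul]
  rw [h1, Real.exp_le_one_iff]
  have h2 : (0 : ℝ) ≤ n := Nat.cast_nonneg n
  nlinarith

private theorem ka1_norm (s : ℂ) (n : ℕ) : ‖-(n : ℂ) * s‖ = n * ‖s‖ := by
  rw [norm_mul, norm_neg, Complex.norm_natCast]

theorem exp_lip (hs : ‖s‖ ≤ 1 / 100) : ‖exp (-n * s) - 1‖ ≤ 2 ^ n * ‖s‖ := by
  have h1 := Complex.norm_exp_sub_sum_le_norm_mul_exp (-(n : ℂ) * s) 1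
  rw [Finset.sum_range_one, pow_zero, Nat.factorial_zero, Nat.cast_one, div_one, pow_one,
    ka1_norm] at h1
  have h2 : (n : ℝ) * ‖s‖ ≤ n / 100 := by
    have : (0 : ℝ) ≤ n := Nat.cast_nonneg n
    nlinarith
  have h3 : Real.exp (n * ‖s‖) ≤ Real.exp (n / 100) := Real.exp_le_exp.2 h2
  have h4 := ka1_combine n (ka1_lin n)
  have h5 : (0 : ℝ) ≤ n * ‖s‖ := by positivity
  calc ‖exp (-n * s) - 1‖ ≤ n * ‖s‖ * Real.exp (n * ‖s‖) := h1
    _ ≤ n * ‖s‖ * Real.exp (n / 100) := mul_le_mul_of_nonneg_left h3 h5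
    _ = (n * Real.exp (n / 100)) * ‖s‖ := by ring
    _ ≤ 2 ^ n * ‖s‖ := mul_le_mul_of_nonneg_right h4 (norm_nonneg _)

theorem exp_quad (hs : ‖s‖ ≤ 1 / 100) : ‖exp (-n * s) - 1 + n * s‖ ≤ 2 ^ n * ‖s‖ ^ 2 := by
  have h0 : exp (-n * s) - 1 + n * s =
      exp (-(n : ℂ) * s) - ∑ m ∈ Finset.range 2, (-(n : ℂ) * s) ^ m / m.factorial := by
    rw [Finset.sum_range_succ, Finset.sum_range_one]
    simp only [pow_zero, Nat.factorial_zero, Nat.cast_one, div_one, pow_one, Nat.factorial_one]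
    ring
  have h2 : (n : ℝ) * ‖s‖ ≤ n / 100 := by
    have : (0 : ℝ) ≤ n := Nat.cast_nonneg n
    nlinarith
  rw [h0]
  rcases Nat.lt_or_ge n 101 with h | h
  · have h3 : ‖-(n : ℂ) * s‖ ≤ 1 := by
      rw [ka1_norm]
      have h4 : (n : ℝ) ≤ 100 := by exact_mod_cast Nat.lt_succ_iff.1 h
      linarith
    have h4 := Complex.exp_bound h3 (n := 2) (by norm_num)
    rw [ka1_norm] at h4
    refine h4.trans ?_
    have h5 := mul_le_mul_of_nonneg_right (ka1_sq34 n) (sq_nonneg ‖s‖)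
    refine le_trans (le_of_eq ?_) h5
    simp [Nat.factorial]
    ring
  · have h4 := Complex.norm_exp_sub_sum_le_norm_mul_exp (-(n : ℂ) * s) 2
    rw [ka1_norm] at h4
    have h3 : Real.exp (n * ‖s‖) ≤ Real.exp (n / 100) := Real.exp_le_exp.2 h2
    have h5 := ka1_combine n (ka1_quad n (by omega))
    calc _ ≤ (n * ‖s‖) ^ 2 * Real.exp (n * ‖s‖) := h4
      _ ≤ (n * ‖s‖) ^ 2 * Real.exp (n / 100) := mul_le_mul_of_nonneg_left h3 (sq_nonneg _)
      _ = (n ^ 2 * Real.exp (n / 100)) * ‖s‖ ^ 2 := by ring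
      _ ≤ 2 ^ n * ‖s‖ ^ 2 := mul_le_mul_of_nonneg_right h5 (sq_nonneg _)

end Pool.Agent.KAsym
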